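import Pool.Agent.H561.Q4.V4
import Pool.Graph.R_pool_sql_team_seeded_620a6dc7.helper24_UT_.Zsx
import Pool.Graph.R_pool_sql_team_seeded_620a6dc7.helper24_UT_.II
import Pool.Graph.R_pool_sql_team_seeded_620a6dc7.helper24_UT_.TI2

set_option autoImplicit false

/-! The large sieve for sparse sets of frequencies (Halasz, Montgomery), from duality and the bounds for `∑ n^{-ik}`. -/

namespace Pool.Agent.H561.E2

open Finset
open Pool.Agent.helper24_UT
open Pool.Agent.helper24_UT.II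
open Pool.Agent.H376R2.MR (ch er DP FK)

/-- duality -/
lemma dual {ι κ : Type*} (T : Finset ι) (s s' : Finset κ) (hs : s ⊆ s') (a : κ → ℂ) (φ : ι → κ → ℂ) (Δ : ℝ) (hΔ : 0 ≤ Δ)
    (h : ∀ k ∈ T, ∑ k' ∈ T, ‖∑ n ∈ s', φ k n * (starRingEnd ℂ) (φ k' n)‖ ≤ Δ) :
    ∑ k ∈ T, ‖∑ n ∈ s, a n * φ k n‖ ^ 2 ≤ Δ * ∑ n ∈ s, ‖a n‖ ^ 2 := by
  classical
  set B : ι → ℂ := fun k => ∑ n ∈ s, a n * φ k n with hB
  set S : ℝ := ∑ k ∈ T, ‖B k‖ ^ 2 with hS
  set g : κ → ℂ := fun n => ∑ k ∈ T, (starRingEnd ℂ) (B k) * φ k n with hg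
  have hS0 : 0 ≤ S := sum_nonneg fun _ _ => by positivity
  have e1 : (S : ℂ) = ∑ n ∈ s, a n * g n := by
    rw [hS, hg]
    push_cast
    calc ∑ k ∈ T, ((‖B k‖ : ℝ) : ℂ) ^ 2 = ∑ k ∈ T, (starRingEnd ℂ) (B k) * B k := by
          apply sum_congr rfl
          intro k _
          rw [← Complex.conj_mul']
      _ = ∑ k ∈ T, ∑ n ∈ s, a n * ((starRingEnd ℂ) (B k) * φ k n) := by
          apply sum_congr rfl
          intro k _
          conv_lhs => rw [hB]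
          simp only
          rw [mul_sum]
          apply sum_congr rfl
          intro n _
          ring
      _ = _ := by
          rw [sum_comm]
          apply sum_congr rfl
          intro n _
          rw [mul_sum]
  have e2 : S ≤ ∑ n ∈ s, ‖a n‖ * ‖g n‖ := by
    have h1 : ‖(S : ℂ)‖ = S := by rw [Complex.norm_real, Real.norm_of_nonneg hS0]
    rw [← h1, e1]
    refine (norm_sum_le _ _).trans (le_of_eq ?_)
    exact sum_congr rfl fun n _ => norm_mul _ _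
  have e3 : S ^ 2 ≤ (∑ n ∈ s, ‖a n‖ ^ 2) * ∑ n ∈ s, ‖g n‖ ^ 2 :=
    (pow_le_pow_left₀ hS0 e2 2).trans (sum_mul_sq_le_sq_mul_sq _ _ _)
  have e4 : ∑ n ∈ s, ‖g n‖ ^ 2 ≤ Δ * S := by
    have h1 : ∑ n ∈ s, ‖g n‖ ^ 2 ≤ ∑ n ∈ s', ‖g n‖ ^ 2 :=
      sum_le_sum_of_subset_of_nonneg hs fun _ _ _ => by positivity
    have h2 : ((∑ n ∈ s', ‖g n‖ ^ 2 : ℝ) : ℂ) = ∑ k ∈ T, ∑ k' ∈ T, (starRingEnd ℂ) (B k) * B k' *
        ∑ n ∈ s', φ k n * (starRingEnd ℂ) (φ k' n) := by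
      push_cast
      calc ∑ n ∈ s', ((‖g n‖ : ℝ) : ℂ) ^ 2 = ∑ n ∈ s', g n * (starRingEnd ℂ) (g n) := by
            apply sum_congr rfl
            intro n _
            rw [Complex.mul_conj']
        _ = ∑ n ∈ s', ∑ k ∈ T, ∑ k' ∈ T, (starRingEnd ℂ) (B k) * B k' * (φ k n * (starRingEnd ℂ) (φ k' n)) := by
            apply sum_congr rfl
            intro n _
            simp only [hg]
            rw [map_sum, sum_mul_sum]
            apply sum_congr rfl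
            intro k _
            apply sum_congr rfl
            intro k' _
            rw [map_mul, Complex.conj_conj]
            ring
        _ = _ := by
            rw [sum_comm]
            apply sum_congr rfl
            intro k _
            rw [sum_comm]
            apply sum_congr rfl
            intro k' _
            rw [← mul_sum]
    have h3 : ∑ n ∈ s', ‖g n‖ ^ 2 ≤ ∑ k ∈ T, ∑ k' ∈ T, ‖B k‖ * ‖B k'‖ * ‖∑ n ∈ s', φ k n * (starRingEnd ℂ) (φ k' n)‖ := by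
      have h4 : 0 ≤ ∑ n ∈ s', ‖g n‖ ^ 2 := sum_nonneg fun _ _ => by positivity
      have h5 : ‖((∑ n ∈ s', ‖g n‖ ^ 2 : ℝ) : ℂ)‖ = ∑ n ∈ s', ‖g n‖ ^ 2 := by
        rw [Complex.norm_real, Real.norm_of_nonneg h4]
      rw [← h5, h2]
      refine (norm_sum_le _ _).trans (sum_le_sum fun k _ => (norm_sum_le _ _).trans (sum_le_sum fun k' _ => ?_))
      rw [norm_mul, norm_mul, RCLike.norm_conj]
    set Kf : ι → ι → ℝ := fun k k' => ‖∑ n ∈ s', φ k n * (starRingEnd ℂ) (φ k' n)‖ with hK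
    have hsymm : ∀ k k', Kf k k' = Kf k' k := by
      intro k k'
      simp only [hK]
      rw [← RCLike.norm_conj, map_sum]
      congr 1
      apply sum_congr rfl
      intro n _
      rw [map_mul, Complex.conj_conj, mul_comm]
    have hK0 : ∀ k k', 0 ≤ Kf k k' := fun _ _ => norm_nonneg _
    refine (h1.trans h3).trans ?_
    calc ∑ k ∈ T, ∑ k' ∈ T, ‖B k‖ * ‖B k'‖ * Kf k k'
        ≤ ∑ k ∈ T, ∑ k' ∈ T, (1 / 2 * (‖B k‖ ^ 2 * Kf k k') + 1 / 2 * (‖B k'‖ ^ 2 * Kf k k')) := by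
          refine sum_le_sum fun k _ => sum_le_sum fun k' _ => ?_
          have h6 : ‖B k‖ * ‖B k'‖ ≤ 1 / 2 * ‖B k‖ ^ 2 + 1 / 2 * ‖B k'‖ ^ 2 := by
            nlinarith [sq_nonneg (‖B k‖ - ‖B k'‖)]
          have h7 := mul_le_mul_of_nonneg_right h6 (hK0 k k')
          linarith
      _ = ∑ k ∈ T, ‖B k‖ ^ 2 * ∑ k' ∈ T, Kf k k' := by
          simp only [sum_add_distrib, ← mul_sum]
          have h8 : ∑ k ∈ T, ∑ k' ∈ T, ‖B k'‖ ^ 2 * Kf k k' = ∑ k ∈ T, ‖B k‖ ^ 2 * ∑ k' ∈ T, Kf k k' := by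
            rw [sum_comm]
            apply sum_congr rfl
            intro k _
            rw [mul_sum]
            apply sum_congr rfl
            intro k' _
            rw [hsymm]
          rw [h8]
          ring
      _ ≤ ∑ k ∈ T, ‖B k‖ ^ 2 * Δ := by
          refine sum_le_sum fun k hk => ?_
          exact mul_le_mul_of_nonneg_left (h k hk) (by positivity)
      _ = Δ * S := by rw [← sum_mul, mul_comm]
  have hA0 : 0 ≤ ∑ n ∈ s, ‖a n‖ ^ 2 := sum_nonneg fun _ _ => by positivity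
  rcases hS0.eq_or_lt with h0 | h0
  · change S ≤ _
    rw [← h0]
    positivity
  · have h1 : S * S ≤ (Δ * ∑ n ∈ s, ‖a n‖ ^ 2) * S := by
      calc S * S = S ^ 2 := by ring
        _ ≤ (∑ n ∈ s, ‖a n‖ ^ 2) * ∑ n ∈ s, ‖g n‖ ^ 2 := e3
        _ ≤ (∑ n ∈ s, ‖a n‖ ^ 2) * (Δ * S) := mul_le_mul_of_nonneg_left e4 hA0
        _ = _ := by ring
    exact le_of_mul_le_mul_right h1 h0

/-- the sums of `n^{-id}` over `N < n ≤ 4 N` -/
lemma kern (κ₀ : ℕ) (hκ : 1 ≤ κ₀) : ∃ (α C : ℝ), 0 < α ∧ α ≤ 1 ∧ 1 ≤ C ∧ ∀ (N : ℕ) (d : ℤ), 2 ≤ N → (N : ℝ) < |(d : ℝ)| →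
    |(d : ℝ)| ≤ (N : ℝ) ^ κ₀ → ‖∑ n ∈ Ioc N (4 * N), ch d (Real.log n)‖ ≤ C * (N : ℝ) ^ (1 - α) := by
  obtain ⟨C, c, hc, hc1, h⟩ := Pool.Agent.helper24_UT.Zsx.main
  have hk1 : (1 : ℝ) ≤ κ₀ := by exact_mod_cast hκ
  refine ⟨c / (1 + κ₀) ^ 2, 3 * Real.exp (C * (1 + κ₀) ^ C), by positivity, ?_, ?_, ?_⟩
  · rw [div_le_one (by positivity)]
    nlinarith
  · have : (1 : ℝ) ≤ Real.exp (C * (1 + κ₀) ^ C) := Real.one_le_exp (by positivity)
    linarith
  intro N d hN hNd hd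
  have hN2 : (2 : ℝ) ≤ N := by exact_mod_cast hN
  -- one dyadic block
  have hb : ∀ M : ℕ, N ≤ M → (M : ℝ) ≤ 2 * N → ‖∑ n ∈ Ioc M (2 * M), ch d (Real.log n)‖ ≤
      Real.exp (C * (1 + κ₀) ^ C) * (M : ℝ) ^ (1 - c / (1 + κ₀) ^ 2 : ℝ) := by
    intro M hM hM2
    have hMr : (N : ℝ) ≤ M := by exact_mod_cast hM
    have hM0 : (1 : ℝ) < M := by linarith
    have hM00 : (0 : ℝ) < M := by linarith
    have hlM : 0 < Real.log M := Real.log_pos hM0
    have hd0 : 0 < |(d : ℝ)| := by linarith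
    obtain ⟨κ, hκd⟩ : ∃ κ, κ = Real.log |(d : ℝ)| / Real.log M := ⟨_, rfl⟩
    have hpow : |(d : ℝ)| = (M : ℝ) ^ κ := by
      rw [hκd, Real.rpow_def_of_pos hM00, mul_div_cancel₀ _ hlM.ne', Real.exp_log hd0]
    have hκlo : 1 / 2 ≤ κ := by
      rw [hκd, le_div_iff₀ hlM]
      have h1 : Real.log M ≤ Real.log (|(d : ℝ)| ^ 2) := by
        apply Real.log_le_log hM00
        nlinarith
      rw [Real.log_pow] at h1
      push_cast at h1
      linarith
    have hκhi : κ ≤ κ₀ := by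
      rw [hκd, div_le_iff₀ hlM]
      have h1 : Real.log |(d : ℝ)| ≤ Real.log ((N : ℝ) ^ κ₀) := Real.log_le_log hd0 hd
      rw [Real.log_pow] at h1
      have h2 : Real.log N ≤ Real.log M := Real.log_le_log (by linarith) hMr
      nlinarith
    have h3 := h M (2 * M) 0 (d : ℝ) κ (by omega) (by omega) le_rfl le_rfl zero_le_one hκlo hpow
    have e1 : ∑ n ∈ Ioc M (2 * M), ch d (Real.log n) = ∑ n ∈ Ioc M (2 * M), tw (d : ℝ) ((n : ℝ) + 0) := by
      apply sum_congr rfl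
      intro n _
      rw [add_zero, ch_eq_tw]
    rw [e1]
    refine h3.trans ?_
    have h4 : Real.exp (C * (1 + κ) ^ C) ≤ Real.exp (C * (1 + κ₀) ^ C) := by
      apply Real.exp_le_exp.2
      gcongr
    have h5 : (M : ℝ) ^ (1 - c / (1 + κ) ^ 2 : ℝ) ≤ (M : ℝ) ^ (1 - c / (1 + κ₀) ^ 2 : ℝ) := by
      apply Real.rpow_le_rpow_of_exponent_le hM0.le
      have : c / (1 + κ₀) ^ 2 ≤ c / (1 + κ) ^ 2 := by gcongr
      linarith
    exact mul_le_mul h4 h5 (by positivity) (by positivity)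
  have h1 := hb N le_rfl (by linarith)
  have h2 := hb (2 * N) (by omega) (by push_cast; linarith)
  rw [show 2 * (2 * N) = 4 * N by ring] at h2
  rw [← sum_Ioc_consecutive _ (show N ≤ 2 * N by omega) (show 2 * N ≤ 4 * N by omega)]
  refine (norm_add_le _ _).trans ?_
  have h3 : ((2 * N : ℕ) : ℝ) ^ (1 - c / (1 + κ₀) ^ 2 : ℝ) ≤ 2 * (N : ℝ) ^ (1 - c / (1 + κ₀) ^ 2 : ℝ) := by
    push_cast
    rw [Real.mul_rpow (by norm_num) (by linarith)]
    apply mul_le_mul_of_nonneg_right _ (by positivity)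
    calc (2 : ℝ) ^ (1 - c / (1 + κ₀) ^ 2 : ℝ) ≤ (2 : ℝ) ^ (1 : ℝ) := by
          apply Real.rpow_le_rpow_of_exponent_le (by norm_num)
          have : 0 ≤ c / (1 + (κ₀ : ℝ)) ^ 2 := by positivity
          linarith
      _ = 2 := Real.rpow_one _
  have h4 : 0 ≤ Real.exp (C * (1 + κ₀) ^ C) := (Real.exp_pos _).le
  have h5 := mul_le_mul_of_nonneg_left h3 h4
  calc _ ≤ Real.exp (C * (1 + κ₀) ^ C) * (N : ℝ) ^ (1 - c / (1 + κ₀) ^ 2 : ℝ) +
        Real.exp (C * (1 + κ₀) ^ C) * ((2 * N : ℕ) : ℝ) ^ (1 - c / (1 + κ₀) ^ 2 : ℝ) := add_le_add h1 h2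
    _ ≤ _ := by linarith

/-- the sums of `n^{-id}` over `N < n ≤ 4 N`, small `d` -/
lemma kern1 (N : ℕ) (d : ℤ) (hN : 1 ≤ N) (hd : d ≠ 0) (hdN : |(d : ℝ)| ≤ N) :
    ‖∑ n ∈ Ioc N (4 * N), ch d (Real.log n)‖ ≤ 156 * N * (1 / |(d : ℝ)|) := by
  have hk0 : 0 < |(d : ℝ)| := abs_pos.2 (by exact_mod_cast hd)
  have h1 : ∀ M : ℕ, N ≤ M → ‖∑ n ∈ Ioc M (2 * M), ch d (Real.log n)‖ ≤ 52 * (M / |(d : ℝ)|) := by
    intro M hM
    have h2 := Pool.Agent.H561.Q4.ap1 d 1 0 M M (2 * M) le_rfl (by norm_num) (by omega) le_rfl (by omega) le_rfl hd (by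
      rw [Nat.cast_one, div_one]
      exact hdN.trans (by exact_mod_cast hM))
    rw [filter_true_of_mem (fun n _ => Nat.mod_one n)] at h2
    refine le_trans (le_of_eq ?_) h2
    congr 1
    apply sum_congr rfl
    intro n _
    exact ch_eq_tw d n
  have h2 := h1 N le_rfl
  have h3 := h1 (2 * N) (by omega)
  rw [show 2 * (2 * N) = 4 * N by ring] at h3
  rw [← sum_Ioc_consecutive _ (show N ≤ 2 * N by omega) (show 2 * N ≤ 4 * N by omega)]
  refine (norm_add_le _ _).trans ?_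
  push_cast at h3
  have e1 : 156 * (N : ℝ) * (1 / |(d : ℝ)|) = 52 * (N / |(d : ℝ)|) + 52 * (2 * N / |(d : ℝ)|) := by ring
  linarith

lemma sum_union_le {ι : Type*} [DecidableEq ι] (A B : Finset ι) {F : ι → ℝ} (hF : ∀ i, 0 ≤ F i) :
    ∑ i ∈ A ∪ B, F i ≤ ∑ i ∈ A, F i + ∑ i ∈ B, F i := by
  rw [← sum_union_inter]
  have : 0 ≤ ∑ i ∈ A ∩ B, F i := sum_nonneg fun i _ => hF i
  linarith

/-- the large sieve for sparse sets of frequencies -/
theorem hm (κ₀ : ℕ) (hκ : 1 ≤ κ₀) : ∃ (α C : ℝ), 0 < α ∧ α ≤ 1 ∧ 1 ≤ C ∧ ∀ (N : ℕ) (T : Finset ℤ), 2 ≤ N →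
    (∀ k ∈ T, |(k : ℝ)| ≤ (N : ℝ) ^ κ₀) → (T.card : ℝ) ≤ (N : ℝ) ^ α → ∀ (s : Finset ℕ) (a : ℕ → ℂ),
    s ⊆ Ioc N (4 * N) → ∑ k ∈ T, ‖DP s a k‖ ^ 2 ≤ C * N * (1 + Real.log N) * ∑ n ∈ s, ‖a n‖ ^ 2 := by
  obtain ⟨α, C, hα, hα1, hC, hk⟩ := kern (κ₀ + 1) (by omega)
  refine ⟨α, C + 627, hα, hα1, by linarith, ?_⟩
  intro N T hN hT hcard s a hs
  have hN2 : (2 : ℝ) ≤ N := by exact_mod_cast hN
  have hlog : 0 ≤ Real.log N := Real.log_nonneg (by linarith)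
  have hmain := dual T s (Ioc N (4 * N)) hs a (fun (k : ℤ) (n : ℕ) => ch k (Real.log n))
    ((C + 627) * N * (1 + Real.log N)) (by positivity) ?_
  · exact hmain
  intro k hkT
  have hker : ∀ k' : ℤ, ∑ n ∈ Ioc N (4 * N), ch k (Real.log n) * (starRingEnd ℂ) (ch k' (Real.log n)) =
      ∑ n ∈ Ioc N (4 * N), ch (k - k') (Real.log n) := by
    intro k'
    apply sum_congr rfl
    intro n _
    unfold ch
    rw [← Complex.exp_conj, ← Complex.exp_add]
    congr 1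
    simp only [map_mul, map_neg, Complex.conj_ofReal, Complex.conj_I]
    push_cast
    ring
  simp only [hker]
  classical
  -- split
  set T0 := T.filter (fun k' => k' = k) with hT0
  set T1 := T.filter (fun k' => k' ≠ k ∧ |((k - k' : ℤ) : ℝ)| ≤ N) with hT1
  set T2 := T.filter (fun k' => (N : ℝ) < |((k - k' : ℤ) : ℝ)|) with hT2
  have hcov : T ⊆ T0 ∪ (T1 ∪ T2) := by
    intro k' hk'
    rw [mem_union, mem_union, hT0, hT1, hT2, mem_filter, mem_filter, mem_filter]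
    by_cases h1 : k' = k
    · exact Or.inl ⟨hk', h1⟩
    · rcases le_or_gt |((k - k' : ℤ) : ℝ)| N with h2 | h2
      · exact Or.inr (Or.inl ⟨hk', h1, h2⟩)
      · exact Or.inr (Or.inr ⟨hk', h2⟩)
  set F : ℤ → ℝ := fun k' => ‖∑ n ∈ Ioc N (4 * N), ch (k - k') (Real.log n)‖ with hF
  have hF0 : ∀ k', 0 ≤ F k' := fun _ => norm_nonneg _
  have hb0 : ∑ k' ∈ T0, F k' ≤ 3 * N := by
    have h1 : ∀ k' ∈ T0, F k' ≤ 3 * N := by
      intro k' hk'
      simp only [hF]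
      refine (norm_sum_le _ _).trans ?_
      have h0 : ∀ n ∈ Ioc N (4 * N), ‖ch (k - k') (Real.log (n : ℝ))‖ = 1 := fun n _ => ch_norm _ _
      rw [sum_congr rfl h0, sum_const, Nat.card_Ioc, nsmul_eq_mul, mul_one]
      have : ((4 * N - N : ℕ) : ℝ) = 3 * N := by
        rw [show 4 * N - N = 3 * N by omega]
        push_cast
        ring
      exact this.le
    have h2 : T0.card ≤ 1 := by
      rw [hT0]
      apply card_le_one.2
      intro x hx y hy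
      rw [mem_filter] at hx hy
      rw [hx.2, hy.2]
    refine (sum_le_card_nsmul _ _ _ h1).trans ?_
    rw [nsmul_eq_mul]
    have : (T0.card : ℝ) ≤ 1 := by exact_mod_cast h2
    nlinarith
  have hb1 : ∑ k' ∈ T1, F k' ≤ 624 * N * (1 + Real.log N) := by
    have h1 : ∀ k' ∈ T1, F k' ≤ 156 * N * (1 / ((k - k').natAbs : ℝ)) := by
      intro k' hk'
      rw [hT1, mem_filter] at hk'
      have h2 := kern1 N (k - k') (by omega) (sub_ne_zero.2 (Ne.symm hk'.2.1)) hk'.2.2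
      refine h2.trans (le_of_eq ?_)
      rw [Nat.cast_natAbs, Int.cast_abs]
    refine (sum_le_sum h1).trans ?_
    rw [← mul_sum]
    have h2 : ∑ k' ∈ T1, 1 / ((k - k').natAbs : ℝ) = ∑ j ∈ T1.image (fun k' => k - k'), 1 / ((j.natAbs : ℕ) : ℝ) := by
      rw [sum_image]
      intro x _ y _ hxy
      simp only at hxy
      omega
    have h3 := Pool.Agent.helper24_UT.TI2.sum_freq (N + 1) (T1.image (fun k' => k - k')) (by
      intro j hj
      rw [mem_image] at hj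
      obtain ⟨k', hk', rfl⟩ := hj
      rw [hT1, mem_filter] at hk'
      have h4 : |k - k'| ≤ (N : ℤ) := by exact_mod_cast hk'.2.2
      unfold FK
      rw [Finset.mem_Ioo]
      rw [abs_le] at h4
      push_cast
      omega) (by
      intro j hj
      rw [mem_image] at hj
      obtain ⟨k', hk', rfl⟩ := hj
      rw [hT1, mem_filter] at hk'
      exact sub_ne_zero.2 (Ne.symm hk'.2.1)) (fun m => 1 / (m : ℝ)) (fun m => by positivity)
    have h5 := harmonic_le_one_add_log (N + 1)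
    rw [harmonic_eq_sum_Icc] at h5
    push_cast at h5
    have h6 : ∑ m ∈ Icc 1 (N + 1), 1 / (m : ℝ) ≤ 2 * (1 + Real.log N) := by
      simp only [one_div]
      refine h5.trans ?_
      have h7 : Real.log ((N : ℝ) + 1) ≤ Real.log ((N : ℝ) ^ 2) := by
        apply Real.log_le_log (by linarith)
        nlinarith
      rw [Real.log_pow] at h7
      push_cast at h7
      linarith
    rw [h2]
    calc 156 * (N : ℝ) * ∑ j ∈ T1.image (fun k' => k - k'), 1 / ((j.natAbs : ℕ) : ℝ)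
        ≤ 156 * (N : ℝ) * (2 * (2 * (1 + Real.log N))) := by
          apply mul_le_mul_of_nonneg_left _ (by positivity)
          linarith
      _ = _ := by ring
  have hb2 : ∑ k' ∈ T2, F k' ≤ C * N := by
    have h1 : ∀ k' ∈ T2, F k' ≤ C * (N : ℝ) ^ (1 - α) := by
      intro k' hk'
      rw [hT2, mem_filter] at hk'
      apply hk N (k - k') hN hk'.2
      have h2 := hT k hkT
      have h3 := hT k' hk'.1
      push_cast
      calc |(k : ℝ) - k'| ≤ |(k : ℝ)| + |(k' : ℝ)| := abs_sub _ _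
        _ ≤ (N : ℝ) ^ κ₀ + (N : ℝ) ^ κ₀ := add_le_add h2 h3
        _ = 2 * (N : ℝ) ^ κ₀ := by ring
        _ ≤ (N : ℝ) * (N : ℝ) ^ κ₀ := by gcongr
        _ = (N : ℝ) ^ (κ₀ + 1) := by ring
    refine (sum_le_card_nsmul _ _ _ h1).trans ?_
    rw [nsmul_eq_mul]
    have h2 : (T2.card : ℝ) ≤ (N : ℝ) ^ α := le_trans (by exact_mod_cast card_filter_le _ _) hcard
    calc (T2.card : ℝ) * (C * (N : ℝ) ^ (1 - α)) ≤ (N : ℝ) ^ α * (C * (N : ℝ) ^ (1 - α)) := by gcongr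
      _ = C * ((N : ℝ) ^ α * (N : ℝ) ^ (1 - α)) := by ring
      _ = C * N := by
          rw [← Real.rpow_add (by linarith)]
          norm_num
  calc ∑ k' ∈ T, F k' ≤ ∑ k' ∈ T0 ∪ (T1 ∪ T2), F k' := sum_le_sum_of_subset_of_nonneg hcov fun _ _ _ => hF0 _
    _ ≤ ∑ k' ∈ T0, F k' + (∑ k' ∈ T1, F k' + ∑ k' ∈ T2, F k') := by
        refine (sum_union_le _ _ hF0).trans ?_
        gcongr
        exact sum_union_le _ _ hF0
    _ ≤ 3 * N + (624 * N * (1 + Real.log N) + C * N) := by gcongr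
    _ ≤ (C + 627) * N * (1 + Real.log N) := by
        have h1 : 0 ≤ (C + 3) * N * Real.log N := by positivity
        nlinarith

end Pool.Agent.H561.E2
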