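import Pool.Agent.H561.Q4.T1
import Pool.Agent.H561.E2.A1

set_option autoImplicit false

/-! The energy of a bilinear sum over any set of frequencies, from the energies of the products over the cells. -/

namespace Pool.Agent.H561.E2

open Finset
open Pool.Agent.helper24_UT
open Pool.Agent.helper24_UT.II
open Pool.Agent.H376R2.MR (ch er DP FK)

/-- the coefficients of a convolution -/
lemma coefH (a b : ℕ → ℂ) (Va Vb : ℝ) (t n X : ℕ) (hn : 1 ≤ n) (hnX : n ≤ X) (hVa : 0 ≤ Va) (hVb : 0 ≤ Vb)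
    (ha : ∀ m, 1 ≤ m → m ≤ X → ‖a m‖ ≤ Va * tau m ^ t) (hb : ∀ m, 1 ≤ m → m ≤ X → ‖b m‖ ≤ Vb * tau m ^ t)
    (P : Finset (ℕ × ℕ)) (hP : ∀ p ∈ P, p.1 * p.2 = n) :
    ‖∑ p ∈ P, a p.1 * b p.2‖ ≤ Va * Vb * tau n ^ (2 * t + 1) := by
  have hn0 : n ≠ 0 := by omega
  have hsub : P ⊆ n.divisorsAntidiagonal := by
    intro p hp
    rw [Nat.mem_divisorsAntidiagonal]
    exact ⟨hP p hp, hn0⟩
  have hcard : (n.divisorsAntidiagonal.card : ℝ) = tau n := by
    unfold tau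
    rw [Finset.card_eq_sum_ones, Finset.card_eq_sum_ones, Nat.sum_divisorsAntidiagonal (f := fun _ _ => (1 : ℕ))]
  calc ‖∑ p ∈ P, a p.1 * b p.2‖ ≤ ∑ p ∈ P, ‖a p.1 * b p.2‖ := norm_sum_le _ _
    _ ≤ ∑ p ∈ n.divisorsAntidiagonal, ‖a p.1 * b p.2‖ :=
        Finset.sum_le_sum_of_subset_of_nonneg hsub fun _ _ _ => norm_nonneg _
    _ ≤ ∑ p ∈ n.divisorsAntidiagonal, Va * Vb * tau n ^ (2 * t) := by
        refine Finset.sum_le_sum fun p hp => ?_
        rw [Nat.mem_divisorsAntidiagonal] at hp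
        have h1 : p.1 ≠ 0 := by
          rintro h2
          rw [h2] at hp
          omega
        have h2 : p.2 ≠ 0 := by
          rintro h3
          rw [h3] at hp
          omega
        have h3 : p.1 ≤ n := by rw [← hp.1]; exact Nat.le_mul_of_pos_right _ (Nat.pos_of_ne_zero h2)
        have h4 : p.2 ≤ n := by rw [← hp.1]; exact Nat.le_mul_of_pos_left _ (Nat.pos_of_ne_zero h1)
        have h5 : tau p.2 ≤ tau n := tau_mono hn0 ⟨p.1, by rw [mul_comm]; exact hp.1.symm⟩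
        have h5' : tau p.1 ≤ tau n := tau_mono hn0 ⟨p.2, hp.1.symm⟩
        have h6 := tau_nonneg p.2
        have h6' := tau_nonneg p.1
        rw [norm_mul]
        calc ‖a p.1‖ * ‖b p.2‖ ≤ (Va * tau p.1 ^ t) * (Vb * tau p.2 ^ t) :=
              mul_le_mul (ha p.1 (by omega) (by omega)) (hb p.2 (by omega) (by omega)) (norm_nonneg _) (by positivity)
          _ ≤ (Va * tau n ^ t) * (Vb * tau n ^ t) := by
              have := tau_nonneg n
              gcongr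
          _ = _ := by ring
    _ = _ := by
        rw [Finset.sum_const, nsmul_eq_mul, hcard]
        ring

theorem coreZ {C : ℝ} (hC : 0 < C) (hmv : Mv C) (D ℓ E Z Va Vb : ℝ) (t Q Y q r U V K : ℕ) (hQ : Q = 2 ^ (4 * (2 * t + 1)))
    (hD : 2 ≤ D) (hK : 1 ≤ K) (hY : 1 ≤ Y) (hU : 1 ≤ U) (hq : 1 ≤ q) (hrq : r.Coprime q) (hKY : (K : ℝ) ≤ Y)
    (hl : 1 ≤ ℓ) (hlog : Real.log (9 * Y) ≤ 2 * ℓ) (hE0 : 0 < E) (hE : E ^ 2 ≤ D) (hZ0 : 0 ≤ Z)
    (hVa : 0 ≤ Va) (hVb : 0 ≤ Vb) (KK : Finset ℤ) (hKK : KK ⊆ FK K) (a b : ℕ → ℂ)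
    (ha : ∀ m, 1 ≤ m → m ≤ 9 * Y → ‖a m‖ ≤ Va * tau m ^ t) (hb : ∀ m, 1 ≤ m → m ≤ 9 * Y → ‖b m‖ ≤ Vb * tau m ^ t)
    (hZ : ∀ i s s' : ℕ, MM D U i < 3 * Y → s < q → s.Coprime q → s' < q → s'.Coprime q →
      ∑ k ∈ KK, (‖DP ((ce D U Y i).filter (fun m => m % q = s)) a k‖ *
        ‖DP ((JJ D U V Y i).filter (fun m => m % q = s')) b k‖) ^ 2 ≤ Z) :
    ∑ k ∈ KK, ‖DP ((Ioc Y (3 * Y)).filter (fun n => n % q = r % q)) (fun n => ∑ x ∈ n.divisorsAntidiagonal.filter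
      (fun x => U < x.1 ∧ V < x.2), a x.1 * b x.2) k‖ ^ 2 ≤
    2 * (270 * C * (2 * (Va * Vb)) ^ 2 * ℓ * (3 * ℓ) ^ Q * Y ^ 2 / E) +
      2 * (((⌈D * Real.log ((3 * Y : ℕ) : ℝ)⌉₊ : ℝ) * q ^ 2) ^ 2 * Z) := by
  have hD0 : 0 < D := by linarith
  have hY1 : (1 : ℝ) ≤ Y := by exact_mod_cast hY
  have hY0 : (0 : ℝ) < Y := by linarith
  -- abbreviations
  set J := range ⌈D * Real.log ((3 * Y : ℕ) : ℝ)⌉₊ ×ˢ Qs q r with hJ
  set c : ℕ → ℂ := fun n => ∑ x ∈ n.divisorsAntidiagonal.filter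
      (fun x => U < x.1 ∧ V < x.2), a x.1 * b x.2 with hc
  set c1 : ℕ → ℂ := fun n => ∑ p ∈ (T1 U V Y q r \ T2 D U V Y q r).filter (fun p => p.1 * p.2 = n),
    a p.1 * b p.2 with hc1
  set c2 : ℕ → ℂ := fun n => ∑ p ∈ (T2 D U V Y q r \ T1 U V Y q r).filter (fun p => p.1 * p.2 = n),
    a p.1 * b p.2 with hc2
  set fA : ℕ × (ℕ × ℕ) → ℤ → ℂ := fun j k => DP ((ce D U Y j.1).filter (fun m => m % q = j.2.1)) a k with hfA
  set fB : ℕ × (ℕ × ℕ) → ℤ → ℂ := fun j k => DP ((JJ D U V Y j.1).filter (fun m => m % q = j.2.2)) b k with hfB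
  have hT1 : ∀ p ∈ T1 U V Y q r, p.1 ≠ 0 ∧ p.2 ≠ 0 := by
    intro p hp
    simp only [T1, Finset.mem_filter, Finset.mem_product, Finset.mem_Ioc] at hp
    omega
  have hT2 : ∀ p ∈ T2 D U V Y q r, p.1 ≠ 0 ∧ p.2 ≠ 0 := by
    intro p hp
    simp only [T2, Finset.mem_filter, Finset.mem_product, Finset.mem_Ioc] at hp
    omega
  -- the main identity
  have hmain : ∀ k : ℤ, DP ((Ioc Y (3 * Y)).filter (fun n => n % q = r % q)) c k =
      DP (Sh D Y) (fun n => c1 n - c2 n) k + ∑ j ∈ J, fA j k * fB j k := by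
    intro k
    set F : ℕ × ℕ → ℂ := fun p => (a p.1 * ch k (Real.log p.1)) * (b p.2 * ch k (Real.log p.2)) with hF
    have h1 : DP ((Ioc Y (3 * Y)).filter (fun n => n % q = r % q)) c k = ∑ p ∈ T1 U V Y q r, F p := by
      rw [hF, collect ((Ioc Y (3 * Y)).filter (fun n => n % q = r % q)) (T1 U V Y q r) a b k hT1]
      · unfold DP
        refine Finset.sum_congr rfl fun n hn => ?_
        congr 1
        rw [hc]
        refine Finset.sum_congr ?_ fun _ _ => rfl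
        ext p
        simp only [Finset.mem_filter, Finset.mem_Ioc] at hn
        simp only [T1, Finset.mem_filter, Finset.mem_product, Finset.mem_Ioc, Nat.mem_divisorsAntidiagonal]
        constructor
        · rintro ⟨⟨h2, h3⟩, h4, h5⟩
          have h6 : p.1 ≤ n := by rw [← h2]; exact Nat.le_mul_of_pos_right _ (by omega)
          have h7 : p.2 ≤ n := by rw [← h2]; exact Nat.le_mul_of_pos_left _ (by omega)
          rw [h2]
          exact ⟨⟨⟨⟨h4, by omega⟩, h5, by omega⟩, ⟨hn.1.1, hn.1.2⟩, hn.2⟩, rfl⟩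
        · rintro ⟨⟨⟨⟨h2, h3⟩, h4, h5⟩, _, _⟩, h8⟩
          exact ⟨⟨h8, by omega⟩, h2, h4⟩
      · intro p hp
        simp only [T1, Finset.mem_filter, Finset.mem_product, Finset.mem_Ioc] at hp
        simp only [Finset.mem_filter, Finset.mem_Ioc]
        exact ⟨hp.2.1, hp.2.2⟩
    have h2 : ∑ p ∈ T2 D U V Y q r, F p = ∑ j ∈ J, fA j k * fB j k := by
      rw [hF]
      exact decomp hD0 hU hq (fun m => a m * ch k (Real.log m)) (fun l => b l * ch k (Real.log l))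
    have h3 : ∑ p ∈ T1 U V Y q r \ T2 D U V Y q r, F p = DP (Sh D Y) c1 k := by
      rw [hF, collect (Sh D Y) _ a b k (fun p hp => hT1 p (Finset.mem_sdiff.mp hp).1)
        (fun p hp => sd1 hD0 hU hp)]
    have h4 : ∑ p ∈ T2 D U V Y q r \ T1 U V Y q r, F p = DP (Sh D Y) c2 k := by
      rw [hF, collect (Sh D Y) _ a b k (fun p hp => hT2 p (Finset.mem_sdiff.mp hp).1)
        (fun p hp => sd2 hD0 hU hp)]
    have h5 := Finset.sum_sdiff_sub_sum_sdiff (s₁ := T1 U V Y q r) (s₂ := T2 D U V Y q r) (f := F)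
    have h6 : DP (Sh D Y) (fun n => c1 n - c2 n) k = DP (Sh D Y) c1 k - DP (Sh D Y) c2 k := by
      unfold DP
      rw [← Finset.sum_sub_distrib]
      refine Finset.sum_congr rfl fun n _ => ?_
      ring
    rw [h1, h6, ← h2, ← h3, ← h4]
    linear_combination h5
  -- the error term
  have herr : ∑ k ∈ KK, ‖DP (Sh D Y) (fun n => c1 n - c2 n) k‖ ^ 2 ≤
      270 * C * (2 * (Va * Vb)) ^ 2 * ℓ * (3 * ℓ) ^ Q * Y ^ 2 / E := by
    refine le_trans (Finset.sum_le_sum_of_subset_of_nonneg hKK fun _ _ _ => by positivity) ?_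
    refine Pool.Agent.H561.Q4.errG hC hmv D ℓ E (2 * (Va * Vb)) (2 * t + 1) Q Y K hQ hD hK hY hKY (by positivity) hl hlog hE0 hE _ ?_
    intro n hn
    have hn1 := Finset.mem_Icc.mp (Sh_sub hD Y hn)
    refine (norm_sub_le _ _).trans ?_
    have h1 := coefH a b Va Vb t n (9 * Y) hn1.1 hn1.2 hVa hVb ha hb
      ((T1 U V Y q r \ T2 D U V Y q r).filter (fun p => p.1 * p.2 = n)) (fun p hp => (Finset.mem_filter.mp hp).2)
    have h2 := coefH a b Va Vb t n (9 * Y) hn1.1 hn1.2 hVa hVb ha hb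
      ((T2 D U V Y q r \ T1 U V Y q r).filter (fun p => p.1 * p.2 = n)) (fun p hp => (Finset.mem_filter.mp hp).2)
    have h3 : ‖c1 n‖ ≤ Va * Vb * tau n ^ (2 * t + 1) := h1
    have h4 : ‖c2 n‖ ≤ Va * Vb * tau n ^ (2 * t + 1) := h2
    linarith
  -- the products
  have hprod : ∀ j ∈ J, ∑ k ∈ KK, (‖fA j k‖ * ‖fB j k‖) ^ 2 ≤ Z := by
    intro j hj
    simp only [hJ, Finset.mem_product, Finset.mem_range, Qs, Finset.mem_filter] at hj
    obtain ⟨hj1, ⟨hj2, hj3⟩, hj4⟩ := hj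
    have hco : (j.2.1 * j.2.2).Coprime q := by
      have h1 : Nat.gcd (j.2.1 * j.2.2) q = Nat.gcd r q := by
        rw [Nat.gcd_comm, Nat.gcd_rec, hj4, ← Nat.gcd_rec, Nat.gcd_comm]
      rw [Nat.Coprime, h1]
      exact hrq
    have hco1 : j.2.1.Coprime q := Nat.Coprime.coprime_mul_right hco
    have hco2 : j.2.2.Coprime q := Nat.Coprime.coprime_mul_left hco
    rcases lt_or_ge (MM D U j.1) (3 * Y) with hM | hM
    · exact hZ j.1 j.2.1 j.2.2 hM hj2 hco1 hj3 hco2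
    · have hce : ce D U Y j.1 = ∅ := by
        unfold ce
        apply Finset.Ioc_eq_empty
        rw [not_lt]
        refine (min_le_right _ _).trans (Nat.le_floor ?_)
        push_cast
        exact hM
      refine le_trans (le_of_eq ?_) hZ0
      apply Finset.sum_eq_zero
      intro k _
      simp only [hfA, hce, Finset.filter_empty]
      unfold DP
      simp
  have hsum : ∑ k ∈ KK, ‖∑ j ∈ J, fA j k * fB j k‖ ^ 2 ≤
      (J.card : ℝ) ^ 2 * (Z) := by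
    calc ∑ k ∈ KK, ‖∑ j ∈ J, fA j k * fB j k‖ ^ 2
        ≤ ∑ k ∈ KK, (J.card : ℝ) * ∑ j ∈ J, (‖fA j k‖ * ‖fB j k‖) ^ 2 := by
          refine Finset.sum_le_sum fun k _ => ?_
          have h1 : ‖∑ j ∈ J, fA j k * fB j k‖ ≤ ∑ j ∈ J, ‖fA j k‖ * ‖fB j k‖ := by
            refine (norm_sum_le _ _).trans (le_of_eq ?_)
            refine Finset.sum_congr rfl fun j _ => norm_mul _ _
          exact (pow_le_pow_left₀ (norm_nonneg _) h1 2).trans sq_sum_le_card_mul_sum_sq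
      _ = (J.card : ℝ) * ∑ j ∈ J, ∑ k ∈ KK, (‖fA j k‖ * ‖fB j k‖) ^ 2 := by
          rw [← Finset.mul_sum, Finset.sum_comm]
      _ ≤ (J.card : ℝ) * ∑ j ∈ J, (Z) := by
          refine mul_le_mul_of_nonneg_left (Finset.sum_le_sum hprod) (Nat.cast_nonneg _)
      _ = _ := by rw [Finset.sum_const, nsmul_eq_mul]; ring
  have hcard : (J.card : ℝ) ≤ (⌈D * Real.log ((3 * Y : ℕ) : ℝ)⌉₊ : ℝ) * q ^ 2 := by
    rw [hJ, Finset.card_product, Finset.card_range, Nat.cast_mul]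
    exact mul_le_mul_of_nonneg_left (card_Qs q r) (Nat.cast_nonneg _)
  calc ∑ k ∈ KK, ‖DP ((Ioc Y (3 * Y)).filter (fun n => n % q = r % q)) c k‖ ^ 2
      ≤ ∑ k ∈ KK, (2 * ‖DP (Sh D Y) (fun n => c1 n - c2 n) k‖ ^ 2 + 2 * ‖∑ j ∈ J, fA j k * fB j k‖ ^ 2) := by
        refine Finset.sum_le_sum fun k _ => ?_
        rw [hmain k]
        have h1 := norm_add_le (DP (Sh D Y) (fun n => c1 n - c2 n) k) (∑ j ∈ J, fA j k * fB j k)
        have h2 := pow_le_pow_left₀ (norm_nonneg _) h1 2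
        nlinarith [sq_nonneg (‖DP (Sh D Y) (fun n => c1 n - c2 n) k‖ - ‖∑ j ∈ J, fA j k * fB j k‖)]
    _ = 2 * ∑ k ∈ KK, ‖DP (Sh D Y) (fun n => c1 n - c2 n) k‖ ^ 2 +
        2 * ∑ k ∈ KK, ‖∑ j ∈ J, fA j k * fB j k‖ ^ 2 := by
        rw [Finset.sum_add_distrib, Finset.mul_sum, Finset.mul_sum]
    _ ≤ _ := by
        have h1 : (J.card : ℝ) ^ 2 * (Z) ≤
            ((⌈D * Real.log ((3 * Y : ℕ) : ℝ)⌉₊ : ℝ) * q ^ 2) ^ 2 * (Z) := by
          gcongr
        linarith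

end Pool.Agent.H561.E2
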