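import Pool.Agent.H561.E2.A2
import Pool.Agent.H561.Q4.F1
import Pool.Graph.R_pool_sql_team_seeded_620a6dc7.helper24_UT_.Sil2

set_option autoImplicit false

/-! Linear sums over sparse sets of frequencies. -/

namespace Pool.Agent.H561.E2

open Finset
open Pool.Agent.helper24_UT
open Pool.Agent.helper24_UT.II
open Pool.Agent.helper24_UT.TI2
open Pool.Agent.H376R2.MR (ch er DP FK)
open Pool.Agent.H561.Q4 (abel ap1 ap3)

/-- one block -/
lemma block (g : ℝ) (k : ℤ) (q s M N1 N2 : ℕ) (hg : 64000 ≤ g) (hq : 1 ≤ q) (hqg : (q : ℝ) ≤ g) (hs : s < q)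
    (hM : g ^ 34 ≤ M) (h1 : M ≤ N1) (h12 : N1 ≤ N2) (h2 : N2 ≤ 2 * M) (hk : k ≠ 0) (hk2 : |(k : ℝ)| ≤ g ^ 42) :
    ‖∑ n ∈ (Ioc N1 N2).filter (fun n => n % q = s), tw k n‖ ≤ M * (52 / |(k : ℝ)| + 1 / g ^ 4) := by
  have hg1 : 1 ≤ g := by linarith
  have hg0 : 0 < g := by linarith
  have hk0 : 0 < |(k : ℝ)| := abs_pos.2 (by exact_mod_cast hk)
  have hq0 : (1 : ℝ) ≤ q := by exact_mod_cast hq
  have hM0 : (0 : ℝ) < M := lt_of_lt_of_le (by positivity) hM
  have hqM : q ≤ M := by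
    have : (q : ℝ) ≤ M := hqg.trans ((le_self_pow₀ hg1 (by norm_num)).trans hM)
    exact_mod_cast this
  have hp : 0 ≤ 52 / |(k : ℝ)| := by positivity
  have hp' : 0 ≤ 1 / g ^ 4 := by positivity
  rcases le_or_gt |(k : ℝ)| (M / q) with h | h
  · refine (ap1 k q s M N1 N2 hq hs hqM h1 h12 h2 hk h).trans ?_
    have e1 : 52 * ((M : ℝ) / |(k : ℝ)|) = M * (52 / |(k : ℝ)|) := by ring
    rw [e1]
    exact mul_le_mul_of_nonneg_left (by linarith) hM0.le
  · obtain ⟨r, hr⟩ : ∃ r : ℝ, r = |(k : ℝ)| ^ (1 / 3 : ℝ) := ⟨_, rfl⟩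
    have hr0 : 0 < r := by rw [hr]; positivity
    have hr3 : r ^ 3 = |(k : ℝ)| := by
      rw [hr, ← Real.rpow_natCast, ← Real.rpow_mul hk0.le]
      norm_num
    have hMq : g ^ 33 ≤ M / q := by
      rw [le_div_iff₀ (by linarith)]
      calc g ^ 33 * q ≤ g ^ 33 * g := by gcongr
        _ = g ^ 34 := by ring
        _ ≤ M := hM
    have hr1 : g ^ 11 ≤ r := by
      apply le_of_pow_le_pow_left₀ (n := 3) (by norm_num) hr0.le
      rw [hr3, ← pow_mul]
      exact hMq.trans h.le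
    have hr2 : r ≤ g ^ 14 := by
      apply le_of_pow_le_pow_left₀ (n := 3) (by norm_num) (by positivity)
      rw [hr3, ← pow_mul]
      exact hk2
    have hrN : r ≤ M / q := by
      refine hr2.trans (le_trans ?_ hMq)
      exact pow_le_pow_right₀ hg1 (by norm_num)
    have h11 : (2 : ℝ) ≤ g ^ 11 := by
      calc (2 : ℝ) ≤ g := by linarith
        _ ≤ g ^ 11 := le_self_pow₀ hg1 (by norm_num)
    have h3 := ap3 k q s M N1 N2 hq hs hqM h1 h12 h2 r (h11.trans hr1) hr3 hrN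
    have h4 : 32000 * (M * r + (M : ℝ) ^ 2 / r) ≤ (M * (1 / g ^ 4)) ^ 2 := by
      have e1 : (M : ℝ) * r ≤ M ^ 2 * (1 / g ^ 11) := by
        have : r * g ^ 11 ≤ M := by
          calc r * g ^ 11 ≤ g ^ 14 * g ^ 11 := by gcongr
            _ = g ^ 25 := by ring
            _ ≤ g ^ 34 := pow_le_pow_right₀ hg1 (by norm_num)
            _ ≤ M := hM
        rw [mul_one_div, le_div_iff₀ (by positivity)]
        nlinarith
      have e2 : (M : ℝ) ^ 2 / r ≤ M ^ 2 * (1 / g ^ 11) := by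
        rw [mul_one_div]
        gcongr
      calc 32000 * (M * r + (M : ℝ) ^ 2 / r) ≤ 32000 * (M ^ 2 * (1 / g ^ 11) + M ^ 2 * (1 / g ^ 11)) := by gcongr
        _ = (M * (1 / g ^ 4)) ^ 2 * (64000 / g ^ 3) := by
            field_simp
            ring
        _ ≤ (M * (1 / g ^ 4)) ^ 2 * 1 := by
            apply mul_le_mul_of_nonneg_left _ (by positivity)
            rw [div_le_one (by positivity)]
            calc (64000 : ℝ) ≤ g := hg
              _ ≤ g ^ 3 := le_self_pow₀ hg1 (by norm_num)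
        _ = _ := mul_one _
    have h5 := h3.trans h4
    have h6 := abs_le_of_sq_le_sq h5 (by positivity)
    rw [abs_of_nonneg (norm_nonneg _)] at h6
    refine h6.trans ?_
    exact mul_le_mul_of_nonneg_left (by linarith) hM0.le

/-- initial pieces up to `4 M` -/
lemma block4 (g : ℝ) (k : ℤ) (q s M N : ℕ) (hg : 64000 ≤ g) (hq : 1 ≤ q) (hqg : (q : ℝ) ≤ g) (hs : s < q)
    (hM : g ^ 34 ≤ M) (h1 : M ≤ N) (h2 : N ≤ 4 * M) (hk : k ≠ 0) (hk2 : |(k : ℝ)| ≤ g ^ 42) :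
    ‖∑ n ∈ (Ioc M N).filter (fun n => n % q = s), tw k n‖ ≤ 3 * M * (52 / |(k : ℝ)| + 1 / g ^ 4) := by
  have hk0 : 0 < |(k : ℝ)| := abs_pos.2 (by exact_mod_cast hk)
  have hP : 0 ≤ (M : ℝ) * (52 / |(k : ℝ)| + 1 / g ^ 4) := by positivity
  rcases le_total N (2 * M) with h | h
  · refine (block g k q s M M N hg hq hqg hs hM le_rfl h1 h hk hk2).trans ?_
    linarith
  · have e1 : (Ioc M N).filter (fun n => n % q = s) =
        (Ioc M (2 * M)).filter (fun n => n % q = s) ∪ (Ioc (2 * M) N).filter (fun n => n % q = s) := by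
      rw [← filter_union, Ioc_union_Ioc_eq_Ioc (by omega) h]
    rw [e1, sum_union]
    · refine (norm_add_le _ _).trans ?_
      have h3 := block g k q s M M (2 * M) hg hq hqg hs hM le_rfl (by omega) le_rfl hk hk2
      have h4 := block g k q s (2 * M) (2 * M) N hg hq hqg hs (by push_cast; linarith [show (0 : ℝ) ≤ M from Nat.cast_nonneg _])
        le_rfl h (by omega) hk hk2
      push_cast at h4
      have e2 : 3 * (M : ℝ) * (52 / |(k : ℝ)| + 1 / g ^ 4) = M * (52 / |(k : ℝ)| + 1 / g ^ 4) +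
        2 * M * (52 / |(k : ℝ)| + 1 / g ^ 4) := by ring
      linarith
    · rw [Finset.disjoint_left]
      intro n hn hn'
      rw [mem_filter, mem_Ioc] at hn hn'
      omega

/-- the pointwise bound -/
lemma pointT (g ℓ : ℝ) (k : ℤ) (i q r D Y : ℕ) (hg : 64000 ≤ g) (hq : 1 ≤ q) (hqg : (q : ℝ) ≤ g) (hi : i ≤ 1)
    (hYg : (Y : ℝ) = g ^ 40) (hD : (D : ℝ) ≤ g ^ 5) (hl : 1 ≤ ℓ) (hlog : Real.log (4 * Y) ≤ 2 * ℓ)
    (hk : k ≠ 0) (hk2 : |(k : ℝ)| ≤ g ^ 42) (γ : ℕ → ℂ) (hγ : ∀ b, ‖γ b‖ ≤ Real.log (b + 3)) :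
    ‖DP ((Ioc Y (3 * Y)).filter (fun n => n % q = r % q)) (fun n => ∑ b ∈ n.divisors.filter
      (fun b => b ≤ D), γ b * (((Real.log ((n / b : ℕ) : ℝ)) ^ i : ℝ) : ℂ)) k‖ ≤
      108 * ℓ ^ 3 * q * Y * (52 / |(k : ℝ)| + 1 / g ^ 4) := by
  have hg1 : 1 ≤ g := by linarith
  have hg0 : 0 < g := by linarith
  have hk0 : 0 < |(k : ℝ)| := abs_pos.2 (by exact_mod_cast hk)
  have hq0 : (1 : ℝ) ≤ q := by exact_mod_cast hq
  have hY0 : (0 : ℝ) < Y := by rw [hYg]; positivity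
  have hY1 : (64000 : ℝ) ≤ Y := by
    rw [hYg]
    exact hg.trans (le_self_pow₀ hg1 (by norm_num))
  have hlogY : 0 ≤ Real.log (4 * Y) := Real.log_nonneg (by linarith)
  set P : ℝ := 52 / |(k : ℝ)| + 1 / g ^ 4 with hP
  have hP0 : 0 ≤ P := by positivity
  rw [dp_eq]
  refine (norm_sum_le _ _).trans ?_
  have h1 : ∀ b ∈ Icc 1 D, ‖γ b * ch k (Real.log b) *
      ∑ c ∈ (Ioc (Y / b) (3 * Y / b)).filter (fun c => (b * c) % q = r % q), FF k i c‖ ≤
      (2 * ℓ) * (q * (12 * ℓ * (Y / b) * P)) := by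
    intro b hb
    rw [mem_Icc] at hb
    have hb0 : (0 : ℝ) < b := by exact_mod_cast hb.1
    have hbD : (b : ℝ) ≤ g ^ 5 := le_trans (by exact_mod_cast hb.2) hD
    rw [norm_mul, norm_mul, Pool.Agent.helper24_UT.TI2.norm_ch, mul_one]
    have hγb : ‖γ b‖ ≤ 2 * ℓ := by
      refine (hγ b).trans (le_trans ?_ hlog)
      apply Real.log_le_log (by linarith)
      have : g ^ 5 ≤ Y := by
        rw [hYg]
        exact pow_le_pow_right₀ hg1 (by norm_num)
      linarith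
    refine mul_le_mul hγb ?_ (norm_nonneg _) (by linarith)
    rw [class_split q r b (Y / b) (3 * Y / b) hq]
    refine (norm_sum_le _ _).trans ?_
    have hM : g ^ 34 ≤ ((Y / b : ℕ) : ℝ) := by
      have h2 : (Y : ℝ) / b - 1 ≤ ((Y / b : ℕ) : ℝ) := by
        have := Nat.lt_mul_div_succ Y hb.1
        have h3 : (Y : ℝ) < b * ((Y / b : ℕ) + 1) := by exact_mod_cast this
        have h4 : (Y : ℝ) / b < (Y / b : ℕ) + 1 := by
          rw [div_lt_iff₀ hb0]
          linarith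
        linarith
      refine le_trans ?_ h2
      have h3 : g ^ 35 ≤ (Y : ℝ) / b := by
        rw [le_div_iff₀ hb0, hYg]
        calc g ^ 35 * b ≤ g ^ 35 * g ^ 5 := by gcongr
          _ = g ^ 40 := by ring
      have h4 : 1 ≤ g ^ 34 := one_le_pow₀ hg1
      have h5 : g ^ 35 = g * g ^ 34 := by ring
      nlinarith
    have hM1 : 1 ≤ Y / b := by
      have : (1 : ℝ) ≤ ((Y / b : ℕ) : ℝ) := (one_le_pow₀ hg1).trans hM
      exact_mod_cast this
    have h34 : Y / b ≤ 3 * Y / b := Nat.div_le_div_right (by omega)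
    have h44 : 3 * Y / b ≤ 4 * (Y / b) := by
      have hM3 : 3 ≤ Y / b := by
        have : (3 : ℝ) ≤ ((Y / b : ℕ) : ℝ) := by
          calc (3 : ℝ) ≤ g := by linarith
            _ ≤ g ^ 34 := le_self_pow₀ hg1 (by norm_num)
            _ ≤ _ := hM
        exact_mod_cast this
      have h5 : 3 * Y / b < 3 * (Y / b) + 3 := by
        rw [Nat.div_lt_iff_lt_mul hb.1]
        have := Nat.lt_mul_div_succ Y hb.1
        nlinarith
      omega
    have hMle : ((Y / b : ℕ) : ℝ) ≤ Y / b := Nat.cast_div_le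
    have hin : ∀ s ∈ (range q).filter (fun s => (b * s) % q = r % q),
        ‖∑ c ∈ (Ioc (Y / b) (3 * Y / b)).filter (fun c => c % q = s), FF k i c‖ ≤ 12 * ℓ * (Y / b) * P := by
      intro s hs
      rw [mem_filter, mem_range] at hs
      have hpart : ∀ N, Y / b ≤ N → N ≤ 3 * Y / b →
          ‖∑ n ∈ Ioc (Y / b) N, if n % q = s then ch k (Real.log n) else 0‖ ≤ 3 * (Y / b) * P := by
        intro N hN1 hN2
        have h6 := block4 g k q s (Y / b) N hg hq hqg hs.1 hM hN1 (hN2.trans h44) hk hk2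
        rw [← sum_filter]
        have e1 : ∑ n ∈ (Ioc (Y / b) N).filter (fun n => n % q = s), ch k (Real.log n) =
            ∑ n ∈ (Ioc (Y / b) N).filter (fun n => n % q = s), tw k n := sum_congr rfl fun n _ => ch_eq_tw k n
        rw [e1]
        refine h6.trans ?_
        gcongr
      have hPP : 0 ≤ 3 * ((Y : ℝ) / b) * P := by positivity
      rcases Nat.le_one_iff_eq_zero_or_eq_one.1 hi with h0 | h0
      · have e1 : ∑ c ∈ (Ioc (Y / b) (3 * Y / b)).filter (fun c => c % q = s), FF k i c =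
            ∑ n ∈ Ioc (Y / b) (3 * Y / b), if n % q = s then ch k (Real.log n) else 0 := by
          rw [sum_filter]
          apply sum_congr rfl
          intro n _
          split_ifs
          · unfold FF
            rw [h0, pow_zero]
            norm_num
          · rfl
        rw [e1]
        refine (hpart _ h34 le_rfl).trans ?_
        nlinarith
      · have e1 : ∑ c ∈ (Ioc (Y / b) (3 * Y / b)).filter (fun c => c % q = s), FF k i c =
            ∑ n ∈ Ioc (Y / b) (3 * Y / b), ((Real.log n : ℝ) : ℂ) * (if n % q = s then ch k (Real.log n) else 0) := by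
          rw [sum_filter]
          apply sum_congr rfl
          intro n _
          split_ifs
          · unfold FF
            rw [h0, pow_one]
          · rw [mul_zero]
        rw [e1]
        have h6 := abel (fun n => Real.log n) (fun n => if n % q = s then ch k (Real.log n) else 0) (Y / b) (3 * Y / b)
          (3 * ((Y : ℝ) / b) * P) h34 (Real.log_nonneg (by exact_mod_cast hM1)) (by
            intro n hn _
            apply Real.log_le_log
            · have : 0 < n := by omega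
              exact_mod_cast this
            · push_cast
              linarith) hpart
        refine h6.trans ?_
        have h7 : Real.log ((3 * Y / b : ℕ) : ℝ) ≤ 2 * ℓ := by
          refine (Real.log_le_log (by exact_mod_cast (by omega : 0 < 3 * Y / b)) ?_).trans hlog
          have h8 : 3 * Y / b ≤ 3 * Y := Nat.div_le_self _ _
          have h9 : ((3 * Y / b : ℕ) : ℝ) ≤ ((3 * Y : ℕ) : ℝ) := by exact_mod_cast h8
          push_cast at h9
          linarith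
        calc 2 * Real.log ((3 * Y / b : ℕ) : ℝ) * (3 * ((Y : ℝ) / b) * P) ≤ 2 * (2 * ℓ) * (3 * ((Y : ℝ) / b) * P) := by gcongr
          _ = _ := by ring
    refine (sum_le_card_nsmul _ _ _ hin).trans ?_
    rw [nsmul_eq_mul]
    have hc : (((range q).filter (fun s => (b * s) % q = r % q)).card : ℝ) ≤ q := by
      have := card_filter_le (range q) (fun s => (b * s) % q = r % q)
      rw [card_range] at this
      exact_mod_cast this
    gcongr
  refine (sum_le_sum h1).trans ?_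
  have h2 : ∑ b ∈ Icc 1 D, (2 * ℓ) * (q * (12 * ℓ * ((Y : ℝ) / b) * P)) =
      24 * ℓ ^ 2 * q * Y * P * ∑ b ∈ Icc 1 D, ((b : ℝ))⁻¹ := by
    rw [mul_sum]
    apply sum_congr rfl
    intro b _
    ring
  rw [h2]
  have h3 : ∑ b ∈ Icc 1 D, ((b : ℝ))⁻¹ ≤ 3 * ℓ := by
    have h4 := harmonic_le_one_add_log D
    rw [harmonic_eq_sum_Icc] at h4
    push_cast at h4
    refine h4.trans ?_
    rcases Nat.eq_zero_or_pos D with h0 | h0
    · rw [h0]; simp; linarith
    have h5 : Real.log D ≤ 2 * ℓ := by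
      refine (Real.log_le_log (by exact_mod_cast h0) ?_).trans hlog
      have : g ^ 5 ≤ Y := by
        rw [hYg]
        exact pow_le_pow_right₀ hg1 (by norm_num)
      linarith
    linarith
  calc 24 * ℓ ^ 2 * q * Y * P * ∑ b ∈ Icc 1 D, ((b : ℝ))⁻¹ ≤ 24 * ℓ ^ 2 * q * Y * P * (3 * ℓ) := by gcongr
    _ = 72 * ℓ ^ 3 * q * Y * P := by ring
    _ ≤ 108 * ℓ ^ 3 * q * Y * P := by gcongr; norm_num

/-- the linear sums over sparse sets of frequencies -/
def S_TIT : Prop := ∀ A B : ℕ, ∃ (K₂ Y₀ : ℕ), ∀ Y : ℕ, Y₀ ≤ Y → ∀ q r : ℕ, 1 ≤ q → (q : ℝ) ≤ (Real.log Y) ^ B →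
  ∀ T : Finset ℤ, (∀ k ∈ T, (Real.log Y) ^ K₂ ≤ |(k : ℝ)| ∧ |(k : ℝ)| ≤ 4 * Y) → (T.card : ℝ) ≤ (Y : ℝ) ^ (1 / 40 : ℝ) →
  ∀ (D : ℕ) (γ : ℕ → ℂ) (i : ℕ), (D : ℝ) ≤ (Y : ℝ) ^ (1 / 8 : ℝ) → (∀ b, ‖γ b‖ ≤ Real.log (b + 3)) → i ≤ 1 →
  ∑ k ∈ T, ‖DP ((Ioc Y (3 * Y)).filter (fun n => n % q = r % q)) (fun n => ∑ b ∈ n.divisors.filter (fun b => b ≤ D),
      γ b * (((Real.log ((n / b : ℕ) : ℝ)) ^ i : ℝ) : ℂ)) k‖ ^ 2 ≤ (Y : ℝ) ^ 2 / (Real.log Y) ^ A

theorem t_TIT : S_TIT := by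
  intro A B
  obtain ⟨Y₀, hY₀⟩ := Filter.eventually_atTop.1 ((Pool.Agent.helper24_UT.Sil2.ev_pow (A + 2 * B + 10) (1 / 40) 64000 (by norm_num)).and
    (Pool.Agent.helper24_UT.Sil2.ev_log 1000000000))
  refine ⟨A + 2 * B + 9, Y₀, ?_⟩
  intro Y hY q r hq hqB T hT hcard D γ i hD hγ hi
  obtain ⟨h1, h2⟩ := hY₀ Y hY
  obtain ⟨ℓ, hℓ⟩ : ∃ ℓ, ℓ = Real.log Y := ⟨_, rfl⟩
  rw [← hℓ] at h1 h2 hqB hT ⊢
  obtain ⟨g, hgd⟩ : ∃ g, g = (Y : ℝ) ^ (1 / 40 : ℝ) := ⟨_, rfl⟩
  rw [← hgd] at h1 hcard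
  have hl0 : 0 < ℓ := by linarith
  have hl1 : 1 ≤ ℓ := by linarith
  have hY0 : (0 : ℝ) < Y := by
    by_contra h
    push Not at h
    have : (Y : ℝ) = 0 := le_antisymm h (Nat.cast_nonneg _)
    rw [this, Real.log_zero] at hℓ
    linarith
  have hg40 : (Y : ℝ) = g ^ 40 := by
    rw [hgd, ← Real.rpow_natCast, ← Real.rpow_mul hY0.le]
    norm_num
  have hg5 : (Y : ℝ) ^ (1 / 8 : ℝ) = g ^ 5 := by
    rw [hgd, ← Real.rpow_natCast, ← Real.rpow_mul hY0.le]
    norm_num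
  rw [hg5] at hD
  have hlp : ∀ m, m ≤ A + 2 * B + 10 → 64000 * ℓ ^ m ≤ g := fun m hm =>
    (mul_le_mul_of_nonneg_left (pow_le_pow_right₀ hl1 hm) (by norm_num)).trans h1
  have hg : 64000 ≤ g := by
    have := hlp 0 (by omega)
    simpa using this
  have hg1 : 1 ≤ g := by linarith
  have hqg : (q : ℝ) ≤ g := by
    refine hqB.trans (le_trans ?_ (hlp B (by omega)))
    have : 0 ≤ ℓ ^ B := by positivity
    linarith
  have hlog : Real.log (4 * Y) ≤ 2 * ℓ := by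
    rw [Real.log_mul (by norm_num) hY0.ne', ← hℓ]
    have := Real.log_le_sub_one_of_pos (show (0 : ℝ) < 4 by norm_num)
    linarith
  have hk0 : ∀ k ∈ T, 1 ≤ |(k : ℝ)| := fun k hk => (one_le_pow₀ hl1).trans (hT k hk).1
  have hkne : ∀ k ∈ T, k ≠ 0 := by
    intro k hk h
    have := hk0 k hk
    rw [h] at this
    norm_num at this
  have hk42 : ∀ k ∈ T, |(k : ℝ)| ≤ g ^ 42 := by
    intro k hk
    refine (hT k hk).2.trans ?_
    rw [hg40]
    calc 4 * g ^ 40 ≤ (g * g) * g ^ 40 := by gcongr; nlinarith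
      _ = g ^ 42 := by ring
  have hpt : ∀ k ∈ T, ‖DP ((Ioc Y (3 * Y)).filter (fun n => n % q = r % q)) (fun n => ∑ b ∈ n.divisors.filter
      (fun b => b ≤ D), γ b * (((Real.log ((n / b : ℕ) : ℝ)) ^ i : ℝ) : ℂ)) k‖ ^ 2 ≤
      (108 * ℓ ^ 3 * ℓ ^ B * Y) ^ 2 * (5408 / ℓ ^ (A + 2 * B + 9) * (1 / (k.natAbs : ℝ)) + 2 / g ^ 8) := by
    intro k hk
    have h3 := pointT g ℓ k i q r D Y hg hq hqg hi hg40 hD hl1 hlog (hkne k hk) (hk42 k hk) γ hγ
    have hkp : 0 < |(k : ℝ)| := by linarith [hk0 k hk]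
    have h4 : ‖DP ((Ioc Y (3 * Y)).filter (fun n => n % q = r % q)) (fun n => ∑ b ∈ n.divisors.filter
      (fun b => b ≤ D), γ b * (((Real.log ((n / b : ℕ) : ℝ)) ^ i : ℝ) : ℂ)) k‖ ≤
        (108 * ℓ ^ 3 * ℓ ^ B * Y) * (52 / |(k : ℝ)| + 1 / g ^ 4) := by
      refine h3.trans ?_
      gcongr
    refine (pow_le_pow_left₀ (norm_nonneg _) h4 2).trans ?_
    rw [mul_pow]
    apply mul_le_mul_of_nonneg_left _ (by positivity)
    have e1 : (52 / |(k : ℝ)| + 1 / g ^ 4) ^ 2 ≤ 2 * ((52 / |(k : ℝ)|) ^ 2 + (1 / g ^ 4) ^ 2) := add_sq_le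
    refine e1.trans ?_
    have e2 : (52 / |(k : ℝ)|) ^ 2 ≤ 2704 / ℓ ^ (A + 2 * B + 9) * (1 / (k.natAbs : ℝ)) := by
      have e3 : ((k.natAbs : ℕ) : ℝ) = |(k : ℝ)| := by rw [Nat.cast_natAbs, Int.cast_abs]
      rw [e3, div_pow, div_mul_div_comm, mul_one]
      norm_num only
      have h5 := (hT k hk).1
      apply div_le_div_of_nonneg_left (by norm_num) (by positivity)
      rw [sq]
      gcongr
    have e4 : (1 / g ^ 4) ^ 2 = 1 / g ^ 8 := by
      rw [div_pow, one_pow, ← pow_mul]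
    rw [e4]
    have e5 : 5408 / ℓ ^ (A + 2 * B + 9) * (1 / (k.natAbs : ℝ)) = 2 * (2704 / ℓ ^ (A + 2 * B + 9) * (1 / (k.natAbs : ℝ))) := by ring
    have e6 : 2 / g ^ 8 = 2 * (1 / g ^ 8) := by ring
    rw [e5, e6]
    linarith
  refine (sum_le_sum hpt).trans ?_
  rw [← mul_sum, sum_add_distrib, ← mul_sum, sum_const, nsmul_eq_mul]
  have hrec : ∑ k ∈ T, 1 / ((k.natAbs : ℕ) : ℝ) ≤ 6 * ℓ := by
    have h3 := sum_freq (4 * Y + 1) T (by
      intro k hk
      have h4 := (hT k hk).2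
      have h5 : |k| ≤ ((4 * Y : ℕ) : ℤ) := by exact_mod_cast h4
      unfold FK
      rw [Finset.mem_Ioo]
      rw [abs_le] at h5
      push_cast at h5 ⊢
      omega) hkne (fun m => 1 / (m : ℝ)) (fun m => by positivity)
    refine h3.trans ?_
    have h5 := harmonic_le_one_add_log (4 * Y + 1)
    rw [harmonic_eq_sum_Icc] at h5
    push_cast at h5
    have h6 : ∑ m ∈ Icc 1 (4 * Y + 1), 1 / (m : ℝ) ≤ 3 * ℓ := by
      simp only [one_div]
      refine h5.trans ?_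
      have hY8 : (1 : ℝ) ≤ Y := by rw [hg40]; exact one_le_pow₀ hg1
      have h7 : Real.log (4 * (Y : ℝ) + 1) ≤ Real.log (8 * Y) := Real.log_le_log (by linarith) (by linarith)
      rw [Real.log_mul (by norm_num) hY0.ne', ← hℓ] at h7
      have := Real.log_le_sub_one_of_pos (show (0 : ℝ) < 8 by norm_num)
      linarith
    linarith
  have hcg : (T.card : ℝ) * (2 / g ^ 8) ≤ 2 / g ^ 7 := by
    calc (T.card : ℝ) * (2 / g ^ 8) ≤ g * (2 / g ^ 8) := by gcongr
      _ = 2 / g ^ 7 := by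
          field_simp
  have hg7 : 2 / g ^ 7 ≤ 1 / ℓ ^ (A + 2 * B + 7) / 64000 := by
    have h3 := hlp (A + 2 * B + 7) (by omega)
    have h4 : 2 * (64000 * ℓ ^ (A + 2 * B + 7)) ≤ g ^ 7 := by
      calc 2 * (64000 * ℓ ^ (A + 2 * B + 7)) ≤ g * g := by
            apply mul_le_mul (by linarith) h3 (by positivity) (by linarith)
        _ = g ^ 2 := by ring
        _ ≤ g ^ 7 := pow_le_pow_right₀ hg1 (by norm_num)
    rw [div_div, div_le_div_iff₀ (by positivity) (by positivity)]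
    linarith
  calc (108 * ℓ ^ 3 * ℓ ^ B * Y) ^ 2 * (5408 / ℓ ^ (A + 2 * B + 9) * ∑ k ∈ T, 1 / ((k.natAbs : ℕ) : ℝ) + T.card * (2 / g ^ 8))
      ≤ (108 * ℓ ^ 3 * ℓ ^ B * Y) ^ 2 * (5408 / ℓ ^ (A + 2 * B + 9) * (6 * ℓ) + 1 / ℓ ^ (A + 2 * B + 7) / 64000) := by
        gcongr
        exact hcg.trans hg7
    _ = (Y : ℝ) ^ 2 / ℓ ^ A * (108 ^ 2 * (5408 * 6 / ℓ ^ 2 + 1 / 64000 / ℓ)) := by
        rw [show A + 2 * B + 9 = A + (B + B) + 9 by ring, show A + 2 * B + 7 = A + (B + B) + 7 by ring]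
        rw [pow_add, pow_add ℓ A (B + B), pow_add ℓ B B, pow_add ℓ (A + (B + B)) 7, pow_add ℓ A (B + B), pow_add ℓ B B]
        field_simp
    _ ≤ (Y : ℝ) ^ 2 / ℓ ^ A * 1 := by
        apply mul_le_mul_of_nonneg_left _ (by positivity)
        have h3 : 5408 * 6 / ℓ ^ 2 ≤ 1 / 1000000 := by
          rw [div_le_iff₀ (by positivity)]
          nlinarith
        have h4 : 1 / 64000 / ℓ ≤ 1 / 1000000 := by
          rw [div_div, div_le_div_iff₀ (by positivity) (by norm_num)]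
          nlinarith
        linarith
    _ = _ := mul_one _

end Pool.Agent.H561.E2
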