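import Pool.Agent.H561.E2.A3
import Pool.Graph.R_pool_sql_team_seeded_620a6dc7.helper24_UT_.Frl2

set_option autoImplicit false

/-! Bilinear sums and primes over sparse sets of frequencies. -/

namespace Pool.Agent.H561.E2

open Finset
open Pool.Agent.helper24_UT
open Pool.Agent.helper24_UT.II
open Pool.Agent.H376R2.MR (ch er DP FK)

/-- the sizes -/
lemma floor_geom {D : ℝ} (hD : 2 ≤ D) (U Y i : ℕ) (hU : 1 ≤ U) (W : ℝ) (hW : 15 ≤ W) (h3 : W < 3 * Y / MM D U i) :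
    W / 4 ≤ (⌊(Y : ℝ) / MM D U i⌋₊ : ℝ) ∧ 3 ≤ ⌊(Y : ℝ) / MM D U i⌋₊ ∧ ⌊3 * (Y : ℝ) / MM D U i⌋₊ ≤ 4 * ⌊(Y : ℝ) / MM D U i⌋₊ ∧
      (⌊(Y : ℝ) / MM D U i⌋₊ : ℝ) * MM D U i ≤ Y := by
  have hD0 : 0 < D := by linarith
  have hM1 : (1 : ℝ) ≤ MM D U i := le_trans (by exact_mod_cast hU) (MM_ge hD0 U i)
  set M := MM D U i with hM
  have hM0 : 0 < M := by linarith
  have hY : (0 : ℝ) ≤ (Y : ℝ) / M := by positivity
  have h1 := Nat.lt_floor_add_one ((Y : ℝ) / M)
  have h2 := Nat.floor_le hY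
  set N := ⌊(Y : ℝ) / M⌋₊ with hN
  have e1 : 3 * (Y : ℝ) / M = 3 * (Y / M) := by ring
  rw [e1] at h3
  have h4 : W / 3 - 1 < (N : ℝ) := by linarith
  have h5 : W / 4 ≤ (N : ℝ) := by linarith
  have h6 : (3 : ℝ) ≤ N := by
    have : (4 : ℝ) - 1 < N := by linarith
    linarith
  have h7 : 3 ≤ N := by exact_mod_cast h6
  refine ⟨h5, h7, ?_, ?_⟩
  · have h8 : (⌊3 * (Y : ℝ) / M⌋₊ : ℝ) < 3 * N + 3 := by
      have := Nat.floor_le (show 0 ≤ 3 * (Y : ℝ) / M by positivity)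
      rw [e1] at this ⊢
      linarith
    have h9 : ⌊3 * (Y : ℝ) / M⌋₊ < 3 * N + 3 := by exact_mod_cast h8
    omega
  · rwa [le_div_iff₀ hM0] at h2

/-- the number of the cells -/
lemma cells (ℓ : ℝ) (Y c : ℕ) (hl : 10 ≤ ℓ) (hℓ : ℓ = Real.log Y) :
    (⌈ℓ ^ c * Real.log ((3 * Y : ℕ) : ℝ)⌉₊ : ℝ) ≤ 3 * ℓ ^ (c + 1) := by
  have hY0 : (0 : ℝ) < Y := by
    by_contra h
    push Not at h
    have : (Y : ℝ) = 0 := le_antisymm h (Nat.cast_nonneg _)
    rw [this, Real.log_zero] at hℓ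
    linarith
  have h1 : Real.log ((3 * Y : ℕ) : ℝ) ≤ 2 * ℓ := by
    push_cast
    rw [Real.log_mul (by norm_num) hY0.ne', ← hℓ]
    have := Real.log_le_sub_one_of_pos (show (0 : ℝ) < 3 by norm_num)
    linarith
  have h2 : 0 ≤ Real.log ((3 * Y : ℕ) : ℝ) := Real.log_natCast_nonneg _
  have h3 : (1 : ℝ) ≤ ℓ ^ c := one_le_pow₀ (by linarith)
  have h4 := (Nat.ceil_lt_add_one (show 0 ≤ ℓ ^ c * Real.log ((3 * Y : ℕ) : ℝ) by positivity)).le
  refine h4.trans ?_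
  rw [pow_succ]
  nlinarith

/-- the bilinear sums of Vaughan's identity over sparse sets of frequencies -/
def S_IIT : Prop := ∃ α : ℝ, 0 < α ∧ α ≤ 1 / 40 ∧ ∀ A B : ℕ, ∃ (K₂ Y₀ : ℕ), ∀ Y : ℕ, Y₀ ≤ Y → ∀ q r : ℕ, 1 ≤ q →
  (q : ℝ) ≤ (Real.log Y) ^ B → r.Coprime q → ∀ T : Finset ℤ, T ⊆ FK Y → (∀ k ∈ T, (Real.log Y) ^ K₂ ≤ |(k : ℝ)|) →
  (T.card : ℝ) ≤ (Y : ℝ) ^ α → ∀ U V : ℕ, (Y : ℝ) ^ (1 / 24 : ℝ) ≤ U → (Y : ℝ) ^ (1 / 24 : ℝ) ≤ V →
  ∑ k ∈ T, ‖DP ((Ioc Y (3 * Y)).filter (fun n => n % q = r % q)) (fun n => ∑ x ∈ n.divisorsAntidiagonal.filter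
      (fun x => U < x.1 ∧ V < x.2), (alU U x.1 : ℂ) * (ArithmeticFunction.vonMangoldt x.2 : ℂ)) k‖ ^ 2 ≤
    (Y : ℝ) ^ 2 / (Real.log Y) ^ A

theorem t_IIT (hAL : S_AL) : S_IIT := by
  obtain ⟨C, hC, hmv⟩ := Pool.Agent.H376R2.MR.mv
  obtain ⟨α, C', hα, hα1, hC', hhm⟩ := hm 30 (by norm_num)
  refine ⟨α / 40, by positivity, by linarith, ?_⟩
  intro A B
  obtain ⟨Q, hQ⟩ : ∃ Q : ℕ, Q = 2 ^ (4 * (2 * 1 + 1)) := ⟨_, rfl⟩
  obtain ⟨c, hc⟩ : ∃ c : ℕ, c = A + 2 * Q + 4 := ⟨_, rfl⟩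
  obtain ⟨K, hK⟩ : ∃ K : ℕ, K = 2 * c + 2 * B + 4 + A := ⟨_, rfl⟩
  obtain ⟨Ka, La, hLa2, hAL⟩ := hAL 96 B K
  obtain ⟨Y₁, hY₁⟩ := Filter.eventually_atTop.1 ((Pool.Agent.helper24_UT.Sil2.ev_pow 0 (1 / 600) 100 (by norm_num)).and
    ((Pool.Agent.helper24_UT.Sil2.ev_log (max La (max (17280 * C) (31104 * C')))).and (Pool.Agent.helper24_UT.Sil2.ev_log 10)))
  refine ⟨2 * Ka, Y₁, ?_⟩
  intro Y hY q r hq hqB hrq T hTK hT hcard U V hU hV
  obtain ⟨g1, g2, g3⟩ := hY₁ Y hY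
  obtain ⟨ℓ, hℓ⟩ : ∃ ℓ, ℓ = Real.log Y := ⟨_, rfl⟩
  rw [← hℓ] at g2 g3 hqB hT ⊢
  rw [pow_zero, mul_one] at g1
  have hla : La ≤ ℓ := (le_max_left _ _).trans g2
  have hlC : 17280 * C ≤ ℓ := ((le_max_left _ _).trans (le_max_right _ _)).trans g2
  have hlC' : 31104 * C' ≤ ℓ := ((le_max_right _ _).trans (le_max_right _ _)).trans g2
  have hl0 : 0 < ℓ := by linarith
  have hl1 : 1 ≤ ℓ := by linarith
  have hY0 : (0 : ℝ) < Y := by
    by_contra h
    push Not at h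
    have : (Y : ℝ) = 0 := le_antisymm h (Nat.cast_nonneg _)
    rw [this, Real.log_zero] at hℓ
    linarith
  have hexpl : Real.exp ℓ = Y := by rw [hℓ]; exact Real.exp_log hY0
  have hY11 : (11 : ℝ) ≤ Y := by
    have := Real.add_one_le_exp ℓ
    linarith
  have hYn : 11 ≤ Y := by exact_mod_cast hY11
  have hYr1 : (1 : ℝ) ≤ Y := by linarith
  -- the end points
  have hexp : Real.exp (2 * (2 * ℓ) / (((96 : ℕ) : ℝ) + 1)) ≤ (Y : ℝ) ^ (1 / 24 : ℝ) := by
    rw [Real.rpow_def_of_pos hY0]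
    apply Real.exp_le_exp.mpr
    rw [← hℓ, mul_one_div, div_le_div_iff₀ (by positivity) (by positivity)]
    push_cast
    nlinarith
  have hexp' : Real.exp ((2 * ℓ) / (((96 : ℕ) : ℝ) + 1)) ≤ Real.exp (2 * (2 * ℓ) / (((96 : ℕ) : ℝ) + 1)) := by
    apply Real.exp_le_exp.mpr
    gcongr
    linarith
  have hN3 : ∀ N : ℕ, N ≤ 3 * Y → (N : ℝ) ≤ Real.exp (2 * ℓ) := by
    intro N hN
    have h1 : (N : ℝ) ≤ 3 * Y := by exact_mod_cast hN
    rw [two_mul, Real.exp_add, hexpl]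
    nlinarith
  have hU1 : 1 ≤ U := by
    have h1 : (0 : ℝ) < U := (Real.exp_pos _).trans_le (hexp.trans hU)
    exact_mod_cast h1
  have hlog9 : Real.log (9 * Y) ≤ 2 * ℓ := by
    rw [Real.log_mul (by norm_num) hY0.ne', ← hℓ]
    have := Real.log_le_sub_one_of_pos (show (0 : ℝ) < 9 by norm_num)
    linarith
  have hkk : ∀ k ∈ T, (2 * ℓ) ^ Ka ≤ |(k : ℝ)| ∧ |(k : ℝ)| ≤ Real.exp (((96 : ℕ) : ℝ) * (2 * ℓ)) := by
    intro k hk
    constructor
    · refine le_trans ?_ (hT k hk)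
      calc (2 * ℓ) ^ Ka ≤ (ℓ ^ 2) ^ Ka := by
            gcongr
            nlinarith
        _ = ℓ ^ (2 * Ka) := by rw [← pow_mul]
    · have h1 : |(k : ℝ)| ≤ Y := by
        have h2 := hTK hk
        unfold FK at h2
        rw [Finset.mem_Ioo] at h2
        rw [abs_le]
        constructor
        · exact_mod_cast h2.1.le
        · exact_mod_cast h2.2.le
      refine h1.trans ?_
      rw [← hexpl]
      apply Real.exp_le_exp.mpr
      push_cast
      nlinarith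
  have hqB' : (q : ℝ) ≤ (2 * ℓ) ^ B := hqB.trans (pow_le_pow_left₀ hl0.le (by linarith) B)
  have hHle : ℓ ^ K ≤ (2 * ℓ) ^ K := pow_le_pow_left₀ hl0.le (by linarith) K
  have hD2 : (2 : ℝ) ≤ ℓ ^ (2 * c) := by
    calc (2 : ℝ) ≤ ℓ := by linarith
      _ ≤ ℓ ^ (2 * c) := le_self_pow₀ (by linarith) (by omega)
  obtain ⟨Z, hZ⟩ : ∃ Z : ℝ, Z = 1728 * C' * ℓ ^ 3 * Y ^ 2 / (ℓ ^ K) ^ 2 := ⟨_, rfl⟩
  have hZ0 : 0 ≤ Z := by rw [hZ]; positivity
  have hcore := coreZ hC hmv (ℓ ^ (2 * c)) ℓ (ℓ ^ c) Z 1 (2 * ℓ) 1 Q Y q r U V Y hQ hD2 (by omega) (by omega) hU1 hq hrq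
    le_rfl hl1 hlog9 (by positivity) (by rw [← pow_mul, mul_comm]) hZ0 zero_le_one (by positivity) T hTK
    (fun m => (alU U m : ℂ)) (fun m => (ArithmeticFunction.vonMangoldt m : ℂ)) (by
      intro m _ _
      rw [one_mul, pow_one]
      exact alU_norm U m) (by
      intro m hm hmY
      rw [pow_one, Complex.norm_real, Real.norm_of_nonneg ArithmeticFunction.vonMangoldt_nonneg]
      have h1 : (ArithmeticFunction.vonMangoldt m : ℝ) ≤ 2 * ℓ := by
        refine ArithmeticFunction.vonMangoldt_le_log.trans ((Real.log_le_log (by exact_mod_cast hm) ?_).trans hlog9)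
        exact_mod_cast hmY
      have h2 : 1 ≤ tau m := one_le_tau (by omega)
      nlinarith) (by
      intro i s s' hi hs hsq hs' hsq'
      have hM1 : (1 : ℝ) ≤ MM (ℓ ^ (2 * c)) U i := le_trans (by exact_mod_cast hU1) (MM_ge (by linarith) U i)
      have hMs : MM (ℓ ^ (2 * c)) U (i + 1) = MM (ℓ ^ (2 * c)) U i * Real.exp (1 / ℓ ^ (2 * c)) := MM_succ U i
      have hMU : (U : ℝ) ≤ MM (ℓ ^ (2 * c)) U i := MM_ge (by linarith) U i
      have hMM0 : 0 ≤ MM (ℓ ^ (2 * c)) U (i + 1) := (Nat.cast_nonneg U).trans (MM_ge (by linarith) U _)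
      rcases le_or_gt (3 * (Y : ℝ) / MM (ℓ ^ (2 * c)) U i) V with hVe | hVe
      · -- nothing
        have hJ : JJ (ℓ ^ (2 * c)) U V Y i = ∅ := by
          unfold JJ
          apply Finset.Ioc_eq_empty
          rw [not_lt]
          refine (min_le_left _ _).trans (le_trans ?_ (le_max_left _ _))
          exact Nat.floor_le_of_le hVe
        refine le_trans (le_of_eq ?_) hZ0
        apply Finset.sum_eq_zero
        intro k _
        simp only [hJ, Finset.filter_empty]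
        unfold DP
        simp
      · have hV15 : (15 : ℝ) ≤ V := by
          refine le_trans ?_ hV
          calc (15 : ℝ) ≤ 100 := by norm_num
            _ ≤ (Y : ℝ) ^ (1 / 600 : ℝ) := g1
            _ ≤ (Y : ℝ) ^ (1 / 24 : ℝ) := Real.rpow_le_rpow_of_exponent_le hYr1 (by norm_num)
        obtain ⟨k1, k2, k3, k4⟩ := floor_geom hD2 U Y i hU1 V hV15 hVe
        set M := MM (ℓ ^ (2 * c)) U i with hM
        set N := ⌊(Y : ℝ) / M⌋₊ with hN
        have hM0 : 0 < M := by linarith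
        have hNr : (3 : ℝ) ≤ N := by exact_mod_cast k2
        have hNlow : (Y : ℝ) ^ (1 / 25 : ℝ) ≤ N := by
          refine le_trans ?_ k1
          rw [le_div_iff₀ (by norm_num)]
          calc (Y : ℝ) ^ (1 / 25 : ℝ) * 4 ≤ (Y : ℝ) ^ (1 / 25 : ℝ) * (Y : ℝ) ^ (1 / 600 : ℝ) := by
                gcongr
                linarith
            _ = (Y : ℝ) ^ (1 / 24 : ℝ) := by
                rw [← Real.rpow_add hY0]
                norm_num
            _ ≤ V := hV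
        have hNY : (N : ℝ) ≤ Y := by nlinarith
        have hlogN : Real.log N ≤ ℓ := by rw [hℓ]; exact Real.log_le_log (by linarith) hNY
        have hJsub : (JJ (ℓ ^ (2 * c)) U V Y i).filter (fun m => m % q = s') ⊆ Ioc N (4 * N) := by
          intro n hn
          rw [Finset.mem_filter, JJ, Finset.mem_Ioc] at hn
          rw [Finset.mem_Ioc]
          refine ⟨lt_of_le_of_lt (le_max_right _ _) hn.1.1, ?_⟩
          exact (hn.1.2.trans (min_le_left _ _)).trans k3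
        have hB := hhm N T (by omega) (by
          intro k hk
          have h2 := hTK hk
          unfold FK at h2
          rw [Finset.mem_Ioo] at h2
          have h1 : |(k : ℝ)| ≤ Y := by
            rw [abs_le]
            constructor
            · exact_mod_cast h2.1.le
            · exact_mod_cast h2.2.le
          refine h1.trans ?_
          calc (Y : ℝ) = ((Y : ℝ) ^ (1 / 25 : ℝ)) ^ 25 := by
                rw [← Real.rpow_natCast, ← Real.rpow_mul hY0.le]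
                norm_num
            _ ≤ (N : ℝ) ^ 25 := by gcongr
            _ ≤ (N : ℝ) ^ 30 := pow_le_pow_right₀ (by linarith) (by norm_num)) (by
          refine hcard.trans ?_
          calc (Y : ℝ) ^ (α / 40) ≤ (Y : ℝ) ^ ((1 / 25 : ℝ) * α) := by
                apply Real.rpow_le_rpow_of_exponent_le hYr1
                linarith
            _ = ((Y : ℝ) ^ (1 / 25 : ℝ)) ^ α := by rw [Real.rpow_mul hY0.le]
            _ ≤ (N : ℝ) ^ α := by gcongr) _ (fun m => (ArithmeticFunction.vonMangoldt m : ℂ)) hJsub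
        have hsumL : ∑ n ∈ (JJ (ℓ ^ (2 * c)) U V Y i).filter (fun m => m % q = s'),
            ‖(ArithmeticFunction.vonMangoldt n : ℂ)‖ ^ 2 ≤ 4 * N * (2 * ℓ) ^ 2 := by
          have h1 : ∀ n ∈ (JJ (ℓ ^ (2 * c)) U V Y i).filter (fun m => m % q = s'),
              ‖(ArithmeticFunction.vonMangoldt n : ℂ)‖ ^ 2 ≤ (2 * ℓ) ^ 2 := by
            intro n hn
            have h2 := hJsub hn
            rw [Finset.mem_Ioc] at h2
            have h3 : n ≤ 3 * Y := by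
              rw [Finset.mem_filter, JJ, Finset.mem_Ioc] at hn
              exact hn.1.2.trans (min_le_right _ _)
            rw [Complex.norm_real, Real.norm_of_nonneg ArithmeticFunction.vonMangoldt_nonneg]
            refine pow_le_pow_left₀ ArithmeticFunction.vonMangoldt_nonneg ?_ 2
            refine ArithmeticFunction.vonMangoldt_le_log.trans ((Real.log_le_log ?_ ?_).trans hlog9)
            · exact_mod_cast (by omega : 0 < n)
            · have : (n : ℝ) ≤ 3 * Y := by exact_mod_cast h3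
              linarith
          refine (sum_le_card_nsmul _ _ _ h1).trans ?_
          rw [nsmul_eq_mul]
          have h2 : ((((JJ (ℓ ^ (2 * c)) U V Y i).filter (fun m => m % q = s')).card : ℕ) : ℝ) ≤ 4 * N := by
            have h3 := card_le_card hJsub
            rw [Nat.card_Ioc] at h3
            have h4 : ((JJ (ℓ ^ (2 * c)) U V Y i).filter (fun m => m % q = s')).card ≤ 4 * N := by omega
            exact_mod_cast h4
          gcongr
        have hfA : ∀ k ∈ T, ‖DP ((ce (ℓ ^ (2 * c)) U Y i).filter (fun m => m % q = s)) (fun m => (alU U m : ℂ)) k‖ ≤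
            6 * M / ℓ ^ K := by
          intro k hk
          have h1 := supb (fun m => (alU U m : ℂ)) k q s U (3 * Y) (ℓ ^ K) (by positivity) (by
            intro N' hN1 hN2
            obtain ⟨h1, h2⟩ := hkk k hk
            have hUN : (U : ℝ) ≤ N' := by exact_mod_cast hN1
            have h3 := hAL (2 * ℓ) (by linarith) q s hq hqB' hsq k h1 h2 U (hexp.trans hU) N'
              ((hexp'.trans (hexp.trans hU)).trans hUN) (hN3 N' hN2)
            rw [Nat.mod_eq_of_lt hs] at h3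
            refine h3.trans ?_
            gcongr) ⌊M⌋₊ (min ⌊MM (ℓ ^ (2 * c)) U (i + 1)⌋₊ (3 * Y)) (Nat.le_floor hMU) (min_le_right _ _)
          refine h1.trans ?_
          have h4 : ((min ⌊MM (ℓ ^ (2 * c)) U (i + 1)⌋₊ (3 * Y) : ℕ) : ℝ) ≤ 3 * M := by
            have h5 : ((min ⌊MM (ℓ ^ (2 * c)) U (i + 1)⌋₊ (3 * Y) : ℕ) : ℝ) ≤ M * Real.exp (1 / ℓ ^ (2 * c)) :=
              ((Nat.cast_le.mpr (min_le_left _ _)).trans (Nat.floor_le hMM0)).trans hMs.le
            have hexp2 : Real.exp (1 / ℓ ^ (2 * c)) ≤ 2 := by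
              have h2 : 1 / ℓ ^ (2 * c) ≤ 1 / 2 := one_div_le_one_div_of_le (by norm_num) hD2
              have := exp_le_two (by positivity) h2
              linarith
            refine h5.trans ?_
            calc M * Real.exp (1 / ℓ ^ (2 * c)) ≤ M * 2 := mul_le_mul_of_nonneg_left hexp2 hM0.le
              _ ≤ 3 * M := by linarith
          have h6 : 6 * M = 2 * (3 * M) := by ring
          rw [h6]
          gcongr
        calc ∑ k ∈ T, (‖DP ((ce (ℓ ^ (2 * c)) U Y i).filter (fun m => m % q = s)) (fun m => (alU U m : ℂ)) k‖ *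
              ‖DP ((JJ (ℓ ^ (2 * c)) U V Y i).filter (fun m => m % q = s')) (fun m => (ArithmeticFunction.vonMangoldt m : ℂ)) k‖) ^ 2
            ≤ ∑ k ∈ T, (6 * M / ℓ ^ K) ^ 2 *
              ‖DP ((JJ (ℓ ^ (2 * c)) U V Y i).filter (fun m => m % q = s')) (fun m => (ArithmeticFunction.vonMangoldt m : ℂ)) k‖ ^ 2 := by
              refine sum_le_sum fun k hk => ?_
              rw [mul_pow]
              have := hfA k hk
              gcongr
          _ = (6 * M / ℓ ^ K) ^ 2 * ∑ k ∈ T,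
              ‖DP ((JJ (ℓ ^ (2 * c)) U V Y i).filter (fun m => m % q = s')) (fun m => (ArithmeticFunction.vonMangoldt m : ℂ)) k‖ ^ 2 := by
              rw [mul_sum]
          _ ≤ (6 * M / ℓ ^ K) ^ 2 * (C' * N * (1 + Real.log N) * (4 * N * (2 * ℓ) ^ 2)) := by
              apply mul_le_mul_of_nonneg_left _ (by positivity)
              refine hB.trans ?_
              have hlN : 0 ≤ Real.log N := Real.log_nonneg (by linarith)
              gcongr
          _ ≤ (6 * M / ℓ ^ K) ^ 2 * (C' * N * (3 * ℓ) * (4 * N * (2 * ℓ) ^ 2)) := by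
              gcongr
              linarith
          _ = 1728 * C' * ℓ ^ 3 * (N * M) ^ 2 / (ℓ ^ K) ^ 2 := by
              field_simp
              ring
          _ ≤ Z := by
              rw [hZ]
              gcongr)
  refine hcore.trans ?_
  have hI := cells ℓ Y (2 * c) g3 hℓ
  have hlA : 0 < ℓ ^ A := by positivity
  have t1 : 2 * (270 * C * (2 * (1 * (2 * ℓ))) ^ 2 * ℓ * (3 * ℓ) ^ Q * Y ^ 2 / ℓ ^ c) ≤ 1 / 2 * ((Y : ℝ) ^ 2 / ℓ ^ A) := by
    have h1 : (3 * ℓ) ^ Q ≤ ℓ ^ (2 * Q) := by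
      rw [pow_mul]
      apply pow_le_pow_left₀ (by positivity)
      nlinarith
    calc 2 * (270 * C * (2 * (1 * (2 * ℓ))) ^ 2 * ℓ * (3 * ℓ) ^ Q * Y ^ 2 / ℓ ^ c)
        ≤ 2 * (270 * C * (2 * (1 * (2 * ℓ))) ^ 2 * ℓ * ℓ ^ (2 * Q) * Y ^ 2 / ℓ ^ c) := by gcongr
      _ = 1 / 2 * ((Y : ℝ) ^ 2 / ℓ ^ A) * (17280 * C / ℓ) := by
          rw [hc, show A + 2 * Q + 4 = A + (2 * Q) + 4 by ring, pow_add, pow_add ℓ A (2 * Q)]
          field_simp
          ring
      _ ≤ 1 / 2 * ((Y : ℝ) ^ 2 / ℓ ^ A) * 1 := by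
          apply mul_le_mul_of_nonneg_left _ (by positivity)
          rw [div_le_one hl0]
          exact hlC
      _ = _ := mul_one _
  have t2 : 2 * (((⌈ℓ ^ (2 * c) * Real.log ((3 * Y : ℕ) : ℝ)⌉₊ : ℝ) * q ^ 2) ^ 2 * Z) ≤ 1 / 2 * ((Y : ℝ) ^ 2 / ℓ ^ A) := by
    calc 2 * (((⌈ℓ ^ (2 * c) * Real.log ((3 * Y : ℕ) : ℝ)⌉₊ : ℝ) * q ^ 2) ^ 2 * Z)
        ≤ 2 * ((3 * ℓ ^ (2 * c + 1) * (ℓ ^ B) ^ 2) ^ 2 * Z) := by gcongr
      _ = 1 / 2 * ((Y : ℝ) ^ 2 / ℓ ^ A) * (62208 * C' / (ℓ ^ 3 * ℓ ^ A)) := by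
          rw [hZ, hK, show 2 * c + 2 * B + 4 + A = c + c + (B + B) + 4 + A by ring, show 2 * c + 1 = c + c + 1 by ring]
          simp only [pow_add, pow_one]
          field_simp
          ring
      _ ≤ 1 / 2 * ((Y : ℝ) ^ 2 / ℓ ^ A) * 1 := by
          apply mul_le_mul_of_nonneg_left _ (by positivity)
          have h1 : 1 ≤ ℓ ^ A := one_le_pow₀ hl1
          rw [div_le_one (by positivity)]
          have h2 : (2 : ℝ) ≤ ℓ ^ 2 := by nlinarith
          calc 62208 * C' ≤ 2 * ℓ := by linarith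
            _ ≤ ℓ ^ 2 * ℓ := by gcongr
            _ = ℓ ^ 3 * 1 := by ring
            _ ≤ ℓ ^ 3 * ℓ ^ A := by gcongr
      _ = _ := mul_one _
  linarith

end Pool.Agent.H561.E2
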