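import Pool.Agent.H561.E2.A4
import Pool.Graph.R_seed8.H373R2.T7.LamZ2

set_option autoImplicit false

/-! Primes and the sieve model over sparse sets of frequencies. -/

namespace Pool.Agent.H561.E2

open Finset
open Pool.Agent.helper24_UT
open Pool.Agent.helper24_UT.II
open Pool.Agent.H376R2.MR (ch er DP FK)
open Pool.Agent.H373R2.T7 (Vz pz lamz mem_pz Vz_pos Vz_inv_small choice bonf_ind es es_le prod_dvd_iff prod_inj prod_le_pow sum_pz_le)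

/-- primes over sparse sets of frequencies -/
def S_FRLT : Prop := ∃ α : ℝ, 0 < α ∧ α ≤ 1 / 40 ∧ ∀ A B : ℕ, ∃ (K₂ Y₀ : ℕ), ∀ Y : ℕ, Y₀ ≤ Y → ∀ q r : ℕ, 1 ≤ q →
  (q : ℝ) ≤ (Real.log Y) ^ B → r.Coprime q → ∀ T : Finset ℤ, T ⊆ FK Y → (∀ k ∈ T, (Real.log Y) ^ K₂ ≤ |(k : ℝ)|) →
  (T.card : ℝ) ≤ (Y : ℝ) ^ α →
  ∑ k ∈ T, ‖DP ((Ioc Y (3 * Y)).filter (fun n => n % q = r % q)) (fun n => (ArithmeticFunction.vonMangoldt n : ℂ)) k‖ ^ 2 ≤
    (Y : ℝ) ^ 2 / (Real.log Y) ^ A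

open Pool.Agent.helper24_UT.Frl2 in
theorem t_FRLT (hAL : S_AL) : S_FRLT := by
  obtain ⟨α, hα, hα1, hII⟩ := t_IIT hAL
  refine ⟨α, hα, hα1, ?_⟩
  intro A B
  obtain ⟨K2, Y2, h2⟩ := hII (A + 1) B
  obtain ⟨K3, Y3, h3⟩ := t_TIT (A + 1) B
  refine ⟨max K2 K3, max (max Y2 Y3) (max (2 ^ 48) ⌈Real.exp 9⌉₊), ?_⟩
  intro Y hY q r hq hqB hr T hTK hT hcard
  have hYY2 : Y2 ≤ Y := (le_max_left _ _).trans ((le_max_left _ _).trans hY)
  have hYY3 : Y3 ≤ Y := (le_max_right _ _).trans ((le_max_left _ _).trans hY)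
  have hYe : 2 ^ 48 ≤ Y := (le_max_left _ _).trans ((le_max_right _ _).trans hY)
  have hY9 : ⌈Real.exp 9⌉₊ ≤ Y := (le_max_right _ _).trans ((le_max_right _ _).trans hY)
  have hYeR : (2 : ℝ) ^ 48 ≤ (Y : ℝ) := by exact_mod_cast hYe
  have hexp : Real.exp 9 ≤ (Y : ℝ) := Nat.ceil_le.1 hY9
  have hYpos : (0 : ℝ) < Y := (Real.exp_pos 9).trans_le hexp
  have hY1 : (1 : ℝ) ≤ Y := by
    have : (1 : ℝ) ≤ (2 : ℝ) ^ 48 := one_le_pow₀ (by norm_num)
    linarith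
  have hlog : 9 ≤ Real.log Y := (Real.le_log_iff_exp_le hYpos).2 hexp
  obtain ⟨hceil, hone⟩ := ceil_bound (Y : ℝ) hYeR
  set U : ℕ := ⌈(Y : ℝ) ^ (1 / 24 : ℝ)⌉₊ with hUdef
  have hUlow0 : (Y : ℝ) ^ (1 / 24 : ℝ) ≤ U := Nat.le_ceil _
  have hU1 : 1 ≤ U := by
    have : (1 : ℝ) ≤ U := by linarith
    exact_mod_cast this
  have hsq2 : (Y : ℝ) ^ (1 / 16 : ℝ) * (Y : ℝ) ^ (1 / 16 : ℝ) =
      (Y : ℝ) ^ (1 / 8 : ℝ) := by
    rw [← Real.rpow_add hYpos]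
    norm_num
  have hUtwo : (U : ℝ) ≤ (Y : ℝ) ^ (1 / 8 : ℝ) :=
    hceil.trans (Real.rpow_le_rpow_of_exponent_le hY1 (by norm_num))
  have hUU : ((U * U : ℕ) : ℝ) ≤ (Y : ℝ) ^ (1 / 8 : ℝ) := by
    rw [← hsq2]
    push_cast
    exact mul_le_mul hceil hceil (by positivity) (by positivity)
  have hUltY : U ≤ Y := by
    have h5 : (U : ℝ) ≤ (Y : ℝ) ^ (1 : ℝ) :=
      hUtwo.trans (Real.rpow_le_rpow_of_exponent_le hY1 (by norm_num))
    rw [Real.rpow_one] at h5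
    exact_mod_cast h5
  have hmono : ∀ (K' : ℕ), K' ≤ max K2 K3 → ∀ k ∈ T, (Real.log Y) ^ K' ≤ |(k : ℝ)| := by
    intro K' hK' k hk
    exact (pow_le_pow_right₀ (by linarith) hK').trans (hT k hk)
  have hT4 : ∀ k ∈ T, (Real.log Y) ^ K3 ≤ |(k : ℝ)| ∧ |(k : ℝ)| ≤ 4 * Y := by
    intro k hk
    refine ⟨hmono K3 (le_max_right _ _) k hk, ?_⟩
    have h2 := hTK hk
    unfold FK at h2
    rw [Finset.mem_Ioo] at h2
    have h1 : |(k : ℝ)| ≤ Y := by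
      rw [abs_le]
      constructor
      · exact_mod_cast h2.1.le
      · exact_mod_cast h2.2.le
    linarith
  have hcard' : (T.card : ℝ) ≤ (Y : ℝ) ^ (1 / 40 : ℝ) := hcard.trans (Real.rpow_le_rpow_of_exponent_le hY1 hα1)
  -- the three statements
  have b3 := h2 Y hYY2 q r hq hqB hr T hTK (hmono K2 (le_max_left _ _)) hcard U U hUlow0 hUlow0
  have b1 := h3 Y hYY3 q r hq hqB T hT4 hcard' U
    (fun b => (((ArithmeticFunction.moebius b : ℤ) : ℝ) : ℂ)) 1 hUtwo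
    (by
      intro b
      rw [Complex.norm_real, Real.norm_eq_abs]
      have h6 : |((ArithmeticFunction.moebius b : ℤ) : ℝ)| ≤ 1 := by
        rw [← Int.cast_abs]
        exact_mod_cast ArithmeticFunction.abs_moebius_le_one
      refine h6.trans ?_
      rw [Real.le_log_iff_exp_le (by positivity)]
      have := Real.exp_one_lt_d9
      have hb : (0 : ℝ) ≤ b := Nat.cast_nonneg b
      linarith) le_rfl
  have b2 := h3 Y hYY3 q r hq hqB T hT4 hcard' (U * U)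
    (fun b => (((L1 U * m1 U) b : ℝ) : ℂ)) 0 hUU
    (by
      intro b
      rw [Complex.norm_real, Real.norm_eq_abs]
      exact gamma_bound U U b) (by norm_num)
  set s : Finset ℕ := (Ioc Y (3 * Y)).filter (fun n => n % q = r % q) with hs
  set F1 : ℕ → ℂ := fun n => ∑ b ∈ n.divisors.filter (fun b => b ≤ U),
      (((ArithmeticFunction.moebius b : ℤ) : ℝ) : ℂ) *
        (((Real.log ((n / b : ℕ) : ℝ)) ^ 1 : ℝ) : ℂ) with hF1
  set F2 : ℕ → ℂ := fun n => ∑ b ∈ n.divisors.filter (fun b => b ≤ U * U),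
      (((L1 U * m1 U) b : ℝ) : ℂ) * (((Real.log ((n / b : ℕ) : ℝ)) ^ 0 : ℝ) : ℂ) with hF2
  set F3 : ℕ → ℂ := fun n => ∑ x ∈ n.divisorsAntidiagonal.filter
      (fun x => U < x.1 ∧ U < x.2), (alU U x.1 : ℂ) * (ArithmeticFunction.vonMangoldt x.2 : ℂ)
    with hF3
  have hid : ∀ n ∈ s, (ArithmeticFunction.vonMangoldt n : ℂ) = F1 n - F2 n - F3 n := by
    intro n hn
    have hn1 : Y < n := (Finset.mem_Ioc.1 (Finset.mem_filter.1 hn).1).1
    have hv := vaughan U U n hU1 (lt_of_le_of_lt hUltY hn1)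
    rw [hF1, hF2, hF3]
    simp only [pow_one, pow_zero, Complex.ofReal_one, mul_one]
    have hv2 := congrArg (fun x : ℝ => (x : ℂ)) hv
    simp only [Complex.ofReal_sub, Complex.ofReal_sum, Complex.ofReal_mul,
      Complex.ofReal_intCast] at hv2
    simp only [Complex.ofReal_intCast]
    exact hv2
  calc ∑ k ∈ T, ‖DP s (fun n => (ArithmeticFunction.vonMangoldt n : ℂ)) k‖ ^ 2
      ≤ ∑ k ∈ T, 3 * (‖DP s F1 k‖ ^ 2 + ‖DP s F2 k‖ ^ 2 + ‖DP s F3 k‖ ^ 2) :=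
        Finset.sum_le_sum fun k _ => dp_split s _ F1 F2 F3 hid k
    _ = 3 * ((∑ k ∈ T, ‖DP s F1 k‖ ^ 2) + (∑ k ∈ T, ‖DP s F2 k‖ ^ 2) + ∑ k ∈ T, ‖DP s F3 k‖ ^ 2) := by
        rw [← Finset.mul_sum, Finset.sum_add_distrib, Finset.sum_add_distrib]
    _ ≤ 9 * ((Y : ℝ) ^ 2 / (Real.log Y) ^ (A + 1)) := by linarith
    _ ≤ (Y : ℝ) ^ 2 / (Real.log Y) ^ A := by
        have hpos : (0 : ℝ) < (Real.log Y) ^ A := by positivity
        rw [pow_succ (Real.log Y) A, ← mul_div_assoc, div_le_div_iff₀ (by positivity) hpos]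
        have : 9 * (Y : ℝ) ^ 2 * (Real.log Y) ^ A ≤ Real.log Y * ((Y : ℝ) ^ 2 * (Real.log Y) ^ A) := by
          have h7 : 0 ≤ (Y : ℝ) ^ 2 * (Real.log Y) ^ A := by positivity
          nlinarith
        linarith

/-- the truncated sieve weights -/
noncomputable def gz (z r d : ℕ) : ℝ := ∑ j ∈ range r, (-1 : ℝ) ^ j * ∑ S ∈ (pz z).powersetCard j, if ∏ p ∈ S, p = d then 1 else 0

lemma gz_le (z r d : ℕ) : |gz z r d| ≤ 1 := by
  unfold gz
  have h1 : |∑ j ∈ range r, (-1 : ℝ) ^ j * ∑ S ∈ (pz z).powersetCard j, if ∏ p ∈ S, p = d then (1 : ℝ) else 0| ≤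
      ∑ j ∈ range r, ∑ S ∈ (pz z).powersetCard j, if ∏ p ∈ S, p = d then (1 : ℝ) else 0 := by
    refine (abs_sum_le_sum_abs _ _).trans (sum_le_sum fun j _ => ?_)
    rw [abs_mul, abs_pow, abs_neg, abs_one, one_pow, one_mul, abs_of_nonneg]
    exact sum_nonneg fun _ _ => by positivity
  refine h1.trans ?_
  rw [sum_sigma']
  set I := (range r).sigma (fun j => (pz z).powersetCard j) with hI
  have h2 : ∑ x ∈ I, (if ∏ p ∈ x.2, p = d then (1 : ℝ) else 0) = ((I.filter (fun x => ∏ p ∈ x.2, p = d)).card : ℝ) := by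
    rw [← sum_filter, sum_const, nsmul_eq_mul, mul_one]
  rw [h2]
  have h3 : (I.filter (fun x => ∏ p ∈ x.2, p = d)).card ≤ 1 := by
    apply card_le_one.2
    intro x hx y hy
    rw [mem_filter, hI, mem_sigma, mem_powersetCard] at hx hy
    have h4 : x.2 = y.2 := prod_inj _ _ (fun p hp => (mem_pz.1 (hx.1.2.1 hp)).2) (fun p hp => (mem_pz.1 (hy.1.2.1 hp)).2)
      (hx.2.trans hy.2.symm)
    have h5 : x.1 = y.1 := by rw [← hx.1.2.2, ← hy.1.2.2, h4]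
    exact Sigma.ext h5 (heq_of_eq h4)
  exact_mod_cast h3

/-- the truncated sieve weights as divisor sums -/
lemma gz_sum (z r D n : ℕ) (hn : n ≠ 0) (hD : (z + 1) ^ r ≤ D) :
    ∑ j ∈ range r, (-1 : ℝ) ^ j * ∑ S ∈ (pz z).powersetCard j, (if ∀ p ∈ S, p ∣ n then (1 : ℝ) else 0) =
      ∑ b ∈ n.divisors.filter (fun b => b ≤ D), gz z r b := by
  unfold gz
  rw [sum_comm]
  apply sum_congr rfl
  intro j hj
  rw [mem_range] at hj
  rw [← mul_sum, sum_comm]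
  congr 1
  apply sum_congr rfl
  intro S hS
  rw [mem_powersetCard] at hS
  have hprime : ∀ p ∈ S, p.Prime := fun p hp => (mem_pz.1 (hS.1 hp)).2
  have hle : ∏ p ∈ S, p ≤ D := by
    refine (prod_le_pow S z j hS.1 hS.2.le).trans (le_trans ?_ hD)
    exact Nat.pow_le_pow_right (by omega) hj.le
  rw [sum_ite_eq]
  simp only [prod_dvd_iff S hprime, mem_filter, Nat.mem_divisors]
  by_cases h : ∏ p ∈ S, p ∣ n
  · rw [if_pos h, if_pos ⟨⟨h, hn⟩, hle⟩]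
  · rw [if_neg h, if_neg (fun h' => h h'.1.1)]

/-- the number of the sets of `r` primes is at most the number of divisors -/
lemma Gr_le (z r n : ℕ) (hn : n ≠ 0) :
    ∑ S ∈ (pz z).powersetCard r, (if ∀ p ∈ S, p ∣ n then (1 : ℝ) else 0) ≤ tau n := by
  rw [← sum_filter, sum_const, nsmul_eq_mul, mul_one]
  unfold tau
  have h : (((pz z).powersetCard r).filter (fun S => ∀ p ∈ S, p ∣ n)).card ≤ n.divisors.card := by
    apply card_le_card_of_injOn (fun S => ∏ p ∈ S, p)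
    · intro S hS
      rw [mem_coe, mem_filter, mem_powersetCard] at hS
      have hprime : ∀ p ∈ S, p.Prime := fun p hp => (mem_pz.1 (hS.1.1 hp)).2
      rw [mem_coe, Nat.mem_divisors]
      exact ⟨(prod_dvd_iff S hprime n).1 hS.2, hn⟩
    · intro S hS S' hS' h
      rw [mem_coe, mem_filter, mem_powersetCard] at hS hS'
      exact prod_inj _ _ (fun p hp => (mem_pz.1 (hS.1.1 hp)).2) (fun p hp => (mem_pz.1 (hS'.1.1 hp)).2) h
  exact_mod_cast h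

/-- the mean square of the remainder -/
lemma Gr_sq (z r X : ℕ) (ε : ℝ) (hX : 1 ≤ X) (hε : 0 ≤ ε) (he : Real.exp (3 * (1 * (1 + Real.log z)) - r) ≤ ε ^ 2) :
    ∑ n ∈ Icc 1 X, (∑ S ∈ (pz z).powersetCard r, (if ∀ p ∈ S, p ∣ n then (1 : ℝ) else 0)) ^ 2 ≤
      X * ε * (1 + Real.log X) ^ 4 := by
  set G : ℕ → ℝ := fun n => ∑ S ∈ (pz z).powersetCard r, (if ∀ p ∈ S, p ∣ n then (1 : ℝ) else 0) with hG
  have hG0 : ∀ n, 0 ≤ G n := fun n => sum_nonneg fun _ _ => by positivity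
  have hX0 : (0 : ℝ) < X := by exact_mod_cast hX
  have hlX : 0 ≤ Real.log X := Real.log_nonneg (by exact_mod_cast hX)
  -- the first moment
  have h1 : ∑ n ∈ Icc 1 X, G n ≤ X * ε ^ 2 := by
    simp only [hG]
    rw [sum_comm]
    have h4 : ∀ S ∈ (pz z).powersetCard r, ∑ n ∈ Icc 1 X, (if ∀ p ∈ S, p ∣ n then (1 : ℝ) else 0) ≤ X * ∏ p ∈ S, (1 / (p : ℝ)) := by
      intro S hS
      have hprime : ∀ p ∈ S, p.Prime := fun p hp => (mem_pz.1 ((mem_powersetCard.1 hS).1 hp)).2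
      have h5 : ∑ n ∈ Icc 1 X, (if ∀ p ∈ S, p ∣ n then (1 : ℝ) else 0) = (((Icc 1 X).filter (fun n => ∏ p ∈ S, p ∣ n)).card : ℝ) := by
        rw [card_eq_sum_ones]
        push_cast
        rw [sum_filter]
        apply sum_congr rfl
        intro n _
        simp only [prod_dvd_iff S hprime]
      rw [h5]
      have h6 : ((Icc 1 X).filter (fun n => ∏ p ∈ S, p ∣ n)).card = X / ∏ p ∈ S, p := by
        rw [← Nat.Ioc_filter_dvd_card_eq_div X (∏ p ∈ S, p)]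
        congr 1
      rw [h6, prod_div_distrib, prod_const_one, mul_one_div]
      refine Nat.cast_div_le.trans ?_
      push_cast
      exact le_rfl
    refine (sum_le_sum h4).trans ?_
    rw [← mul_sum]
    apply mul_le_mul_of_nonneg_left _ hX0.le
    have h5 := es_le (x := fun p => 1 / (p : ℝ)) (T := pz z) (fun p _ => by positivity) r
    unfold es at h5
    refine h5.trans (le_trans ?_ he)
    apply Real.exp_le_exp.2
    have := sum_pz_le z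
    linarith
  have h2 : ∑ n ∈ Icc 1 X, G n ^ 3 ≤ X * (1 + Real.log X) ^ 8 := by
    calc ∑ n ∈ Icc 1 X, G n ^ 3 ≤ ∑ n ∈ Icc 1 X, tau n ^ 3 := by
          refine sum_le_sum fun n hn => ?_
          rw [mem_Icc] at hn
          exact pow_le_pow_left₀ (hG0 n) (Gr_le z r n (by omega)) 3
      _ ≤ X * (1 + Real.log X) ^ (2 ^ 3) := tau_pow_sum 3 X hX
      _ = _ := by norm_num
  have h3 : (∑ n ∈ Icc 1 X, G n ^ 2) ^ 2 ≤ (∑ n ∈ Icc 1 X, G n) * ∑ n ∈ Icc 1 X, G n ^ 3 := by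
    have h4 := sum_mul_sq_le_sq_mul_sq (Icc 1 X) (fun n => Real.sqrt (G n)) (fun n => Real.sqrt (G n) * G n)
    refine le_trans (le_of_eq ?_) (h4.trans (le_of_eq ?_))
    · congr 1
      apply sum_congr rfl
      intro n _
      rw [← mul_assoc, Real.mul_self_sqrt (hG0 n)]
      ring
    · congr 1
      · apply sum_congr rfl
        intro n _
        exact Real.sq_sqrt (hG0 n)
      · apply sum_congr rfl
        intro n _
        rw [mul_pow, Real.sq_sqrt (hG0 n)]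
        ring
  have h4 : 0 ≤ ∑ n ∈ Icc 1 X, G n ^ 3 := sum_nonneg fun n _ => pow_nonneg (hG0 n) 3
  apply le_of_sq_le_sq _ (by positivity)
  calc (∑ n ∈ Icc 1 X, G n ^ 2) ^ 2 ≤ (∑ n ∈ Icc 1 X, G n) * ∑ n ∈ Icc 1 X, G n ^ 3 := h3
    _ ≤ (X * ε ^ 2) * (X * (1 + Real.log X) ^ 8) := mul_le_mul h1 h2 h4 (by positivity)
    _ = (X * ε * (1 + Real.log X) ^ 4) ^ 2 := by ring

/-- the sieve model over sparse sets of frequencies -/
def S_FZT : Prop := ∀ A B E₁ : ℕ, ∃ (K₂ Y₀ : ℕ), ∀ Y : ℕ, Y₀ ≤ Y → ∀ q r : ℕ, 1 ≤ q →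
  (q : ℝ) ≤ (Real.log Y) ^ B → ∀ z : ℕ, 1 ≤ z → (z : ℝ) ≤ (Real.log Y) ^ E₁ → ∀ T : Finset ℤ, T ⊆ FK Y →
  (∀ k ∈ T, (Real.log Y) ^ K₂ ≤ |(k : ℝ)|) → (T.card : ℝ) ≤ (Y : ℝ) ^ (1 / 40 : ℝ) →
  ∑ k ∈ T, ‖DP ((Ioc Y (3 * Y)).filter (fun n => n % q = r % q)) (fun n => ((lamz z n : ℝ) : ℂ)) k‖ ^ 2 ≤
    (Y : ℝ) ^ 2 / (Real.log Y) ^ A

theorem t_FZT : S_FZT := by
  intro A B E₁
  obtain ⟨C, hC, hmv⟩ := Pool.Agent.H376R2.MR.mv
  obtain ⟨K₂, Y1, h1⟩ := t_TIT (A + 4) B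
  obtain ⟨Y2, h2⟩ := choice 1 E₁ (2 * (A + 10)) 8
  obtain ⟨Y3, h3⟩ := Vz_inv_small E₁
  obtain ⟨Y4, h4⟩ := Filter.eventually_atTop.1 (Pool.Agent.helper24_UT.Sil2.ev_log (max 10 (6144 * C)))
  refine ⟨K₂, max (max Y1 Y2) (max Y3 Y4), ?_⟩
  intro Y hY q r hq hqB z hz hzE T hTK hT hcard
  obtain ⟨R, hR1, hR2, _⟩ := h2 Y ((le_max_right _ _).trans ((le_max_left _ _).trans hY)) z hzE
  have hV := h3 Y ((le_max_left _ _).trans ((le_max_right _ _).trans hY)) z hz hzE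
  have hl := h4 Y ((le_max_right _ _).trans ((le_max_right _ _).trans hY))
  have h1 := h1 Y ((le_max_left _ _).trans ((le_max_left _ _).trans hY)) q r hq hqB T
  obtain ⟨ℓ, hℓ⟩ : ∃ ℓ, ℓ = Real.log Y := ⟨_, rfl⟩
  rw [← hℓ] at hqB hzE hT hR1 hV hl h1 ⊢
  have hl10 : 10 ≤ ℓ := (le_max_left _ _).trans hl
  have hlC : 6144 * C ≤ ℓ := (le_max_right _ _).trans hl
  have hl0 : 0 < ℓ := by linarith
  have hl1 : 1 ≤ ℓ := by linarith
  have hY0 : (0 : ℝ) < Y := by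
    by_contra h
    push Not at h
    have : (Y : ℝ) = 0 := le_antisymm h (Nat.cast_nonneg _)
    rw [this, Real.log_zero] at hℓ
    linarith
  have hexpl : Real.exp ℓ = Y := by rw [hℓ]; exact Real.exp_log hY0
  have hY11 : (11 : ℝ) ≤ Y := by
    have := Real.add_one_le_exp ℓ
    linarith
  have hYn : 11 ≤ Y := by exact_mod_cast hY11
  have hlog3 : Real.log (3 * Y) ≤ 2 * ℓ := by
    rw [Real.log_mul (by norm_num) hY0.ne', ← hℓ]
    have := Real.log_le_sub_one_of_pos (show (0 : ℝ) < 3 by norm_num)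
    linarith
  have hlog30 : 0 ≤ Real.log (3 * (Y : ℝ)) := Real.log_nonneg (by linarith)
  have hV0 : 0 < (Vz z)⁻¹ := inv_pos.2 (Vz_pos z)
  obtain ⟨D, hD⟩ : ∃ D, D = (z + 1) ^ R := ⟨_, rfl⟩
  have hD8 : (D : ℝ) ≤ (Y : ℝ) ^ (1 / 8 : ℝ) := by
    have h5 : (D : ℝ) ^ 8 ≤ Y := by
      rw [hD]
      push_cast
      exact hR2
    calc (D : ℝ) = ((D : ℝ) ^ 8) ^ (1 / 8 : ℝ) := by
          rw [← Real.rpow_natCast, ← Real.rpow_mul (Nat.cast_nonneg _)]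
          norm_num
      _ ≤ (Y : ℝ) ^ (1 / 8 : ℝ) := Real.rpow_le_rpow (by positivity) h5 (by positivity)
  have hT4 : ∀ k ∈ T, ℓ ^ K₂ ≤ |(k : ℝ)| ∧ |(k : ℝ)| ≤ 4 * Y := by
    intro k hk
    refine ⟨hT k hk, ?_⟩
    have h2 := hTK hk
    unfold FK at h2
    rw [Finset.mem_Ioo] at h2
    have h1 : |(k : ℝ)| ≤ Y := by
      rw [abs_le]
      constructor
      · exact_mod_cast h2.1.le
      · exact_mod_cast h2.2.le
    linarith
  have hmain := h1 hT4 hcard D (fun b => ((gz z R b : ℝ) : ℂ)) 0 hD8 (by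
    intro b
    rw [Complex.norm_real, Real.norm_eq_abs]
    refine (gz_le z R b).trans ?_
    rw [Real.le_log_iff_exp_le (by positivity)]
    have := Real.exp_one_lt_d9
    have hb : (0 : ℝ) ≤ b := Nat.cast_nonneg b
    linarith) (by norm_num)
  set s := (Ioc Y (3 * Y)).filter (fun n => n % q = r % q) with hs
  set F1 : ℕ → ℂ := fun n => ∑ b ∈ n.divisors.filter (fun b => b ≤ D), ((gz z R b : ℝ) : ℂ) *
    (((Real.log ((n / b : ℕ) : ℝ)) ^ 0 : ℝ) : ℂ) with hF1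
  set G : ℕ → ℝ := fun n => ∑ S ∈ (pz z).powersetCard R, (if ∀ p ∈ S, p ∣ n then (1 : ℝ) else 0) with hG
  set Er : ℕ → ℂ := fun n => (((Vz z * lamz z n : ℝ)) : ℂ) - F1 n with hEr
  have hErG : ∀ n ∈ s, ‖Er n‖ ≤ G n := by
    intro n hn
    have hn1 : Y < n := (Finset.mem_Ioc.1 (Finset.mem_filter.1 hn).1).1
    have e1 : F1 n = ((∑ b ∈ n.divisors.filter (fun b => b ≤ D), gz z R b : ℝ) : ℂ) := by
      simp only [hF1, pow_zero]
      push_cast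
      simp
    have e2 : Vz z * lamz z n = if ∀ p ∈ pz z, ¬ p ∣ n then (1 : ℝ) else 0 := by
      unfold lamz
      split_ifs
      · rw [mul_inv_cancel₀ (Vz_pos z).ne']
      · rw [mul_zero]
    simp only [hEr]
    rw [e1, ← Complex.ofReal_sub, Complex.norm_real, Real.norm_eq_abs, e2,
      ← gz_sum z R D n (by omega) hD.ge]
    have := bonf_ind (fun p n => p ∣ n) (pz z) R n
    convert this
  have hdec : ∀ k : ℤ, ‖DP s (fun n => ((lamz z n : ℝ) : ℂ)) k‖ ^ 2 ≤ ℓ ^ 2 * (2 * (‖DP s F1 k‖ ^ 2 + ‖DP s Er k‖ ^ 2)) := by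
    intro k
    have e1 : DP s (fun n => ((lamz z n : ℝ) : ℂ)) k = (((Vz z)⁻¹ : ℝ) : ℂ) * (DP s F1 k + DP s Er k) := by
      unfold DP
      rw [← sum_add_distrib, mul_sum]
      apply sum_congr rfl
      intro n _
      simp only [hEr]
      have h5 : ((Vz z : ℝ) : ℂ) ≠ 0 := by exact_mod_cast (Vz_pos z).ne'
      push_cast
      field_simp
      ring
    rw [e1, norm_mul, mul_pow, Complex.norm_real, Real.norm_of_nonneg hV0.le]
    have h5 : ‖DP s F1 k + DP s Er k‖ ^ 2 ≤ 2 * (‖DP s F1 k‖ ^ 2 + ‖DP s Er k‖ ^ 2) :=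
      (pow_le_pow_left₀ (norm_nonneg _) (norm_add_le _ _) 2).trans add_sq_le
    exact mul_le_mul (pow_le_pow_left₀ hV0.le hV 2) h5 (by positivity) (by positivity)
  -- the remainder
  have hres : ∑ k ∈ T, ‖DP s Er k‖ ^ 2 ≤ (Y : ℝ) ^ 2 / ℓ ^ (A + 4) := by
    have e1 : ∑ n ∈ s, ‖Er n‖ ^ 2 ≤ (3 * Y : ℕ) * (1 / ℓ ^ (A + 10)) * (1 + Real.log ((3 * Y : ℕ) : ℝ)) ^ 4 := by
      calc ∑ n ∈ s, ‖Er n‖ ^ 2 ≤ ∑ n ∈ s, G n ^ 2 := by
            refine sum_le_sum fun n hn => pow_le_pow_left₀ (norm_nonneg _) (hErG n hn) 2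
        _ ≤ ∑ n ∈ Icc 1 (3 * Y), G n ^ 2 := by
            apply sum_le_sum_of_subset_of_nonneg
            · intro n hn
              rw [hs, mem_filter, mem_Ioc] at hn
              rw [mem_Icc]
              omega
            · intro n _ _
              positivity
        _ ≤ _ := Gr_sq z R (3 * Y) (1 / ℓ ^ (A + 10)) (by omega) (by positivity) (by
            refine le_trans (le_of_eq ?_) (hR1.trans (le_of_eq ?_))
            · push_cast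
              rfl
            · rw [div_pow, one_pow, ← pow_mul, mul_comm])
    have e2 := energy hC hmv s Er (3 * Y) (3 * Y) _ Y (by linarith) (by positivity) le_rfl (fun n hn => by
      rw [hs, mem_filter, mem_Ioc] at hn
      refine ⟨by omega, ?_⟩
      exact_mod_cast hn.1.2) e1 (by omega)
    refine (sum_le_sum_of_subset_of_nonneg hTK fun _ _ _ => by positivity).trans (e2.trans ?_)
    push_cast
    calc C * (1 + Real.log (3 * (Y : ℝ))) * ((3 * Y + Y) * (3 * Y * (1 / ℓ ^ (A + 10)) * (1 + Real.log (3 * (Y : ℝ))) ^ 4))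
        ≤ C * (1 * ℓ + 2 * ℓ) * ((3 * Y + Y) * (3 * Y * (1 / ℓ ^ (A + 10)) * (1 * ℓ + 2 * ℓ) ^ 4)) := by
          have h5 : 1 + Real.log (3 * (Y : ℝ)) ≤ 1 * ℓ + 2 * ℓ := by linarith
          gcongr
      _ = (Y : ℝ) ^ 2 / ℓ ^ (A + 4) * (2916 * C / ℓ) := by
          rw [show A + 10 = A + 4 + 6 by ring, pow_add ℓ (A + 4) 6]
          field_simp
          ring
      _ ≤ (Y : ℝ) ^ 2 / ℓ ^ (A + 4) * 1 := by
          apply mul_le_mul_of_nonneg_left _ (by positivity)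
          rw [div_le_one hl0]
          linarith
      _ = _ := mul_one _
  calc ∑ k ∈ T, ‖DP s (fun n => ((lamz z n : ℝ) : ℂ)) k‖ ^ 2
      ≤ ∑ k ∈ T, ℓ ^ 2 * (2 * (‖DP s F1 k‖ ^ 2 + ‖DP s Er k‖ ^ 2)) := sum_le_sum fun k _ => hdec k
    _ = ℓ ^ 2 * (2 * (∑ k ∈ T, ‖DP s F1 k‖ ^ 2 + ∑ k ∈ T, ‖DP s Er k‖ ^ 2)) := by
        rw [← mul_sum, ← mul_sum, sum_add_distrib]
    _ ≤ ℓ ^ 2 * (2 * ((Y : ℝ) ^ 2 / ℓ ^ (A + 4) + (Y : ℝ) ^ 2 / ℓ ^ (A + 4))) := by gcongr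
    _ = (Y : ℝ) ^ 2 / ℓ ^ A * (4 / ℓ ^ 2) := by
        rw [pow_add]
        field_simp
        ring
    _ ≤ (Y : ℝ) ^ 2 / ℓ ^ A * 1 := by
        apply mul_le_mul_of_nonneg_left _ (by positivity)
        rw [div_le_one (by positivity)]
        nlinarith
    _ = _ := mul_one _

end Pool.Agent.H561.E2
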