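import Pool.Agent.H561.E2.A5
import Pool.Graph.R_seed8.H376R2.MR.Smoo

set_option autoImplicit false

/-! The sums of `p^{-ik}` over sets of primes are small outside a sparse set of frequencies. -/

namespace Pool.Agent.H561.E2

open Finset
open Pool.Agent.helper24_UT
open Pool.Agent.helper24_UT.II
open Pool.Agent.H376R2.MR (ch er DP FK ge smoo_ge_le)

/-- the sum over a set of primes -/
noncomputable def PQ (Q : Finset ℕ) (k : ℤ) : ℂ := ∑ g ∈ Q, ch k (Real.log g)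

lemma ch_prod (k : ℤ) {κ : ℕ} (p : Fin κ → ℕ) (hp : ∀ i, 0 < p i) :
    ∏ i, ch k (Real.log (p i)) = ch k (Real.log ((∏ i, p i : ℕ) : ℝ)) := by
  have h1 : Real.log ((∏ i, p i : ℕ) : ℝ) = ∑ i, Real.log (p i : ℝ) := by
    push_cast
    rw [Real.log_prod]
    intro i _
    have := hp i
    positivity
  rw [h1]
  have : ∀ s : Finset (Fin κ), ∏ i ∈ s, ch k (Real.log (p i)) = ch k (∑ i ∈ s, Real.log (p i)) := by
    intro s
    induction s using Finset.cons_induction with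
    | empty => simp [ch]
    | cons a s ha ih => rw [Finset.prod_cons, Finset.sum_cons, Pool.Agent.helper24_UT.TI2.ch_add, ih]
  exact this _

lemma PQ_pow (Q : Finset ℕ) (hQ : ∀ p ∈ Q, p.Prime) (κ : ℕ) (k : ℤ) :
    PQ Q k ^ κ = DP ((Fintype.piFinset (fun _ : Fin κ => Q)).image (fun p => ∏ i, p i)) (fun n => (ge Q κ n : ℂ)) k := by
  unfold PQ
  rw [Finset.sum_pow']
  have h1 : ∑ p ∈ Fintype.piFinset (fun _ : Fin κ => Q), ∏ i, ch k (Real.log (p i)) =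
      ∑ p ∈ Fintype.piFinset (fun _ : Fin κ => Q), ch k (Real.log ((∏ i, p i : ℕ) : ℝ)) := by
    apply sum_congr rfl
    intro p hp
    rw [Fintype.mem_piFinset] at hp
    exact ch_prod k p fun i => (hQ _ (hp i)).pos
  rw [h1]
  unfold DP
  rw [← Finset.sum_fiberwise_of_maps_to (g := fun p : Fin κ → ℕ => ∏ i, p i)
    (fun p hp => Finset.mem_image_of_mem _ hp)]
  apply Finset.sum_congr rfl
  intro n _
  unfold ge
  rw [Finset.sum_congr rfl (g := fun _ => ch k (Real.log n))]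
  · rw [Finset.sum_const, nsmul_eq_mul]
  · intro p hp
    rw [Finset.mem_filter] at hp
    rw [hp.2]

/-- the moments -/
theorem moment : ∃ C : ℝ, 0 < C ∧ ∀ (U κ K : ℕ) (Q : Finset ℕ), (∀ p ∈ Q, p.Prime) → Q ⊆ Ioc U (2 * U) → 1 ≤ U → 1 ≤ K →
    K ≤ U ^ κ → ∑ k ∈ FK K, ‖PQ Q k‖ ^ (2 * κ) ≤ C * (1 + κ) * κ.factorial * 2 ^ κ * (U : ℝ) ^ (2 * κ) := by
  obtain ⟨C, hC, hmv⟩ := Pool.Agent.H376R2.MR.mv
  refine ⟨2 * C, by positivity, ?_⟩
  intro U κ K Q hQ hQU hU hK hKU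
  set t := (Fintype.piFinset (fun _ : Fin κ => Q)).image (fun p => ∏ i, p i) with ht
  have hU0 : (1 : ℝ) ≤ U := by exact_mod_cast hU
  have hmem : ∀ n ∈ t, (U : ℝ) ^ κ ≤ (n : ℝ) ∧ (n : ℝ) ≤ (2 * (U : ℝ)) ^ κ := by
    intro n hn
    rw [ht, Finset.mem_image] at hn
    obtain ⟨p, hp, rfl⟩ := hn
    rw [Fintype.mem_piFinset] at hp
    have h1 : ∀ i, (U : ℝ) ≤ p i ∧ (p i : ℝ) ≤ 2 * U := by
      intro i
      have := hQU (hp i)
      rw [mem_Ioc] at this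
      exact ⟨by exact_mod_cast this.1.le, by exact_mod_cast this.2⟩
    push_cast
    constructor
    · calc (U : ℝ) ^ κ = ∏ _i : Fin κ, (U : ℝ) := by rw [prod_const, card_univ, Fintype.card_fin]
        _ ≤ _ := prod_le_prod (fun _ _ => by positivity) fun i _ => (h1 i).1
    · calc ∏ i, (p i : ℝ) ≤ ∏ _i : Fin κ, (2 * (U : ℝ)) := prod_le_prod (fun _ _ => by positivity) fun i _ => (h1 i).2
        _ = _ := by rw [prod_const, card_univ, Fintype.card_fin]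
  have h1 : (1 : ℝ) ≤ (U : ℝ) ^ κ := one_le_pow₀ hU0
  have h12 : (U : ℝ) ^ κ ≤ (2 * (U : ℝ)) ^ κ := pow_le_pow_left₀ (by positivity) (by linarith) κ
  have h2 := hmv t (fun n => (ge Q κ n : ℂ)) ((U : ℝ) ^ κ) ((2 * (U : ℝ)) ^ κ) K h1 h12 hmem hK
  have hlog : Real.log ((2 * (U : ℝ)) ^ κ / (U : ℝ) ^ κ) ≤ κ := by
    rw [← div_pow, mul_div_assoc, div_self (by positivity), mul_one, Real.log_pow]
    have := Real.log_two_lt_d9
    have h0 : (0 : ℝ) ≤ κ := Nat.cast_nonneg _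
    nlinarith
  have hsum : ∑ n ∈ t, ‖(ge Q κ n : ℂ)‖ ^ 2 * ((n : ℝ) + K) ≤ κ.factorial * (U : ℝ) ^ κ * (2 * (2 * (U : ℝ)) ^ κ) := by
    have h3 : ∀ n ∈ t, ‖(ge Q κ n : ℂ)‖ ^ 2 * ((n : ℝ) + K) ≤ κ.factorial * (2 * (2 * (U : ℝ)) ^ κ) * (ge Q κ n : ℝ) := by
      intro n hn
      have h4 : ‖(ge Q κ n : ℂ)‖ = ge Q κ n := by simp
      have h5 : (ge Q κ n : ℝ) ≤ κ.factorial := by exact_mod_cast smoo_ge_le Q hQ κ n
      have h6 : (n : ℝ) + K ≤ 2 * (2 * (U : ℝ)) ^ κ := by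
        have h7 : (K : ℝ) ≤ (U : ℝ) ^ κ := by exact_mod_cast hKU
        linarith [(hmem n hn).2]
      rw [h4]
      calc (ge Q κ n : ℝ) ^ 2 * ((n : ℝ) + K) = (ge Q κ n : ℝ) * ((n : ℝ) + K) * (ge Q κ n : ℝ) := by ring
        _ ≤ _ := by gcongr
    refine (sum_le_sum h3).trans ?_
    rw [← mul_sum]
    have h4 : ∑ n ∈ t, (ge Q κ n : ℝ) ≤ (U : ℝ) ^ κ := by
      have h5 : ∑ n ∈ t, ge Q κ n = (Fintype.piFinset (fun _ : Fin κ => Q)).card := by
        unfold ge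
        symm
        apply card_eq_sum_card_fiberwise
        intro p hp
        exact mem_image_of_mem _ hp
      have h6 : (Fintype.piFinset (fun _ : Fin κ => Q)).card ≤ U ^ κ := by
        rw [Fintype.card_piFinset_const]
        apply Nat.pow_le_pow_left
        have := card_le_card hQU
        rw [Nat.card_Ioc] at this
        omega
      rw [← h5] at h6
      exact_mod_cast h6
    calc (κ.factorial : ℝ) * (2 * (2 * (U : ℝ)) ^ κ) * ∑ n ∈ t, (ge Q κ n : ℝ) ≤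
        (κ.factorial : ℝ) * (2 * (2 * (U : ℝ)) ^ κ) * (U : ℝ) ^ κ := by gcongr
      _ = _ := by ring
  calc ∑ k ∈ FK K, ‖PQ Q k‖ ^ (2 * κ) = ∑ k ∈ FK K, ‖DP t (fun n => (ge Q κ n : ℂ)) k‖ ^ 2 := by
        apply sum_congr rfl
        intro k _
        rw [← PQ_pow Q hQ κ k, norm_pow, ← pow_mul, mul_comm]
    _ ≤ C * (1 + Real.log ((2 * (U : ℝ)) ^ κ / (U : ℝ) ^ κ)) * ∑ n ∈ t, ‖(ge Q κ n : ℂ)‖ ^ 2 * ((n : ℝ) + K) := h2
    _ ≤ C * (1 + κ) * (κ.factorial * (U : ℝ) ^ κ * (2 * (2 * (U : ℝ)) ^ κ)) := by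
        have h0 : 0 ≤ Real.log ((2 * (U : ℝ)) ^ κ / (U : ℝ) ^ κ) := by
          apply Real.log_nonneg
          rw [one_le_div (by positivity)]
          exact h12
        gcongr
    _ = 2 * C * (1 + κ) * κ.factorial * 2 ^ κ * (U : ℝ) ^ (2 * κ) := by
        rw [mul_pow, two_mul κ, pow_add]
        ring

/-- few frequencies with large values -/
theorem tsize (α : ℝ) (hα : 0 < α) (hα1 : α ≤ 1) : ∃ (a Y₀ : ℕ), ∀ Y : ℕ, Y₀ ≤ Y → ∀ U : ℕ, (Real.log Y) ^ a ≤ U → U ≤ Y →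
    ∀ Q : Finset ℕ, (∀ p ∈ Q, p.Prime) → Q ⊆ Ioc U (2 * U) → ∀ T : Finset ℤ, T ⊆ FK Y →
    (∀ k ∈ T, (U : ℝ) ^ (1 - α / 8) < ‖PQ Q k‖) → (T.card : ℝ) ≤ (Y : ℝ) ^ α := by
  obtain ⟨C, hC, hmom⟩ := moment
  obtain ⟨a, ha⟩ : ∃ a : ℕ, a = ⌈10 / α⌉₊ := ⟨_, rfl⟩
  have ha1 : 10 / α ≤ (a : ℝ) := by rw [ha]; exact Nat.le_ceil _
  have ha10 : (10 : ℝ) ≤ a := by
    refine le_trans ?_ ha1
    rw [le_div_iff₀ hα]
    linarith
  have ha0 : (0 : ℝ) < a := by linarith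
  have hlim : Filter.Tendsto (fun N : ℕ => Real.log (N : ℝ)) Filter.atTop Filter.atTop :=
    Real.tendsto_log_atTop.comp (tendsto_natCast_atTop_atTop (R := ℝ))
  have hev1 : ∀ᶠ Y : ℕ in Filter.atTop, (a : ℝ) * (Real.log (Real.log Y) + 2) ≤ Real.log Y := by
    have h1 : ∀ᶠ x : ℝ in Filter.atTop, (a : ℝ) * (Real.log x + 2) ≤ x := by
      have h2 := Real.isLittleO_log_id_atTop.bound (show (0 : ℝ) < 1 / (2 * a) by positivity)
      filter_upwards [h2, Filter.eventually_ge_atTop (1 : ℝ), Filter.eventually_ge_atTop (4 * (a : ℝ))] with x h3 h4 h5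
      simp only [id] at h3
      rw [Real.norm_eq_abs, Real.norm_eq_abs, abs_of_nonneg (by linarith : (0 : ℝ) ≤ x)] at h3
      have h6 := (le_abs_self (Real.log x)).trans h3
      have h7 : (a : ℝ) * Real.log x ≤ a * (1 / (2 * a) * x) := mul_le_mul_of_nonneg_left h6 ha0.le
      have h8 : (a : ℝ) * (1 / (2 * a) * x) = x / 2 := by field_simp
      rw [h8] at h7
      linarith
    exact hlim.eventually h1
  obtain ⟨Y₀, hY₀⟩ := Filter.eventually_atTop.1 (hev1.and ((hlim.eventually_ge_atTop (Real.exp 1)).and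
    ((hlim.eventually_ge_atTop 10).and (hlim.eventually_ge_atTop (a * Real.log C)))))
  refine ⟨a, Y₀, ?_⟩
  intro Y hY U hU hUY Q hQ hQU T hTK hT
  obtain ⟨e1, e2, e3, e4⟩ := hY₀ Y hY
  obtain ⟨ℓ, hℓ⟩ : ∃ ℓ, ℓ = Real.log Y := ⟨_, rfl⟩
  rw [← hℓ] at e1 e2 e3 e4 hU
  have hl0 : 0 < ℓ := by linarith
  have hY0 : (0 : ℝ) < Y := by
    by_contra h
    push Not at h
    have : (Y : ℝ) = 0 := le_antisymm h (Nat.cast_nonneg _)
    rw [this, Real.log_zero] at hℓ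
    linarith
  have hexpl : Real.exp ℓ = Y := by rw [hℓ]; exact Real.exp_log hY0
  have hYn : 1 ≤ Y := by exact_mod_cast hY0
  have hll : 1 ≤ Real.log ℓ := by
    rw [Real.le_log_iff_exp_le hl0]
    exact e2
  have hUr : (0 : ℝ) < U := lt_of_lt_of_le (by positivity) hU
  have hU1 : 1 ≤ U := by exact_mod_cast hUr
  have hlU : (a : ℝ) * Real.log ℓ ≤ Real.log U := by
    have := Real.log_le_log (by positivity) hU
    rwa [Real.log_pow] at this
  have hlU10 : 10 ≤ Real.log U := by nlinarith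
  have hlU0 : 0 < Real.log U := by linarith
  have hlUY : Real.log U ≤ ℓ := by rw [hℓ]; exact Real.log_le_log hUr (by exact_mod_cast hUY)
  obtain ⟨κ, hκ⟩ : ∃ κ : ℕ, κ = ⌈ℓ / Real.log U⌉₊ := ⟨_, rfl⟩
  have hκ1 : ℓ / Real.log U ≤ κ := by rw [hκ]; exact Nat.le_ceil _
  have hκ2 : (κ : ℝ) ≤ ℓ / Real.log U + 1 := by
    rw [hκ]
    exact (Nat.ceil_lt_add_one (by positivity)).le
  have hκU : (κ : ℝ) * Real.log U ≤ 2 * ℓ := by
    calc (κ : ℝ) * Real.log U ≤ (ℓ / Real.log U + 1) * Real.log U := by gcongr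
      _ = ℓ + Real.log U := by field_simp
      _ ≤ 2 * ℓ := by linarith
  have hYU : Y ≤ U ^ κ := by
    have h1 : (Y : ℝ) ≤ (U : ℝ) ^ κ := by
      rw [← hexpl, ← Real.exp_log hUr, ← Real.exp_nat_mul]
      apply Real.exp_le_exp.2
      rwa [div_le_iff₀ hlU0] at hκ1
    exact_mod_cast h1
  have hm := hmom U κ Y Q hQ hQU hU1 hYn hYU
  -- the count
  have hcount : (T.card : ℝ) * ((U : ℝ) ^ (1 - α / 8)) ^ (2 * κ) ≤ C * (1 + κ) * κ.factorial * 2 ^ κ * (U : ℝ) ^ (2 * κ) := by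
    refine le_trans ?_ hm
    calc (T.card : ℝ) * ((U : ℝ) ^ (1 - α / 8)) ^ (2 * κ) = ∑ _k ∈ T, ((U : ℝ) ^ (1 - α / 8)) ^ (2 * κ) := by
          rw [sum_const, nsmul_eq_mul]
      _ ≤ ∑ k ∈ T, ‖PQ Q k‖ ^ (2 * κ) := by
          refine sum_le_sum fun k hk => pow_le_pow_left₀ (by positivity) (hT k hk).le _
      _ ≤ ∑ k ∈ FK Y, ‖PQ Q k‖ ^ (2 * κ) := sum_le_sum_of_subset_of_nonneg hTK fun _ _ _ => by positivity
  have hpow : (U : ℝ) ^ (2 * κ) = ((U : ℝ) ^ (1 - α / 8)) ^ (2 * κ) * Real.exp (α / 4 * κ * Real.log U) := by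
    have h1 : ((U : ℝ) ^ (1 - α / 8)) ^ (2 * κ) = Real.exp ((1 - α / 8) * (2 * κ) * Real.log U) := by
      rw [← Real.rpow_natCast, ← Real.rpow_mul hUr.le, Real.rpow_def_of_pos hUr]
      congr 1
      push_cast
      ring
    rw [h1, ← Real.exp_add]
    have h2 : (U : ℝ) ^ (2 * κ) = Real.exp (((2 * κ : ℕ) : ℝ) * Real.log U) := by
      rw [Real.exp_nat_mul, Real.exp_log hUr]
    rw [h2]
    congr 1
    push_cast
    ring
  have hP0 : 0 < ((U : ℝ) ^ (1 - α / 8)) ^ (2 * κ) := by positivity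
  have hcard : (T.card : ℝ) ≤ C * (1 + κ) * κ.factorial * 2 ^ κ * Real.exp (α / 4 * κ * Real.log U) := by
    rw [hpow] at hcount
    have h1 : (T.card : ℝ) * ((U : ℝ) ^ (1 - α / 8)) ^ (2 * κ) ≤
        (C * (1 + κ) * κ.factorial * 2 ^ κ * Real.exp (α / 4 * κ * Real.log U)) * ((U : ℝ) ^ (1 - α / 8)) ^ (2 * κ) := by
      linarith
    exact le_of_mul_le_mul_right h1 hP0
  have hk0 : (0 : ℝ) ≤ κ := Nat.cast_nonneg _
  have hkl : (κ : ℝ) ≤ ℓ := by
    refine hκ2.trans ?_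
    have h1 : ℓ / Real.log U ≤ ℓ / 10 := by gcongr
    linarith
  have f1 : C ≤ Real.exp (ℓ / a) := by
    rw [← Real.exp_log hC]
    apply Real.exp_le_exp.2
    rw [le_div_iff₀ ha0]
    linarith
  have f2 : (1 + (κ : ℝ)) ≤ Real.exp κ := by
    have := Real.add_one_le_exp (κ : ℝ)
    linarith
  have f3 : (κ.factorial : ℝ) ≤ Real.exp (κ * Real.log ℓ) := by
    calc (κ.factorial : ℝ) ≤ (κ : ℝ) ^ κ := by exact_mod_cast Nat.factorial_le_pow κ
      _ ≤ ℓ ^ κ := pow_le_pow_left₀ hk0 hkl κ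
      _ = Real.exp (κ * Real.log ℓ) := by rw [Real.exp_nat_mul, Real.exp_log hl0]
  have f4 : (2 : ℝ) ^ κ ≤ Real.exp κ := by
    have h1 : (2 : ℝ) ≤ Real.exp 1 := by
      have := Real.add_one_le_exp (1 : ℝ)
      linarith
    calc (2 : ℝ) ^ κ ≤ Real.exp 1 ^ κ := pow_le_pow_left₀ (by norm_num) h1 κ
      _ = Real.exp κ := by rw [← Real.exp_nat_mul, mul_one]
  refine hcard.trans ?_
  calc C * (1 + κ) * κ.factorial * 2 ^ κ * Real.exp (α / 4 * κ * Real.log U)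
      ≤ Real.exp (ℓ / a) * Real.exp κ * Real.exp (κ * Real.log ℓ) * Real.exp κ * Real.exp (α / 4 * κ * Real.log U) := by
        gcongr
    _ = Real.exp (ℓ / a + κ + κ * Real.log ℓ + κ + α / 4 * κ * Real.log U) := by
        rw [Real.exp_add, Real.exp_add, Real.exp_add, Real.exp_add]
    _ ≤ Real.exp (α * ℓ) := by
        apply Real.exp_le_exp.2
        have g1 : (κ : ℝ) * Real.log ℓ ≤ ℓ / a + Real.log ℓ := by
          calc (κ : ℝ) * Real.log ℓ ≤ (ℓ / Real.log U + 1) * Real.log ℓ := by gcongr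
            _ ≤ (ℓ / (a * Real.log ℓ) + 1) * Real.log ℓ := by gcongr
            _ = ℓ / a + Real.log ℓ := by
                field_simp
        have g2 : (κ : ℝ) ≤ ℓ / a + 1 := by
          refine hκ2.trans ?_
          have : ℓ / Real.log U ≤ ℓ / a := by
            apply div_le_div_of_nonneg_left hl0.le ha0
            nlinarith
          linarith
        have g3 : α / 4 * κ * Real.log U ≤ α / 2 * ℓ := by
          have h1 : α / 4 * (κ * Real.log U) ≤ α / 4 * (2 * ℓ) := mul_le_mul_of_nonneg_left hκU (by positivity)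
          linarith
        have g4 : Real.log ℓ + 2 ≤ ℓ / a := by
          rw [le_div_iff₀ ha0]
          linarith
        have g5 : 5 * (ℓ / a) ≤ α / 2 * ℓ := by
          rw [div_le_iff₀ hα] at ha1
          rw [mul_div_assoc', div_le_iff₀ ha0]
          nlinarith
        linarith
    _ = (Y : ℝ) ^ α := by
        rw [Real.rpow_def_of_pos hY0, ← hℓ]
        congr 1
        ring

end Pool.Agent.H561.E2
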