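import Pool.Agent.H561.E2.A6

set_option autoImplicit false

/-! The large frequencies of the convolution of a set of primes with the primes minus the sieve model. -/

namespace Pool.Agent.H561.E2

open Finset
open Pool.Agent.helper24_UT
open Pool.Agent.helper24_UT.II
open Pool.Agent.H376R2.MR (ch er DP FK)
open Pool.Agent.H373R2.T7 (Vz pz lamz mem_pz Vz_pos Vz_inv_small)

/-- primes minus model -/
noncomputable def dl (z n : ℕ) : ℂ := (ArithmeticFunction.vonMangoldt n : ℂ) - ((lamz z n : ℝ) : ℂ)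

/-- indicator -/
noncomputable def ind (S : Finset ℕ) (n : ℕ) : ℂ := if n ∈ S then 1 else 0

lemma lamz_le_inv (z n : ℕ) : lamz z n ≤ (Vz z)⁻¹ := by
  unfold lamz
  split_ifs
  · exact le_rfl
  · exact inv_nonneg.2 (Vz_pos z).le

lemma dl_norm (z n : ℕ) (ℓ : ℝ) (h1 : (ArithmeticFunction.vonMangoldt n : ℝ) ≤ 2 * ℓ) (h2 : (Vz z)⁻¹ ≤ ℓ) :
    ‖dl z n‖ ≤ 3 * ℓ := by
  unfold dl
  refine (norm_sub_le _ _).trans ?_
  rw [Complex.norm_real, Complex.norm_real, Real.norm_of_nonneg ArithmeticFunction.vonMangoldt_nonneg,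
    Real.norm_of_nonneg (Pool.Agent.H373R2.T7.lamz_nonneg z n)]
  have := lamz_le_inv z n
  linarith

/-- the large frequencies -/
def S_LF : Prop := ∀ A B : ℕ, ∃ a : ℕ, ∀ E₁ : ℕ, ∃ (K₂ Y₀ : ℕ), ∀ Y : ℕ, Y₀ ≤ Y → ∀ q r : ℕ, 1 ≤ q →
  (q : ℝ) ≤ (Real.log Y) ^ B → r.Coprime q → ∀ z : ℕ, 1 ≤ z → (z : ℝ) ≤ (Real.log Y) ^ E₁ →
  ∀ U : ℕ, (Real.log Y) ^ a ≤ U → U ^ 4 ≤ Y → ∀ S : Finset ℕ, (∀ p ∈ S, p.Prime) → S ⊆ Ioc U (2 * U) →
  ∀ K₁ : ℕ, 4 * (K₁ * U) ≤ Y →
  ∑ k ∈ (FK K₁).filter (fun k : ℤ => (Real.log Y) ^ K₂ ≤ |(k : ℝ)|),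
    ‖DP ((Ioc Y (3 * Y)).filter (fun n => n % q = r % q)) (fun n => ∑ x ∈ n.divisorsAntidiagonal.filter
      (fun x => U < x.1 ∧ 0 < x.2), ind S x.1 * dl z x.2) k‖ ^ 2 ≤
    (Y : ℝ) ^ 2 / (Real.log Y) ^ A

theorem t_LF (hAL : S_AL) : S_LF := by
  obtain ⟨C, hC, hmv⟩ := Pool.Agent.H376R2.MR.mv
  obtain ⟨α, hα, hα1, hF⟩ := t_FRLT hAL
  obtain ⟨a₁, Ya, hts⟩ := tsize (α / 2) (by positivity) (by linarith)
  intro A B
  obtain ⟨c, hc⟩ : ∃ c : ℕ, c = A + 20 := ⟨_, rfl⟩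
  obtain ⟨A₂, hA₂⟩ : ∃ A₂ : ℕ, A₂ = A + 4 * c + 4 * B + 4 := ⟨_, rfl⟩
  obtain ⟨a₂, ha₂⟩ : ∃ a₂ : ℕ, a₂ = ⌈8 * (A₂ + 4) / α⌉₊ := ⟨_, rfl⟩
  refine ⟨max a₁ a₂, fun E₁ => ?_⟩
  obtain ⟨K2, Y2, hF⟩ := hF (A₂ + 5) (2 * B)
  obtain ⟨K3, Y3, hZf⟩ := t_FZT (A₂ + 5) (2 * B) (2 * E₁)
  obtain ⟨Y4, hV⟩ := Vz_inv_small E₁
  obtain ⟨Y5, hY5⟩ := Filter.eventually_atTop.1 ((Pool.Agent.helper24_UT.Sil2.ev_pow (A₂ + 2) (1 / 4) 100000 (by norm_num)).and
    (Pool.Agent.helper24_UT.Sil2.ev_log (max (max 100 (38880 * 3 ^ 16 * C)) (max (648 * C) (48 * 2 ^ (A₂ + 5))))))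
  refine ⟨max K2 K3, max (max (Y2 ^ 2) (Y3 ^ 2)) (max (max Ya Y4) (max Y5 1)), ?_⟩
  intro Y hY q r hq hqB hrq z hz hzE U hU hU4 S hS hSU K₁ hK₁
  have i1 : Y2 ^ 2 ≤ Y := ((le_max_left _ _).trans (le_max_left _ _)).trans hY
  have i2 : Y3 ^ 2 ≤ Y := ((le_max_right _ _).trans (le_max_left _ _)).trans hY
  have i3 : Ya ≤ Y := (((le_max_left _ _).trans (le_max_left _ _)).trans (le_max_right _ _)).trans hY
  have i4 : Y4 ≤ Y := (((le_max_right _ _).trans (le_max_left _ _)).trans (le_max_right _ _)).trans hY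
  have i5 : Y5 ≤ Y := (((le_max_left _ _).trans (le_max_right _ _)).trans (le_max_right _ _)).trans hY
  obtain ⟨g1, g2⟩ := hY5 Y i5
  have hVz := hV Y i4 z hz hzE
  have hts := hts Y i3
  obtain ⟨ℓ, hℓ⟩ : ∃ ℓ, ℓ = Real.log Y := ⟨_, rfl⟩
  rw [← hℓ] at g1 g2 hqB hzE hVz hU hts ⊢
  have hl100 : 100 ≤ ℓ := ((le_max_left _ _).trans (le_max_left _ _)).trans g2
  have hlC1 : 38880 * 3 ^ 16 * C ≤ ℓ := ((le_max_right _ _).trans (le_max_left _ _)).trans g2
  have hlC2 : 648 * C ≤ ℓ := ((le_max_left _ _).trans (le_max_right _ _)).trans g2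
  have hl2A : 48 * 2 ^ (A₂ + 5) ≤ ℓ := ((le_max_right _ _).trans (le_max_right _ _)).trans g2
  have hl0 : 0 < ℓ := by linarith
  have hl1 : 1 ≤ ℓ := by linarith
  have hY0 : (0 : ℝ) < Y := by
    by_contra h
    push Not at h
    have : (Y : ℝ) = 0 := le_antisymm h (Nat.cast_nonneg _)
    rw [this, Real.log_zero] at hℓ
    linarith
  have hexpl : Real.exp ℓ = Y := by rw [hℓ]; exact Real.exp_log hY0
  have hY11 : (11 : ℝ) ≤ Y := by
    have := Real.add_one_le_exp ℓ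
    linarith
  have hYn : 11 ≤ Y := by exact_mod_cast hY11
  have hYr1 : (1 : ℝ) ≤ Y := by linarith
  have hlog9 : Real.log (9 * Y) ≤ 2 * ℓ := by
    rw [Real.log_mul (by norm_num) hY0.ne', ← hℓ]
    have := Real.log_le_sub_one_of_pos (show (0 : ℝ) < 9 by norm_num)
    linarith
  have hUr : (1 : ℝ) ≤ U := le_trans (one_le_pow₀ hl1) hU
  have hU1 : 1 ≤ U := by exact_mod_cast hUr
  have hUr0 : (0 : ℝ) < U := by linarith
  have hUa₁ : ℓ ^ a₁ ≤ U := (pow_le_pow_right₀ hl1 (le_max_left _ _)).trans hU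
  have hUa₂ : ℓ ^ a₂ ≤ U := (pow_le_pow_right₀ hl1 (le_max_right _ _)).trans hU
  have hU4r : (U : ℝ) ^ 4 ≤ Y := by exact_mod_cast hU4
  have hUY : U ≤ Y := le_trans (Nat.le_self_pow (by norm_num) U) hU4
  rcases Nat.eq_zero_or_pos K₁ with h0 | hK1
  · have : FK K₁ = ∅ := by
      rw [h0]
      unfold FK
      simp
    rw [this, Finset.filter_empty, Finset.sum_empty]
    positivity
  set KK := (FK K₁).filter (fun k : ℤ => ℓ ^ max K2 K3 ≤ |(k : ℝ)|) with hKK
  have hK1Y : K₁ ≤ Y := by nlinarith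
  have hK1r : 4 * ((K₁ : ℝ) * U) ≤ Y := by exact_mod_cast hK₁
  have hDD : (2 : ℝ) ≤ ℓ ^ (2 * c) := by
    calc (2 : ℝ) ≤ ℓ := by linarith
      _ ≤ ℓ ^ (2 * c) := le_self_pow₀ (by linarith) (by omega)
  have hDD0 : 0 < ℓ ^ (2 * c) := by positivity
  have hb : ∀ m, 1 ≤ m → m ≤ 9 * Y → ‖dl z m‖ ≤ 3 * ℓ := by
    intro m hm hmY
    apply dl_norm z m ℓ _ hVz
    refine ArithmeticFunction.vonMangoldt_le_log.trans ((Real.log_le_log (by exact_mod_cast hm) ?_).trans hlog9)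
    exact_mod_cast hmY
  obtain ⟨Z, hZ⟩ : ∃ Z : ℝ, Z = (Y : ℝ) ^ 2 / ℓ ^ A₂ := ⟨_, rfl⟩
  have hZ0 : 0 ≤ Z := by rw [hZ]; positivity
  have hcore := coreZ hC hmv (ℓ ^ (2 * c)) ℓ (ℓ ^ c) Z 1 (3 * ℓ) 0 16 Y q r U 0 K₁ (by norm_num) hDD hK1 (by omega) hU1 hq hrq
    (by exact_mod_cast hK1Y) hl1 hlog9 (by positivity) (by rw [← pow_mul, mul_comm]) hZ0 zero_le_one (by positivity) KK (filter_subset _ _)
    (ind S) (dl z) (by
      intro m _ _
      rw [pow_zero, mul_one]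
      unfold ind
      split_ifs <;> simp) (by
      intro m hm hmY
      rw [pow_zero, mul_one]
      exact hb m hm hmY) (by
      intro i s s' hi hs hsq hs' hsq'
      have hMU : (U : ℝ) ≤ MM (ℓ ^ (2 * c)) U i := MM_ge hDD0 U i
      -- the first factor
      set Qi := S.filter (fun g => g ∈ ce (ℓ ^ (2 * c)) U Y i ∧ g % q = s) with hQi
      have hfA : ∀ k : ℤ, DP ((ce (ℓ ^ (2 * c)) U Y i).filter (fun m => m % q = s)) (ind S) k = PQ Qi k := by
        intro k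
        unfold DP PQ ind
        have e1 : Qi = ((ce (ℓ ^ (2 * c)) U Y i).filter (fun m => m % q = s)).filter (fun m => m ∈ S) := by
          ext g
          rw [hQi]
          simp only [mem_filter]
          tauto
        rw [e1]
        conv_rhs => rw [sum_filter]
        apply sum_congr rfl
        intro n _
        split_ifs
        · rw [one_mul]
        · rw [zero_mul]
      rcases le_or_gt (2 * (U : ℝ)) (MM (ℓ ^ (2 * c)) U i) with hM2 | hM2
      · -- empty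
        have hQe : Qi = ∅ := by
          rw [hQi]
          apply filter_false_of_mem
          rintro g hg ⟨hg1, _⟩
          have h1 := hSU hg
          rw [mem_Ioc] at h1
          unfold ce at hg1
          rw [mem_Ioc] at hg1
          have h2 : 2 * U ≤ ⌊MM (ℓ ^ (2 * c)) U i⌋₊ := Nat.le_floor (by push_cast; exact hM2)
          omega
        refine le_trans (le_of_eq ?_) hZ0
        apply Finset.sum_eq_zero
        intro k _
        rw [hfA k, hQe]
        unfold PQ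
        simp
      have hYM : 15 < 3 * (Y : ℝ) / MM (ℓ ^ (2 * c)) U i := by
        have h1 : (0 : ℝ) < MM (ℓ ^ (2 * c)) U i := by linarith
        rw [lt_div_iff₀ h1]
        have h2 : (100000 : ℝ) ≤ (Y : ℝ) ^ (1 / 4 : ℝ) := by
          refine le_trans ?_ g1
          have : (1 : ℝ) ≤ ℓ ^ (A₂ + 2) := one_le_pow₀ hl1
          linarith
        have h3 : (U : ℝ) ≤ (Y : ℝ) ^ (1 / 4 : ℝ) := by
          calc (U : ℝ) = ((U : ℝ) ^ 4) ^ (1 / 4 : ℝ) := by
                rw [← Real.rpow_natCast, ← Real.rpow_mul hUr0.le]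
                norm_num
            _ ≤ (Y : ℝ) ^ (1 / 4 : ℝ) := Real.rpow_le_rpow (by positivity) hU4r (by positivity)
        have h4 : (Y : ℝ) = (Y : ℝ) ^ (1 / 4 : ℝ) * (Y : ℝ) ^ (3 / 4 : ℝ) := by
          rw [← Real.rpow_add hY0]
          norm_num
        have h5 : (Y : ℝ) ^ (1 / 4 : ℝ) ≤ (Y : ℝ) ^ (3 / 4 : ℝ) := Real.rpow_le_rpow_of_exponent_le hYr1 (by norm_num)
        nlinarith
      obtain ⟨k1, k2, k3, k4⟩ := floor_geom hDD U Y i hU1 15 le_rfl hYM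
      obtain ⟨M, hM⟩ : ∃ M, M = MM (ℓ ^ (2 * c)) U i := ⟨_, rfl⟩
      rw [← hM] at hMU hM2 hYM k1 k2 k3 k4
      have hM0 : 0 < M := by linarith
      obtain ⟨N, hN⟩ : ∃ N, N = ⌊(Y : ℝ) / M⌋₊ := ⟨_, rfl⟩
      rw [← hN] at k1 k2 k3 k4
      have hNr : (3 : ℝ) ≤ N := by exact_mod_cast k2
      have hNlt : (Y : ℝ) / M < N + 1 := by rw [hN]; exact Nat.lt_floor_add_one _
      have hNU : (N : ℝ) * U ≤ Y := by nlinarith
      have hNle : (Y : ℝ) ≤ 4 * (U * N) := by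
        have h1 : (Y : ℝ) < (N + 1) * M := by rwa [div_lt_iff₀ hM0] at hNlt
        nlinarith
      -- the sizes
      have hU2 : (U : ℝ) ^ 2 * (U : ℝ) ^ 2 ≤ Y := by
        have h1 : (U : ℝ) ^ 2 * (U : ℝ) ^ 2 = (U : ℝ) ^ 4 := by ring
        rw [h1]
        exact hU4r
      have hNsq : (Y : ℝ) ≤ (N : ℝ) ^ 2 := by
        -- Y ≤ 4 U N, U ≤ Y^{1/4}
        have h1 : (Y : ℝ) ^ 2 ≤ 16 * U ^ 2 * N ^ 2 := by
          calc (Y : ℝ) ^ 2 ≤ (4 * (U * N)) ^ 2 := pow_le_pow_left₀ hY0.le hNle 2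
            _ = _ := by ring
        have h2 : 16 * (U : ℝ) ^ 2 ≤ Y := by
          have h3 : (16 : ℝ) ≤ U ^ 2 ∨ (U : ℝ) ^ 2 < 16 := le_or_gt _ _
          have hY256 : (256 : ℝ) ≤ Y := by
            have h5 : (100000 : ℝ) ≤ (Y : ℝ) ^ (1 / 4 : ℝ) := by
              refine le_trans ?_ g1
              have : (1 : ℝ) ≤ ℓ ^ (A₂ + 2) := one_le_pow₀ hl1
              linarith
            have h6 : (Y : ℝ) ^ (1 / 4 : ℝ) ≤ (Y : ℝ) ^ (1 : ℝ) := Real.rpow_le_rpow_of_exponent_le hYr1 (by norm_num)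
            rw [Real.rpow_one] at h6
            linarith
          rcases h3 with h3 | h3
          · nlinarith
          · nlinarith
        have h4 : (Y : ℝ) * Y ≤ Y * (N : ℝ) ^ 2 := by nlinarith [sq_nonneg (N : ℝ)]
        exact le_of_mul_le_mul_left h4 hY0
      have hN1 : (1 : ℝ) ≤ N := by linarith
      have hN0 : (0 : ℝ) < N := by linarith
      have hNY : (N : ℝ) ≤ Y := by nlinarith
      obtain ⟨lN, hlN⟩ : ∃ lN, lN = Real.log N := ⟨_, rfl⟩
      have hlN1 : ℓ / 2 ≤ lN := by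
        have h1 : Real.log Y ≤ Real.log ((N : ℝ) ^ 2) := Real.log_le_log hY0 hNsq
        rw [Real.log_pow, ← hℓ, ← hlN] at h1
        push_cast at h1
        linarith
      have hlN2 : lN ≤ ℓ := by rw [hlN, hℓ]; exact Real.log_le_log hN0 hNY
      have hlNpos : 0 < lN := by linarith
      have hlNsq : ℓ ≤ lN ^ 2 := by nlinarith
      have hN2' : Y2 ≤ N := by
        have h1 : ((Y2 ^ 2 : ℕ) : ℝ) ≤ ((N ^ 2 : ℕ) : ℝ) := by
          push_cast
          exact le_trans (by exact_mod_cast i1) hNsq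
        have h2 : Y2 ^ 2 ≤ N ^ 2 := by exact_mod_cast h1
        exact (Nat.pow_le_pow_iff_left (by norm_num)).1 h2
      have hN3' : Y3 ≤ N := by
        have h1 : ((Y3 ^ 2 : ℕ) : ℝ) ≤ ((N ^ 2 : ℕ) : ℝ) := by
          push_cast
          exact le_trans (by exact_mod_cast i2) hNsq
        have h2 : Y3 ^ 2 ≤ N ^ 2 := by exact_mod_cast h1
        exact (Nat.pow_le_pow_iff_left (by norm_num)).1 h2
      have hqN : (q : ℝ) ≤ lN ^ (2 * B) := by
        refine hqB.trans ?_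
        rw [pow_mul]
        exact pow_le_pow_left₀ hl0.le hlNsq B
      have hzN : (z : ℝ) ≤ lN ^ (2 * E₁) := by
        refine hzE.trans ?_
        rw [pow_mul]
        exact pow_le_pow_left₀ hl0.le hlNsq E₁
      -- the second factor
      have hJJ : JJ (ℓ ^ (2 * c)) U 0 Y i = Ioc N ⌊3 * (Y : ℝ) / M⌋₊ := by
        unfold JJ
        rw [← hM, ← hN]
        have h1 : max 0 N = N := by omega
        have h2 : min ⌊3 * (Y : ℝ) / M⌋₊ (3 * Y) = ⌊3 * (Y : ℝ) / M⌋₊ := by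
          apply min_eq_left
          have h3 : 3 * (Y : ℝ) / M ≤ ((3 * Y : ℕ) : ℝ) := by
            push_cast
            apply div_le_self (by positivity)
            linarith
          exact Nat.floor_le_of_le h3
        rw [h1, h2]
      obtain ⟨N3, hN3⟩ : ∃ N3, N3 = ⌊3 * (Y : ℝ) / M⌋₊ := ⟨_, rfl⟩
      rw [← hN3] at hJJ k3
      have hN3lo : 3 * N ≤ N3 := by
        rw [hN3]
        apply Nat.le_floor
        push_cast
        rw [le_div_iff₀ hM0]
        linarith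
      have hN3hi : N3 < 3 * N + 3 := by
        have h1 : (N3 : ℝ) ≤ 3 * Y / M := by rw [hN3]; exact Nat.floor_le (by positivity)
        have h2 : 3 * (Y : ℝ) / M = 3 * (Y / M) := by ring
        have h3 : (N3 : ℝ) < 3 * N + 3 := by linarith
        exact_mod_cast h3
      have hN3Y : N3 ≤ 3 * Y := by
        rw [hN3]
        have h3 : 3 * (Y : ℝ) / M ≤ ((3 * Y : ℕ) : ℝ) := by
          push_cast
          apply div_le_self (by positivity)
          linarith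
        exact Nat.floor_le_of_le h3
      set fB : ℤ → ℂ := fun k => DP ((JJ (ℓ ^ (2 * c)) U 0 Y i).filter (fun m => m % q = s')) (dl z) k with hfB
      -- energy of the second factor
      have hEn : ∑ k ∈ FK K₁, ‖fB k‖ ^ 2 ≤ C * (3 * ℓ) * ((4 * Y / U) * (3 * Y / U * (3 * ℓ) ^ 2)) := by
        have h3YU : (N3 : ℝ) ≤ 3 * Y / U := by
          have h1 : (N3 : ℝ) ≤ 3 * Y / M := by rw [hN3]; exact Nat.floor_le (by positivity)
          refine h1.trans ?_
          gcongr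
        have h1 := energy hC hmv ((JJ (ℓ ^ (2 * c)) U 0 Y i).filter (fun m => m % q = s')) (dl z) (3 * Y) (3 * Y / U)
          (3 * Y / U * (3 * ℓ) ^ 2) K₁ (by linarith) (by positivity) (div_le_self (by positivity) hUr) (by
            intro n hn
            rw [mem_filter, hJJ, mem_Ioc] at hn
            refine ⟨by omega, le_trans (by exact_mod_cast hn.1.2) h3YU⟩) (by
            have h2 : ∀ n ∈ (JJ (ℓ ^ (2 * c)) U 0 Y i).filter (fun m => m % q = s'), ‖dl z n‖ ^ 2 ≤ (3 * ℓ) ^ 2 := by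
              intro n hn
              rw [mem_filter, hJJ, mem_Ioc] at hn
              exact pow_le_pow_left₀ (norm_nonneg _) (hb n (by omega) (by omega)) 2
            refine (sum_le_card_nsmul _ _ _ h2).trans ?_
            rw [nsmul_eq_mul]
            apply mul_le_mul_of_nonneg_right _ (by positivity)
            have h3 : ((JJ (ℓ ^ (2 * c)) U 0 Y i).filter (fun m => m % q = s')).card ≤ N3 := by
              refine (card_filter_le _ _).trans ?_
              rw [hJJ, Nat.card_Ioc]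
              omega
            exact le_trans (by exact_mod_cast h3) h3YU) hK1
        refine h1.trans ?_
        have h2 : 1 + Real.log (3 * (Y : ℝ)) ≤ 3 * ℓ := by
          have h3 : Real.log (3 * (Y : ℝ)) ≤ 2 * ℓ := (Real.log_le_log (by positivity) (by linarith)).trans hlog9
          linarith
        have h4 : 3 * (Y : ℝ) / U + K₁ ≤ 4 * Y / U := by
          have h5 : (K₁ : ℝ) ≤ Y / U := by
            rw [le_div_iff₀ hUr0]
            have : (0 : ℝ) ≤ (K₁ : ℝ) * U := by positivity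
            linarith
          have h6 : 4 * (Y : ℝ) / U = 3 * Y / U + Y / U := by ring
          linarith
        gcongr
      -- the sparse set
      set T := KK.filter (fun k => (U : ℝ) ^ (1 - α / 2 / 8) < ‖PQ Qi k‖) with hT
      set T' := KK.filter (fun k => ¬ (U : ℝ) ^ (1 - α / 2 / 8) < ‖PQ Qi k‖) with hT'
      have hQiU : Qi ⊆ Ioc U (2 * U) := (filter_subset _ _).trans hSU
      have hQip : ∀ p ∈ Qi, p.Prime := fun p hp => hS p ((filter_subset _ _) hp)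
      have hKKN : KK ⊆ FK N := by
        intro k hk
        rw [hKK, mem_filter] at hk
        have h1 := hk.1
        unfold FK at h1 ⊢
        rw [Finset.mem_Ioo] at h1 ⊢
        have h2 : K₁ ≤ N := by
          have h3 : (K₁ : ℝ) * (4 * U) ≤ (N : ℝ) * (4 * U) := by linarith
          have h4 := le_of_mul_le_mul_right h3 (by positivity)
          exact_mod_cast h4
        omega
      have hcardT : (T.card : ℝ) ≤ (N : ℝ) ^ α := by
        have h1 := hts U hUa₁ hUY Qi hQip hQiU T (by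
          intro k hk
          have h2 := (filter_subset _ _) ((filter_subset _ _) hk)
          unfold FK at h2 ⊢
          rw [Finset.mem_Ioo] at h2 ⊢
          omega) (fun k hk => (mem_filter.1 hk).2)
        refine h1.trans ?_
        calc (Y : ℝ) ^ (α / 2) ≤ ((N : ℝ) ^ 2) ^ (α / 2) := Real.rpow_le_rpow hY0.le hNsq (by positivity)
          _ = (N : ℝ) ^ α := by
              rw [← Real.rpow_natCast, ← Real.rpow_mul hN0.le]
              congr 1
              push_cast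
              ring
      have hQn : ∀ k, ‖PQ Qi k‖ ≤ U := by
        intro k
        unfold PQ
        refine (norm_sum_le _ _).trans ?_
        have h0 : ∀ g ∈ Qi, ‖ch k (Real.log (g : ℝ))‖ = 1 := fun g _ => ch_norm _ _
        rw [sum_congr rfl h0, sum_const, nsmul_eq_mul, mul_one]
        have h1 := card_le_card hQiU
        rw [Nat.card_Ioc] at h1
        have h2 : Qi.card ≤ U := by omega
        exact_mod_cast h2
      -- small values
      have hsmall : ∑ k ∈ T', (‖PQ Qi k‖ * ‖fB k‖) ^ 2 ≤ 1 / 2 * Z := by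
        have hUp : ((U : ℝ) ^ (1 - α / 2 / 8)) ^ 2 * ℓ ^ (A₂ + 4) ≤ (U : ℝ) ^ 2 := by
          have h1 : ℓ ^ (A₂ + 4) ≤ (U : ℝ) ^ (α / 8) := by
            have h2 : ((A₂ + 4 : ℕ) : ℝ) ≤ a₂ * (α / 8) := by
              have h3 : 8 * ((A₂ : ℝ) + 4) / α ≤ a₂ := by rw [ha₂]; exact Nat.le_ceil _
              rw [div_le_iff₀ hα] at h3
              push_cast
              linarith
            calc ℓ ^ (A₂ + 4) = ℓ ^ ((A₂ + 4 : ℕ) : ℝ) := (Real.rpow_natCast _ _).symm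
              _ ≤ ℓ ^ (a₂ * (α / 8) : ℝ) := Real.rpow_le_rpow_of_exponent_le hl1 h2
              _ = (ℓ ^ a₂) ^ (α / 8) := by rw [Real.rpow_mul hl0.le, Real.rpow_natCast]
              _ ≤ (U : ℝ) ^ (α / 8) := Real.rpow_le_rpow (by positivity) hUa₂ (by positivity)
          calc ((U : ℝ) ^ (1 - α / 2 / 8)) ^ 2 * ℓ ^ (A₂ + 4) ≤ ((U : ℝ) ^ (1 - α / 2 / 8)) ^ 2 * (U : ℝ) ^ (α / 8) := by gcongr
            _ = (U : ℝ) ^ 2 := by
                rw [← Real.rpow_natCast, ← Real.rpow_mul hUr0.le, ← Real.rpow_add hUr0, ← Real.rpow_natCast]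
                congr 1
                push_cast
                ring
        calc ∑ k ∈ T', (‖PQ Qi k‖ * ‖fB k‖) ^ 2 ≤ ∑ k ∈ T', ((U : ℝ) ^ (1 - α / 2 / 8)) ^ 2 * ‖fB k‖ ^ 2 := by
              refine sum_le_sum fun k hk => ?_
              rw [mul_pow]
              have h1 := not_lt.1 (mem_filter.1 hk).2
              gcongr
          _ = ((U : ℝ) ^ (1 - α / 2 / 8)) ^ 2 * ∑ k ∈ T', ‖fB k‖ ^ 2 := by rw [mul_sum]
          _ ≤ ((U : ℝ) ^ (1 - α / 2 / 8)) ^ 2 * ∑ k ∈ FK K₁, ‖fB k‖ ^ 2 := by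
              apply mul_le_mul_of_nonneg_left _ (by positivity)
              apply sum_le_sum_of_subset_of_nonneg _ fun _ _ _ => by positivity
              exact (filter_subset _ _).trans (filter_subset _ _)
          _ ≤ ((U : ℝ) ^ (1 - α / 2 / 8)) ^ 2 * (C * (3 * ℓ) * ((4 * Y / U) * (3 * Y / U * (3 * ℓ) ^ 2))) := by gcongr
          _ = (((U : ℝ) ^ (1 - α / 2 / 8)) ^ 2 * ℓ ^ (A₂ + 4)) * (324 * C * Y ^ 2 / (U ^ 2 * (ℓ * ℓ ^ A₂))) := by
              rw [pow_add ℓ A₂ 4]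
              field_simp
              ring
          _ ≤ (U : ℝ) ^ 2 * (324 * C * Y ^ 2 / (U ^ 2 * (ℓ * ℓ ^ A₂))) := by gcongr
          _ = 1 / 2 * ((Y : ℝ) ^ 2 / ℓ ^ A₂) * (648 * C / ℓ) := by
              field_simp
              ring
          _ ≤ 1 / 2 * ((Y : ℝ) ^ 2 / ℓ ^ A₂) * 1 := by
              apply mul_le_mul_of_nonneg_left _ (by positivity)
              rw [div_le_one hl0]
              exact hlC2
          _ = 1 / 2 * Z := by rw [hZ, mul_one]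
      -- large values
      have hlarge : ∑ k ∈ T, (‖PQ Qi k‖ * ‖fB k‖) ^ 2 ≤ 1 / 2 * Z := by
        have hTN : T ⊆ FK N := (filter_subset _ _).trans hKKN
        have hTk : ∀ K' : ℕ, K' ≤ max K2 K3 → ∀ k ∈ T, lN ^ K' ≤ |(k : ℝ)| := by
          intro K' hK' k hk
          have h1 := (mem_filter.1 ((filter_subset _ _) hk)).2
          refine le_trans ?_ h1
          calc lN ^ K' ≤ ℓ ^ K' := pow_le_pow_left₀ hlNpos.le hlN2 K'
            _ ≤ ℓ ^ max K2 K3 := pow_le_pow_right₀ hl1 hK'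
        have b1 := hF N hN2' q s' hq (by rw [← hlN]; exact hqN) hsq' T hTN (by rw [← hlN]; exact hTk K2 (le_max_left _ _)) hcardT
        have b2 := hZf N hN3' q s' hq (by rw [← hlN]; exact hqN) z hz (by rw [← hlN]; exact hzN) T hTN
          (by rw [← hlN]; exact hTk K3 (le_max_right _ _)) (hcardT.trans (Real.rpow_le_rpow_of_exponent_le hN1 hα1))
        rw [← hlN, Nat.mod_eq_of_lt hs'] at b1 b2
        have hsplit : ∀ k, ‖fB k‖ ^ 2 ≤ 3 * (‖DP ((Ioc N (3 * N)).filter (fun n => n % q = s')) (fun n => (ArithmeticFunction.vonMangoldt n : ℂ)) k‖ ^ 2 +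
            ‖DP ((Ioc N (3 * N)).filter (fun n => n % q = s')) (fun n => ((lamz z n : ℝ) : ℂ)) k‖ ^ 2 + (9 * ℓ) ^ 2) := by
          intro k
          have e1 : (Ioc N N3).filter (fun m => m % q = s') =
              (Ioc N (3 * N)).filter (fun m => m % q = s') ∪ (Ioc (3 * N) N3).filter (fun m => m % q = s') := by
            rw [← filter_union, Ioc_union_Ioc_eq_Ioc (by omega) hN3lo]
          have e2 : fB k = DP ((Ioc N (3 * N)).filter (fun n => n % q = s')) (fun n => (ArithmeticFunction.vonMangoldt n : ℂ)) k -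
              DP ((Ioc N (3 * N)).filter (fun n => n % q = s')) (fun n => ((lamz z n : ℝ) : ℂ)) k +
              DP ((Ioc (3 * N) N3).filter (fun n => n % q = s')) (dl z) k := by
            simp only [hfB]
            rw [hJJ, e1]
            unfold DP
            rw [sum_union, ← sum_sub_distrib]
            · congr 1
              apply sum_congr rfl
              intro n _
              unfold dl
              ring
            · rw [Finset.disjoint_left]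
              intro n hn hn'
              rw [mem_filter, mem_Ioc] at hn hn'
              omega
          have e3 : ‖DP ((Ioc (3 * N) N3).filter (fun n => n % q = s')) (dl z) k‖ ≤ 9 * ℓ := by
            unfold DP
            refine (norm_sum_le _ _).trans ?_
            have h1 : ∀ n ∈ (Ioc (3 * N) N3).filter (fun n => n % q = s'), ‖dl z n * ch k (Real.log n)‖ ≤ 3 * ℓ := by
              intro n hn
              rw [mem_filter, mem_Ioc] at hn
              rw [norm_mul, ch_norm, mul_one]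
              exact hb n (by omega) (by omega)
            refine (sum_le_card_nsmul _ _ _ h1).trans ?_
            rw [nsmul_eq_mul]
            have h2 : ((Ioc (3 * N) N3).filter (fun n => n % q = s')).card ≤ 3 := by
              refine (card_filter_le _ _).trans ?_
              rw [Nat.card_Ioc]
              omega
            have h3 : ((((Ioc (3 * N) N3).filter (fun n => n % q = s')).card : ℕ) : ℝ) ≤ 3 := by exact_mod_cast h2
            nlinarith
          rw [e2]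
          set u := DP ((Ioc N (3 * N)).filter (fun n => n % q = s')) (fun n => (ArithmeticFunction.vonMangoldt n : ℂ)) k
          set v := DP ((Ioc N (3 * N)).filter (fun n => n % q = s')) (fun n => ((lamz z n : ℝ) : ℂ)) k
          set w := DP ((Ioc (3 * N) N3).filter (fun n => n % q = s')) (dl z) k
          have h1 : ‖u - v + w‖ ≤ ‖u‖ + ‖v‖ + 9 * ℓ := by
            calc ‖u - v + w‖ ≤ ‖u - v‖ + ‖w‖ := norm_add_le _ _
              _ ≤ ‖u‖ + ‖v‖ + 9 * ℓ := add_le_add (norm_sub_le _ _) e3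
          refine (pow_le_pow_left₀ (norm_nonneg _) h1 2).trans ?_
          nlinarith [sq_nonneg (‖u‖ - ‖v‖), sq_nonneg (‖u‖ - 9 * ℓ), sq_nonneg (‖v‖ - 9 * ℓ)]
        have hlp : ℓ ^ (A₂ + 5) ≤ 2 ^ (A₂ + 5) * lN ^ (A₂ + 5) := by
          rw [← mul_pow]
          exact pow_le_pow_left₀ hl0.le (by linarith) _
        have hNl : (N : ℝ) ^ 2 / lN ^ (A₂ + 5) ≤ (N : ℝ) ^ 2 * (1 / (48 * ℓ ^ (A₂ + 4))) := by
          rw [mul_one_div]
          apply div_le_div_of_nonneg_left (by positivity) (by positivity)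
          have h1 : 48 * ℓ ^ (A₂ + 4) * 2 ^ (A₂ + 5) ≤ lN ^ (A₂ + 5) * 2 ^ (A₂ + 5) := by
            calc 48 * ℓ ^ (A₂ + 4) * 2 ^ (A₂ + 5) = ℓ ^ (A₂ + 4) * (48 * 2 ^ (A₂ + 5)) := by ring
              _ ≤ ℓ ^ (A₂ + 4) * ℓ := by gcongr
              _ = ℓ ^ (A₂ + 5) := by ring
              _ ≤ lN ^ (A₂ + 5) * 2 ^ (A₂ + 5) := by linarith
          exact le_of_mul_le_mul_right h1 (by positivity)
        calc ∑ k ∈ T, (‖PQ Qi k‖ * ‖fB k‖) ^ 2 ≤ ∑ k ∈ T, (U : ℝ) ^ 2 * ‖fB k‖ ^ 2 := by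
              refine sum_le_sum fun k _ => ?_
              rw [mul_pow]
              have := hQn k
              gcongr
          _ ≤ ∑ k ∈ T, (U : ℝ) ^ 2 * (3 * (‖DP ((Ioc N (3 * N)).filter (fun n => n % q = s')) (fun n => (ArithmeticFunction.vonMangoldt n : ℂ)) k‖ ^ 2 +
            ‖DP ((Ioc N (3 * N)).filter (fun n => n % q = s')) (fun n => ((lamz z n : ℝ) : ℂ)) k‖ ^ 2 + (9 * ℓ) ^ 2)) := by
              refine sum_le_sum fun k _ => ?_
              exact mul_le_mul_of_nonneg_left (hsplit k) (by positivity)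
          _ = (U : ℝ) ^ 2 * (3 * (∑ k ∈ T, ‖DP ((Ioc N (3 * N)).filter (fun n => n % q = s')) (fun n => (ArithmeticFunction.vonMangoldt n : ℂ)) k‖ ^ 2 +
            ∑ k ∈ T, ‖DP ((Ioc N (3 * N)).filter (fun n => n % q = s')) (fun n => ((lamz z n : ℝ) : ℂ)) k‖ ^ 2 + T.card * (9 * ℓ) ^ 2)) := by
              rw [← mul_sum, ← mul_sum, sum_add_distrib, sum_add_distrib, sum_const, nsmul_eq_mul]
          _ ≤ (U : ℝ) ^ 2 * (3 * ((N : ℝ) ^ 2 * (1 / (48 * ℓ ^ (A₂ + 4))) + (N : ℝ) ^ 2 * (1 / (48 * ℓ ^ (A₂ + 4))) +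
              (Y : ℝ) ^ (1 / 4 : ℝ) * (9 * ℓ) ^ 2)) := by
              have h1 : (T.card : ℝ) ≤ (Y : ℝ) ^ (1 / 4 : ℝ) := by
                refine hcardT.trans ?_
                calc (N : ℝ) ^ α ≤ (N : ℝ) ^ (1 / 4 : ℝ) := Real.rpow_le_rpow_of_exponent_le hN1 (by linarith)
                  _ ≤ (Y : ℝ) ^ (1 / 4 : ℝ) := Real.rpow_le_rpow hN0.le hNY (by positivity)
              have h2 := b1.trans hNl
              have h3 := b2.trans hNl
              gcongr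
          _ ≤ (Y : ℝ) ^ 2 / ℓ ^ A₂ * (1 / 8) + (Y : ℝ) ^ 2 / ℓ ^ A₂ * (1 / 8) := by
              have h1 : (U : ℝ) ^ 2 * (3 * ((N : ℝ) ^ 2 * (1 / (48 * ℓ ^ (A₂ + 4))) + (N : ℝ) ^ 2 * (1 / (48 * ℓ ^ (A₂ + 4))))) ≤
                  (Y : ℝ) ^ 2 / ℓ ^ A₂ * (1 / 8) := by
                calc (U : ℝ) ^ 2 * (3 * ((N : ℝ) ^ 2 * (1 / (48 * ℓ ^ (A₂ + 4))) + (N : ℝ) ^ 2 * (1 / (48 * ℓ ^ (A₂ + 4)))))
                    = ((N : ℝ) * U) ^ 2 / ℓ ^ A₂ * (1 / 8) * (1 / ℓ ^ 4) := by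
                      rw [pow_add ℓ A₂ 4]
                      field_simp
                      ring
                  _ ≤ (Y : ℝ) ^ 2 / ℓ ^ A₂ * (1 / 8) * 1 := by
                      have h2 : 1 / ℓ ^ 4 ≤ 1 := by
                        rw [div_le_one (by positivity)]
                        exact one_le_pow₀ hl1
                      gcongr
                  _ = _ := mul_one _
              have h3 : (U : ℝ) ^ 2 * (3 * ((Y : ℝ) ^ (1 / 4 : ℝ) * (9 * ℓ) ^ 2)) ≤ (Y : ℝ) ^ 2 / ℓ ^ A₂ * (1 / 8) := by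
                have h4 : (U : ℝ) ^ 2 ≤ Y := by nlinarith
                have h5 : 1944 * ℓ ^ (A₂ + 2) ≤ (Y : ℝ) ^ (1 / 4 : ℝ) := by
                  refine le_trans ?_ g1
                  have : 0 ≤ ℓ ^ (A₂ + 2) := by positivity
                  linarith
                have h6 : (Y : ℝ) ^ (1 / 4 : ℝ) * (Y : ℝ) ^ (1 / 4 : ℝ) ≤ Y := by
                  rw [← Real.rpow_add hY0]
                  calc (Y : ℝ) ^ (1 / 4 + 1 / 4 : ℝ) ≤ (Y : ℝ) ^ (1 : ℝ) := Real.rpow_le_rpow_of_exponent_le hYr1 (by norm_num)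
                    _ = Y := Real.rpow_one _
                rw [div_mul_eq_mul_div, le_div_iff₀ (by positivity)]
                calc (U : ℝ) ^ 2 * (3 * ((Y : ℝ) ^ (1 / 4 : ℝ) * (9 * ℓ) ^ 2)) * ℓ ^ A₂
                    = (U : ℝ) ^ 2 * ((Y : ℝ) ^ (1 / 4 : ℝ) * (1944 * ℓ ^ (A₂ + 2))) * (1 / 8) := by
                      rw [pow_add ℓ A₂ 2]
                      ring
                  _ ≤ (Y : ℝ) * ((Y : ℝ) ^ (1 / 4 : ℝ) * (Y : ℝ) ^ (1 / 4 : ℝ)) * (1 / 8) := by gcongr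
                  _ ≤ (Y : ℝ) * Y * (1 / 8) := by gcongr
                  _ = (Y : ℝ) ^ 2 * (1 / 8) := by ring
              have h7 : (U : ℝ) ^ 2 * (3 * ((N : ℝ) ^ 2 * (1 / (48 * ℓ ^ (A₂ + 4))) + (N : ℝ) ^ 2 * (1 / (48 * ℓ ^ (A₂ + 4))) +
                (Y : ℝ) ^ (1 / 4 : ℝ) * (9 * ℓ) ^ 2)) =
                (U : ℝ) ^ 2 * (3 * ((N : ℝ) ^ 2 * (1 / (48 * ℓ ^ (A₂ + 4))) + (N : ℝ) ^ 2 * (1 / (48 * ℓ ^ (A₂ + 4))))) +
                (U : ℝ) ^ 2 * (3 * ((Y : ℝ) ^ (1 / 4 : ℝ) * (9 * ℓ) ^ 2)) := by ring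
              rw [h7]
              exact add_le_add h1 h3
          _ ≤ 1 / 2 * Z := by
              rw [hZ]
              have : 0 ≤ (Y : ℝ) ^ 2 / ℓ ^ A₂ := by positivity
              linarith
      calc ∑ k ∈ KK, (‖DP ((ce (ℓ ^ (2 * c)) U Y i).filter (fun m => m % q = s)) (ind S) k‖ *
            ‖DP ((JJ (ℓ ^ (2 * c)) U 0 Y i).filter (fun m => m % q = s')) (dl z) k‖) ^ 2
          = ∑ k ∈ KK, (‖PQ Qi k‖ * ‖fB k‖) ^ 2 := by
            apply sum_congr rfl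
            intro k _
            rw [hfA k]
        _ = ∑ k ∈ T, (‖PQ Qi k‖ * ‖fB k‖) ^ 2 + ∑ k ∈ T', (‖PQ Qi k‖ * ‖fB k‖) ^ 2 :=
            (sum_filter_add_sum_filter_not _ _ _).symm
        _ ≤ 1 / 2 * Z + 1 / 2 * Z := add_le_add hlarge hsmall
        _ = Z := by ring)
  refine hcore.trans ?_
  have hI := cells ℓ Y (2 * c) (by linarith) hℓ
  have hlA : 0 < ℓ ^ A := by positivity
  have t1 : 2 * (270 * C * (2 * (1 * (3 * ℓ))) ^ 2 * ℓ * (3 * ℓ) ^ 16 * Y ^ 2 / ℓ ^ c) ≤ 1 / 2 * ((Y : ℝ) ^ 2 / ℓ ^ A) := by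
    calc 2 * (270 * C * (2 * (1 * (3 * ℓ))) ^ 2 * ℓ * (3 * ℓ) ^ 16 * Y ^ 2 / ℓ ^ c)
        = 1 / 2 * ((Y : ℝ) ^ 2 / ℓ ^ A) * (38880 * 3 ^ 16 * C / ℓ) := by
          rw [hc, pow_add ℓ A 20, mul_pow 3 ℓ 16]
          field_simp
          ring
      _ ≤ 1 / 2 * ((Y : ℝ) ^ 2 / ℓ ^ A) * 1 := by
          apply mul_le_mul_of_nonneg_left _ (by positivity)
          rw [div_le_one hl0]
          exact hlC1
      _ = _ := mul_one _
  have t2 : 2 * (((⌈ℓ ^ (2 * c) * Real.log ((3 * Y : ℕ) : ℝ)⌉₊ : ℝ) * q ^ 2) ^ 2 * Z) ≤ 1 / 2 * ((Y : ℝ) ^ 2 / ℓ ^ A) := by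
    calc 2 * (((⌈ℓ ^ (2 * c) * Real.log ((3 * Y : ℕ) : ℝ)⌉₊ : ℝ) * q ^ 2) ^ 2 * Z)
        ≤ 2 * ((3 * ℓ ^ (2 * c + 1) * (ℓ ^ B) ^ 2) ^ 2 * Z) := by gcongr
      _ = 1 / 2 * ((Y : ℝ) ^ 2 / ℓ ^ A) * (36 / ℓ ^ 2) := by
          rw [hZ, hA₂, show A + 4 * c + 4 * B + 4 = A + (c + c + (c + c)) + (B + B + (B + B)) + 4 by ring, show 2 * c + 1 = c + c + 1 by ring]
          simp only [pow_add, pow_one]
          field_simp
          ring
      _ ≤ 1 / 2 * ((Y : ℝ) ^ 2 / ℓ ^ A) * 1 := by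
          apply mul_le_mul_of_nonneg_left _ (by positivity)
          rw [div_le_one (by positivity)]
          nlinarith
      _ = _ := mul_one _
  linarith

end Pool.Agent.H561.E2
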