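import Pool.Agent.H561.E2.A7
import Pool.Graph.R_seed8.H373R2.T7.LamMaj

set_option autoImplicit false

/-! Long sums of the convolution of a set of primes with the primes minus the sieve model. -/

namespace Pool.Agent.H561.E2

open Finset
open Pool.Agent.helper24_UT
open Pool.Agent.helper24_UT.II
open Pool.Agent.H376R2.MR (ch er DP FK)
open Pool.Agent.H373R2.T7 (Vz pz lamz mem_pz Vz_pos Vz_inv_small lam_ap lamz_ap)

/-- the convolution -/
noncomputable def gm (S : Finset ℕ) (z n : ℕ) : ℂ := ∑ g ∈ S, if g ∣ n then dl z (n / g) else 0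

lemma gm_eq (S : Finset ℕ) (U z n : ℕ) (hn : n ≠ 0) (hS : S ⊆ Ioc U (2 * U)) :
    ∑ x ∈ n.divisorsAntidiagonal.filter (fun x => U < x.1 ∧ 0 < x.2), ind S x.1 * dl z x.2 = gm S z n := by
  have h1 : ∑ x ∈ n.divisorsAntidiagonal.filter (fun x => U < x.1 ∧ 0 < x.2), ind S x.1 * dl z x.2 =
      ∑ x ∈ n.divisorsAntidiagonal, ind S x.1 * dl z x.2 := by
    apply sum_subset (filter_subset _ _)
    intro x hx hx'
    rw [mem_filter, not_and] at hx'
    have h2 := hx' hx
    rw [Nat.mem_divisorsAntidiagonal] at hx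
    unfold ind
    split_ifs with h
    · exfalso
      apply h2
      have h3 := hS h
      rw [mem_Ioc] at h3
      refine ⟨h3.1, Nat.pos_of_ne_zero ?_⟩
      intro h4
      rw [h4, mul_zero] at hx
      exact hx.2 hx.1.symm
    · rw [zero_mul]
  rw [h1, Nat.sum_divisorsAntidiagonal (f := fun d e => ind S d * dl z e)]
  unfold gm
  rw [← sum_filter]
  have h2 : S.filter (fun g => g ∣ n) ⊆ n.divisors := by
    intro g hg
    rw [mem_filter] at hg
    rw [Nat.mem_divisors]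
    exact ⟨hg.2, hn⟩
  rw [← sum_subset h2]
  · apply sum_congr rfl
    intro g hg
    rw [mem_filter] at hg
    unfold ind
    rw [if_pos hg.1, one_mul]
  · intro g hg hg'
    rw [mem_filter, not_and] at hg'
    unfold ind
    rw [if_neg, zero_mul]
    intro h
    exact hg' h (Nat.dvd_of_mem_divisors hg)

lemma multiples (g m m' q r : ℕ) (hg : 1 ≤ g) (F : ℕ → ℂ) :
    ∑ n ∈ (Ioc m m').filter (fun n => n % q = r % q), (if g ∣ n then F (n / g) else 0) =
      ∑ l ∈ (Ioc (m / g) (m' / g)).filter (fun l => (g * l) % q = r % q), F l := by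
  rw [← sum_filter]
  refine Finset.sum_nbij' (fun n => n / g) (fun c => g * c) ?_ ?_ ?_ ?_ ?_
  · intro n hn
    simp only [mem_filter, mem_Ioc] at hn ⊢
    obtain ⟨⟨⟨h1, h2⟩, h3⟩, c, rfl⟩ := hn
    rw [Nat.mul_div_cancel_left _ hg]
    refine ⟨⟨?_, ?_⟩, h3⟩
    · rw [Nat.div_lt_iff_lt_mul hg, mul_comm]; exact h1
    · rw [Nat.le_div_iff_mul_le hg, mul_comm]; exact h2
  · intro c hc
    simp only [mem_filter, mem_Ioc] at hc ⊢
    obtain ⟨⟨h1, h2⟩, h3⟩ := hc
    rw [Nat.div_lt_iff_lt_mul hg, mul_comm] at h1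
    rw [Nat.le_div_iff_mul_le hg, mul_comm] at h2
    exact ⟨⟨⟨h1, h2⟩, h3⟩, dvd_mul_right _ _⟩
  · intro n hn
    simp only [mem_filter, mem_Ioc] at hn
    exact Nat.mul_div_cancel' hn.2
  · intro c _
    exact Nat.mul_div_cancel_left _ hg
  · intro n _
    rfl

/-- the long sums -/
def S_LOW : Prop := ∀ A B E₁ : ℕ, ∃ Y₀ : ℕ, ∀ Y : ℕ, Y₀ ≤ Y → ∀ q r : ℕ, 1 ≤ q → (q : ℝ) ≤ (Real.log Y) ^ B →
  ∀ z : ℕ, (Real.log Y) ^ B ≤ z → (z : ℝ) ≤ (Real.log Y) ^ E₁ → ∀ U : ℕ, 1 ≤ U → U ^ 4 ≤ Y →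
  ∀ S : Finset ℕ, S ⊆ Ioc U (2 * U) → ∀ m m' : ℕ, m ≤ m' → m' ≤ 3 * Y →
  ‖∑ n ∈ (Ioc m m').filter (fun n => n % q = r % q), gm S z n‖ ≤ Y / (Real.log Y) ^ A

theorem t_LOW : S_LOW := by
  intro A B E₁
  obtain ⟨A₂, hA₂⟩ : ∃ A₂ : ℕ, A₂ = A + B + 1 := ⟨_, rfl⟩
  obtain ⟨N1, h1⟩ := lam_ap (2 * B) A₂
  obtain ⟨N2, h2⟩ := lamz_ap (2 * E₁) A₂
  obtain ⟨Y5, hY5⟩ := Filter.eventually_atTop.1 (Pool.Agent.helper24_UT.Sil2.ev_log (max 100 (16 * 2 ^ A₂)))
  refine ⟨max (max (N1 ^ 2) (N2 ^ 2)) Y5, ?_⟩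
  intro Y hY q r hq hqB z hzB hzE U hU hU4 S hS m m' hmm hm'
  have i1 : N1 ^ 2 ≤ Y := ((le_max_left _ _).trans (le_max_left _ _)).trans hY
  have i2 : N2 ^ 2 ≤ Y := ((le_max_right _ _).trans (le_max_left _ _)).trans hY
  have i5 : Y5 ≤ Y := (le_max_right _ _).trans hY
  have g2 := hY5 Y i5
  obtain ⟨ℓ, hℓ⟩ : ∃ ℓ, ℓ = Real.log Y := ⟨_, rfl⟩
  rw [← hℓ] at g2 hqB hzB hzE ⊢
  have hl100 : 100 ≤ ℓ := (le_max_left _ _).trans g2
  have hl2 : 16 * 2 ^ A₂ ≤ ℓ := (le_max_right _ _).trans g2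
  have hl0 : 0 < ℓ := by linarith
  have hl1 : 1 ≤ ℓ := by linarith
  have hY0 : (0 : ℝ) < Y := by
    by_contra h
    push Not at h
    have : (Y : ℝ) = 0 := le_antisymm h (Nat.cast_nonneg _)
    rw [this, Real.log_zero] at hℓ
    linarith
  have hexpl : Real.exp ℓ = Y := by rw [hℓ]; exact Real.exp_log hY0
  have hY100 : (100 : ℝ) ≤ Y := by
    have := Real.add_one_le_exp ℓ
    linarith
  have hYn : 100 ≤ Y := by exact_mod_cast hY100
  have hUr : (1 : ℝ) ≤ U := by exact_mod_cast hU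
  have hqz : q ≤ z := by
    have : (q : ℝ) ≤ z := hqB.trans hzB
    exact_mod_cast this
  have hz : 1 ≤ z := hq.trans hqz
  have hqr : (1 : ℝ) ≤ q := by exact_mod_cast hq
  have hlA : 0 < ℓ ^ A := by positivity
  -- one prime
  have hone : ∀ g ∈ S, ‖∑ l ∈ (Ioc (m / g) (m' / g)).filter (fun l => (g * l) % q = r % q), dl z l‖ ≤
      Y / U / ℓ ^ A := by
    intro g hg
    have hgU := hS hg
    rw [mem_Ioc] at hgU
    have hg1 : 1 ≤ g := by omega
    have hgr : (U : ℝ) ≤ g := by exact_mod_cast hgU.1.le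
    have hg0 : (0 : ℝ) < g := by linarith
    set N := 3 * Y / g with hN
    have hNle : (N : ℝ) ≤ 3 * (Y / U) := by
      have h3 : (N : ℝ) ≤ ((3 * Y : ℕ) : ℝ) / g := Nat.cast_div_le
      push_cast at h3
      refine h3.trans ?_
      rw [mul_div_assoc]
      gcongr
    have hNsq : (Y : ℝ) ≤ (N : ℝ) ^ 2 := by
      have h3 : (3 * Y : ℕ) < g * (N + 1) := Nat.lt_mul_div_succ _ hg1
      have h4 : 3 * (Y : ℝ) < g * (N + 1) := by exact_mod_cast h3
      have h5 : (g : ℝ) ≤ 2 * U := by exact_mod_cast hgU.2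
      have h6 : 3 * (Y : ℝ) < 2 * U * (N + 1) := by nlinarith
      have hU4r : (U : ℝ) ^ 4 ≤ Y := by exact_mod_cast hU4
      have h7 : (U : ℝ) ^ 2 * (U : ℝ) ^ 2 ≤ Y := by nlinarith
      have h8 : (U : ℝ) ^ 2 * 10 ≤ Y := by
        rcases le_or_gt (10 : ℝ) ((U : ℝ) ^ 2) with h9 | h9
        · nlinarith
        · nlinarith
      have h9 : (Y : ℝ) < U * N := by
        have h10 : 2 * (U : ℝ) ≤ Y := by nlinarith
        nlinarith
      have h10 : (Y : ℝ) ^ 2 ≤ (U * N) ^ 2 := pow_le_pow_left₀ hY0.le h9.le 2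
      have h11 : (Y : ℝ) * Y ≤ Y * (N : ℝ) ^ 2 := by nlinarith [sq_nonneg (N : ℝ)]
      exact le_of_mul_le_mul_left h11 hY0
    have hNge1 : (1 : ℝ) ≤ N := by nlinarith [Nat.cast_nonneg (α := ℝ) N]
    have hN0 : (0 : ℝ) < N := by linarith
    have hN1 : N1 ≤ N := by
      have h3 : ((N1 ^ 2 : ℕ) : ℝ) ≤ ((N ^ 2 : ℕ) : ℝ) := by
        push_cast
        exact le_trans (by exact_mod_cast i1) hNsq
      have h4 : N1 ^ 2 ≤ N ^ 2 := by exact_mod_cast h3
      exact (Nat.pow_le_pow_iff_left (by norm_num)).1 h4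
    have hN2 : N2 ≤ N := by
      have h3 : ((N2 ^ 2 : ℕ) : ℝ) ≤ ((N ^ 2 : ℕ) : ℝ) := by
        push_cast
        exact le_trans (by exact_mod_cast i2) hNsq
      have h4 : N2 ^ 2 ≤ N ^ 2 := by exact_mod_cast h3
      exact (Nat.pow_le_pow_iff_left (by norm_num)).1 h4
    have hlN1 : ℓ / 2 ≤ Real.log N := by
      have h3 : Real.log Y ≤ Real.log ((N : ℝ) ^ 2) := Real.log_le_log hY0 hNsq
      rw [Real.log_pow, ← hℓ] at h3
      push_cast at h3
      linarith
    have hlNsq : ℓ ≤ (Real.log N) ^ 2 := by nlinarith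
    have hqN : (q : ℝ) ≤ (Real.log N) ^ (2 * B) := by
      refine hqB.trans ?_
      rw [pow_mul]
      exact pow_le_pow_left₀ hl0.le hlNsq B
    have hzN : (z : ℝ) ≤ (Real.log N) ^ (2 * E₁) := by
      refine hzE.trans ?_
      rw [pow_mul]
      exact pow_le_pow_left₀ hl0.le hlNsq E₁
    -- initial sums
    have hini : ∀ s, s < q → ∀ y, y ≤ N → ‖∑ l ∈ (Icc 1 y).filter (fun l => l % q = s), dl z l‖ ≤ 2 * (N / (Real.log N) ^ A₂) := by
      intro s hs y hy
      have a1 := h1 N hN1 q hq hqN s y hy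
      have a2 := h2 N hN2 z hz hzN q hq hqz s y hy
      have e1 : (Icc 1 y).filter (fun l => l ≡ s [MOD q]) = (Icc 1 y).filter (fun l => l % q = s) := by
        apply filter_congr
        intro l _
        unfold Nat.ModEq
        rw [Nat.mod_eq_of_lt hs]
      rw [e1] at a1 a2
      have e2 : ∑ l ∈ (Icc 1 y).filter (fun l => l % q = s), dl z l =
          (((∑ l ∈ (Icc 1 y).filter (fun l => l % q = s), ArithmeticFunction.vonMangoldt l -
            (if s.Coprime q then (y : ℝ) / (Nat.totient q : ℝ) else 0)) -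
          (∑ l ∈ (Icc 1 y).filter (fun l => l % q = s), lamz z l -
            (if s.Coprime q then (y : ℝ) / (Nat.totient q : ℝ) else 0)) : ℝ) : ℂ) := by
        unfold dl
        rw [sum_sub_distrib]
        push_cast
        ring
      rw [e2, Complex.norm_real, Real.norm_eq_abs]
      refine (abs_sub _ _).trans ?_
      linarith
    rw [Pool.Agent.helper24_UT.TI2.class_split q r g (m / g) (m' / g) hq]
    refine (norm_sum_le _ _).trans ?_
    have hcl : ∀ s ∈ (range q).filter (fun s => (g * s) % q = r % q),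
        ‖∑ l ∈ (Ioc (m / g) (m' / g)).filter (fun l => l % q = s), dl z l‖ ≤ 4 * (N / (Real.log N) ^ A₂) := by
      intro s hs
      rw [mem_filter, mem_range] at hs
      have hx1 : m / g ≤ m' / g := Nat.div_le_div_right hmm
      have hx2 : m' / g ≤ N := Nat.div_le_div_right hm'
      have e1 : ∑ l ∈ (Ioc (m / g) (m' / g)).filter (fun l => l % q = s), dl z l =
          ∑ l ∈ (Icc 1 (m' / g)).filter (fun l => l % q = s), dl z l -
          ∑ l ∈ (Icc 1 (m / g)).filter (fun l => l % q = s), dl z l := by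
        rw [eq_sub_iff_add_eq, add_comm, ← sum_union]
        · congr 1
          ext l
          simp only [mem_union, mem_filter, mem_Icc, mem_Ioc]
          constructor
          · rintro (⟨⟨h3, h4⟩, h5⟩ | ⟨⟨h3, h4⟩, h5⟩)
            · exact ⟨⟨h3, h4.trans hx1⟩, h5⟩
            · exact ⟨⟨Nat.succ_le_of_lt (lt_of_le_of_lt (Nat.zero_le _) h3), h4⟩, h5⟩
          · rintro ⟨⟨h3, h4⟩, h5⟩
            by_cases h6 : l ≤ m / g
            · exact Or.inl ⟨⟨h3, h6⟩, h5⟩
            · exact Or.inr ⟨⟨by omega, h4⟩, h5⟩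
        · rw [Finset.disjoint_left]
          intro l hl hl'
          simp only [mem_filter, mem_Icc, mem_Ioc] at hl hl'
          omega
      rw [e1]
      refine (norm_sub_le _ _).trans ?_
      have a1 := hini s hs.1 (m' / g) hx2
      have a2 := hini s hs.1 (m / g) (hx1.trans hx2)
      linarith
    refine (sum_le_card_nsmul _ _ _ hcl).trans ?_
    rw [nsmul_eq_mul]
    have hc : (((range q).filter (fun s => (g * s) % q = r % q)).card : ℝ) ≤ q := by
      have := card_filter_le (range q) (fun s => (g * s) % q = r % q)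
      rw [card_range] at this
      exact_mod_cast this
    have hlp : ℓ ^ A₂ ≤ 2 ^ A₂ * (Real.log N) ^ A₂ := by
      rw [← mul_pow]
      exact pow_le_pow_left₀ hl0.le (by linarith) _
    have hlNpos : 0 < Real.log N := by linarith
    have hYU : 0 ≤ (Y : ℝ) / U := by positivity
    calc (((range q).filter (fun s => (g * s) % q = r % q)).card : ℝ) * (4 * (N / (Real.log N) ^ A₂))
        ≤ ℓ ^ B * (4 * (3 * (Y / U) / (Real.log N) ^ A₂)) := by
          have := hc.trans hqB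
          gcongr
      _ = (Y / U) * (12 * ℓ ^ B / (Real.log N) ^ A₂) := by ring
      _ ≤ (Y / U) * (1 / ℓ ^ A) := by
          apply mul_le_mul_of_nonneg_left _ hYU
          rw [div_le_div_iff₀ (by positivity) hlA, one_mul]
          have h3 : 12 * ℓ ^ B * ℓ ^ A * 2 ^ A₂ ≤ (Real.log N) ^ A₂ * 2 ^ A₂ := by
            calc 12 * ℓ ^ B * ℓ ^ A * 2 ^ A₂ = ℓ ^ B * ℓ ^ A * (12 * 2 ^ A₂) := by ring
              _ ≤ ℓ ^ B * ℓ ^ A * ℓ := by
                  have : (0 : ℝ) ≤ 2 ^ A₂ := by positivity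
                  gcongr
                  linarith
              _ = ℓ ^ A₂ := by rw [hA₂]; ring
              _ ≤ (Real.log N) ^ A₂ * 2 ^ A₂ := by linarith
          exact le_of_mul_le_mul_right h3 (by positivity)
      _ = _ := by ring
  have hsum : ∑ n ∈ (Ioc m m').filter (fun n => n % q = r % q), gm S z n =
      ∑ g ∈ S, ∑ l ∈ (Ioc (m / g) (m' / g)).filter (fun l => (g * l) % q = r % q), dl z l := by
    unfold gm
    rw [sum_comm]
    apply sum_congr rfl
    intro g hg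
    have := hS hg
    rw [mem_Ioc] at this
    exact multiples g m m' q r (by omega) (dl z)
  rw [hsum]
  refine (norm_sum_le _ _).trans ((sum_le_card_nsmul _ _ _ hone).trans ?_)
  rw [nsmul_eq_mul]
  have hc : (S.card : ℝ) ≤ U := by
    have h3 := card_le_card hS
    rw [Nat.card_Ioc] at h3
    have h4 : S.card ≤ U := by omega
    exact_mod_cast h4
  calc (S.card : ℝ) * (Y / U / ℓ ^ A) ≤ U * (Y / U / ℓ ^ A) := by gcongr
    _ = Y / ℓ ^ A := by field_simp

end Pool.Agent.H561.E2
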