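import Pool.Agent.H561.E2.A8
import Pool.Graph.R_pool_sql_team_seeded_620a6dc7.helper24_UT_.Fr2
import Pool.Graph.R_pool_sql_team_seeded_620a6dc7.helper24_UT_.Win

set_option autoImplicit false

/-! The convolution of a set of primes with the primes minus the sieve model, in almost all windows of length `U (log X)^G`. -/

namespace Pool.Agent.H561.E2

open Finset
open Pool.Agent.helper24_UT
open Pool.Agent.helper24_UT.II
open Pool.Agent.H376R2.MR (ch er DP FK)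
open Pool.Agent.H373R2.T7 (Vz pz lamz mem_pz Vz_pos Vz_inv_small)

/-- the convolution in a class -/
noncomputable def gc (S : Finset ℕ) (z q r n : ℕ) : ℂ := if n % q = r % q then gm S z n else 0

/-- all frequencies -/
def S_FRG : Prop := ∀ A B : ℕ, ∃ a : ℕ, ∀ E₁ : ℕ, ∃ Y₀ : ℕ, ∀ Y : ℕ, Y₀ ≤ Y → ∀ q r : ℕ, 1 ≤ q →
  (q : ℝ) ≤ (Real.log Y) ^ B → r.Coprime q → ∀ z : ℕ, (Real.log Y) ^ B ≤ z → (z : ℝ) ≤ (Real.log Y) ^ E₁ →
  ∀ U : ℕ, (Real.log Y) ^ a ≤ U → U ^ 4 ≤ Y → ∀ S : Finset ℕ, (∀ p ∈ S, p.Prime) → S ⊆ Ioc U (2 * U) →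
  ∀ K₁ : ℕ, 4 * (K₁ * U) ≤ Y →
  ∑ k ∈ FK K₁, ‖DP (Ioc Y (3 * Y)) (gc S z q r) k‖ ^ 2 ≤ (Y : ℝ) ^ 2 / (Real.log Y) ^ A

theorem t_FRG (hLF : S_LF) : S_FRG := by
  intro A B
  obtain ⟨a, hLF⟩ := hLF (A + 1) B
  refine ⟨a, fun E₁ => ?_⟩
  obtain ⟨K₂, Y1, h1⟩ := hLF E₁
  obtain ⟨Y2, h2⟩ := t_LOW (A + 2 * K₂ + 2) B E₁
  obtain ⟨Y3, h3⟩ := Filter.eventually_atTop.1 (Pool.Agent.helper24_UT.Sil2.ev_log 100)
  refine ⟨max (max Y1 Y2) Y3, ?_⟩
  intro Y hY q r hq hqB hrq z hzB hzE U hU hU4 S hS hSU K₁ hK₁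
  have i1 : Y1 ≤ Y := ((le_max_left _ _).trans (le_max_left _ _)).trans hY
  have i2 : Y2 ≤ Y := ((le_max_right _ _).trans (le_max_left _ _)).trans hY
  have hl := h3 Y ((le_max_right _ _).trans hY)
  have b1 := h1 Y i1 q r hq hqB hrq z
  have b2 := h2 Y i2 q r hq hqB z hzB hzE U
  obtain ⟨ℓ, hℓ⟩ : ∃ ℓ, ℓ = Real.log Y := ⟨_, rfl⟩
  rw [← hℓ] at hl hqB hzB hzE hU b1 b2 ⊢
  have hl0 : 0 < ℓ := by linarith
  have hl1 : 1 ≤ ℓ := by linarith
  have hz : 1 ≤ z := by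
    have : (1 : ℝ) ≤ z := (one_le_pow₀ hl1).trans hzB
    exact_mod_cast this
  have hUr : (1 : ℝ) ≤ U := le_trans (one_le_pow₀ hl1) hU
  have hU1 : 1 ≤ U := by exact_mod_cast hUr
  have hY1 : 1 ≤ Y := le_trans (Nat.one_le_pow _ _ hU1) hU4
  have b1 := b1 hz hzE U hU hU4 S hS hSU K₁ hK₁
  have b2 := b2 hU1 hU4 S hSU
  have hgc : ∀ n ∈ Ioc Y (3 * Y), gc S z q r n = if n % q = r % q then (∑ x ∈ n.divisorsAntidiagonal.filter
      (fun x => U < x.1 ∧ 0 < x.2), ind S x.1 * dl z x.2) else 0 := by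
    intro n hn
    rw [mem_Ioc] at hn
    unfold gc
    rw [gm_eq S U z n (by omega) hSU]
  have hDP : ∀ k : ℤ, DP (Ioc Y (3 * Y)) (gc S z q r) k = DP ((Ioc Y (3 * Y)).filter (fun n => n % q = r % q))
      (fun n => ∑ x ∈ n.divisorsAntidiagonal.filter (fun x => U < x.1 ∧ 0 < x.2), ind S x.1 * dl z x.2) k := by
    intro k
    unfold DP
    rw [sum_filter]
    apply sum_congr rfl
    intro n hn
    rw [hgc n hn]
    split_ifs
    · rfl
    · rw [zero_mul]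
  rw [← sum_filter_add_sum_filter_not (FK K₁) (fun k : ℤ => ℓ ^ K₂ ≤ |(k : ℝ)|)]
  have c1 : ∑ k ∈ (FK K₁).filter (fun k : ℤ => ℓ ^ K₂ ≤ |(k : ℝ)|), ‖DP (Ioc Y (3 * Y)) (gc S z q r) k‖ ^ 2 ≤
      (Y : ℝ) ^ 2 / ℓ ^ (A + 1) := by
    rw [sum_congr rfl (fun k _ => by rw [hDP k])]
    exact b1
  have hYr : (0 : ℝ) ≤ Y := Nat.cast_nonneg _
  have hT1 : (1 : ℝ) ≤ ℓ ^ K₂ := one_le_pow₀ hl1
  have c2 : ∑ k ∈ (FK K₁).filter (fun k : ℤ => ¬ ℓ ^ K₂ ≤ |(k : ℝ)|), ‖DP (Ioc Y (3 * Y)) (gc S z q r) k‖ ^ 2 ≤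
      36 * ((Y : ℝ) ^ 2 / ℓ ^ (A + 2)) := by
    have h4 : ∀ k ∈ (FK K₁).filter (fun k : ℤ => ¬ ℓ ^ K₂ ≤ |(k : ℝ)|), ‖DP (Ioc Y (3 * Y)) (gc S z q r) k‖ ^ 2 ≤
        (3 * (Y / ℓ ^ (A + K₂ + 2))) ^ 2 := by
      intro k hk
      rw [mem_filter, not_le] at hk
      apply pow_le_pow_left₀ (norm_nonneg _)
      have h5 := Pool.Agent.helper24_UT.Fr2.DP_small hY1 (gc S z q r) (B := Y / ℓ ^ (A + 2 * K₂ + 2)) (by positivity) (by
        intro m hm hm'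
        have h6 := b2 Y m hm hm'
        rw [sum_filter] at h6
        exact h6) k
      refine h5.trans ?_
      have h7 : 1 + 2 * |(k : ℝ)| ≤ 3 * ℓ ^ K₂ := by linarith [hk.2]
      calc (Y : ℝ) / ℓ ^ (A + 2 * K₂ + 2) * (1 + 2 * |(k : ℝ)|) ≤ Y / ℓ ^ (A + 2 * K₂ + 2) * (3 * ℓ ^ K₂) := by gcongr
        _ = 3 * (Y / ℓ ^ (A + K₂ + 2)) := by
            rw [show A + 2 * K₂ + 2 = A + K₂ + 2 + K₂ by ring, pow_add ℓ (A + K₂ + 2) K₂]
            field_simp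
    refine (sum_le_card_nsmul _ _ _ h4).trans ?_
    rw [nsmul_eq_mul]
    have h5 := Pool.Agent.helper24_UT.Fr2.card_small hT1 K₁
    calc (((FK K₁).filter (fun k : ℤ => ¬ ℓ ^ K₂ ≤ |(k : ℝ)|)).card : ℝ) * (3 * (Y / ℓ ^ (A + K₂ + 2))) ^ 2
        ≤ (4 * ℓ ^ K₂) * (3 * (Y / ℓ ^ (A + K₂ + 2))) ^ 2 := by gcongr
      _ = 36 * ((Y : ℝ) ^ 2 / ℓ ^ (A + 2)) * (1 / (ℓ ^ K₂ * ℓ ^ (A + 2))) := by
          rw [show A + K₂ + 2 = (A + 2) + K₂ by ring, pow_add ℓ (A + 2) K₂]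
          field_simp
          ring
      _ ≤ 36 * ((Y : ℝ) ^ 2 / ℓ ^ (A + 2)) * 1 := by
          apply mul_le_mul_of_nonneg_left _ (by positivity)
          rw [div_le_one (by positivity)]
          have : (1 : ℝ) ≤ ℓ ^ (A + 2) := one_le_pow₀ hl1
          nlinarith
      _ = _ := mul_one _
  calc _ ≤ (Y : ℝ) ^ 2 / ℓ ^ (A + 1) + 36 * ((Y : ℝ) ^ 2 / ℓ ^ (A + 2)) := add_le_add c1 c2
    _ = (Y : ℝ) ^ 2 / ℓ ^ A * (1 / ℓ + 36 / ℓ ^ 2) := by
        rw [pow_succ ℓ A, pow_add ℓ A 2]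
        field_simp
    _ ≤ (Y : ℝ) ^ 2 / ℓ ^ A * 1 := by
        apply mul_le_mul_of_nonneg_left _ (by positivity)
        have h4 : 1 / ℓ ≤ 1 / 100 := one_div_le_one_div_of_le (by norm_num) hl
        have h5 : 36 / ℓ ^ 2 ≤ 1 / 100 := by
          rw [div_le_div_iff₀ (by positivity) (by norm_num)]
          nlinarith
        linarith
    _ = _ := mul_one _

/-- the number of primes `g ∈ S` dividing `n` -/
lemma card_dvd_le (S : Finset ℕ) (hS : ∀ p ∈ S, p.Prime) (n : ℕ) (hn : n ≠ 0) :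
    ((S.filter (fun g => g ∣ n)).card : ℝ) ≤ 2 * Real.log n := by
  have h1 : (S.filter (fun g => g ∣ n)) ⊆ n.primeFactors := by
    intro g hg
    rw [mem_filter] at hg
    rw [Nat.mem_primeFactors]
    exact ⟨hS g hg.1, hg.2, hn⟩
  have h2 : 2 ^ (S.filter (fun g => g ∣ n)).card ≤ n := by
    calc 2 ^ (S.filter (fun g => g ∣ n)).card = ∏ _g ∈ S.filter (fun g => g ∣ n), 2 := by rw [prod_const]
      _ ≤ ∏ g ∈ S.filter (fun g => g ∣ n), g := by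
          apply prod_le_prod' (fun g hg => ?_)
          rw [mem_filter] at hg
          exact (hS g hg.1).two_le
      _ ≤ n := by
          apply Nat.le_of_dvd (Nat.pos_of_ne_zero hn)
          exact (prod_dvd_prod_of_subset _ _ _ h1).trans (Nat.prod_primeFactors_dvd n)
  have h3 : (2 : ℝ) ^ (S.filter (fun g => g ∣ n)).card ≤ n := by exact_mod_cast h2
  have h4 := Real.log_le_log (by positivity) h3
  rw [Real.log_pow] at h4
  have := Real.log_two_gt_d9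
  have h5 : (0 : ℝ) ≤ ((S.filter (fun g => g ∣ n)).card : ℝ) := Nat.cast_nonneg _
  nlinarith

/-- the size of the convolution -/
lemma gm_norm (S : Finset ℕ) (hS : ∀ p ∈ S, p.Prime) (z n : ℕ) (ℓ : ℝ) (hn : n ≠ 0) (hl : 0 ≤ ℓ) (hlog : Real.log n ≤ 2 * ℓ)
    (hV : (Vz z)⁻¹ ≤ ℓ) : ‖gm S z n‖ ≤ 12 * ℓ ^ 2 := by
  unfold gm
  rw [← sum_filter]
  refine (norm_sum_le _ _).trans ?_
  have h1 : ∀ g ∈ S.filter (fun g => g ∣ n), ‖dl z (n / g)‖ ≤ 3 * ℓ := by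
    intro g hg
    apply dl_norm z _ ℓ _ hV
    rw [mem_filter] at hg
    refine ArithmeticFunction.vonMangoldt_le_log.trans (le_trans ?_ hlog)
    have hg0 := (hS g hg.1).pos
    have h2 : 0 < n / g := Nat.div_pos (Nat.le_of_dvd (Nat.pos_of_ne_zero hn) hg.2) hg0
    apply Real.log_le_log (by exact_mod_cast h2)
    exact_mod_cast Nat.div_le_self n g
  refine (sum_le_card_nsmul _ _ _ h1).trans ?_
  rw [nsmul_eq_mul]
  have h2 := card_dvd_le S hS n hn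
  calc ((S.filter (fun g => g ∣ n)).card : ℝ) * (3 * ℓ) ≤ (4 * ℓ) * (3 * ℓ) := by
        apply mul_le_mul_of_nonneg_right _ (by positivity)
        linarith
    _ = 12 * ℓ ^ 2 := by ring

/-- almost all windows -/
def S_SIG : Prop := ∀ A B : ℕ, ∃ a G : ℕ, ∀ E₁ : ℕ, ∃ X₀ : ℕ, ∀ X : ℕ, X₀ ≤ X → ∀ q r : ℕ, 1 ≤ q →
  (q : ℝ) ≤ (Real.log X) ^ B → r.Coprime q → ∀ z : ℕ, (Real.log X) ^ (2 * B) ≤ z → (z : ℝ) ≤ (Real.log X) ^ E₁ →
  ∀ U : ℕ, (Real.log X) ^ a ≤ U → U ^ 5 ≤ X → ∀ S : Finset ℕ, (∀ p ∈ S, p.Prime) → S ⊆ Ioc U (2 * U) →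
  ∀ W : ℕ, (U : ℝ) * (Real.log X) ^ G ≤ W → W ^ 2 ≤ X →
  ∑ u ∈ range X, ‖∑ n ∈ Ioc u (u + W), gc S z q r n‖ ^ 2 ≤ X * (W : ℝ) ^ 2 / (Real.log X) ^ A

open Pool.Agent.helper24_UT.Sil2 in
theorem t_SIG (hWIN : S_WIN) (hFRG : S_FRG) : S_SIG := by
  obtain ⟨C, hC, hwin⟩ := hWIN
  intro A B
  obtain ⟨a, hfr⟩ := hFRG (A + 4) (2 * B)
  refine ⟨a, 3 * (A + 3) + 10, fun E₁ => ?_⟩
  obtain ⟨Y₀, hfr⟩ := hfr (2 * E₁)
  obtain ⟨X₁, hX₁⟩ := Filter.eventually_atTop.1 ((ev_log (max (320 * C * 2 ^ (A + 3 + 1)) 1000)).and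
    ((ev_pow (A + 8) (1 / 5) 2 (by norm_num)).and (ev_pow (A + 8) (1 / 10) 4 (by norm_num))))
  obtain ⟨X₂, hX₂⟩ := Vz_inv_small E₁
  refine ⟨max (max X₁ X₂) (max (Y₀ ^ 2) 3), fun X hX q r hq hqL hcop z hzB hzE U hU hU5 S hS hSU W hW hWX => ?_⟩
  obtain ⟨hLL, c2, c3⟩ := hX₁ X (le_trans (le_trans (le_max_left _ _) (le_max_left _ _)) hX)
  have hX0 : Y₀ ^ 2 ≤ X := le_trans (le_trans (le_max_left _ _) (le_max_right _ _)) hX
  have hX3 : 3 ≤ X := le_trans (le_trans (le_max_right _ _) (le_max_right _ _)) hX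
  have hV := hX₂ X (le_trans (le_trans (le_max_right _ _) (le_max_left _ _)) hX) z (by
    have h1 : (1 : ℝ) ≤ z := by
      refine le_trans (one_le_pow₀ ?_) hzB
      have := (le_max_right _ _).trans hLL
      linarith
    exact_mod_cast h1) hzE
  set L := Real.log X with hLdef
  have hL : 320 * C * 2 ^ (A + 3 + 1) ≤ L := (le_max_left _ _).trans hLL
  have hL1000 : 1000 ≤ L := (le_max_right _ _).trans hLL
  have hL4 : 4 ≤ L := by linarith
  have hXR : (3 : ℝ) ≤ X := by exact_mod_cast hX3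
  have hX0' : (0 : ℝ) < X := by linarith
  have hX1 : (1 : ℝ) ≤ X := by linarith
  have hL0 : 0 < L := by linarith
  have hL1 : 1 ≤ L := by linarith
  have hLA : 0 < L ^ A := by positivity
  have hLA1 : 1 ≤ L ^ A := one_le_pow₀ hL1
  have hUr : (1 : ℝ) ≤ U := le_trans (one_le_pow₀ hL1) hU
  have hU1 : 1 ≤ U := by exact_mod_cast hUr
  have hWr : (1 : ℝ) ≤ W := by
    refine le_trans ?_ hW
    have : (1 : ℝ) ≤ L ^ (3 * (A + 3) + 10) := one_le_pow₀ hL1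
    nlinarith
  have hW0 : (0 : ℝ) < W := by linarith
  have hWn : 1 ≤ W := by exact_mod_cast hWr
  have hWX' : W ≤ X := le_trans (Nat.le_self_pow (by norm_num) W) hWX
  have hsX : (W : ℝ) ≤ (X : ℝ) ^ (1 / 2 : ℝ) := by
    rw [← Real.sqrt_eq_rpow]
    apply Real.le_sqrt_of_sq_le
    exact_mod_cast hWX
  have hUX : (U : ℝ) ≤ (X : ℝ) ^ (1 / 5 : ℝ) := by
    have h1 : (U : ℝ) ^ 5 ≤ X := by exact_mod_cast hU5
    calc (U : ℝ) = ((U : ℝ) ^ 5) ^ (1 / 5 : ℝ) := by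
          rw [← Real.rpow_natCast, ← Real.rpow_mul (by positivity)]
          norm_num
      _ ≤ (X : ℝ) ^ (1 / 5 : ℝ) := Real.rpow_le_rpow (by positivity) h1 (by positivity)
  -- the truncated function
  set c : ℕ → ℂ := fun n => if n ≠ 0 ∧ n ≤ 4 * X then (((1 / (6 * L) : ℝ)) : ℂ) * gc S z q r n else 0 with hc
  have hgcn : ∀ n, n ≠ 0 → n ≤ 4 * X → ‖gc S z q r n‖ ≤ 12 * L ^ 2 := by
    intro n hn hnX
    unfold gc
    split_ifs
    · apply gm_norm S hS z n L hn hL0.le _ hV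
      have hn0 : (0 : ℝ) < n := by exact_mod_cast Nat.pos_of_ne_zero hn
      have h1 : Real.log n ≤ Real.log (4 * X) := Real.log_le_log hn0 (by exact_mod_cast hnX)
      rw [Real.log_mul (by norm_num) hX0'.ne'] at h1
      have := Real.log_le_sub_one_of_pos (show (0 : ℝ) < 4 by norm_num)
      linarith
    · rw [norm_zero]
      positivity
  have hcn : ∀ n, ‖c n‖ ≤ 2 * L := by
    intro n
    simp only [hc]
    split_ifs with h
    · rw [norm_mul, Complex.norm_real, Real.norm_of_nonneg (by positivity)]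
      have := hgcn n h.1 h.2
      calc 1 / (6 * L) * ‖gc S z q r n‖ ≤ 1 / (6 * L) * (12 * L ^ 2) := by gcongr
        _ = 2 * L := by
            field_simp
            norm_num
    · rw [norm_zero]
      positivity
  -- one range
  have hrange : ∀ Y : ℕ, Y < X → (X : ℝ) / L ^ (A + 8) ≤ Y → ∑ u ∈ Ico Y (2 * Y), ‖∑ n ∈ Ioc u (u + W), gc S z q r n‖ ^ 2 ≤
      Y * ((W : ℝ) ^ 2 / (4 * L ^ A)) := by
    intro Y hYX hY
    have hsXpos : 0 < (X : ℝ) ^ (1 / 2 : ℝ) := by positivity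
    have hY45 : (X : ℝ) ^ (4 / 5 : ℝ) * 2 ≤ Y := by
      refine le_trans ?_ hY
      rw [le_div_iff₀ (by positivity)]
      calc (X : ℝ) ^ (4 / 5 : ℝ) * 2 * L ^ (A + 8) = (X : ℝ) ^ (4 / 5 : ℝ) * (2 * L ^ (A + 8)) := by ring
        _ ≤ (X : ℝ) ^ (4 / 5 : ℝ) * (X : ℝ) ^ (1 / 5 : ℝ) := by gcongr
        _ = X := by
            rw [← Real.rpow_add hX0']
            norm_num
    have hYs : (X : ℝ) ^ (1 / 2 : ℝ) ≤ Y := by
      refine le_trans ?_ hY45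
      have h1 : (X : ℝ) ^ (1 / 2 : ℝ) ≤ (X : ℝ) ^ (4 / 5 : ℝ) := Real.rpow_le_rpow_of_exponent_le hX1 (by norm_num)
      have h2 : 0 ≤ (X : ℝ) ^ (4 / 5 : ℝ) := by positivity
      linarith
    have hYXR : (Y : ℝ) ≤ X := by exact_mod_cast hYX.le
    have hY1 : (1 : ℝ) ≤ Y := le_trans (Real.one_le_rpow hX1 (show (0 : ℝ) ≤ 1 / 2 by norm_num)) hYs
    have hY0' : (0 : ℝ) < Y := by linarith
    have hlogY : L / 2 ≤ Real.log Y := by
      have h1 := Real.log_le_log hsXpos hYs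
      rw [Real.log_rpow hX0'] at h1
      linarith
    have hlogY2 : Real.log Y ≤ L := Real.log_le_log hY0' hYXR
    have hlogY0 : 0 < Real.log Y := by linarith
    have hlsq : L ≤ Real.log Y ^ 2 := by nlinarith
    have hYY0 : Y₀ ≤ Y := by
      have h1 : ((Y₀ : ℝ)) ≤ (X : ℝ) ^ (1 / 2 : ℝ) := by
        rw [← Real.sqrt_eq_rpow]
        exact Real.le_sqrt_of_sq_le (by exact_mod_cast hX0)
      exact_mod_cast h1.trans hYs
    have hWY : W ≤ Y := by exact_mod_cast hsX.trans hYs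
    -- the parameters
    have hJ1 : L ^ (A + 3 + 3) ≤ (⌈L ^ (A + 3 + 3)⌉₊ : ℝ) := Nat.le_ceil _
    have hJ2 : (⌈L ^ (A + 3 + 3)⌉₊ : ℝ) ≤ 2 * L ^ (A + 3 + 3) := by
      have h1 := (Nat.ceil_lt_add_one (show 0 ≤ L ^ (A + 3 + 3) by positivity)).le
      have h2 : (1 : ℝ) ≤ L ^ (A + 3 + 3) := one_le_pow₀ hL1
      linarith
    have hJpos : 1 ≤ ⌈L ^ (A + 3 + 3)⌉₊ := Nat.ceil_pos.2 (by positivity)
    obtain ⟨K₁, hK₁⟩ : ∃ K₁, K₁ = Y / (4 * U) := ⟨_, rfl⟩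
    have hKU : 4 * (K₁ * U) ≤ Y := by
      rw [hK₁]
      calc 4 * (Y / (4 * U) * U) = Y / (4 * U) * (4 * U) := by ring
        _ ≤ Y := Nat.div_mul_le_self _ _
    have hKlow : (Y : ℝ) / W * L ^ (3 * (A + 3) + 8) ≤ K₁ ∧ 1 ≤ K₁ := by
      have h1 : (Y : ℝ) / (4 * U) < K₁ + 1 := by
        rw [hK₁]
        have h2 : Y < 4 * U * (Y / (4 * U) + 1) := Nat.lt_mul_div_succ Y (by omega)
        have h3 : (Y : ℝ) < 4 * U * ((Y / (4 * U) : ℕ) + 1) := by exact_mod_cast h2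
        rw [div_lt_iff₀ (by positivity)]
        linarith
      have h2 : (8 : ℝ) * U ≤ Y := by
        have h3 : (X : ℝ) ^ (1 / 5 : ℝ) * (4 * L ^ (A + 8)) ≤ (X : ℝ) ^ (4 / 5 : ℝ) := by
          calc (X : ℝ) ^ (1 / 5 : ℝ) * (4 * L ^ (A + 8)) ≤ (X : ℝ) ^ (1 / 5 : ℝ) * (X : ℝ) ^ (1 / 10 : ℝ) := by gcongr
            _ = (X : ℝ) ^ (3 / 10 : ℝ) := by
                rw [← Real.rpow_add hX0']
                norm_num
            _ ≤ (X : ℝ) ^ (4 / 5 : ℝ) := Real.rpow_le_rpow_of_exponent_le hX1 (by norm_num)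
        have h4 : (1 : ℝ) ≤ L ^ (A + 8) := one_le_pow₀ hL1
        have h5 : 0 ≤ (X : ℝ) ^ (1 / 5 : ℝ) := by positivity
        nlinarith
      have h3 : (Y : ℝ) / (8 * U) ≤ K₁ := by
        have h4 : (Y : ℝ) / (4 * U) = 2 * (Y / (8 * U)) := by
          field_simp
          ring
        have h5 : 1 ≤ (Y : ℝ) / (8 * U) := by
          rw [one_le_div (by positivity)]
          exact h2
        linarith
      constructor
      · refine le_trans ?_ h3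
        rw [div_mul_eq_mul_div, div_le_div_iff₀ hW0 (by positivity)]
        have h4 : L ^ (3 * (A + 3) + 8) * (8 * U) ≤ W := by
          refine le_trans ?_ hW
          rw [show 3 * (A + 3) + 10 = (3 * (A + 3) + 8) + 2 by ring, pow_add L (3 * (A + 3) + 8) 2]
          have h5 : (8 : ℝ) ≤ L ^ 2 := by nlinarith
          have h6 : 0 ≤ (U : ℝ) * L ^ (3 * (A + 3) + 8) := by positivity
          nlinarith
        calc (Y : ℝ) * L ^ (3 * (A + 3) + 8) * (8 * U) = Y * (L ^ (3 * (A + 3) + 8) * (8 * U)) := by ring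
          _ ≤ Y * W := by gcongr
      · have h5 : 1 ≤ (Y : ℝ) / (8 * U) := by
          rw [one_le_div (by positivity)]
          exact h2
        exact_mod_cast h5.trans h3
    -- the energy
    have hqY : (q : ℝ) ≤ (Real.log Y) ^ (2 * B) := by
      refine hqL.trans ?_
      rw [pow_mul]
      exact pow_le_pow_left₀ hL0.le hlsq B
    have hzY : (Real.log Y) ^ (2 * B) ≤ z := (pow_le_pow_left₀ hlogY0.le hlogY2 _).trans hzB
    have hzY2 : (z : ℝ) ≤ (Real.log Y) ^ (2 * E₁) := by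
      refine hzE.trans ?_
      rw [pow_mul]
      exact pow_le_pow_left₀ hL0.le hlsq E₁
    have hU4 : U ^ 4 ≤ Y := by
      have h1 : (U : ℝ) ^ 4 ≤ Y := by
        calc (U : ℝ) ^ 4 ≤ ((X : ℝ) ^ (1 / 5 : ℝ)) ^ 4 := pow_le_pow_left₀ (by positivity) hUX 4
          _ = (X : ℝ) ^ (4 / 5 : ℝ) := by
              rw [← Real.rpow_natCast, ← Real.rpow_mul hX0'.le]
              norm_num
          _ ≤ Y := by
              have : 0 ≤ (X : ℝ) ^ (4 / 5 : ℝ) := by positivity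
              linarith
      exact_mod_cast h1
    have hE := hfr Y hYY0 q r hq hqY hcop z hzY hzY2 U ((pow_le_pow_left₀ hlogY0.le hlogY2 a).trans hU) hU4 S hS hSU K₁ hKU
    have hE' : ∑ k ∈ FK K₁, ‖DP (Ioc Y (3 * Y)) c k‖ ^ 2 ≤ (Y : ℝ) ^ 2 / (Real.log Y) ^ (A + 3 + 1) := by
      refine le_trans ?_ hE
      refine sum_le_sum fun k _ => ?_
      have e1 : DP (Ioc Y (3 * Y)) c k = (((1 / (6 * L) : ℝ)) : ℂ) * DP (Ioc Y (3 * Y)) (gc S z q r) k := by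
        unfold DP
        rw [mul_sum]
        apply sum_congr rfl
        intro n hn
        rw [mem_Ioc] at hn
        simp only [hc]
        rw [if_pos ⟨by omega, by omega⟩, mul_assoc]
      rw [e1, norm_mul, Complex.norm_real, Real.norm_of_nonneg (by positivity), mul_pow]
      have h2 : (1 / (6 * L)) ^ 2 ≤ 1 := by
        apply pow_le_one₀ (by positivity)
        rw [div_le_one (by positivity)]
        linarith
      have h3 : 0 ≤ ‖DP (Ioc Y (3 * Y)) (gc S z q r) k‖ ^ 2 := by positivity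
      nlinarith
    have h1 := hwin Y W ⌈L ^ (A + 3 + 3)⌉₊ K₁ (2 * L) c hJpos hWn hWY hKlow.2 (by positivity) hcn
    have hWc : 320 * C ≤ (W : ℝ) := by
      have h2 : (1 : ℝ) ≤ 2 ^ (A + 3 + 1) := one_le_pow₀ (by norm_num)
      have h3 : 320 * C ≤ L := by nlinarith
      have h4 : L ≤ L ^ (3 * (A + 3) + 10) := le_self_pow₀ hL1 (by omega)
      have h5 : L ^ (3 * (A + 3) + 10) ≤ U * L ^ (3 * (A + 3) + 10) := le_mul_of_one_le_left (by positivity) hUr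
      linarith
    have h2 := arith C L Y W ⌈L ^ (A + 3 + 3)⌉₊ K₁ _ (2 * L) (Real.log Y) (A + 3) hC hL hL4 hY1 hWc (by
      have h3 : 320 * C ≤ L := by
        have h2 : (1 : ℝ) ≤ 2 ^ (A + 3 + 1) := one_le_pow₀ (by norm_num)
        nlinarith
      have h4 : L ^ (A + 3 + 2) * L ≤ (W : ℝ) := by
        refine le_trans ?_ hW
        calc L ^ (A + 3 + 2) * L = L ^ (A + 3 + 3) := by ring
          _ ≤ L ^ (3 * (A + 3) + 10) := pow_le_pow_right₀ hL1 (by omega)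
          _ ≤ U * L ^ (3 * (A + 3) + 10) := le_mul_of_one_le_left (by positivity) hUr
      have h5 : 0 < L ^ (A + 3 + 2) := by positivity
      calc 80 * C * L ^ (A + 3 + 2) ≤ L * L ^ (A + 3 + 2) := by
            gcongr
            linarith
        _ ≤ W := by linarith
        _ ≤ (W : ℝ) ^ 2 := by nlinarith)
      hJ1 hJ2 hKlow.1 (by positivity) le_rfl hlogY hE'
    have h3 := h1.trans h2
    -- back to the original function
    have h4 : ∀ u ∈ Ico Y (2 * Y), ‖∑ n ∈ Ioc u (u + W), gc S z q r n‖ ^ 2 = (6 * L) ^ 2 * ‖∑ n ∈ Ioc u (u + W), c n‖ ^ 2 := by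
      intro u hu
      rw [mem_Ico] at hu
      have e1 : ∑ n ∈ Ioc u (u + W), gc S z q r n = (((6 * L : ℝ)) : ℂ) * ∑ n ∈ Ioc u (u + W), c n := by
        rw [mul_sum]
        apply sum_congr rfl
        intro n hn
        rw [mem_Ioc] at hn
        simp only [hc]
        rw [if_pos ⟨by omega, by omega⟩, ← mul_assoc, ← Complex.ofReal_mul]
        have h5 : 6 * L * (1 / (6 * L)) = 1 := by
          field_simp
        rw [h5, Complex.ofReal_one, one_mul]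
      rw [e1, norm_mul, Complex.norm_real, Real.norm_of_nonneg (by positivity), mul_pow]
    rw [sum_congr rfl h4, ← mul_sum]
    calc (6 * L) ^ 2 * ∑ u ∈ Ico Y (2 * Y), ‖∑ n ∈ Ioc u (u + W), c n‖ ^ 2 ≤ (6 * L) ^ 2 * (Y * (W : ℝ) ^ 2 / (4 * L ^ (A + 3))) := by gcongr
      _ = Y * ((W : ℝ) ^ 2 / (4 * L ^ A)) * (36 / L) := by
          rw [pow_add L A 3]
          field_simp
          ring
      _ ≤ Y * ((W : ℝ) ^ 2 / (4 * L ^ A)) * 1 := by
          apply mul_le_mul_of_nonneg_left _ (by positivity)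
          rw [div_le_one hL0]
          linarith
      _ = _ := mul_one _
  -- the dyadic decomposition
  have hD0 : 0 < L ^ (A + 8) := by positivity
  have hXD : (1 : ℝ) ≤ (X : ℝ) / L ^ (A + 8) := by
    rw [one_le_div hD0]
    have h1 : L ^ (A + 8) ≤ (X : ℝ) ^ (1 / 5 : ℝ) := by linarith
    refine h1.trans ?_
    calc (X : ℝ) ^ (1 / 5 : ℝ) ≤ (X : ℝ) ^ (1 : ℝ) :=
          Real.rpow_le_rpow_of_exponent_le hX1 (by norm_num)
      _ = X := Real.rpow_one _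
  set y0 := ⌈(X : ℝ) / L ^ (A + 8)⌉₊ with hy0
  have hy1 : (X : ℝ) / L ^ (A + 8) ≤ y0 := Nat.le_ceil _
  have hy2 : (y0 : ℝ) ≤ 2 * ((X : ℝ) / L ^ (A + 8)) := by
    have h1 := (Nat.ceil_lt_add_one (show 0 ≤ (X : ℝ) / L ^ (A + 8) by positivity)).le
    linarith
  have hy3 : y0 ≤ X := by
    rw [hy0, Nat.ceil_le]
    exact div_le_self hX0'.le (one_le_pow₀ hL1)
  have hypos : 1 ≤ y0 := Nat.ceil_pos.2 (by positivity)
  have hex : ∃ J : ℕ, X ≤ 2 ^ J * y0 := by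
    refine ⟨X, ?_⟩
    have h1 : X < 2 ^ X := Nat.lt_two_pow_self
    nlinarith
  set J := Nat.find hex with hJdef
  have hJ : X ≤ 2 ^ J * y0 := Nat.find_spec hex
  have hJm : ∀ j < J, 2 ^ j * y0 < X := fun j hj => not_le.1 (Nat.find_min hex hj)
  have hsumY : ∑ j ∈ range J, ((2 ^ j * y0 : ℕ) : ℝ) ≤ 2 * X := by
    rcases Nat.eq_zero_or_pos J with h | h
    · rw [h]
      simp
    · obtain ⟨J', hJ'⟩ : ∃ J', J = J' + 1 := ⟨J - 1, by omega⟩
      have h1 := geom y0 J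
      have h2 := hJm J' (by omega)
      have h3 : 2 ^ J * y0 = 2 * (2 ^ J' * y0) := by rw [hJ']; ring
      have h4 : ∑ j ∈ range J, 2 ^ j * y0 ≤ 2 * X := by omega
      exact_mod_cast h4
  have hfirst : ∑ u ∈ range y0, ‖∑ n ∈ Ioc u (u + W), gc S z q r n‖ ^ 2 ≤
      X * (W : ℝ) ^ 2 / (2 * L ^ A) := by
    have hterm : ∀ u ∈ range y0, ‖∑ n ∈ Ioc u (u + W), gc S z q r n‖ ^ 2 ≤
        144 * (W : ℝ) ^ 2 * L ^ 4 := by
      intro u hu
      rw [mem_range] at hu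
      have h4 : ‖∑ n ∈ Ioc u (u + W), gc S z q r n‖ ≤ W * (12 * L ^ 2) := by
        refine (norm_sum_le _ _).trans ?_
        have h5 : ∀ n ∈ Ioc u (u + W), ‖gc S z q r n‖ ≤ 12 * L ^ 2 := by
          intro n hn
          rw [mem_Ioc] at hn
          exact hgcn n (by omega) (by omega)
        refine (sum_le_card_nsmul _ _ _ h5).trans ?_
        rw [nsmul_eq_mul, Nat.card_Ioc, Nat.add_sub_cancel_left]
      calc ‖∑ n ∈ Ioc u (u + W), gc S z q r n‖ ^ 2 ≤ (W * (12 * L ^ 2)) ^ 2 :=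
            pow_le_pow_left₀ (norm_nonneg _) h4 2
        _ = 144 * (W : ℝ) ^ 2 * L ^ 4 := by ring
    refine (sum_le_card_nsmul _ _ _ hterm).trans ?_
    rw [card_range, nsmul_eq_mul]
    calc (y0 : ℝ) * (144 * (W : ℝ) ^ 2 * L ^ 4)
        ≤ 2 * ((X : ℝ) / L ^ (A + 8)) * (144 * (W : ℝ) ^ 2 * L ^ 4) := by gcongr
      _ = X * (W : ℝ) ^ 2 / (2 * L ^ A) * (576 / L ^ 4) := by
          rw [pow_add L A 8]
          field_simp
          ring
      _ ≤ X * (W : ℝ) ^ 2 / (2 * L ^ A) * 1 := by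
          apply mul_le_mul_of_nonneg_left _ (by positivity)
          rw [div_le_one (by positivity)]
          calc (576 : ℝ) ≤ L := by linarith
            _ ≤ L ^ 4 := le_self_pow₀ hL1 (by norm_num)
      _ = X * (W : ℝ) ^ 2 / (2 * L ^ A) := mul_one _
  have hrest : ∑ j ∈ range J, ∑ u ∈ Ico (2 ^ j * y0) (2 * (2 ^ j * y0)),
      ‖∑ n ∈ Ioc u (u + W), gc S z q r n‖ ^ 2 ≤ X * (W : ℝ) ^ 2 / (2 * L ^ A) := by
    have hterm : ∀ j ∈ range J, ∑ u ∈ Ico (2 ^ j * y0) (2 * (2 ^ j * y0)),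
        ‖∑ n ∈ Ioc u (u + W), gc S z q r n‖ ^ 2 ≤
        ((2 ^ j * y0 : ℕ) : ℝ) * ((W : ℝ) ^ 2 / (4 * L ^ A)) := by
      intro j hj
      rw [mem_range] at hj
      have hge : y0 ≤ 2 ^ j * y0 := Nat.le_mul_of_pos_left _ (by positivity)
      exact hrange (2 ^ j * y0) (hJm j hj) (hy1.trans (by exact_mod_cast hge))
    refine (sum_le_sum hterm).trans ?_
    rw [← sum_mul]
    calc (∑ j ∈ range J, ((2 ^ j * y0 : ℕ) : ℝ)) * ((W : ℝ) ^ 2 / (4 * L ^ A))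
        ≤ 2 * X * ((W : ℝ) ^ 2 / (4 * L ^ A)) :=
          mul_le_mul_of_nonneg_right hsumY (by positivity)
      _ = X * (W : ℝ) ^ 2 / (2 * L ^ A) := by
          field_simp
          norm_num
  calc ∑ u ∈ range X, ‖∑ n ∈ Ioc u (u + W), gc S z q r n‖ ^ 2
      ≤ ∑ u ∈ range (2 ^ J * y0), ‖∑ n ∈ Ioc u (u + W), gc S z q r n‖ ^ 2 := by
        apply sum_le_sum_of_subset_of_nonneg
        · exact range_mono hJ
        · intro _ _ _
          positivity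
    _ = _ := cover _ y0 J
    _ ≤ X * (W : ℝ) ^ 2 / (2 * L ^ A) + X * (W : ℝ) ^ 2 / (2 * L ^ A) :=
        add_le_add hfirst hrest
    _ = X * (W : ℝ) ^ 2 / L ^ A := by
        field_simp
        norm_num

end Pool.Agent.H561.E2
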