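import Pool.Agent.H561.E2.A1
import Pool.Graph.R_seed8.H807R2.Dav1

set_option autoImplicit false

/-! Minor arcs: bilinear exponential sums in short windows, in mean square, by duality. -/

namespace Pool.Agent.H561.E2

open Finset
open Pool.Agent.H807R2.Dav (ee ee_add ee_zero norm_ee KK KK_nonneg KK_neg geo_bound vino)

lemma ee_conj (x : ℝ) : (starRingEnd ℂ) (ee x) = ee (-x) := by
  unfold ee
  rw [← Complex.exp_conj]
  congr 1
  simp only [map_mul, Complex.conj_ofReal, Complex.conj_I, map_ofNat]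
  push_cast
  ring

/-- the dual vectors -/
noncomputable def phi (S : Finset ℕ) (H : ℕ) (α : ℝ) (u m : ℕ) : ℂ :=
  ∑ g ∈ S, if u < g * m ∧ g * m ≤ u + H then ee (((g * m : ℕ) : ℝ) * α) else 0

lemma term_bound (g g' u u' H M' U : ℕ) (hU : 1 ≤ U) (hg : U < g) (hg' : 1 ≤ g') (x : ℝ) :
    ‖∑ m ∈ (Ioc 0 M').filter (fun m => (u < g * m ∧ g * m ≤ u + H) ∧ (u' < g' * m ∧ g' * m ≤ u' + H)), ee ((m : ℝ) * x)‖ ≤
      KK ((H : ℝ) / U + 1) x := by
  have hg0 : 0 < g := by omega
  have hMM : (0 : ℝ) ≤ (H : ℝ) / U + 1 := by positivity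
  have e1 : (Ioc 0 M').filter (fun m => (u < g * m ∧ g * m ≤ u + H) ∧ (u' < g' * m ∧ g' * m ≤ u' + H)) =
      Ico (max (u / g) (u' / g') + 1) (min M' (min ((u + H) / g) ((u' + H) / g')) + 1) := by
    ext m
    rw [mem_filter, mem_Ioc, mem_Ico]
    have h1 : u < g * m ↔ u / g < m := by rw [Nat.div_lt_iff_lt_mul hg0, mul_comm]
    have h2 : u' < g' * m ↔ u' / g' < m := by rw [Nat.div_lt_iff_lt_mul hg', mul_comm]
    have h3 : g * m ≤ u + H ↔ m ≤ (u + H) / g := by rw [Nat.le_div_iff_mul_le hg0, mul_comm]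
    have h4 : g' * m ≤ u' + H ↔ m ≤ (u' + H) / g' := by rw [Nat.le_div_iff_mul_le hg', mul_comm]
    rw [h1, h2, h3, h4]
    constructor
    · rintro ⟨⟨a1, a2⟩, ⟨a3, a4⟩, a5, a6⟩
      refine ⟨?_, ?_⟩
      · exact Nat.succ_le_of_lt (max_lt a3 a5)
      · exact Nat.lt_succ_of_le (le_min a2 (le_min a4 a6))
    · rintro ⟨a1, a2⟩
      have b1 := Nat.lt_of_succ_le a1
      have b2 := Nat.le_of_lt_succ a2
      rw [max_lt_iff] at b1
      rw [le_min_iff, le_min_iff] at b2
      exact ⟨⟨lt_of_le_of_lt (Nat.zero_le _) b1.1, b2.1⟩, ⟨b1.1, b2.2.1⟩, b1.2, b2.2.2⟩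
  rw [e1]
  by_cases hab : max (u / g) (u' / g') + 1 ≤ min M' (min ((u + H) / g) ((u' + H) / g')) + 1
  · apply geo_bound _ _ hab
    have h1 : min M' (min ((u + H) / g) ((u' + H) / g')) + 1 ≤ max (u / g) (u' / g') + 1 + (H / g + 1) := by
      have h2 : min M' (min ((u + H) / g) ((u' + H) / g')) ≤ (u + H) / g := (min_le_right _ _).trans (min_le_left _ _)
      have h3 : (u + H) / g ≤ u / g + H / g + 1 := by
        rw [Nat.add_div hg0]
        split_ifs <;> omega
      have h4 : u / g ≤ max (u / g) (u' / g') := le_max_left _ _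
      omega
    have h2 : ((min M' (min ((u + H) / g) ((u' + H) / g')) + 1 : ℕ) : ℝ) ≤ ((max (u / g) (u' / g') + 1 : ℕ) : ℝ) + ((H / g : ℕ) + 1) := by
      exact_mod_cast h1
    have h3 : ((H / g : ℕ) : ℝ) ≤ (H : ℝ) / U := by
      refine Nat.cast_div_le.trans ?_
      apply div_le_div_of_nonneg_left (Nat.cast_nonneg _) (by exact_mod_cast hU)
      exact_mod_cast hg.le
    linarith
  · rw [Ico_eq_empty (by omega), sum_empty, norm_zero]
    exact KK_nonneg hMM _

/-- the two windows have a common multiplier -/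
def NE (g g' u H M' u' : ℕ) : Prop := ∃ m ∈ Ioc 0 M', (u < g * m ∧ g * m ≤ u + H) ∧ (u' < g' * m ∧ g' * m ≤ u' + H)

open Classical in
lemma count_u (g g' u H M' X : ℕ) (hg : 1 ≤ g) (hgg : g' ≤ 2 * g) (hH : 1 ≤ H) :
    (((range X).filter (fun u' => NE g g' u H M' u')).card) ≤ 5 * H := by
  have hsub : (range X).filter (fun u' => NE g g' u H M' u') ⊆
      Icc (g' * u / g - H) (g' * (u + H) / g) := by
    intro u' hu'
    rw [mem_filter] at hu'
    obtain ⟨_, m, _, ⟨a1, a2⟩, a3, a4⟩ := hu'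
    rw [mem_Icc]
    constructor
    · rw [tsub_le_iff_right]
      apply Nat.div_le_of_le_mul
      calc g' * u ≤ g' * (g * m) := Nat.mul_le_mul_left _ a1.le
        _ = g * (g' * m) := by ring
        _ ≤ g * (u' + H) := Nat.mul_le_mul_left _ a4
    · rw [Nat.le_div_iff_mul_le hg]
      calc u' * g ≤ (g' * m) * g := Nat.mul_le_mul_right _ a3.le
        _ = g' * (g * m) := by ring
        _ ≤ g' * (u + H) := Nat.mul_le_mul_left _ a2
  refine (card_le_card hsub).trans ?_
  rw [Nat.card_Icc]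
  have h1 : g' * (u + H) / g ≤ g' * u / g + g' * H / g + 1 := by
    rw [mul_add, Nat.add_div hg]
    split_ifs <;> omega
  have h2 : g' * H / g ≤ 2 * H := by
    apply Nat.div_le_of_le_mul
    calc g' * H ≤ (2 * g) * H := Nat.mul_le_mul_right _ hgg
      _ = g * (2 * H) := by ring
  omega

lemma vino_pair (S : Finset ℕ) (U q g : ℕ) (a : ℤ) (α : ℝ) (hS : S ⊆ Ioc U (2 * U))
    (hq : 1 ≤ q) (hcop : IsCoprime a (q : ℤ)) (hα : |α - a / q| ≤ 1 / (q : ℝ) ^ 2) {M : ℝ} (hM : 0 ≤ M) :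
    ∑ g' ∈ S, KK M (((g : ℝ) - g') * α) ≤ ((U : ℝ) / q + 1) * (39 * M + 3 * q * (1 + Real.log q)) := by
  calc ∑ g' ∈ S, KK M (((g : ℝ) - g') * α) ≤ ∑ g' ∈ Ioc U (2 * U), KK M (((g : ℝ) - g') * α) :=
        sum_le_sum_of_subset_of_nonneg hS (fun _ _ _ => KK_nonneg hM _)
    _ = ∑ g' ∈ Ico (U + 1) (2 * U + 1), KK M (((g : ℝ) - g') * α) := by
        congr 1
        ext x
        simp only [mem_Ioc, mem_Ico]
        omega
    _ = ∑ j ∈ range U, KK M ((((U : ℝ) + 1 - g) * α) + j * α) := by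
        rw [sum_Ico_eq_sum_range]
        have : 2 * U + 1 - (U + 1) = U := by omega
        rw [this]
        apply sum_congr rfl
        intro j _
        rw [← KK_neg]
        congr 1
        push_cast
        ring
    _ ≤ _ := vino hq hcop hα hM _ U

open Classical in
theorem minor (S : Finset ℕ) (U X H q : ℕ) (a : ℤ) (α : ℝ) (δ : ℕ → ℂ) (hS : S ⊆ Ioc U (2 * U)) (hU : 1 ≤ U) (hH : 1 ≤ H)
    (hq : 1 ≤ q) (hcop : IsCoprime a (q : ℤ)) (hα : |α - a / q| ≤ 1 / (q : ℝ) ^ 2) :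
    ∑ u ∈ range X, ‖∑ n ∈ Ioc u (u + H), (∑ g ∈ S, if g ∣ n then δ (n / g) else 0) * ee ((n : ℝ) * α)‖ ^ 2 ≤
      (5 * H * (U * (((U : ℝ) / q + 1) * (39 * ((H : ℝ) / U + 1) + 3 * q * (1 + Real.log q))))) *
        ∑ m ∈ Ioc 0 ((X + H) / U), ‖δ m‖ ^ 2 := by
  set M' := (X + H) / U with hM'
  have hSg : ∀ g ∈ S, U < g ∧ g ≤ 2 * U := fun g hg => by
    have := hS hg
    rwa [mem_Ioc] at this
  have hM0 : (0 : ℝ) ≤ (H : ℝ) / U + 1 := by positivity
  have hinner : ∀ u ∈ range X, ∑ n ∈ Ioc u (u + H), (∑ g ∈ S, if g ∣ n then δ (n / g) else 0) * ee ((n : ℝ) * α) =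
      ∑ m ∈ Ioc 0 M', δ m * phi S H α u m := by
    intro u hu
    rw [mem_range] at hu
    simp only [phi, sum_mul, mul_sum]
    rw [sum_comm, sum_comm (s := Ioc 0 M')]
    apply sum_congr rfl
    intro g hg
    have hgU := hSg g hg
    have e1 : ∑ n ∈ Ioc u (u + H), (if g ∣ n then δ (n / g) else 0) * ee ((n : ℝ) * α) =
        ∑ n ∈ (Ioc u (u + H)).filter (fun n => g ∣ n), δ (n / g) * ee ((n : ℝ) * α) := by
      rw [sum_filter]
      apply sum_congr rfl
      intro n _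
      split_ifs
      · rfl
      · rw [zero_mul]
    have e2 : (Ioc u (u + H)).filter (fun n => g ∣ n) =
        ((Ioc 0 M').filter (fun m => u < g * m ∧ g * m ≤ u + H)).image (fun m => g * m) := by
      ext n
      simp only [mem_filter, mem_Ioc, mem_image]
      constructor
      · rintro ⟨⟨h1, h2⟩, m, rfl⟩
        refine ⟨m, ⟨⟨?_, ?_⟩, h1, h2⟩, rfl⟩
        · rcases Nat.eq_zero_or_pos m with h | h
          · rw [h, mul_zero] at h1
            omega
          · exact h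
        · rw [hM', Nat.le_div_iff_mul_le (by omega)]
          calc m * U ≤ m * g := Nat.mul_le_mul_left _ hgU.1.le
            _ = g * m := mul_comm _ _
            _ ≤ u + H := h2
            _ ≤ X + H := by omega
      · rintro ⟨m, ⟨_, h1, h2⟩, rfl⟩
        exact ⟨⟨h1, h2⟩, Dvd.intro m rfl⟩
    rw [e1, e2, sum_image (fun x _ y _ hxy => Nat.eq_of_mul_eq_mul_left (by omega) hxy), sum_filter]
    apply sum_congr rfl
    intro m _
    split_ifs
    · rw [Nat.mul_div_cancel_left m (by omega)]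
    · rw [mul_zero]
  rw [sum_congr rfl (fun u hu => by rw [hinner u hu])]
  apply dual (range X) (Ioc 0 M') (Ioc 0 M') (Subset.refl _) δ (phi S H α)
  · have : (0 : ℝ) ≤ Real.log q := Real.log_nonneg (by exact_mod_cast hq)
    positivity
  intro u _
  -- the pair correlations
  have hpair : ∀ u', ∑ m ∈ Ioc 0 M', phi S H α u m * (starRingEnd ℂ) (phi S H α u' m) =
      ∑ g ∈ S, ∑ g' ∈ S, ∑ m ∈ (Ioc 0 M').filter (fun m => (u < g * m ∧ g * m ≤ u + H) ∧ (u' < g' * m ∧ g' * m ≤ u' + H)),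
        ee ((m : ℝ) * (((g : ℝ) - g') * α)) := by
    intro u'
    have e1 : ∀ m ∈ Ioc 0 M', phi S H α u m * (starRingEnd ℂ) (phi S H α u' m) =
        ∑ g ∈ S, ∑ g' ∈ S, if (u < g * m ∧ g * m ≤ u + H) ∧ (u' < g' * m ∧ g' * m ≤ u' + H) then
          ee ((m : ℝ) * (((g : ℝ) - g') * α)) else 0 := by
      intro m _
      unfold phi
      rw [map_sum, sum_mul]
      apply sum_congr rfl
      intro g _
      rw [mul_sum]
      apply sum_congr rfl
      intro g' _
      by_cases h1 : u < g * m ∧ g * m ≤ u + H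
      · by_cases h2 : u' < g' * m ∧ g' * m ≤ u' + H
        · rw [if_pos h1, if_pos h2, if_pos ⟨h1, h2⟩, ee_conj, ← ee_add]
          congr 1
          push_cast
          ring
        · rw [if_neg h2, map_zero, mul_zero, if_neg (fun h => h2 h.2)]
      · rw [if_neg h1, zero_mul, if_neg (fun h => h1 h.1)]
    rw [sum_congr rfl e1, sum_comm]
    apply sum_congr rfl
    intro g _
    rw [sum_comm]
    apply sum_congr rfl
    intro g' _
    rw [sum_filter]
  have hnorm : ∀ u' ∈ range X, ‖∑ m ∈ Ioc 0 M', phi S H α u m * (starRingEnd ℂ) (phi S H α u' m)‖ ≤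
      ∑ g ∈ S, ∑ g' ∈ S, (if NE g g' u H M' u' then
        KK ((H : ℝ) / U + 1) (((g : ℝ) - g') * α) else 0) := by
    intro u' _
    rw [hpair u']
    refine (norm_sum_le _ _).trans (sum_le_sum fun g hg => (norm_sum_le _ _).trans (sum_le_sum fun g' hg' => ?_))
    split_ifs with h
    · exact term_bound g g' u u' H M' U hU (hSg g hg).1 (by have := (hSg g' hg').1; omega) _
    · rw [filter_eq_empty_iff.2, sum_empty, norm_zero]
      intro m hm hcon
      exact h ⟨m, hm, hcon⟩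
  refine (sum_le_sum hnorm).trans ?_
  rw [sum_comm]
  have hg : ∀ g ∈ S, ∑ u' ∈ range X, ∑ g' ∈ S, (if NE g g' u H M' u' then
        KK ((H : ℝ) / U + 1) (((g : ℝ) - g') * α) else 0) ≤
      5 * H * (((U : ℝ) / q + 1) * (39 * ((H : ℝ) / U + 1) + 3 * q * (1 + Real.log q))) := by
    intro g hg
    rw [sum_comm]
    calc ∑ g' ∈ S, ∑ u' ∈ range X, (if NE g g' u H M' u' then
        KK ((H : ℝ) / U + 1) (((g : ℝ) - g') * α) else 0)
        ≤ ∑ g' ∈ S, 5 * H * KK ((H : ℝ) / U + 1) (((g : ℝ) - g') * α) := by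
          apply sum_le_sum
          intro g' hg'
          rw [← sum_filter, sum_const, nsmul_eq_mul]
          apply mul_le_mul_of_nonneg_right _ (KK_nonneg hM0 _)
          have h1 := count_u g g' u H M' X (by have := (hSg g hg).1; omega) (by
            have := (hSg g hg).1
            have := (hSg g' hg').2
            omega) hH
          exact_mod_cast h1
      _ = 5 * H * ∑ g' ∈ S, KK ((H : ℝ) / U + 1) (((g : ℝ) - g') * α) := by rw [mul_sum]
      _ ≤ _ := by
          apply mul_le_mul_of_nonneg_left _ (by positivity)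
          exact vino_pair S U q g a α hS hq hcop hα hM0
  refine (sum_le_card_nsmul _ _ _ hg).trans ?_
  rw [nsmul_eq_mul]
  have hc : (S.card : ℝ) ≤ U := by
    have h3 := card_le_card hS
    rw [Nat.card_Ioc] at h3
    have h4 : S.card ≤ U := by omega
    exact_mod_cast h4
  have hpos : 0 ≤ 5 * H * (((U : ℝ) / q + 1) * (39 * ((H : ℝ) / U + 1) + 3 * q * (1 + Real.log q))) := by
    have : (0 : ℝ) ≤ Real.log q := Real.log_nonneg (by exact_mod_cast hq)
    positivity
  calc (S.card : ℝ) * (5 * H * (((U : ℝ) / q + 1) * (39 * ((H : ℝ) / U + 1) + 3 * q * (1 + Real.log q))))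
      ≤ U * (5 * H * (((U : ℝ) / q + 1) * (39 * ((H : ℝ) / U + 1) + 3 * q * (1 + Real.log q)))) :=
        mul_le_mul_of_nonneg_right hc hpos
    _ = _ := by ring

end Pool.Agent.H561.E2
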