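import Pool.Agent.H561.E2.A9

set_option autoImplicit false

/-! All residue classes. -/

namespace Pool.Agent.H561.E2

open Finset
open Pool.Agent.helper24_UT
open Pool.Agent.H373R2.T7 (Vz pz lamz mem_pz Vz_pos Vz_inv_small)

/-- the trivial bound for windows -/
lemma win_triv (c : ℕ → ℂ) (X W : ℕ) :
    ∑ u ∈ range X, ‖∑ n ∈ Ioc u (u + W), c n‖ ^ 2 ≤ (W : ℝ) ^ 2 * ∑ n ∈ Ioc 0 (X + W), ‖c n‖ ^ 2 := by
  have h1 : ∀ u ∈ range X, ‖∑ n ∈ Ioc u (u + W), c n‖ ^ 2 ≤ W * ∑ j ∈ range W, ‖c (u + 1 + j)‖ ^ 2 := by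
    intro u _
    have e1 : Ioc u (u + W) = Ico (u + 1) (u + W + 1) := by
      ext x
      simp only [mem_Ioc, mem_Ico]
      omega
    rw [e1, sum_Ico_eq_sum_range, show u + W + 1 - (u + 1) = W by omega]
    calc ‖∑ k ∈ range W, c (u + 1 + k)‖ ^ 2 ≤ (∑ k ∈ range W, ‖c (u + 1 + k)‖) ^ 2 :=
          pow_le_pow_left₀ (norm_nonneg _) (norm_sum_le _ _) 2
      _ ≤ ((range W).card : ℝ) * ∑ k ∈ range W, ‖c (u + 1 + k)‖ ^ 2 := sq_sum_le_card_mul_sum_sq
      _ = _ := by rw [card_range]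
  refine (sum_le_sum h1).trans ?_
  rw [← mul_sum, sum_comm]
  have h2 : ∀ j ∈ range W, ∑ u ∈ range X, ‖c (u + 1 + j)‖ ^ 2 ≤ ∑ n ∈ Ioc 0 (X + W), ‖c n‖ ^ 2 := by
    intro j hj
    rw [mem_range] at hj
    have e1 : ∑ u ∈ range X, ‖c (u + 1 + j)‖ ^ 2 = ∑ n ∈ Ico (1 + j) (X + 1 + j), ‖c n‖ ^ 2 := by
      rw [sum_Ico_eq_sum_range, show X + 1 + j - (1 + j) = X by omega]
      apply sum_congr rfl
      intro u _
      rw [show u + 1 + j = 1 + j + u by ring]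
    rw [e1]
    apply sum_le_sum_of_subset_of_nonneg
    · intro n hn
      rw [mem_Ico] at hn
      rw [mem_Ioc]
      omega
    · intro _ _ _
      positivity
  have h3 := sum_le_card_nsmul _ _ _ h2
  rw [card_range, nsmul_eq_mul] at h3
  calc (W : ℝ) * ∑ j ∈ range W, ∑ u ∈ range X, ‖c (u + 1 + j)‖ ^ 2 ≤ W * (W * ∑ n ∈ Ioc 0 (X + W), ‖c n‖ ^ 2) := by gcongr
    _ = _ := by ring

/-- in the classes not coprime to the modulus the convolution is nearly always `0` -/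
lemma gc_bad (S : Finset ℕ) (z q r n U p : ℕ) (hS : ∀ g ∈ S, g.Prime) (hSU : S ⊆ Ioc U (2 * U)) (hq : 1 ≤ q) (hqz : q ≤ z)
    (hqU : q ≤ U) (hp : p.Prime) (hpr : p ∣ r) (hpq : p ∣ q) (hn : n ≠ 0) (h : gc S z q r n ≠ 0) :
    ∃ g ∈ S, ∃ j, n = g * p ^ j := by
  by_contra hcon
  push Not at hcon
  apply h
  unfold gc
  split_ifs with hc
  · unfold gm
    apply sum_eq_zero
    intro g hg
    split_ifs with hgn
    · obtain ⟨m, rfl⟩ := hgn
      have hg2 := (hS g hg)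
      have hgU := hSU hg
      rw [mem_Ioc] at hgU
      have hpq' : p ≤ q := Nat.le_of_dvd hq hpq
      have hpn : p ∣ g * m := by
        have h1 : p ∣ (g * m) % q := by
          rw [hc]
          exact (Nat.dvd_mod_iff hpq).2 hpr
        exact (Nat.dvd_mod_iff hpq).1 h1
      have hpg : ¬ p ∣ g := by
        intro h1
        have := (Nat.prime_dvd_prime_iff_eq hp hg2).1 h1
        omega
      have hpm : p ∣ m := (hp.dvd_mul.1 hpn).resolve_left hpg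
      rw [Nat.mul_div_cancel_left m hg2.pos]
      unfold dl
      have e1 : lamz z m = 0 := by
        unfold lamz
        rw [if_neg]
        push Not
        exact ⟨p, mem_pz.2 ⟨hpq'.trans hqz, hp⟩, hpm⟩
      have e2 : ArithmeticFunction.vonMangoldt m = 0 := by
        rw [ArithmeticFunction.vonMangoldt_eq_zero_iff]
        intro h1
        rw [isPrimePow_nat_iff] at h1
        obtain ⟨p', k, hp', hk, rfl⟩ := h1
        have h2 := hp.dvd_of_dvd_pow hpm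
        have h3 := (Nat.prime_dvd_prime_iff_eq hp hp').1 h2
        rw [← h3] at hcon
        exact hcon g hg k rfl
      rw [e1, e2]
      simp
    · rfl
  · rfl

lemma bad_sum (S : Finset ℕ) (z q r U p N : ℕ) (M : ℝ) (hS : ∀ g ∈ S, g.Prime) (hSU : S ⊆ Ioc U (2 * U)) (hq : 1 ≤ q) (hqz : q ≤ z)
    (hqU : q ≤ U) (hp : p.Prime) (hpr : p ∣ r) (hpq : p ∣ q) (hM : ∀ n ∈ Ioc 0 N, ‖gc S z q r n‖ ≤ M) (hM0 : 0 ≤ M) :
    ∑ n ∈ Ioc 0 N, ‖gc S z q r n‖ ^ 2 ≤ (U * (Nat.log 2 N + 1 : ℕ)) * M ^ 2 := by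
  classical
  have h1 : ∑ n ∈ Ioc 0 N, ‖gc S z q r n‖ ^ 2 = ∑ n ∈ (Ioc 0 N).filter (fun n => gc S z q r n ≠ 0), ‖gc S z q r n‖ ^ 2 := by
    symm
    apply sum_subset (filter_subset _ _)
    intro n hn hn'
    rw [mem_filter, not_and, not_not] at hn'
    rw [hn' hn, norm_zero]
    norm_num
  rw [h1]
  have h2 : (Ioc 0 N).filter (fun n => gc S z q r n ≠ 0) ⊆ (S ×ˢ range (Nat.log 2 N + 1)).image (fun x => x.1 * p ^ x.2) := by
    intro n hn
    rw [mem_filter, mem_Ioc] at hn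
    obtain ⟨g, hg, j, hj⟩ := gc_bad S z q r n U p hS hSU hq hqz hqU hp hpr hpq (by omega) hn.2
    rw [mem_image]
    refine ⟨(g, j), ?_, hj.symm⟩
    rw [mem_product, mem_range]
    refine ⟨hg, ?_⟩
    have h3 : 2 ^ j ≤ N := by
      calc 2 ^ j ≤ p ^ j := Nat.pow_le_pow_left hp.two_le j
        _ ≤ g * p ^ j := Nat.le_mul_of_pos_left _ (hS g hg).pos
        _ = n := hj.symm
        _ ≤ N := hn.1.2
    exact Nat.lt_succ_of_le (Nat.le_log_of_pow_le (by norm_num) h3)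
  have h3 : (((Ioc 0 N).filter (fun n => gc S z q r n ≠ 0)).card : ℝ) ≤ U * (Nat.log 2 N + 1 : ℕ) := by
    have h4 := (card_le_card h2).trans card_image_le
    rw [card_product, card_range] at h4
    have h5 := card_le_card hSU
    rw [Nat.card_Ioc] at h5
    have h6 : S.card ≤ U := by omega
    have h7 : ((Ioc 0 N).filter (fun n => gc S z q r n ≠ 0)).card ≤ U * (Nat.log 2 N + 1) :=
      h4.trans (Nat.mul_le_mul_right _ h6)
    exact_mod_cast h7
  have h4 : ∀ n ∈ (Ioc 0 N).filter (fun n => gc S z q r n ≠ 0), ‖gc S z q r n‖ ^ 2 ≤ M ^ 2 := by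
    intro n hn
    rw [mem_filter] at hn
    exact pow_le_pow_left₀ (norm_nonneg _) (hM n hn.1) 2
  refine (sum_le_card_nsmul _ _ _ h4).trans ?_
  rw [nsmul_eq_mul]
  exact mul_le_mul_of_nonneg_right h3 (by positivity)

/-- almost all windows, all classes -/
def S_SIG2 : Prop := ∀ A B : ℕ, ∃ a G : ℕ, ∀ E₁ : ℕ, ∃ X₀ : ℕ, ∀ X : ℕ, X₀ ≤ X → ∀ q r : ℕ, 1 ≤ q →
  (q : ℝ) ≤ (Real.log X) ^ B → ∀ z : ℕ, (Real.log X) ^ (2 * B) ≤ z → (z : ℝ) ≤ (Real.log X) ^ E₁ →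
  ∀ U : ℕ, (Real.log X) ^ a ≤ U → U ^ 5 ≤ X → ∀ S : Finset ℕ, (∀ p ∈ S, p.Prime) → S ⊆ Ioc U (2 * U) →
  ∀ W : ℕ, (U : ℝ) * (Real.log X) ^ G ≤ W → W ^ 2 ≤ X →
  ∑ u ∈ range X, ‖∑ n ∈ Ioc u (u + W), gc S z q r n‖ ^ 2 ≤ X * (W : ℝ) ^ 2 / (Real.log X) ^ A

theorem t_SIG2 (hSIG : S_SIG) : S_SIG2 := by
  intro A B
  obtain ⟨a, G, hS1⟩ := hSIG A B
  refine ⟨max a B, G, fun E₁ => ?_⟩
  obtain ⟨X₀, hS1⟩ := hS1 E₁
  obtain ⟨X₁, hX₁⟩ := Filter.eventually_atTop.1 ((Sil2.ev_log 1000).and (Sil2.ev_pow (A + 6) (1 / 2) 1 (by norm_num)))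
  obtain ⟨X₂, hX₂⟩ := Vz_inv_small E₁
  refine ⟨max (max X₁ X₂) (max X₀ 3), fun X hX q r hq hqL z hzB hzE U hU hU5 S hS hSU W hW hWX => ?_⟩
  obtain ⟨hL1000, c2⟩ := hX₁ X (le_trans (le_trans (le_max_left _ _) (le_max_left _ _)) hX)
  have hX0 : X₀ ≤ X := le_trans (le_trans (le_max_left _ _) (le_max_right _ _)) hX
  have hX3 : 3 ≤ X := le_trans (le_trans (le_max_right _ _) (le_max_right _ _)) hX
  have hzr : (1 : ℝ) ≤ z := by
    refine le_trans (one_le_pow₀ ?_) hzB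
    linarith
  have hV := hX₂ X (le_trans (le_trans (le_max_right _ _) (le_max_left _ _)) hX) z (by exact_mod_cast hzr) hzE
  set L := Real.log X with hLdef
  have hL1 : 1 ≤ L := by linarith
  have hL0 : 0 < L := by linarith
  by_cases hcop : r.Coprime q
  · exact hS1 X hX0 q r hq hqL hcop z hzB hzE U ((pow_le_pow_right₀ hL1 (le_max_left _ _)).trans hU) hU5 S hS hSU W hW hWX
  · obtain ⟨p, hp, hpr, hpq⟩ := Nat.Prime.not_coprime_iff_dvd.1 hcop
    have hXR : (3 : ℝ) ≤ X := by exact_mod_cast hX3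
    have hX0' : (0 : ℝ) < X := by linarith
    have hqz : q ≤ z := by
      have h1 : L ^ B ≤ L ^ (2 * B) := pow_le_pow_right₀ hL1 (by omega)
      exact_mod_cast hqL.trans (h1.trans hzB)
    have hqU : q ≤ U := by
      have h1 : L ^ B ≤ L ^ (max a B) := pow_le_pow_right₀ hL1 (le_max_right _ _)
      exact_mod_cast hqL.trans (h1.trans hU)
    have hWX' : W ≤ X := le_trans (Nat.le_self_pow (by norm_num) W) hWX
    have hM : ∀ n ∈ Ioc 0 (X + W), ‖gc S z q r n‖ ≤ 12 * L ^ 2 := by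
      intro n hn
      rw [mem_Ioc] at hn
      unfold gc
      split_ifs
      · apply gm_norm S hS z n L (by omega) hL0.le _ hV
        have hn0 : (0 : ℝ) < n := by exact_mod_cast hn.1
        have h2 : n ≤ 2 * X := by omega
        have h1 : Real.log n ≤ Real.log (2 * X) := Real.log_le_log hn0 (by exact_mod_cast h2)
        rw [Real.log_mul (by norm_num) hX0'.ne'] at h1
        have := Real.log_le_sub_one_of_pos (show (0 : ℝ) < 2 by norm_num)
        linarith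
      · rw [norm_zero]
        positivity
    have h1 := bad_sum S z q r U p (X + W) (12 * L ^ 2) hS hSU hq hqz hqU hp hpr hpq hM (by positivity)
    have h2 := win_triv (gc S z q r) X W
    have hlog2 : ((Nat.log 2 (X + W) + 1 : ℕ) : ℝ) ≤ 3 * L := by
      have h3 : Nat.log 2 (X + W) ≤ Nat.log 2 (X * 2) := Nat.log_mono_right (by omega)
      rw [Nat.log_mul_base (by norm_num) (by omega)] at h3
      have h4 : (Nat.log 2 X : ℝ) ≤ 2 * L := by
        have h5 : (2 : ℝ) ^ (Nat.log 2 X) ≤ X := by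
          exact_mod_cast Nat.pow_log_le_self 2 (by omega)
        have h6 := Real.log_le_log (by positivity) h5
        rw [Real.log_pow] at h6
        have := Real.log_two_gt_d9
        have h7 : (0 : ℝ) ≤ (Nat.log 2 X : ℝ) := Nat.cast_nonneg _
        nlinarith
      have h5 : ((Nat.log 2 (X + W) + 1 : ℕ) : ℝ) ≤ (Nat.log 2 X : ℝ) + 2 := by
        have : Nat.log 2 (X + W) + 1 ≤ Nat.log 2 X + 2 := by omega
        exact_mod_cast this
      linarith
    have hUs : (U : ℝ) ≤ √X := by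
      apply Real.le_sqrt_of_sq_le
      have h3 : U ^ 2 ≤ U ^ 5 := by
        rcases Nat.eq_zero_or_pos U with h | h
        · rw [h]
          norm_num
        · exact Nat.pow_le_pow_right h (by norm_num)
      exact_mod_cast h3.trans hU5
    rw [one_mul, ← Real.sqrt_eq_rpow] at c2
    have hss : √(X : ℝ) * √(X : ℝ) = X := Real.mul_self_sqrt hX0'.le
    have hs0 : 0 ≤ √(X : ℝ) := Real.sqrt_nonneg _
    refine h2.trans ?_
    have hLA : 0 < L ^ A := by positivity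
    calc (W : ℝ) ^ 2 * ∑ n ∈ Ioc 0 (X + W), ‖gc S z q r n‖ ^ 2
        ≤ (W : ℝ) ^ 2 * ((U * (Nat.log 2 (X + W) + 1 : ℕ)) * (12 * L ^ 2) ^ 2) := by gcongr
      _ ≤ (W : ℝ) ^ 2 * ((√X * (3 * L)) * (12 * L ^ 2) ^ 2) := by gcongr
      _ = (W : ℝ) ^ 2 * (√X * (432 * L ^ 5)) := by ring
      _ ≤ (W : ℝ) ^ 2 * (√X * (L * L ^ 5)) := by
          have : (432 : ℝ) ≤ L := by linarith
          gcongr
      _ ≤ X * (W : ℝ) ^ 2 / L ^ A := by
          rw [le_div_iff₀ hLA]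
          calc (W : ℝ) ^ 2 * (√X * (L * L ^ 5)) * L ^ A = (W : ℝ) ^ 2 * (√X * L ^ (A + 6)) := by ring
            _ ≤ (W : ℝ) ^ 2 * (√X * √X) := by gcongr
            _ = X * (W : ℝ) ^ 2 := by rw [hss]; ring

end Pool.Agent.H561.E2
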