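import Pool.Agent.H561.E2.B1
import Pool.Agent.H561.E2.B2

set_option autoImplicit false

/-! Major arcs. -/

namespace Pool.Agent.H561.E2

open Finset
open Pool.Agent.helper24_UT
open Pool.Agent.H373R2.T7 (Vz pz lamz mem_pz Vz_pos Vz_inv_small)
open Pool.Agent.H807R2.Dav (ee ee_add ee_zero norm_ee ee_add_int ee_int dd dd_le)

lemma ee_sub (x y : ℝ) : ‖ee x - ee y‖ ≤ 2 * Real.pi * |x - y| := by
  have h1 : ee x = ee y * ee (x - y) := by
    rw [← ee_add]
    congr 1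
    ring
  have h2 : ee x - ee y = - (ee y * (1 - ee (x - y))) := by
    rw [h1]
    ring
  rw [h2, norm_neg, norm_mul, norm_ee, one_mul]
  exact dd_le (x - y)

lemma split_win (f : ℕ → ℂ) (u W K : ℕ) :
    ∑ n ∈ Ioc u (u + K * W), f n = ∑ i ∈ range K, ∑ n ∈ Ioc (u + i * W) (u + i * W + W), f n := by
  induction K with
  | zero => simp
  | succ K ih =>
    rw [sum_range_succ, ← ih, ← sum_union]
    · congr 1
      ext n
      rw [mem_union, mem_Ioc, mem_Ioc, mem_Ioc, Nat.succ_mul]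
      omega
    · rw [Finset.disjoint_left]
      intro n hn hn'
      rw [mem_Ioc] at hn hn'
      omega

/-- one subwindow -/
lemma twist (c : ℕ → ℂ) (v W : ℕ) (α β θ M : ℝ) (h : α = β + θ) (hM : ∀ n ∈ Ioc v (v + W), ‖c n‖ ≤ M) (hM0 : 0 ≤ M) :
    ‖∑ n ∈ Ioc v (v + W), c n * ee ((n : ℝ) * α)‖ ≤ ‖∑ n ∈ Ioc v (v + W), c n * ee ((n : ℝ) * β)‖ +
      W * (M * (2 * Real.pi * (|θ| * W))) := by
  have e1 : ∑ n ∈ Ioc v (v + W), c n * ee ((n : ℝ) * α) = ee ((v : ℝ) * θ) * ∑ n ∈ Ioc v (v + W), c n * ee ((n : ℝ) * β) +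
      ∑ n ∈ Ioc v (v + W), c n * ee ((n : ℝ) * β) * (ee ((n : ℝ) * θ) - ee ((v : ℝ) * θ)) := by
    rw [mul_sum, ← sum_add_distrib]
    apply sum_congr rfl
    intro n _
    rw [h, mul_add, ee_add]
    ring
  rw [e1]
  refine (norm_add_le _ _).trans ?_
  rw [norm_mul, norm_ee, one_mul]
  apply add_le_add le_rfl
  refine (norm_sum_le _ _).trans ?_
  have h1 : ∀ n ∈ Ioc v (v + W), ‖c n * ee ((n : ℝ) * β) * (ee ((n : ℝ) * θ) - ee ((v : ℝ) * θ))‖ ≤
      M * (2 * Real.pi * (|θ| * W)) := by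
    intro n hn
    rw [norm_mul, norm_mul, norm_ee, mul_one]
    apply mul_le_mul (hM n hn) _ (norm_nonneg _) hM0
    refine (ee_sub _ _).trans ?_
    apply mul_le_mul_of_nonneg_left _ (by positivity)
    rw [← sub_mul, abs_mul, mul_comm]
    apply mul_le_mul_of_nonneg_left _ (abs_nonneg _)
    rw [mem_Ioc] at hn
    have h2 : (v : ℝ) < n := by exact_mod_cast hn.1
    have h3 : (n : ℝ) ≤ v + W := by exact_mod_cast hn.2
    rw [abs_of_pos (by linarith)]
    linarith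
  refine (sum_le_card_nsmul _ _ _ h1).trans ?_
  rw [nsmul_eq_mul, Nat.card_Ioc, Nat.add_sub_cancel_left]

/-- the whole window -/
lemma sub_win (c : ℕ → ℂ) (u H W : ℕ) (α β θ M : ℝ) (hW : 1 ≤ W) (h : α = β + θ)
    (hM : ∀ n ∈ Ioc u (u + H), ‖c n‖ ≤ M) (hM0 : 0 ≤ M) :
    ‖∑ n ∈ Ioc u (u + H), c n * ee ((n : ℝ) * α)‖ ≤
      ∑ i ∈ range (H / W), ‖∑ n ∈ Ioc (u + i * W) (u + i * W + W), c n * ee ((n : ℝ) * β)‖ +
      M * W * (2 * Real.pi * (|θ| * H) + 1) := by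
  set K := H / W with hK
  have hKW : K * W ≤ H := Nat.div_mul_le_self H W
  have hrem : H ≤ K * W + W := by
    have h0 := Nat.lt_div_mul_add (a := H) hW
    rw [← hK] at h0
    omega
  have e1 : ∑ n ∈ Ioc u (u + H), c n * ee ((n : ℝ) * α) = ∑ n ∈ Ioc u (u + K * W), c n * ee ((n : ℝ) * α) +
      ∑ n ∈ Ioc (u + K * W) (u + H), c n * ee ((n : ℝ) * α) := by
    rw [← sum_union]
    · congr 1
      ext n
      rw [mem_union, mem_Ioc, mem_Ioc, mem_Ioc]
      omega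
    · rw [Finset.disjoint_left]
      intro n hn hn'
      rw [mem_Ioc] at hn hn'
      omega
  rw [e1, split_win]
  refine (norm_add_le _ _).trans ?_
  have h1 : ‖∑ n ∈ Ioc (u + K * W) (u + H), c n * ee ((n : ℝ) * α)‖ ≤ W * M := by
    refine (norm_sum_le _ _).trans ?_
    have h2 : ∀ n ∈ Ioc (u + K * W) (u + H), ‖c n * ee ((n : ℝ) * α)‖ ≤ M := by
      intro n hn
      rw [norm_mul, norm_ee, mul_one]
      apply hM
      rw [mem_Ioc] at hn ⊢
      omega
    refine (sum_le_card_nsmul _ _ _ h2).trans ?_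
    rw [nsmul_eq_mul, Nat.card_Ioc]
    apply mul_le_mul_of_nonneg_right _ hM0
    have : u + H - (u + K * W) ≤ W := by omega
    exact_mod_cast this
  have h2 : ‖∑ i ∈ range K, ∑ n ∈ Ioc (u + i * W) (u + i * W + W), c n * ee ((n : ℝ) * α)‖ ≤
      ∑ i ∈ range K, ‖∑ n ∈ Ioc (u + i * W) (u + i * W + W), c n * ee ((n : ℝ) * β)‖ +
      K * (W * (M * (2 * Real.pi * (|θ| * W)))) := by
    refine (norm_sum_le _ _).trans ?_
    have h3 : ∀ i ∈ range K, ‖∑ n ∈ Ioc (u + i * W) (u + i * W + W), c n * ee ((n : ℝ) * α)‖ ≤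
        ‖∑ n ∈ Ioc (u + i * W) (u + i * W + W), c n * ee ((n : ℝ) * β)‖ + W * (M * (2 * Real.pi * (|θ| * W))) := by
      intro i hi
      rw [mem_range] at hi
      apply twist c (u + i * W) W α β θ M h _ hM0
      intro n hn
      apply hM
      rw [mem_Ioc] at hn ⊢
      have : (i + 1) * W ≤ K * W := Nat.mul_le_mul_right _ hi
      rw [Nat.succ_mul] at this
      omega
    refine (sum_le_sum h3).trans ?_
    rw [sum_add_distrib, sum_const, card_range, nsmul_eq_mul]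
  have h4 : (K : ℝ) * (W * (M * (2 * Real.pi * (|θ| * W)))) ≤ M * W * (2 * Real.pi * (|θ| * H)) := by
    have h5 : (K : ℝ) * W ≤ H := by exact_mod_cast hKW
    calc (K : ℝ) * (W * (M * (2 * Real.pi * (|θ| * W)))) = (K * W) * (M * W * (2 * Real.pi * |θ|)) := by ring
      _ ≤ H * (M * W * (2 * Real.pi * |θ|)) := by
          apply mul_le_mul_of_nonneg_right h5
          have := abs_nonneg θ
          have := Real.pi_pos
          positivity
      _ = _ := by ring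
  calc _ ≤ (∑ i ∈ range K, ‖∑ n ∈ Ioc (u + i * W) (u + i * W + W), c n * ee ((n : ℝ) * β)‖ +
      M * W * (2 * Real.pi * (|θ| * H))) + W * M := add_le_add (h2.trans (add_le_add le_rfl h4)) h1
    _ = _ := by ring

/-- classes -/
lemma class_sum (c : ℕ → ℂ) (v W q : ℕ) (b : ℤ) (hq : 1 ≤ q) :
    ‖∑ n ∈ Ioc v (v + W), c n * ee ((n : ℝ) * ((b : ℝ) / q))‖ ≤
      ∑ r ∈ range q, ‖∑ n ∈ Ioc v (v + W), if n % q = r % q then c n else 0‖ := by
  have e1 : ∑ n ∈ Ioc v (v + W), c n * ee ((n : ℝ) * ((b : ℝ) / q)) =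
      ∑ r ∈ range q, ee ((r : ℝ) * ((b : ℝ) / q)) * ∑ n ∈ Ioc v (v + W), if n % q = r % q then c n else 0 := by
    simp only [mul_sum]
    rw [sum_comm]
    apply sum_congr rfl
    intro n _
    have h1 : ∀ r ∈ range q, r ≠ n % q → ee ((r : ℝ) * ((b : ℝ) / q)) * (if n % q = r % q then c n else 0) = 0 := by
      intro r hr hrn
      rw [mem_range] at hr
      rw [if_neg, mul_zero]
      rw [Nat.mod_eq_of_lt hr]
      exact fun h => hrn h.symm
    rw [sum_eq_single_of_mem (n % q) (mem_range.2 (Nat.mod_lt _ hq)) h1, Nat.mod_mod, if_pos rfl, mul_comm]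
    congr 1
    have hq0 : (q : ℝ) ≠ 0 := by
      have : (0 : ℝ) < q := by exact_mod_cast hq
      exact this.ne'
    obtain ⟨m, hm⟩ : ∃ m, m = n / q := ⟨_, rfl⟩
    obtain ⟨s, hs⟩ : ∃ s, s = n % q := ⟨_, rfl⟩
    have h3 : (n : ℝ) = q * m + s := by
      rw [hm, hs]
      exact_mod_cast (Nat.div_add_mod n q).symm
    rw [← hs]
    have h2 : (n : ℝ) * ((b : ℝ) / q) = (s : ℝ) * ((b : ℝ) / q) + (((m : ℤ) * b : ℤ) : ℝ) := by
      rw [h3]
      push_cast
      field_simp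
      ring
    rw [h2, ee_add_int]
  rw [e1]
  refine (norm_sum_le _ _).trans ?_
  apply sum_le_sum
  intro r _
  rw [norm_mul, norm_ee, one_mul]

end Pool.Agent.H561.E2
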