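import Pool.Agent.H561.E2.B3

set_option autoImplicit false

/-! The exponential sums of the convolution in short windows: major arcs. -/

namespace Pool.Agent.H561.E2

open Finset
open Pool.Agent.helper24_UT
open Pool.Agent.H373R2.T7 (Vz pz lamz mem_pz Vz_pos Vz_inv_small)
open Pool.Agent.H807R2.Dav (ee ee_add ee_zero norm_ee ee_add_int ee_int dd dd_le)

/-- the deterministic part -/
lemma major_det (S : Finset ℕ) (z X H W q : ℕ) (b : ℤ) (α θ M R0 : ℝ) (hq : 1 ≤ q) (hW : 1 ≤ W) (hθ : α = (b : ℝ) / q + θ)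
    (hM : ∀ n ∈ Ioc 0 (X + 2 * H), ‖gm S z n‖ ≤ M) (hM0 : 0 ≤ M) (hWH : W ≤ H)
    (hR : ∀ r ∈ range q, ∑ u ∈ range X, ‖∑ n ∈ Ioc u (u + W), gc S z q r n‖ ^ 2 ≤ R0) :
    ∑ u ∈ range X, ‖∑ n ∈ Ioc u (u + H), gm S z n * ee ((n : ℝ) * α)‖ ^ 2 ≤
      2 * ((H / W : ℕ) : ℝ) ^ 2 * ((q : ℝ) ^ 2 * R0 + H * (q * (W * M)) ^ 2) +
      2 * X * (M * W * (2 * Real.pi * (|θ| * H) + 1)) ^ 2 := by
  obtain ⟨K, hK⟩ : ∃ K, K = H / W := ⟨_, rfl⟩
  have hKW : K * W ≤ H := by rw [hK]; exact Nat.div_mul_le_self H W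
  obtain ⟨R, hRd⟩ : ∃ R : ℕ → ℝ, R = fun v => ∑ r ∈ range q, ‖∑ n ∈ Ioc v (v + W), gc S z q r n‖ := ⟨_, rfl⟩
  have hR0 : ∀ v, 0 ≤ R v := fun v => by
    rw [hRd]
    exact sum_nonneg fun _ _ => norm_nonneg _
  obtain ⟨Er, hEr⟩ : ∃ Er, Er = M * W * (2 * Real.pi * (|θ| * H) + 1) := ⟨_, rfl⟩
  have hEr0 : 0 ≤ Er := by
    rw [hEr]
    have := abs_nonneg θ
    have := Real.pi_pos
    positivity
  have hpt : ∀ u ∈ range X, ‖∑ n ∈ Ioc u (u + H), gm S z n * ee ((n : ℝ) * α)‖ ^ 2 ≤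
      2 * (K * ∑ i ∈ range K, R (u + i * W) ^ 2) + 2 * Er ^ 2 := by
    intro u hu
    rw [mem_range] at hu
    have h1 := sub_win (gm S z) u H W α ((b : ℝ) / q) θ M hW hθ (by
      intro n hn
      apply hM
      rw [mem_Ioc] at hn ⊢
      omega) hM0
    rw [← hEr, ← hK] at h1
    have h2 : ∑ i ∈ range K, ‖∑ n ∈ Ioc (u + i * W) (u + i * W + W), gm S z n * ee ((n : ℝ) * ((b : ℝ) / q))‖ ≤
        ∑ i ∈ range K, R (u + i * W) := by
      apply sum_le_sum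
      intro i _
      rw [hRd]
      exact class_sum (gm S z) (u + i * W) W q b hq
    have h3 : (∑ i ∈ range K, R (u + i * W)) ^ 2 ≤ K * ∑ i ∈ range K, R (u + i * W) ^ 2 := by
      have := sq_sum_le_card_mul_sum_sq (s := range K) (f := fun i => R (u + i * W))
      rwa [card_range] at this
    have h4 : ‖∑ n ∈ Ioc u (u + H), gm S z n * ee ((n : ℝ) * α)‖ ≤ ∑ i ∈ range K, R (u + i * W) + Er := by linarith
    have h5 : 0 ≤ ∑ i ∈ range K, R (u + i * W) := sum_nonneg fun _ _ => hR0 _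
    calc ‖∑ n ∈ Ioc u (u + H), gm S z n * ee ((n : ℝ) * α)‖ ^ 2 ≤ (∑ i ∈ range K, R (u + i * W) + Er) ^ 2 :=
          pow_le_pow_left₀ (norm_nonneg _) h4 2
      _ ≤ 2 * (∑ i ∈ range K, R (u + i * W)) ^ 2 + 2 * Er ^ 2 := by nlinarith [sq_nonneg (∑ i ∈ range K, R (u + i * W) - Er)]
      _ ≤ _ := by linarith
  have hRsum : ∑ v ∈ range X, R v ^ 2 ≤ (q : ℝ) ^ 2 * R0 := by
    have h1 : ∀ v ∈ range X, R v ^ 2 ≤ q * ∑ r ∈ range q, ‖∑ n ∈ Ioc v (v + W), gc S z q r n‖ ^ 2 := by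
      intro v _
      rw [hRd]
      have := sq_sum_le_card_mul_sum_sq (s := range q) (f := fun r => ‖∑ n ∈ Ioc v (v + W), gc S z q r n‖)
      rwa [card_range] at this
    refine (sum_le_sum h1).trans ?_
    rw [← mul_sum, sum_comm]
    have h2 := sum_le_card_nsmul _ _ _ hR
    rw [card_range, nsmul_eq_mul] at h2
    calc (q : ℝ) * ∑ r ∈ range q, ∑ v ∈ range X, ‖∑ n ∈ Ioc v (v + W), gc S z q r n‖ ^ 2 ≤ q * (q * R0) := by gcongr
      _ = _ := by ring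
  have hRtriv : ∀ v, v < X + H → R v ^ 2 ≤ (q * (W * M)) ^ 2 := by
    intro v hv
    apply pow_le_pow_left₀ (hR0 v)
    rw [hRd]
    have h1 : ∀ r ∈ range q, ‖∑ n ∈ Ioc v (v + W), gc S z q r n‖ ≤ W * M := by
      intro r _
      refine (norm_sum_le _ _).trans ?_
      have h2 : ∀ n ∈ Ioc v (v + W), ‖gc S z q r n‖ ≤ M := by
        intro n hn
        rw [mem_Ioc] at hn
        unfold gc
        split_ifs
        · apply hM
          rw [mem_Ioc]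
          omega
        · rw [norm_zero]
          exact hM0
      refine (sum_le_card_nsmul _ _ _ h2).trans ?_
      rw [nsmul_eq_mul, Nat.card_Ioc, Nat.add_sub_cancel_left]
    have h3 := sum_le_card_nsmul _ _ _ h1
    rwa [card_range, nsmul_eq_mul] at h3
  have hshift : ∀ i ∈ range K, ∑ u ∈ range X, R (u + i * W) ^ 2 ≤ (q : ℝ) ^ 2 * R0 + H * (q * (W * M)) ^ 2 := by
    intro i hi
    rw [mem_range] at hi
    have hiW : i * W ≤ H := (Nat.mul_le_mul_right _ hi.le).trans hKW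
    have e1 : ∑ u ∈ range X, R (u + i * W) ^ 2 = ∑ v ∈ Ico (i * W) (X + i * W), R v ^ 2 := by
      rw [sum_Ico_eq_sum_range, show X + i * W - i * W = X by omega]
      apply sum_congr rfl
      intro u _
      rw [add_comm]
    have e2 : ∑ v ∈ Ico (i * W) (X + i * W), R v ^ 2 ≤ ∑ v ∈ range (X + H), R v ^ 2 := by
      apply sum_le_sum_of_subset_of_nonneg
      · intro v hv
        rw [mem_Ico] at hv
        rw [mem_range]
        omega
      · intro _ _ _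
        positivity
    have e3 : ∑ v ∈ range (X + H), R v ^ 2 = ∑ v ∈ range X, R v ^ 2 + ∑ j ∈ range H, R (X + j) ^ 2 := sum_range_add _ _ _
    have e4 : ∑ j ∈ range H, R (X + j) ^ 2 ≤ H * (q * (W * M)) ^ 2 := by
      have h1 : ∀ j ∈ range H, R (X + j) ^ 2 ≤ (q * (W * M)) ^ 2 := fun j hj => hRtriv _ (by rw [mem_range] at hj; omega)
      have h2 := sum_le_card_nsmul _ _ _ h1
      rwa [card_range, nsmul_eq_mul] at h2
    linarith
  refine (sum_le_sum hpt).trans ?_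
  rw [sum_add_distrib, sum_const, card_range, nsmul_eq_mul, ← mul_sum, ← mul_sum, sum_comm]
  have h2 := sum_le_card_nsmul _ _ _ hshift
  rw [card_range, nsmul_eq_mul] at h2
  rw [← hK, ← hEr]
  have h3 : (K : ℝ) * ∑ i ∈ range K, ∑ u ∈ range X, R (u + i * W) ^ 2 ≤ K * (K * ((q : ℝ) ^ 2 * R0 + H * (q * (W * M)) ^ 2)) := by gcongr
  calc 2 * ((K : ℝ) * ∑ i ∈ range K, ∑ u ∈ range X, R (u + i * W) ^ 2) + X * (2 * Er ^ 2)
      ≤ 2 * (K * (K * ((q : ℝ) ^ 2 * R0 + H * (q * (W * M)) ^ 2))) + X * (2 * Er ^ 2) := by linarith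
    _ = _ := by ring

/-- major arcs -/
def S_MAJ : Prop := ∀ A B D : ℕ, ∃ a G : ℕ, ∀ E₁ : ℕ, ∃ X₀ : ℕ, ∀ X : ℕ, X₀ ≤ X → ∀ z : ℕ, (Real.log X) ^ (2 * B) ≤ z →
  (z : ℝ) ≤ (Real.log X) ^ E₁ → ∀ U : ℕ, (Real.log X) ^ a ≤ U → U ^ 5 ≤ X → ∀ S : Finset ℕ, (∀ p ∈ S, p.Prime) →
  S ⊆ Ioc U (2 * U) → ∀ H : ℕ, (U : ℝ) * (Real.log X) ^ G ≤ H → H ^ 2 ≤ X → ∀ q : ℕ, 1 ≤ q → (q : ℝ) ≤ (Real.log X) ^ B →
  ∀ (b : ℤ) (α : ℝ), |α - (b : ℝ) / q| ≤ (Real.log X) ^ D / H →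
  ∑ u ∈ range X, ‖∑ n ∈ Ioc u (u + H), gm S z n * ee ((n : ℝ) * α)‖ ^ 2 ≤ X * (H : ℝ) ^ 2 / (Real.log X) ^ A

theorem t_MAJ (hSIG : S_SIG2) : S_MAJ := by
  intro A B D
  obtain ⟨a, G₁, hS1⟩ := hSIG (2 * B + A + 2) B
  obtain ⟨D', hD'⟩ : ∃ D', D' = D + A + 8 := ⟨_, rfl⟩
  refine ⟨a, G₁ + D' + 1, fun E₁ => ?_⟩
  obtain ⟨X₀, hS1⟩ := hS1 E₁
  obtain ⟨X₁, hX₁⟩ := Filter.eventually_atTop.1 ((Sil2.ev_log 40000).and (Sil2.ev_pow (2 * B + A + 6) (1 / 2) 1 (by norm_num)))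
  obtain ⟨X₂, hX₂⟩ := Vz_inv_small E₁
  refine ⟨max (max X₁ X₂) (max X₀ 3), fun X hX z hzB hzE U hU hU5 S hS hSU H hH hHX q hq hqL b α hα => ?_⟩
  obtain ⟨hLbig, c2⟩ := hX₁ X (le_trans (le_trans (le_max_left _ _) (le_max_left _ _)) hX)
  have hX0 : X₀ ≤ X := le_trans (le_trans (le_max_left _ _) (le_max_right _ _)) hX
  have hX3 : 3 ≤ X := le_trans (le_trans (le_max_right _ _) (le_max_right _ _)) hX
  have hzr : (1 : ℝ) ≤ z := by
    refine le_trans (one_le_pow₀ ?_) hzB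
    linarith
  have hV := hX₂ X (le_trans (le_trans (le_max_right _ _) (le_max_left _ _)) hX) z (by exact_mod_cast hzr) hzE
  obtain ⟨L, hLdef⟩ : ∃ L, L = Real.log (X : ℝ) := ⟨_, rfl⟩
  rw [← hLdef] at hLbig c2 hV hqL hα hH hU ⊢
  have hL1 : 1 ≤ L := by linarith
  have hL0 : 0 < L := by linarith
  have hXR : (3 : ℝ) ≤ X := by exact_mod_cast hX3
  have hX0' : (0 : ℝ) < X := by linarith
  have hUr : (1 : ℝ) ≤ U := le_trans (one_le_pow₀ hL1) hU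
  have hLD : 0 < L ^ D' := by positivity
  have hLD1 : 1 ≤ L ^ D' := one_le_pow₀ hL1
  obtain ⟨W, hWd⟩ : ∃ W, W = ⌊(H : ℝ) / L ^ D'⌋₊ := ⟨_, rfl⟩
  have hH2 : (U : ℝ) * L ^ (G₁ + 1) ≤ H / L ^ D' := by
    rw [le_div_iff₀ hLD]
    calc (U : ℝ) * L ^ (G₁ + 1) * L ^ D' = U * L ^ (G₁ + D' + 1) := by ring
      _ ≤ H := hH
  have hH3 : (1 : ℝ) ≤ H / L ^ D' := by
    refine le_trans ?_ hH2
    have : (1 : ℝ) ≤ L ^ (G₁ + 1) := one_le_pow₀ hL1
    nlinarith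
  have hW1 : (W : ℝ) ≤ H / L ^ D' := by rw [hWd]; exact Nat.floor_le (by positivity)
  have hW2 : (H : ℝ) / L ^ D' ≤ 2 * W := by
    have h1 := Nat.lt_floor_add_one ((H : ℝ) / L ^ D')
    rw [← hWd] at h1
    have h2 : 1 ≤ W := by rw [hWd]; exact Nat.le_floor (by exact_mod_cast hH3)
    have h3 : (1 : ℝ) ≤ W := by exact_mod_cast h2
    linarith
  have hWn : 1 ≤ W := by rw [hWd]; exact Nat.le_floor (by exact_mod_cast hH3)
  have hH0 : (0 : ℝ) < H := by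
    have h1 : (0 : ℝ) < H / L ^ D' := by linarith
    by_contra hcon
    have h2 : (H : ℝ) / L ^ D' ≤ 0 := div_nonpos_of_nonpos_of_nonneg (not_lt.1 hcon) hLD.le
    linarith
  have hWHr : (W : ℝ) ≤ H := hW1.trans (div_le_self hH0.le hLD1)
  have hWH : W ≤ H := by exact_mod_cast hWHr
  have hWU : (U : ℝ) * (Real.log X) ^ G₁ ≤ W := by
    rw [← hLdef]
    have h1 : 2 * ((U : ℝ) * L ^ G₁) ≤ U * L ^ (G₁ + 1) := by
      have : 0 ≤ (U : ℝ) * L ^ G₁ := by positivity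
      rw [pow_succ]
      nlinarith
    linarith
  have hW2X : W ^ 2 ≤ X := (Nat.pow_le_pow_left hWH 2).trans hHX
  have hHX' : H ≤ X := le_trans (Nat.le_self_pow (by norm_num) H) hHX
  have hM : ∀ n ∈ Ioc 0 (X + 2 * H), ‖gm S z n‖ ≤ 12 * L ^ 2 := by
    intro n hn
    rw [mem_Ioc] at hn
    apply gm_norm S hS z n L (by omega) hL0.le _ hV
    have hn0 : (0 : ℝ) < n := by exact_mod_cast hn.1
    have h2 : n ≤ 3 * X := by omega
    have h1 : Real.log n ≤ Real.log (3 * X) := Real.log_le_log hn0 (by exact_mod_cast h2)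
    rw [Real.log_mul (by norm_num) hX0'.ne', ← hLdef] at h1
    have := Real.log_le_sub_one_of_pos (show (0 : ℝ) < 3 by norm_num)
    linarith
  have hdet := major_det S z X H W q b α (α - (b : ℝ) / q) (12 * L ^ 2) (X * (W : ℝ) ^ 2 / L ^ (2 * B + A + 2)) hq hWn
    (by ring) hM (by positivity) hWH (by
      intro r _
      have := hS1 X hX0 q r hq (by rw [← hLdef]; exact hqL) z hzB hzE U (by rw [← hLdef]; exact hU) hU5 S hS hSU W hWU hW2X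
      rwa [← hLdef] at this)
  refine hdet.trans ?_
  have hKW : ((H / W : ℕ) : ℝ) * W ≤ H := by exact_mod_cast Nat.div_mul_le_self H W
  have hW0 : (0 : ℝ) ≤ W := Nat.cast_nonneg _
  have hK0 : (0 : ℝ) ≤ ((H / W : ℕ) : ℝ) := Nat.cast_nonneg _
  have hss : √(X : ℝ) * √(X : ℝ) = X := Real.mul_self_sqrt hX0'.le
  have hs0 : 0 ≤ √(X : ℝ) := Real.sqrt_nonneg _
  have hHs : (H : ℝ) ≤ √X := by
    apply Real.le_sqrt_of_sq_le
    exact_mod_cast hHX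
  rw [one_mul, ← Real.sqrt_eq_rpow] at c2
  have hLA : 0 < L ^ A := by positivity
  have t1 : 2 * ((H / W : ℕ) : ℝ) ^ 2 * ((q : ℝ) ^ 2 * (X * (W : ℝ) ^ 2 / L ^ (2 * B + A + 2))) ≤ X * (H : ℝ) ^ 2 / L ^ A * (1 / 4) := by
    calc 2 * ((H / W : ℕ) : ℝ) ^ 2 * ((q : ℝ) ^ 2 * (X * (W : ℝ) ^ 2 / L ^ (2 * B + A + 2)))
        = 2 * (((H / W : ℕ) : ℝ) * W) ^ 2 * (q : ℝ) ^ 2 * X / L ^ (2 * B + A + 2) := by ring
      _ ≤ 2 * (H : ℝ) ^ 2 * (L ^ B) ^ 2 * X / L ^ (2 * B + A + 2) := by gcongr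
      _ = X * (H : ℝ) ^ 2 / L ^ A * (2 / L ^ 2) := by
          rw [show L ^ (2 * B + A + 2) = (L ^ B) ^ 2 * L ^ A * L ^ 2 by ring]
          field_simp
      _ ≤ X * (H : ℝ) ^ 2 / L ^ A * (1 / 4) := by
          apply mul_le_mul_of_nonneg_left _ (by positivity)
          rw [div_le_div_iff₀ (by positivity) (by norm_num)]
          nlinarith
  have t2 : 2 * ((H / W : ℕ) : ℝ) ^ 2 * (H * (q * (W * (12 * L ^ 2))) ^ 2) ≤ X * (H : ℝ) ^ 2 / L ^ A * (1 / 4) := by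
    calc 2 * ((H / W : ℕ) : ℝ) ^ 2 * (H * (q * (W * (12 * L ^ 2))) ^ 2)
        = 2 * (((H / W : ℕ) : ℝ) * W) ^ 2 * H * (q : ℝ) ^ 2 * (144 * L ^ 4) := by ring
      _ ≤ 2 * (H : ℝ) ^ 2 * √X * (L ^ B) ^ 2 * (144 * L ^ 4) := by gcongr
      _ = (H : ℝ) ^ 2 * √X * (288 * L ^ (2 * B + 4)) := by ring
      _ ≤ X * (H : ℝ) ^ 2 / L ^ A * (1 / 4) := by
          have h1 : 288 * L ^ (2 * B + 4) * L ^ A * 4 ≤ √X := by
            calc 288 * L ^ (2 * B + 4) * L ^ A * 4 = 1152 * L ^ (2 * B + A + 4) := by ring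
              _ ≤ (L * L) * L ^ (2 * B + A + 4) := by
                  have : (1152 : ℝ) ≤ L * L := by nlinarith
                  gcongr
              _ = L ^ (2 * B + A + 6) := by ring
              _ ≤ √X := c2
          rw [div_mul_eq_mul_div, le_div_iff₀ hLA]
          have h2 : (H : ℝ) ^ 2 * √X * (288 * L ^ (2 * B + 4) * L ^ A * 4) ≤ (H : ℝ) ^ 2 * √X * √X := by gcongr
          have h3 : (H : ℝ) ^ 2 * √X * √X = X * (H : ℝ) ^ 2 := by rw [mul_assoc, hss]; ring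
          nlinarith
  have t3 : 2 * X * (12 * L ^ 2 * W * (2 * Real.pi * (|α - (b : ℝ) / q| * H) + 1)) ^ 2 ≤ X * (H : ℝ) ^ 2 / L ^ A * (1 / 4) := by
    have h1 : |α - (b : ℝ) / q| * H ≤ L ^ D := by
      calc |α - (b : ℝ) / q| * H ≤ L ^ D / H * H := by gcongr
        _ = L ^ D := by field_simp
    have hLDD : 1 ≤ L ^ D := one_le_pow₀ hL1
    have h2 : 2 * Real.pi * (|α - (b : ℝ) / q| * H) + 1 ≤ 9 * L ^ D := by
      have h3 : 2 * Real.pi * (|α - (b : ℝ) / q| * H) ≤ 8 * L ^ D := by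
        apply mul_le_mul _ h1 (by positivity) (by norm_num)
        linarith [Real.pi_le_four]
      linarith
    have h3 : 12 * L ^ 2 * W * (2 * Real.pi * (|α - (b : ℝ) / q| * H) + 1) ≤ H * (1 / L ^ (A + 5)) := by
      calc 12 * L ^ 2 * W * (2 * Real.pi * (|α - (b : ℝ) / q| * H) + 1)
          ≤ 12 * L ^ 2 * (H / L ^ D') * (9 * L ^ D) := by gcongr
        _ = H * (108 / L) * (1 / L ^ (A + 5)) := by
            rw [hD', show L ^ (D + A + 8) = L ^ D * L ^ (A + 5) * L ^ 2 * L by ring]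
            field_simp
            norm_num
        _ ≤ H * 1 * (1 / L ^ (A + 5)) := by
            have : 108 / L ≤ 1 := by rw [div_le_one hL0]; linarith
            gcongr
        _ = _ := by ring
    have h4 : 0 ≤ 12 * L ^ 2 * W * (2 * Real.pi * (|α - (b : ℝ) / q| * H) + 1) := by
      have := Real.pi_pos
      positivity
    calc 2 * X * (12 * L ^ 2 * W * (2 * Real.pi * (|α - (b : ℝ) / q| * H) + 1)) ^ 2
        ≤ 2 * X * (H * (1 / L ^ (A + 5))) ^ 2 := by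
          apply mul_le_mul_of_nonneg_left _ (by positivity)
          exact pow_le_pow_left₀ h4 h3 2
      _ = X * (H : ℝ) ^ 2 / L ^ A * (2 / (L ^ (A + 10))) := by
          rw [show (H * (1 / L ^ (A + 5))) ^ 2 = (H : ℝ) ^ 2 / (L ^ A * L ^ (A + 10)) by rw [← pow_add]; field_simp; ring]
          field_simp
      _ ≤ X * (H : ℝ) ^ 2 / L ^ A * (1 / 4) := by
          apply mul_le_mul_of_nonneg_left _ (by positivity)
          rw [div_le_div_iff₀ (by positivity) (by norm_num)]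
          have : L ≤ L ^ (A + 10) := le_self_pow₀ hL1 (by omega)
          linarith
  have hT : 0 ≤ X * (H : ℝ) ^ 2 / L ^ A := by positivity
  calc 2 * ((H / W : ℕ) : ℝ) ^ 2 * ((q : ℝ) ^ 2 * (X * (W : ℝ) ^ 2 / L ^ (2 * B + A + 2)) + H * (q * (W * (12 * L ^ 2))) ^ 2) +
      2 * X * (12 * L ^ 2 * W * (2 * Real.pi * (|α - (b : ℝ) / q| * H) + 1)) ^ 2
      = 2 * ((H / W : ℕ) : ℝ) ^ 2 * ((q : ℝ) ^ 2 * (X * (W : ℝ) ^ 2 / L ^ (2 * B + A + 2))) +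
        2 * ((H / W : ℕ) : ℝ) ^ 2 * (H * (q * (W * (12 * L ^ 2))) ^ 2) +
        2 * X * (12 * L ^ 2 * W * (2 * Real.pi * (|α - (b : ℝ) / q| * H) + 1)) ^ 2 := by ring
    _ ≤ _ := by linarith

end Pool.Agent.H561.E2
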