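import Pool.Agent.H561.E2.B4

set_option autoImplicit false

/-! The exponential sums of the convolution in short windows: all frequencies. -/

namespace Pool.Agent.H561.E2

open Finset
open Pool.Agent.helper24_UT
open Pool.Agent.H373R2.T7 (Vz pz lamz mem_pz Vz_pos Vz_inv_small)
open Pool.Agent.H807R2.Dav (ee ee_add ee_zero norm_ee ee_add_int ee_int dd dd_le)

/-- all frequencies -/
def S_STAR : Prop := ∀ A : ℕ, ∃ a G B₀ : ℕ, ∀ E₁ : ℕ, ∃ X₀ : ℕ, ∀ X : ℕ, X₀ ≤ X → ∀ z : ℕ, (Real.log X) ^ B₀ ≤ z →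
  (z : ℝ) ≤ (Real.log X) ^ E₁ → ∀ U : ℕ, (Real.log X) ^ a ≤ U → U ^ 5 ≤ X → ∀ S : Finset ℕ, (∀ p ∈ S, p.Prime) →
  S ⊆ Ioc U (2 * U) → ∀ H : ℕ, (U : ℝ) * (Real.log X) ^ G ≤ H → H ^ 2 ≤ X → ∀ α : ℝ,
  ∑ u ∈ range X, ‖∑ n ∈ Ioc u (u + H), gm S z n * ee ((n : ℝ) * α)‖ ^ 2 ≤ X * (H : ℝ) ^ 2 / (Real.log X) ^ A

theorem t_STAR (hMAJ : S_MAJ) : S_STAR := by
  intro A
  obtain ⟨D, hD⟩ : ∃ D, D = A + 8 := ⟨_, rfl⟩
  obtain ⟨a, G₁, hM⟩ := hMAJ A D D
  refine ⟨max a D, max G₁ (D + D), 2 * D, fun E₁ => ?_⟩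
  obtain ⟨X₀, hM⟩ := hM E₁
  obtain ⟨X₁, hX₁⟩ := Filter.eventually_atTop.1 (Sil2.ev_log 40000)
  obtain ⟨X₂, hX₂⟩ := Vz_inv_small E₁
  refine ⟨max (max X₁ X₂) (max X₀ 3), fun X hX z hzB hzE U hU hU5 S hS hSU H hH hHX α => ?_⟩
  have hLbig := hX₁ X (le_trans (le_trans (le_max_left _ _) (le_max_left _ _)) hX)
  have hX0 : X₀ ≤ X := le_trans (le_trans (le_max_left _ _) (le_max_right _ _)) hX
  have hX3 : 3 ≤ X := le_trans (le_trans (le_max_right _ _) (le_max_right _ _)) hX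
  have hzr : (1 : ℝ) ≤ z := by
    refine le_trans (one_le_pow₀ ?_) hzB
    linarith
  have hV := hX₂ X (le_trans (le_trans (le_max_right _ _) (le_max_left _ _)) hX) z (by exact_mod_cast hzr) hzE
  obtain ⟨L, hLdef⟩ : ∃ L, L = Real.log (X : ℝ) := ⟨_, rfl⟩
  have hL1 : 1 ≤ L := by rw [hLdef]; linarith
  have hL0 : 0 < L := by linarith
  have hL40 : 40000 ≤ L := by rw [hLdef]; exact hLbig
  have hXR : (3 : ℝ) ≤ X := by exact_mod_cast hX3
  have hX0' : (0 : ℝ) < X := by linarith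
  have hU' : L ^ (max a D) ≤ U := by rw [hLdef]; exact hU
  have hH' : (U : ℝ) * L ^ (max G₁ (D + D)) ≤ H := by rw [hLdef]; exact hH
  have hUr : (1 : ℝ) ≤ U := le_trans (one_le_pow₀ hL1) hU'
  have hU1 : 1 ≤ U := by exact_mod_cast hUr
  have hUD : L ^ D ≤ U := (pow_le_pow_right₀ hL1 (le_max_right _ _)).trans hU'
  have hHG : (U : ℝ) * L ^ (D + D) ≤ H := by
    refine le_trans ?_ hH'
    have := pow_le_pow_right₀ hL1 (le_max_right G₁ (D + D))
    gcongr
  have hLD : 0 < L ^ D := by positivity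
  have hLD1 : 1 ≤ L ^ D := one_le_pow₀ hL1
  have hUH : (U : ℝ) * L ^ D ≤ H := by
    refine le_trans ?_ hHG
    have : L ^ D ≤ L ^ (D + D) := pow_le_pow_right₀ hL1 (by omega)
    gcongr
  have hH1r : (1 : ℝ) ≤ H := by nlinarith
  have hH0 : (0 : ℝ) < H := by linarith
  have hHn : 1 ≤ H := by exact_mod_cast hH1r
  have hHX' : H ≤ X := le_trans (Nat.le_self_pow (by norm_num) H) hHX
  -- Dirichlet
  obtain ⟨Q, hQ⟩ : ∃ Q, Q = ⌊(H : ℝ) / L ^ D⌋₊ := ⟨_, rfl⟩
  have hHD : (1 : ℝ) ≤ H / L ^ D := by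
    rw [le_div_iff₀ hLD]
    nlinarith
  have hQ1 : 1 ≤ Q := by rw [hQ]; exact Nat.le_floor (by exact_mod_cast hHD)
  have hQ2 : (Q : ℝ) ≤ H / L ^ D := by rw [hQ]; exact Nat.floor_le (by positivity)
  have hQ3 : (H : ℝ) / L ^ D ≤ Q + 1 := by rw [hQ]; exact (Nat.lt_floor_add_one _).le
  obtain ⟨w, hw1, hw2⟩ := Real.exists_rat_abs_sub_le_and_den_le α hQ1
  obtain ⟨q, hq⟩ : ∃ q, q = w.den := ⟨_, rfl⟩
  obtain ⟨b, hb⟩ : ∃ b, b = w.num := ⟨_, rfl⟩
  have hw : (w : ℝ) = (b : ℝ) / q := by rw [hb, hq]; exact_mod_cast (Rat.num_div_den w).symm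
  have hqn : 1 ≤ q := by rw [hq]; exact w.pos
  have hqr : (1 : ℝ) ≤ q := by exact_mod_cast hqn
  have hq0 : (0 : ℝ) < q := by linarith
  rw [hw, ← hq] at hw1
  rw [← hq] at hw2
  have hw3 : (q : ℝ) ≤ H / L ^ D := le_trans (by exact_mod_cast hw2) hQ2
  have hcop : IsCoprime b (q : ℤ) := by
    rw [hb, hq, Int.isCoprime_iff_gcd_eq_one]
    have := w.reduced
    rwa [Nat.coprime_iff_gcd_eq_one] at this
  by_cases hmaj : (q : ℝ) ≤ L ^ D
  · apply hM X hX0 z (by exact hzB) hzE U ((pow_le_pow_right₀ (by linarith) (le_max_left _ _)).trans hU) hU5 S hS hSU H _ hHX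
      q hqn (by rw [← hLdef]; exact hmaj) b α
    · rw [← hLdef]
      refine hw1.trans ?_
      rw [div_le_div_iff₀ (by positivity) hH0, one_mul]
      have h1 : (H : ℝ) ≤ L ^ D * (Q + 1) := by
        rw [div_le_iff₀ hLD] at hQ3
        linarith
      refine h1.trans ?_
      have h2 : ((Q : ℝ) + 1) ≤ (Q + 1) * q := by
        have : (0 : ℝ) ≤ Q := Nat.cast_nonneg _
        nlinarith
      gcongr
    · refine le_trans ?_ hH
      have := pow_le_pow_right₀ (show 1 ≤ Real.log (X : ℝ) by linarith) (le_max_left G₁ (D + D))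
      gcongr
  · push Not at hmaj
    have hα : |α - (b : ℝ) / q| ≤ 1 / (q : ℝ) ^ 2 := by
      refine hw1.trans ?_
      apply one_div_le_one_div_of_le (by positivity)
      rw [sq]
      apply mul_le_mul_of_nonneg_right _ hq0.le
      have : (q : ℝ) ≤ Q := by exact_mod_cast hw2
      linarith
    have hmin := minor S U X H q b α (dl z) hSU hU1 hHn hqn hcop hα
    have hd : ∑ m ∈ Ioc 0 ((X + H) / U), ‖dl z m‖ ^ 2 ≤ 18 * X * L ^ 2 / U := by
      have h1 : ∀ m ∈ Ioc 0 ((X + H) / U), ‖dl z m‖ ^ 2 ≤ (3 * L) ^ 2 := by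
        intro m hm
        rw [mem_Ioc] at hm
        apply pow_le_pow_left₀ (norm_nonneg _)
        apply dl_norm z m L _ (by rw [hLdef]; exact hV)
        refine ArithmeticFunction.vonMangoldt_le_log.trans ?_
        have hm0 : (0 : ℝ) < m := by exact_mod_cast hm.1
        have h2 : m ≤ 2 * X := by
          have := Nat.div_le_self (X + H) U
          omega
        have h1 : Real.log m ≤ Real.log (2 * X) := Real.log_le_log hm0 (by exact_mod_cast h2)
        rw [Real.log_mul (by norm_num) hX0'.ne', ← hLdef] at h1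
        have := Real.log_le_sub_one_of_pos (show (0 : ℝ) < 2 by norm_num)
        linarith
      refine (sum_le_card_nsmul _ _ _ h1).trans ?_
      rw [nsmul_eq_mul, Nat.card_Ioc, Nat.sub_zero]
      have h3 : (((X + H) / U : ℕ) : ℝ) ≤ 2 * X / U := by
        refine Nat.cast_div_le.trans ?_
        apply div_le_div_of_nonneg_right _ (by linarith)
        have : (H : ℝ) ≤ X := by exact_mod_cast hHX'
        push_cast
        linarith
      calc (((X + H) / U : ℕ) : ℝ) * (3 * L) ^ 2 ≤ (2 * X / U) * (3 * L) ^ 2 := by gcongr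
        _ = _ := by ring
    have hlogq : Real.log q ≤ L := by
      rw [hLdef]
      apply Real.log_le_log hq0
      refine hw3.trans ((div_le_self hH0.le hLD1).trans ?_)
      exact_mod_cast hHX'
    have hlogq0 : 0 ≤ Real.log q := Real.log_nonneg hqr
    -- the size of the minor arc factor
    have hY : ((U : ℝ) / q + 1) * (39 * ((H : ℝ) / U + 1) + 3 * q * (1 + Real.log q)) ≤ 200 * (H * L / L ^ D) := by
      have hT0 : 0 < H * L / L ^ D := by positivity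
      have b1 : (H : ℝ) / q ≤ H * L / L ^ D := by
        rw [div_le_div_iff₀ hq0 hLD]
        have : L ^ D ≤ L * q := by nlinarith
        nlinarith
      have b2 : (H : ℝ) / U ≤ H * L / L ^ D := by
        rw [div_le_div_iff₀ (by linarith) hLD]
        have : L ^ D ≤ L * U := by nlinarith
        nlinarith
      have b3 : (U : ℝ) * L ≤ H * L / L ^ D := by
        rw [le_div_iff₀ hLD]
        nlinarith
      have b4 : (q : ℝ) * L ≤ H * L / L ^ D := by
        calc (q : ℝ) * L ≤ H / L ^ D * L := by gcongr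
          _ = _ := by ring
      have b5 : (U : ℝ) / q ≤ U * L := by
        refine (div_le_self (by linarith) hqr).trans ?_
        nlinarith
      have b6 : (1 : ℝ) ≤ q * L := by nlinarith
      have e1 : ((U : ℝ) / q + 1) * (39 * ((H : ℝ) / U + 1) + 3 * q * (1 + Real.log q)) =
          39 * (H / q) + 39 * (U / q) + 3 * (U * (1 + Real.log q)) + 39 * (H / U) + 39 + 3 * (q * (1 + Real.log q)) := by
        field_simp
        ring
      have b7 : (U : ℝ) * (1 + Real.log q) ≤ 2 * (U * L) := by nlinarith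
      have b8 : (q : ℝ) * (1 + Real.log q) ≤ 2 * (q * L) := by nlinarith
      rw [e1]
      linarith
    have hY0 : 0 ≤ ((U : ℝ) / q + 1) * (39 * ((H : ℝ) / U + 1) + 3 * q * (1 + Real.log q)) := by positivity
    have hgm : ∀ n, (∑ g ∈ S, if g ∣ n then dl z (n / g) else 0) = gm S z n := fun n => rfl
    simp only [hgm] at hmin
    refine hmin.trans ?_
    rw [← hLdef]
    have hLA : 0 < L ^ A := by positivity
    calc 5 * (H : ℝ) * (U * (((U : ℝ) / q + 1) * (39 * ((H : ℝ) / U + 1) + 3 * q * (1 + Real.log q)))) *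
          ∑ m ∈ Ioc 0 ((X + H) / U), ‖dl z m‖ ^ 2
        ≤ 5 * (H : ℝ) * (U * (200 * (H * L / L ^ D))) * (18 * X * L ^ 2 / U) := by gcongr
      _ = X * (H : ℝ) ^ 2 / L ^ A * (18000 / L ^ 5) := by
          rw [hD, show L ^ (A + 8) = L ^ A * L ^ 3 * L ^ 5 by ring]
          have : (U : ℝ) ≠ 0 := by linarith
          field_simp
          ring
      _ ≤ X * (H : ℝ) ^ 2 / L ^ A * 1 := by
          apply mul_le_mul_of_nonneg_left _ (by positivity)
          rw [div_le_one (by positivity)]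
          have : L ≤ L ^ 5 := le_self_pow₀ hL1 (by norm_num)
          linarith
      _ = _ := mul_one _

/-- general sets of small primes -/
def S_STAR2 : Prop := ∀ A : ℕ, ∃ a G B₀ : ℕ, ∀ E₁ : ℕ, ∃ X₀ : ℕ, ∀ X : ℕ, X₀ ≤ X → ∀ z : ℕ, (Real.log X) ^ B₀ ≤ z →
  (z : ℝ) ≤ (Real.log X) ^ E₁ → ∀ P : ℕ, P ^ 5 ≤ X → ∀ S : Finset ℕ, (∀ p ∈ S, p.Prime) →
  (∀ p ∈ S, (Real.log X) ^ a < p ∧ p ≤ P) → ∀ H : ℕ, (P : ℝ) * (Real.log X) ^ G ≤ H → H ^ 2 ≤ X → ∀ α : ℝ,
  ∑ u ∈ range X, ‖∑ n ∈ Ioc u (u + H), gm S z n * ee ((n : ℝ) * α)‖ ^ 2 ≤ X * (H : ℝ) ^ 2 / (Real.log X) ^ A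

theorem t_STAR2 (hST : S_STAR) : S_STAR2 := by
  classical
  intro A
  obtain ⟨a, G, B₀, hST⟩ := hST (A + 4)
  refine ⟨a + 1, G, B₀, fun E₁ => ?_⟩
  obtain ⟨X₀, hST⟩ := hST E₁
  obtain ⟨X₁, hX₁⟩ := Filter.eventually_atTop.1 (Sil2.ev_log 40000)
  refine ⟨max X₁ (max X₀ 3), fun X hX z hzB hzE P hP5 S hS hSP H hH hHX α => ?_⟩
  have hLbig := hX₁ X (le_trans (le_max_left _ _) hX)
  have hX0 : X₀ ≤ X := le_trans (le_trans (le_max_left _ _) (le_max_right _ _)) hX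
  have hX3 : 3 ≤ X := le_trans (le_trans (le_max_right _ _) (le_max_right _ _)) hX
  have hST := hST X hX0 z hzB hzE
  obtain ⟨L, hLdef⟩ : ∃ L, L = Real.log (X : ℝ) := ⟨_, rfl⟩
  rw [← hLdef] at hLbig hST hSP hH ⊢
  have hL1 : 1 ≤ L := by linarith
  have hL0 : 0 < L := by linarith
  have hLa : 1 ≤ L ^ a := one_le_pow₀ hL1
  obtain ⟨U0, hU0⟩ : ∃ U0, U0 = ⌊L ^ (a + 1)⌋₊ := ⟨_, rfl⟩
  have hU0a : L ^ a ≤ U0 := by
    have h1 := Nat.lt_floor_add_one (L ^ (a + 1))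
    rw [← hU0] at h1
    have h2 : 2 * L ^ a ≤ L ^ (a + 1) := by rw [pow_succ]; nlinarith
    linarith
  have hU0b : (U0 : ℝ) ≤ L ^ (a + 1) := by rw [hU0]; exact Nat.floor_le (by positivity)
  have hU01 : 1 ≤ U0 := by
    have : (1 : ℝ) ≤ U0 := hLa.trans hU0a
    exact_mod_cast this
  obtain ⟨J, hJ⟩ : ∃ J, J = Nat.log 2 X + 1 := ⟨_, rfl⟩
  obtain ⟨jj, hjj⟩ : ∃ jj : ℕ → ℕ, jj = fun p => Nat.log 2 ((p - 1) / U0) := ⟨_, rfl⟩
  obtain ⟨SS, hSS⟩ : ∃ SS : ℕ → Finset ℕ, SS = fun j => S.filter (fun p => jj p = j) := ⟨_, rfl⟩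
  have hSP2 : ∀ p ∈ S, U0 < p ∧ p ≤ P := by
    intro p hp
    obtain ⟨h1, h2⟩ := hSP p hp
    have h3 : (U0 : ℝ) < p := by linarith
    exact ⟨by exact_mod_cast h3, by exact_mod_cast h2⟩
  have hPX : P ≤ X := (Nat.le_self_pow (by norm_num) P).trans hP5
  have hmem : ∀ j, ∀ p ∈ SS j, 2 ^ j * U0 < p ∧ p ≤ 2 * (2 ^ j * U0) := by
    intro j p hp
    rw [hSS, mem_filter, hjj] at hp
    obtain ⟨hp1, hp2⟩ := hp
    have h1 := (hSP2 p hp1).1
    have h2 : 1 ≤ (p - 1) / U0 := by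
      rw [Nat.le_div_iff_mul_le (by omega)]
      omega
    have h3 : 2 ^ j ≤ (p - 1) / U0 := by
      rw [← hp2]
      exact Nat.pow_log_le_self 2 (by omega)
    have h4 : (p - 1) / U0 < 2 ^ (j + 1) := by
      rw [← hp2]
      exact Nat.lt_pow_succ_log_self (by norm_num) _
    rw [Nat.le_div_iff_mul_le (by omega)] at h3
    rw [Nat.div_lt_iff_lt_mul (by omega), pow_succ] at h4
    constructor
    · omega
    · have : 2 ^ j * 2 * U0 = 2 * (2 ^ j * U0) := by ring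
      omega
  have hmaps : ∀ p ∈ S, jj p ∈ range J := by
    intro p hp
    rw [mem_range, hJ, hjj]
    apply Nat.lt_succ_of_le
    apply Nat.log_mono_right
    have h1 := (hSP2 p hp).2
    have h2 := Nat.div_le_self (p - 1) U0
    omega
  have hgm : ∀ n, gm S z n = ∑ j ∈ range J, gm (SS j) z n := by
    intro n
    unfold gm
    rw [hSS]
    exact (sum_fiberwise_of_maps_to hmaps _).symm
  have hone : ∀ j ∈ range J, ∑ u ∈ range X, ‖∑ n ∈ Ioc u (u + H), gm (SS j) z n * ee ((n : ℝ) * α)‖ ^ 2 ≤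
      X * (H : ℝ) ^ 2 / L ^ (A + 4) := by
    intro j _
    by_cases hne : (SS j).Nonempty
    · obtain ⟨p, hp⟩ := hne
      have h1 := hmem j p hp
      have hpS : p ∈ S := by
        rw [hSS, mem_filter] at hp
        exact hp.1
      have hUP : 2 ^ j * U0 ≤ P := by
        have := (hSP2 p hpS).2
        omega
      apply hST (2 ^ j * U0) _ _ (SS j) _ _ H _ hHX α
      · refine hU0a.trans ?_
        have : U0 ≤ 2 ^ j * U0 := Nat.le_mul_of_pos_left _ (by positivity)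
        exact_mod_cast this
      · exact (Nat.pow_le_pow_left hUP 5).trans hP5
      · intro p hp
        rw [hSS, mem_filter] at hp
        exact hS p hp.1
      · intro p hp
        rw [mem_Ioc]
        exact hmem j p hp
      · refine le_trans ?_ hH
        have : ((2 ^ j * U0 : ℕ) : ℝ) ≤ P := by exact_mod_cast hUP
        gcongr
    · rw [not_nonempty_iff_eq_empty] at hne
      have h1 : ∀ u ∈ range X, ‖∑ n ∈ Ioc u (u + H), gm (SS j) z n * ee ((n : ℝ) * α)‖ ^ 2 = 0 := by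
        intro u _
        rw [sum_eq_zero, norm_zero]
        · norm_num
        · intro n _
          unfold gm
          rw [hne, sum_empty, zero_mul]
      rw [sum_eq_zero h1]
      positivity
  have hpt : ∀ u ∈ range X, ‖∑ n ∈ Ioc u (u + H), gm S z n * ee ((n : ℝ) * α)‖ ^ 2 ≤
      J * ∑ j ∈ range J, ‖∑ n ∈ Ioc u (u + H), gm (SS j) z n * ee ((n : ℝ) * α)‖ ^ 2 := by
    intro u _
    have e1 : ∑ n ∈ Ioc u (u + H), gm S z n * ee ((n : ℝ) * α) =
        ∑ j ∈ range J, ∑ n ∈ Ioc u (u + H), gm (SS j) z n * ee ((n : ℝ) * α) := by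
      rw [sum_comm]
      apply sum_congr rfl
      intro n _
      rw [hgm n, sum_mul]
    rw [e1]
    calc ‖∑ j ∈ range J, ∑ n ∈ Ioc u (u + H), gm (SS j) z n * ee ((n : ℝ) * α)‖ ^ 2
        ≤ (∑ j ∈ range J, ‖∑ n ∈ Ioc u (u + H), gm (SS j) z n * ee ((n : ℝ) * α)‖) ^ 2 :=
          pow_le_pow_left₀ (norm_nonneg _) (norm_sum_le _ _) 2
      _ ≤ ((range J).card : ℝ) * ∑ j ∈ range J, ‖∑ n ∈ Ioc u (u + H), gm (SS j) z n * ee ((n : ℝ) * α)‖ ^ 2 :=
          sq_sum_le_card_mul_sum_sq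
      _ = _ := by rw [card_range]
  refine (sum_le_sum hpt).trans ?_
  rw [← mul_sum, sum_comm]
  have h2 := sum_le_card_nsmul _ _ _ hone
  rw [card_range, nsmul_eq_mul] at h2
  have hJL : (J : ℝ) ≤ 3 * L := by
    have h4 : (Nat.log 2 X : ℝ) ≤ 2 * L := by
      have h5 : (2 : ℝ) ^ (Nat.log 2 X) ≤ X := by
        exact_mod_cast Nat.pow_log_le_self 2 (by omega)
      have h6 := Real.log_le_log (by positivity) h5
      rw [Real.log_pow, ← hLdef] at h6
      have := Real.log_two_gt_d9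
      have h7 : (0 : ℝ) ≤ (Nat.log 2 X : ℝ) := Nat.cast_nonneg _
      nlinarith
    rw [hJ]
    push_cast
    linarith
  have hJ0 : (0 : ℝ) ≤ J := Nat.cast_nonneg _
  have hT : 0 ≤ X * (H : ℝ) ^ 2 / L ^ (A + 4) := by positivity
  calc (J : ℝ) * ∑ j ∈ range J, ∑ u ∈ range X, ‖∑ n ∈ Ioc u (u + H), gm (SS j) z n * ee ((n : ℝ) * α)‖ ^ 2
      ≤ J * (J * (X * (H : ℝ) ^ 2 / L ^ (A + 4))) := by gcongr
    _ ≤ (3 * L) * ((3 * L) * (X * (H : ℝ) ^ 2 / L ^ (A + 4))) := by gcongr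
    _ = X * (H : ℝ) ^ 2 / L ^ A * (9 / L ^ 2) := by
        rw [show L ^ (A + 4) = L ^ A * L ^ 2 * L ^ 2 by ring]
        field_simp
        norm_num
        ring
    _ ≤ X * (H : ℝ) ^ 2 / L ^ A * 1 := by
        apply mul_le_mul_of_nonneg_left _ (by positivity)
        rw [div_le_one (by positivity)]
        nlinarith
    _ = _ := mul_one _

end Pool.Agent.H561.E2
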