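import Pool.Agent.H561.E2.B1

set_option autoImplicit false

/-! Correlations of an arbitrary sequence with a function whose exponential sums in short windows are small. -/

namespace Pool.Agent.H561.E2

open Finset
open Pool.Agent.H807R2.Dav (ee ee_add ee_zero norm_ee ee_add_int ee_int ee_pow)

lemma orth (M : ℕ) (hM : 1 ≤ M) (d : ℤ) : ∑ ξ ∈ range M, ee ((d : ℝ) * ((ξ : ℝ) / M)) = if (M : ℤ) ∣ d then (M : ℂ) else 0 := by
  have hM0 : (M : ℝ) ≠ 0 := by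
    have : (0 : ℝ) < M := by exact_mod_cast hM
    exact this.ne'
  split_ifs with h
  · obtain ⟨k, rfl⟩ := h
    have h1 : ∀ ξ ∈ range M, ee ((((M : ℤ) * k : ℤ) : ℝ) * ((ξ : ℝ) / M)) = 1 := by
      intro ξ _
      have : (((M : ℤ) * k : ℤ) : ℝ) * ((ξ : ℝ) / M) = ((k * (ξ : ℤ) : ℤ) : ℝ) := by
        push_cast
        field_simp
      rw [this, ee_int]
    rw [sum_congr rfl h1]
    simp
  · have h1 : ∀ ξ ∈ range M, ee ((d : ℝ) * ((ξ : ℝ) / M)) = ee ((d : ℝ) / M) ^ ξ := by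
      intro ξ _
      rw [← ee_pow]
      congr 1
      ring
    rw [sum_congr rfl h1]
    have h2 : ee ((d : ℝ) / M) ^ M = 1 := by
      rw [← ee_pow]
      have : (M : ℝ) * ((d : ℝ) / M) = (d : ℝ) := by field_simp
      rw [this, ee_int]
    have h3 : ee ((d : ℝ) / M) ≠ 1 := by
      intro hcon
      unfold ee at hcon
      rw [Complex.exp_eq_one_iff] at hcon
      obtain ⟨n, hn⟩ := hcon
      have h4 : (2 * (Real.pi : ℂ) * Complex.I) ≠ 0 := Complex.two_pi_I_ne_zero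
      have h5 : (((d : ℝ) / M : ℝ) : ℂ) = n := by
        apply mul_left_cancel₀ h4
        rw [hn]
        ring
      have h6 : (d : ℝ) / M = n := by exact_mod_cast h5
      have h7 : (d : ℝ) = M * n := by
        rw [div_eq_iff hM0] at h6
        rw [h6]
        ring
      apply h
      exact ⟨n, by exact_mod_cast h7⟩
    have h4 := mul_geom_sum (ee ((d : ℝ) / M)) M
    rw [h2, sub_self] at h4
    exact (mul_eq_zero.1 h4).resolve_left (sub_ne_zero.2 h3)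

/-- Parseval -/
lemma parseval {ι : Type*} [DecidableEq ι] (s : Finset ι) (w : ι → ℂ) (φ : ι → ℤ) (M : ℕ) (hM : 1 ≤ M)
    (hinj : ∀ i ∈ s, ∀ j ∈ s, (M : ℤ) ∣ φ i - φ j → i = j) :
    ∑ ξ ∈ range M, ‖∑ i ∈ s, w i * ee (((φ i : ℤ) : ℝ) * ((ξ : ℝ) / M))‖ ^ 2 = M * ∑ i ∈ s, ‖w i‖ ^ 2 := by
  have h1 : ((∑ ξ ∈ range M, ‖∑ i ∈ s, w i * ee (((φ i : ℤ) : ℝ) * ((ξ : ℝ) / M))‖ ^ 2 : ℝ) : ℂ) =
      ((M * ∑ i ∈ s, ‖w i‖ ^ 2 : ℝ) : ℂ) := by
    push_cast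
    have h2 : ∀ ξ ∈ range M, ((‖∑ i ∈ s, w i * ee (((φ i : ℤ) : ℝ) * ((ξ : ℝ) / M))‖ : ℝ) : ℂ) ^ 2 =
        ∑ j ∈ s, ∑ i ∈ s, (w i * (starRingEnd ℂ) (w j)) * ee (((φ i - φ j : ℤ) : ℝ) * ((ξ : ℝ) / M)) := by
      intro ξ _
      rw [← Complex.conj_mul', map_sum, sum_mul]
      apply sum_congr rfl
      intro j _
      rw [mul_sum]
      apply sum_congr rfl
      intro i _
      rw [map_mul, ee_conj]
      have : ee (((φ i - φ j : ℤ) : ℝ) * ((ξ : ℝ) / M)) = ee (((φ i : ℤ) : ℝ) * ((ξ : ℝ) / M)) * ee (-(((φ j : ℤ) : ℝ) * ((ξ : ℝ) / M))) := by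
        rw [← ee_add]
        congr 1
        push_cast
        ring
      rw [this]
      ring
    rw [sum_congr rfl h2, sum_comm, mul_sum]
    apply sum_congr rfl
    intro j hj
    rw [sum_comm]
    have h3 : ∀ i ∈ s, ∑ ξ ∈ range M, (w i * (starRingEnd ℂ) (w j)) * ee (((φ i - φ j : ℤ) : ℝ) * ((ξ : ℝ) / M)) =
        if i = j then (M : ℂ) * (w i * (starRingEnd ℂ) (w j)) else 0 := by
      intro i hi
      rw [← mul_sum, orth M hM]
      by_cases hij : i = j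
      · rw [if_pos hij, hij, sub_self, if_pos (dvd_zero _)]
        ring
      · rw [if_neg hij, if_neg, mul_zero]
        intro hd
        exact hij (hinj i hi j hj hd)
    rw [sum_congr rfl h3, sum_ite_eq' s j, if_pos hj, Complex.mul_conj']
  exact_mod_cast h1

/-- Bessel -/
lemma bessel (a : ℕ → ℂ) (H M : ℕ) (hM : 1 ≤ M) (hHM : H ≤ M) :
    ∑ h ∈ range H, ‖∑ ξ ∈ range M, a ξ * ee (((-(h : ℤ) : ℤ) : ℝ) * ((ξ : ℝ) / M))‖ ^ 2 ≤ M * ∑ ξ ∈ range M, ‖a ξ‖ ^ 2 := by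
  apply dual (range H) (range M) (range M) (Subset.refl _) a (fun h ξ => ee (((-(h : ℤ) : ℤ) : ℝ) * ((ξ : ℝ) / M))) M
    (Nat.cast_nonneg _)
  intro h hh
  rw [mem_range] at hh
  have h1 : ∀ h' ∈ range H, ‖∑ ξ ∈ range M, ee (((-(h : ℤ) : ℤ) : ℝ) * ((ξ : ℝ) / M)) *
      (starRingEnd ℂ) (ee (((-(h' : ℤ) : ℤ) : ℝ) * ((ξ : ℝ) / M)))‖ = if h' = h then (M : ℝ) else 0 := by
    intro h' hh'
    rw [mem_range] at hh'
    have e1 : ∀ ξ ∈ range M, ee (((-(h : ℤ) : ℤ) : ℝ) * ((ξ : ℝ) / M)) *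
      (starRingEnd ℂ) (ee (((-(h' : ℤ) : ℤ) : ℝ) * ((ξ : ℝ) / M))) = ee ((((h' : ℤ) - h : ℤ) : ℝ) * ((ξ : ℝ) / M)) := by
      intro ξ _
      rw [ee_conj, ← ee_add]
      congr 1
      push_cast
      ring
    rw [sum_congr rfl e1, orth M hM]
    by_cases hhh : h' = h
    · rw [if_pos hhh, hhh, sub_self, if_pos (dvd_zero _)]
      simp
    · rw [if_neg hhh, if_neg, norm_zero]
      intro hd
      apply hhh
      have h3 : ((h' : ℤ) - h) = 0 := by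
        apply Int.eq_zero_of_abs_lt_dvd hd
        rw [abs_lt]
        omega
      omega
  rw [sum_congr rfl h1, sum_ite_eq', if_pos (mem_range.2 hh)]

theorem fourier {ι : Type*} [DecidableEq ι] (T : Finset ι) (w : ι → ℂ) (φ : ι → ℕ) (γ : ℕ → ℂ) (X H : ℕ) (hH : 1 ≤ H)
    (hinj : ∀ i ∈ T, ∀ j ∈ T, φ i = φ j → i = j) (hφ : ∀ i ∈ T, H ≤ φ i ∧ φ i ≤ X) (E0 : ℝ)
    (hE : ∀ α : ℝ, ∑ v ∈ range X, ‖∑ n ∈ Ioc v (v + 2 * H), γ n * ee ((n : ℝ) * α)‖ ^ 2 ≤ E0) :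
    H * ∑ h ∈ range H, ‖∑ i ∈ T, w i * γ (φ i + h)‖ ^ 2 ≤ E0 * ∑ i ∈ T, ‖w i‖ ^ 2 := by
  obtain ⟨M, hMd⟩ : ∃ M, M = 4 * H := ⟨_, rfl⟩
  have hM : 1 ≤ M := by omega
  have hMr : (0 : ℝ) < M := by exact_mod_cast hM
  have hHr : (0 : ℝ) < H := by exact_mod_cast hH
  set F : ℕ → ℕ → ℂ := fun v ξ => ∑ i ∈ T.filter (fun i => v < φ i ∧ φ i ≤ v + H), w i * ee (((-(φ i : ℤ) : ℤ) : ℝ) * ((ξ : ℝ) / M)) with hF
  set G : ℕ → ℕ → ℂ := fun v ξ => ∑ n ∈ Ioc v (v + 2 * H), γ n * ee ((n : ℝ) * ((ξ : ℝ) / M)) with hG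
  set TT : ℕ → ℂ := fun ξ => ∑ v ∈ range X, F v ξ * G v ξ with hTT
  -- the coefficients
  have c1 : ∀ h ∈ range H, ∑ ξ ∈ range M, TT ξ * ee (((-(h : ℤ) : ℤ) : ℝ) * ((ξ : ℝ) / M)) =
      M * (H * ∑ i ∈ T, w i * γ (φ i + h)) := by
    intro h hh
    rw [mem_range] at hh
    have e1 : ∑ ξ ∈ range M, TT ξ * ee (((-(h : ℤ) : ℤ) : ℝ) * ((ξ : ℝ) / M)) =
        ∑ v ∈ range X, ∑ i ∈ T.filter (fun i => v < φ i ∧ φ i ≤ v + H), M * (w i * γ (φ i + h)) := by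
      simp only [hTT, sum_mul]
      rw [sum_comm]
      apply sum_congr rfl
      intro v _
      have e2 : ∀ ξ ∈ range M, F v ξ * G v ξ * ee (((-(h : ℤ) : ℤ) : ℝ) * ((ξ : ℝ) / M)) =
          ∑ i ∈ T.filter (fun i => v < φ i ∧ φ i ≤ v + H), ∑ n ∈ Ioc v (v + 2 * H),
            (w i * γ n) * ee ((((n : ℤ) - φ i - h : ℤ) : ℝ) * ((ξ : ℝ) / M)) := by
        intro ξ _
        simp only [hF, hG]
        rw [sum_mul, sum_mul]
        apply sum_congr rfl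
        intro i _
        rw [mul_sum, sum_mul]
        apply sum_congr rfl
        intro n _
        have : ee ((((n : ℤ) - φ i - h : ℤ) : ℝ) * ((ξ : ℝ) / M)) = ee ((n : ℝ) * ((ξ : ℝ) / M)) *
            (ee (((-(φ i : ℤ) : ℤ) : ℝ) * ((ξ : ℝ) / M)) * ee (((-(h : ℤ) : ℤ) : ℝ) * ((ξ : ℝ) / M))) := by
          rw [← ee_add, ← ee_add]
          congr 1
          push_cast
          ring
        rw [this]
        ring
      rw [sum_congr rfl e2, sum_comm]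
      apply sum_congr rfl
      intro i hi
      rw [mem_filter] at hi
      rw [sum_comm]
      have e3 : ∀ n ∈ Ioc v (v + 2 * H), ∑ ξ ∈ range M, (w i * γ n) * ee ((((n : ℤ) - φ i - h : ℤ) : ℝ) * ((ξ : ℝ) / M)) =
          if n = φ i + h then M * (w i * γ (φ i + h)) else 0 := by
        intro n hn
        rw [mem_Ioc] at hn
        rw [← mul_sum, orth M hM]
        by_cases hnn : n = φ i + h
        · rw [if_pos hnn, hnn, if_pos]
          · ring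
          · push_cast
            rw [show (φ i : ℤ) + h - φ i - h = 0 by ring]
            exact dvd_zero _
        · rw [if_neg hnn, if_neg, mul_zero]
          intro hd
          apply hnn
          have h3 : ((n : ℤ) - φ i - h) = 0 := by
            apply Int.eq_zero_of_abs_lt_dvd hd
            rw [abs_lt]
            omega
          omega
      rw [sum_congr rfl e3, sum_ite_eq', if_pos]
      rw [mem_Ioc]
      omega
    rw [e1]
    simp only [sum_filter]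
    rw [sum_comm, mul_sum, mul_sum]
    apply sum_congr rfl
    intro i hi
    have hi2 := hφ i hi
    rw [← sum_filter, sum_const, nsmul_eq_mul]
    have e4 : (range X).filter (fun v => v < φ i ∧ φ i ≤ v + H) = Ico (φ i - H) (φ i) := by
      ext v
      rw [mem_filter, mem_range, mem_Ico]
      omega
    rw [e4, Nat.card_Ico, show φ i - (φ i - H) = H by omega]
    ring
  have c2 := bessel TT H M hM (by omega)
  rw [sum_congr rfl (fun h hh => by rw [c1 h hh])] at c2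
  have c3 : ∀ h ∈ range H, ‖(M : ℂ) * (H * ∑ i ∈ T, w i * γ (φ i + h))‖ ^ 2 = (M : ℝ) ^ 2 * (H : ℝ) ^ 2 * ‖∑ i ∈ T, w i * γ (φ i + h)‖ ^ 2 := by
    intro h _
    rw [norm_mul, norm_mul, Complex.norm_natCast, Complex.norm_natCast]
    ring
  rw [sum_congr rfl c3, ← mul_sum] at c2
  -- the mean square of `TT`
  have c4 : ∀ ξ ∈ range M, ‖TT ξ‖ ^ 2 ≤ E0 * ∑ v ∈ range X, ‖F v ξ‖ ^ 2 := by
    intro ξ _
    have h1 : ‖TT ξ‖ ≤ ∑ v ∈ range X, ‖F v ξ‖ * ‖G v ξ‖ := by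
      simp only [hTT]
      refine (norm_sum_le _ _).trans (le_of_eq ?_)
      apply sum_congr rfl
      intro v _
      rw [norm_mul]
    have h2 := sum_mul_sq_le_sq_mul_sq (range X) (fun v => ‖F v ξ‖) (fun v => ‖G v ξ‖)
    have h3 := hE ((ξ : ℝ) / M)
    have h4 : ∑ v ∈ range X, ‖G v ξ‖ ^ 2 ≤ E0 := h3
    calc ‖TT ξ‖ ^ 2 ≤ (∑ v ∈ range X, ‖F v ξ‖ * ‖G v ξ‖) ^ 2 := pow_le_pow_left₀ (norm_nonneg _) h1 2
      _ ≤ (∑ v ∈ range X, ‖F v ξ‖ ^ 2) * ∑ v ∈ range X, ‖G v ξ‖ ^ 2 := h2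
      _ ≤ (∑ v ∈ range X, ‖F v ξ‖ ^ 2) * E0 := by
          apply mul_le_mul_of_nonneg_left h4
          exact sum_nonneg fun _ _ => by positivity
      _ = _ := mul_comm _ _
  have hE00 : 0 ≤ E0 := (sum_nonneg fun _ _ => by positivity).trans (hE 0)
  have c5 : ∑ ξ ∈ range M, ∑ v ∈ range X, ‖F v ξ‖ ^ 2 = M * (H * ∑ i ∈ T, ‖w i‖ ^ 2) := by
    rw [sum_comm]
    have h1 : ∀ v ∈ range X, ∑ ξ ∈ range M, ‖F v ξ‖ ^ 2 = M * ∑ i ∈ T, if v < φ i ∧ φ i ≤ v + H then ‖w i‖ ^ 2 else 0 := by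
      intro v _
      simp only [hF]
      rw [parseval _ w (fun i => (-(φ i : ℤ))) M hM, sum_filter]
      intro i hi j hj hd
      rw [mem_filter] at hi hj
      apply hinj i hi.1 j hj.1
      have h3 : (-(φ i : ℤ)) - (-(φ j : ℤ)) = 0 := by
        apply Int.eq_zero_of_abs_lt_dvd hd
        rw [abs_lt]
        omega
      omega
    rw [sum_congr rfl h1, ← mul_sum, sum_comm]
    congr 1
    rw [mul_sum]
    apply sum_congr rfl
    intro i hi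
    have hi2 := hφ i hi
    rw [← sum_filter, sum_const, nsmul_eq_mul]
    have e4 : (range X).filter (fun v => v < φ i ∧ φ i ≤ v + H) = Ico (φ i - H) (φ i) := by
      ext v
      rw [mem_filter, mem_range, mem_Ico]
      omega
    rw [e4, Nat.card_Ico, show φ i - (φ i - H) = H by omega]
  have c6 : ∑ ξ ∈ range M, ‖TT ξ‖ ^ 2 ≤ E0 * (M * (H * ∑ i ∈ T, ‖w i‖ ^ 2)) := by
    refine (sum_le_sum c4).trans ?_
    rw [← mul_sum, c5]
  have c7 : (M : ℝ) ^ 2 * (H : ℝ) ^ 2 * ∑ h ∈ range H, ‖∑ i ∈ T, w i * γ (φ i + h)‖ ^ 2 ≤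
      M * (E0 * (M * (H * ∑ i ∈ T, ‖w i‖ ^ 2))) := c2.trans (mul_le_mul_of_nonneg_left c6 hMr.le)
  have c8 : ((M : ℝ) ^ 2 * H) * (H * ∑ h ∈ range H, ‖∑ i ∈ T, w i * γ (φ i + h)‖ ^ 2) ≤
      ((M : ℝ) ^ 2 * H) * (E0 * ∑ i ∈ T, ‖w i‖ ^ 2) := by
    calc _ = (M : ℝ) ^ 2 * (H : ℝ) ^ 2 * ∑ h ∈ range H, ‖∑ i ∈ T, w i * γ (φ i + h)‖ ^ 2 := by ring
      _ ≤ _ := c7
      _ = _ := by ring
  exact le_of_mul_le_mul_left c8 (by positivity)

end Pool.Agent.H561.E2
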