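import Pool.Graph.R_seed8.H373R2.T7.SysMain2

set_option autoImplicit false

/-! The main term: sums over the primes `n` for which the values of linear forms have given small prime factors and are
otherwise free of very small primes. -/

namespace Pool.Agent.H561.E2

open Finset
open Pool.Agent.H373R2.T7 (pz mem_pz rhoA PerA rhoA_le sys_main)

/-- the value of a linear form -/
def LFo {k : ℕ} (c h : Fin k → ℤ) (i : Fin k) (n : ℕ) : ℤ := c i * n + h i

/-- the excluded conditions -/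
def QJ {k : ℕ} (c h : Fin k → ℤ) (z : ℕ) (g : Fin k → ℕ) (J : Finset (Fin k)) (p n : ℕ) : Prop :=
  (p ≤ z ∧ ∃ i, (p : ℤ) ∣ LFo c h i n) ∨ ∃ i ∈ J, p = g i ∧ (p : ℤ) ∣ LFo c h i n

open Classical in
/-- the number of the classes prime to `p` in which one of the forms is divisible by `p` -/
noncomputable def rho {k : ℕ} (c h : Fin k → ℤ) (p : ℕ) : ℕ :=
  ((range p).filter (fun r => ¬ p ∣ r ∧ ∃ i, (p : ℤ) ∣ LFo c h i r)).card

open Classical in
/-- free of primes up to `z` -/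
noncomputable def rough {k : ℕ} (c h : Fin k → ℤ) (z n : ℕ) : ℝ := if ∀ p ∈ pz z, ∀ i, ¬ (p : ℤ) ∣ LFo c h i n then 1 else 0

open Classical in
/-- the density of the multiples of `g` -/
noncomputable def xg (g : ℕ) (h : ℤ) : ℝ := if (g : ℤ) ∣ h then 0 else 1 / ((g : ℝ) - 1)

lemma LFo_mod {k : ℕ} (c h : Fin k → ℤ) (i : Fin k) (p n : ℕ) : (p : ℤ) ∣ LFo c h i n ↔ (p : ℤ) ∣ LFo c h i (n % p) := by
  unfold LFo
  have h1 : c i * (n : ℤ) + h i = (c i * ((n % p : ℕ) : ℤ) + h i) + (p : ℤ) * (c i * ((n / p : ℕ) : ℤ)) := by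
    have h2 : (n : ℤ) = (p : ℤ) * ((n / p : ℕ) : ℤ) + ((n % p : ℕ) : ℤ) := by exact_mod_cast (Nat.div_add_mod n p).symm
    conv_lhs => rw [h2]
    ring
  rw [h1]
  exact (Int.dvd_add_left (Dvd.intro _ rfl))

lemma QJ_per {k : ℕ} (c h : Fin k → ℤ) (z : ℕ) (g : Fin k → ℕ) (J : Finset (Fin k)) (p n : ℕ) :
    QJ c h z g J p n ↔ QJ c h z g J p (n % p) := by
  unfold QJ
  have h1 : (∃ i, (p : ℤ) ∣ LFo c h i n) ↔ ∃ i, (p : ℤ) ∣ LFo c h i (n % p) :=
    exists_congr fun i => LFo_mod c h i p n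
  have h2 : (∃ i ∈ J, p = g i ∧ (p : ℤ) ∣ LFo c h i n) ↔ ∃ i ∈ J, p = g i ∧ (p : ℤ) ∣ LFo c h i (n % p) := by
    apply exists_congr
    intro i
    rw [LFo_mod c h i p n]
  rw [h1, h2]

lemma one_class (p : ℕ) (hp : p.Prime) (c h : ℤ) (hc : ¬ (p : ℤ) ∣ c) :
    ((range p).filter (fun r : ℕ => (p : ℤ) ∣ c * r + h)).card ≤ 1 := by
  rw [card_le_one]
  intro a ha b hb
  rw [mem_filter, mem_range] at ha hb
  have h1 : (p : ℤ) ∣ c * ((a : ℤ) - b) := by
    have := dvd_sub ha.2 hb.2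
    rwa [show c * (a : ℤ) + h - (c * (b : ℤ) + h) = c * ((a : ℤ) - b) by ring] at this
  have h2 : (p : ℤ) ∣ ((a : ℤ) - b) := ((Nat.prime_iff_prime_int.1 hp).dvd_or_dvd h1).resolve_left hc
  have h3 : ((a : ℤ) - b) = 0 := by
    apply Int.eq_zero_of_abs_lt_dvd h2
    rw [abs_lt]
    omega
  omega

/-- the bound for the number of classes -/
def bigc {k : ℕ} (c : Fin k → ℤ) : ℕ := k + ∏ i, (c i).natAbs

lemma natAbs_le_bigc {k : ℕ} (c : Fin k → ℤ) (hc : ∀ i, c i ≠ 0) (i : Fin k) : (c i).natAbs ≤ ∏ i, (c i).natAbs := by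
  apply Nat.le_of_dvd
  · exact prod_pos fun j _ => Int.natAbs_pos.2 (hc j)
  · exact dvd_prod_of_mem _ (mem_univ i)

lemma classes_le {k : ℕ} (c h : Fin k → ℤ) (hc : ∀ i, c i ≠ 0) (p : ℕ) (hp : p.Prime) (F : ℕ → Prop) [DecidablePred F]
    (hF : ∀ r, F r → ¬ p ∣ r ∧ ∃ i, (p : ℤ) ∣ LFo c h i r) : ((range p).filter F).card ≤ bigc c := by
  classical
  by_cases hd : ∃ i, (p : ℤ) ∣ c i
  · obtain ⟨i, hi⟩ := hd
    have h1 : p ≤ (c i).natAbs := by
      apply Nat.le_of_dvd (Int.natAbs_pos.2 (hc i))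
      exact Int.natCast_dvd.1 hi
    have h2 := natAbs_le_bigc c hc i
    have h3 : ((range p).filter F).card ≤ p := (card_filter_le _ _).trans (by rw [card_range])
    unfold bigc
    omega
  · push Not at hd
    have h1 : (range p).filter F ⊆ (univ : Finset (Fin k)).biUnion (fun i => (range p).filter (fun r : ℕ => (p : ℤ) ∣ c i * r + h i)) := by
      intro r hr
      rw [mem_filter] at hr
      obtain ⟨_, i, hi⟩ := hF r hr.2
      rw [mem_biUnion]
      exact ⟨i, mem_univ _, by rw [mem_filter]; exact ⟨hr.1, hi⟩⟩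
    have h2 : ((univ : Finset (Fin k)).biUnion (fun i => (range p).filter (fun r : ℕ => (p : ℤ) ∣ c i * r + h i))).card ≤ k := by
      refine card_biUnion_le.trans ?_
      have h3 : ∀ i ∈ (univ : Finset (Fin k)), ((range p).filter (fun r : ℕ => (p : ℤ) ∣ c i * r + h i)).card ≤ 1 :=
        fun i _ => one_class p hp (c i) (h i) (hd i)
      have h4 := sum_le_card_nsmul _ _ _ h3
      simpa using h4
    have h3 := (card_le_card h1).trans h2
    unfold bigc
    omega

lemma QJ_perA {k : ℕ} (c h : Fin k → ℤ) (hc : ∀ i, c i ≠ 0) (z : ℕ) (g : Fin k → ℕ) (J : Finset (Fin k)) :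
    PerA (QJ c h z g J) (bigc c) := by
  classical
  refine ⟨QJ_per c h z g J, fun p hp => ?_⟩
  unfold rhoA
  apply classes_le c h hc p hp
  rintro r ⟨h1, h2⟩
  refine ⟨h1, ?_⟩
  rcases h2 with ⟨_, h3⟩ | ⟨i, _, _, h3⟩
  · exact h3
  · exact ⟨i, h3⟩

lemma rhoA_small {k : ℕ} (c h : Fin k → ℤ) (z : ℕ) (g : Fin k → ℕ) (J : Finset (Fin k)) (hg : ∀ i, z < g i) (p : ℕ) (hp : p ≤ z) :
    rhoA (QJ c h z g J) p = rho c h p := by
  classical
  unfold rhoA rho
  congr 1
  apply filter_congr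
  intro r _
  unfold QJ
  constructor
  · rintro ⟨h1, h2 | ⟨i, _, h3, h4⟩⟩
    · exact ⟨h1, h2.2⟩
    · exact ⟨h1, i, h4⟩
  · rintro ⟨h1, h2⟩
    exact ⟨h1, Or.inl ⟨hp, h2⟩⟩

lemma class_card (p : ℕ) (hp : p.Prime) (c h : ℤ) (hc : ¬ (p : ℤ) ∣ c) [DecidablePred fun r : ℕ => ¬ p ∣ r ∧ (p : ℤ) ∣ c * r + h] :
    (((range p).filter (fun r : ℕ => ¬ p ∣ r ∧ (p : ℤ) ∣ c * r + h)).card : ℝ) / (p - 1) = xg p h := by
  classical
  unfold xg
  split_ifs with hd
  · have : (range p).filter (fun r : ℕ => ¬ p ∣ r ∧ (p : ℤ) ∣ c * r + h) = ∅ := by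
      rw [filter_eq_empty_iff]
      rintro r _ ⟨h1, h2⟩
      apply h1
      have h3 : (p : ℤ) ∣ c * r := (Int.dvd_add_left hd).1 h2
      have h4 := ((Nat.prime_iff_prime_int.1 hp).dvd_or_dvd h3).resolve_left hc
      exact_mod_cast h4
    rw [this]
    simp
  · have h1 : ((range p).filter (fun r : ℕ => ¬ p ∣ r ∧ (p : ℤ) ∣ c * r + h)).card = 1 := by
      apply le_antisymm
      · refine (card_le_card ?_).trans (one_class p hp c h hc)
        intro r hr
        rw [mem_filter] at hr ⊢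
        exact ⟨hr.1, hr.2.2⟩
      · rw [Nat.one_le_iff_ne_zero, ← Nat.pos_iff_ne_zero, card_pos]
        -- a solution
        have hco : IsCoprime c (p : ℤ) := by
          rw [isCoprime_comm]
          exact ((Nat.prime_iff_prime_int.1 hp).coprime_iff_not_dvd).2 hc
        obtain ⟨u, v, huv⟩ := hco
        have hp0 : (p : ℤ) ≠ 0 := by exact_mod_cast hp.ne_zero
        have hpp : (0 : ℤ) < p := by exact_mod_cast hp.pos
        obtain ⟨r, hr⟩ : ∃ r : ℕ, (r : ℤ) = (-(u * h)) % p := ⟨((-(u * h)) % p).toNat, Int.toNat_of_nonneg (Int.emod_nonneg _ hp0)⟩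
        have hr1 : r < p := by
          have := Int.emod_lt_of_pos (-(u * h)) hpp
          rw [← hr] at this
          exact_mod_cast this
        have hr2 : (p : ℤ) ∣ c * r + h := by
          have h3 : (p : ℤ) ∣ (-(u * h)) - r := by
            rw [hr]
            exact Int.dvd_self_sub_emod
          obtain ⟨t, ht⟩ := h3
          refine ⟨v * h - c * t, ?_⟩
          have h4 : (r : ℤ) = -(u * h) - p * t := by linarith
          rw [h4]
          have h5 : h = (u * c + v * p) * h := by rw [huv, one_mul]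
          linear_combination h5
        refine ⟨r, ?_⟩
        rw [mem_filter, mem_range]
        refine ⟨hr1, ?_, hr2⟩
        intro h3
        apply hd
        have h4 : (p : ℤ) ∣ c * r := Dvd.dvd.mul_left (by exact_mod_cast h3) c
        exact (Int.dvd_add_right h4).1 hr2
    rw [h1]
    push_cast
    rfl

lemma alt {k : ℕ} (x : Fin k → ℝ) : ∏ i, (1 - x i) = ∑ J ∈ (univ : Finset (Fin k)).powerset, (-1) ^ J.card * ∏ i ∈ J, x i := by
  have h1 := prod_add (fun i => -x i) (fun _ => (1 : ℝ)) (univ : Finset (Fin k))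
  have h2 : ∏ i, (1 - x i) = ∏ i, (-x i + 1) := by
    apply prod_congr rfl
    intro i _
    ring
  rw [h2, h1]
  apply sum_congr rfl
  intro J _
  rw [prod_const_one, mul_one, prod_neg]

end Pool.Agent.H561.E2
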