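import Pool.Agent.H561.E2.M1

set_option autoImplicit false

/-! The main term with fixed small prime factors. -/

namespace Pool.Agent.H561.E2

open Finset
open Pool.Agent.H373R2.T7 (pz mem_pz rhoA PerA rhoA_le sys_main)

lemma prod_J {k : ℕ} (c h : Fin k → ℤ) (z z' : ℕ) (hzz : z ≤ z') (g : Fin k → ℕ) (hinj : Function.Injective g)
    (hg : ∀ i, (g i).Prime ∧ z < g i ∧ g i ≤ z' ∧ ¬ ((g i : ℤ) ∣ c i)) (J : Finset (Fin k)) :
    ∏ p ∈ pz z', (1 - (rhoA (QJ c h z g J) p : ℝ) / (p - 1 : ℝ)) =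
      (∏ p ∈ pz z, (1 - (rho c h p : ℝ) / (p - 1 : ℝ))) * ∏ i ∈ J, (1 - xg (g i) (h i)) := by
  classical
  have hsub : pz z ⊆ pz z' := by
    intro p hp
    rw [mem_pz] at hp ⊢
    exact ⟨hp.1.trans hzz, hp.2⟩
  rw [← prod_sdiff hsub, mul_comm]
  congr 1
  · apply prod_congr rfl
    intro p hp
    rw [mem_pz] at hp
    rw [rhoA_small c h z g J (fun i => (hg i).2.1) p hp.1]
  · have hsub2 : J.image g ⊆ pz z' \ pz z := by
      intro p hp
      rw [mem_image] at hp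
      obtain ⟨i, _, rfl⟩ := hp
      rw [mem_sdiff, mem_pz, mem_pz]
      exact ⟨⟨(hg i).2.2.1, (hg i).1⟩, fun h => by have := (hg i).2.1; omega⟩
    rw [← prod_subset hsub2, prod_image (fun x _ y _ hxy => hinj hxy)]
    · apply prod_congr rfl
      intro i hi
      congr 1
      have e1 : rhoA (QJ c h z g J) (g i) = ((range (g i)).filter (fun r : ℕ => ¬ g i ∣ r ∧ ((g i : ℕ) : ℤ) ∣ c i * r + h i)).card := by
        unfold rhoA
        congr 1
        apply filter_congr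
        intro r _
        unfold QJ LFo
        constructor
        · rintro ⟨h1, ⟨h2, _⟩ | ⟨j, _, h3, h4⟩⟩
          · exfalso
            have := (hg i).2.1
            omega
          · have : i = j := hinj h3
            rw [← this] at h4
            exact ⟨h1, h4⟩
        · rintro ⟨h1, h2⟩
          exact ⟨h1, Or.inr ⟨i, hi, rfl, h2⟩⟩
      rw [e1]
      exact class_card (g i) (hg i).1 (c i) (h i) (hg i).2.2.2
    · intro p hp hp'
      rw [mem_sdiff, mem_pz, mem_pz] at hp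
      have hpz : z < p := by
        by_contra hcon
        exact hp.2 ⟨by omega, hp.1.2⟩
      have e1 : rhoA (QJ c h z g J) p = 0 := by
        unfold rhoA
        rw [card_eq_zero, filter_eq_empty_iff]
        rintro r _ ⟨_, h2⟩
        unfold QJ at h2
        rcases h2 with ⟨h3, _⟩ | ⟨i, hi, h3, _⟩
        · omega
        · apply hp'
          rw [mem_image]
          exact ⟨i, hi, h3.symm⟩
      rw [e1]
      simp

open Classical in
/-- the indicator of `g_i ∣ L_i (n)` -/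
noncomputable def yi {k : ℕ} (c h : Fin k → ℤ) (g : Fin k → ℕ) (i : Fin k) (n : ℕ) : ℝ := if (g i : ℤ) ∣ LFo c h i n then 1 else 0

open Classical in
lemma ind_J {k : ℕ} (c h : Fin k → ℤ) (z z' : ℕ) (hzz : z ≤ z') (g : Fin k → ℕ)
    (hg : ∀ i, (g i).Prime ∧ z < g i ∧ g i ≤ z' ∧ ¬ ((g i : ℤ) ∣ c i)) (J : Finset (Fin k)) (n : ℕ) :
    (if ∀ p ∈ pz z', ¬ QJ c h z g J p n then (1 : ℝ) else 0) = rough c h z n * ∏ i ∈ J, (1 - yi c h g i n) := by
  by_cases h1 : ∀ p ∈ pz z, ∀ i, ¬ (p : ℤ) ∣ LFo c h i n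
  · have e1 : rough c h z n = 1 := by
      unfold rough
      rw [if_pos h1]
    rw [e1, one_mul]
    by_cases h2 : ∃ i ∈ J, ((g i : ℕ) : ℤ) ∣ LFo c h i n
    · obtain ⟨i, hi, h3⟩ := h2
      rw [if_neg, prod_eq_zero hi]
      · unfold yi
        rw [if_pos h3, sub_self]
      · push Not
        exact ⟨g i, mem_pz.2 ⟨(hg i).2.2.1, (hg i).1⟩, Or.inr ⟨i, hi, rfl, h3⟩⟩
    · push Not at h2
      rw [if_pos, prod_eq_one]
      · intro i hi
        unfold yi
        rw [if_neg (h2 i hi), sub_zero]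
      · intro p hp hQ
        rw [mem_pz] at hp
        rcases hQ with ⟨h3, i, h4⟩ | ⟨i, hi, h3, h4⟩
        · exact h1 p (mem_pz.2 ⟨h3, hp.2⟩) i h4
        · rw [h3] at h4
          exact h2 i hi h4
  · have e1 : rough c h z n = 0 := by
      unfold rough
      rw [if_neg h1]
    rw [e1, zero_mul, if_neg]
    push Not at h1 ⊢
    obtain ⟨p, hp, i, hi⟩ := h1
    rw [mem_pz] at hp
    exact ⟨p, mem_pz.2 ⟨hp.1.trans hzz, hp.2⟩, Or.inl ⟨hp.1, i, hi⟩⟩

theorem fixed_g {k : ℕ} (c : Fin k → ℤ) (hc : ∀ i, c i ≠ 0) (E V : ℕ) : ∃ N0 : ℕ, ∀ N : ℕ, N0 ≤ N → ∀ z z' : ℕ, 1 ≤ z' → z ≤ z' →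
    (z' : ℝ) ≤ Real.log N ^ E → ∀ (h : Fin k → ℤ) (g : Fin k → ℕ), Function.Injective g →
    (∀ i, (g i).Prime ∧ z < g i ∧ g i ≤ z' ∧ ¬ ((g i : ℤ) ∣ c i)) →
    |∑ n ∈ Icc 1 N, ArithmeticFunction.vonMangoldt n * (rough c h z n * ∏ i, yi c h g i n) -
      N * (∏ p ∈ pz z, (1 - (rho c h p : ℝ) / (p - 1 : ℝ))) * ∏ i, xg (g i) (h i)| ≤ 2 ^ k * (N / Real.log N ^ V) := by
  classical
  have hcc : 1 ≤ bigc c := by
    unfold bigc
    have : 0 < ∏ i, (c i).natAbs := prod_pos fun j _ => Int.natAbs_pos.2 (hc j)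
    omega
  obtain ⟨N0, h0⟩ := sys_main (bigc c) E V hcc
  refine ⟨N0, fun N hN z z' hz' hzz hz'E h g hinj hg => ?_⟩
  have hJ : ∀ J ∈ (univ : Finset (Fin k)).powerset,
      |∑ n ∈ Icc 1 N, ArithmeticFunction.vonMangoldt n * (rough c h z n * ∏ i ∈ J, (1 - yi c h g i n)) -
      N * ((∏ p ∈ pz z, (1 - (rho c h p : ℝ) / (p - 1 : ℝ))) * ∏ i ∈ J, (1 - xg (g i) (h i)))| ≤ N / Real.log N ^ V := by
    intro J _
    have h1 := h0 N hN z' hz' hz'E (QJ c h z g J) (QJ_perA c h hc z g J)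
    rw [prod_J c h z z' hzz g hinj hg J] at h1
    have e1 : ∑ n ∈ (Icc 1 N).filter (fun n : ℕ => ∀ p ∈ pz z', ¬ QJ c h z g J p n), ArithmeticFunction.vonMangoldt n =
        ∑ n ∈ Icc 1 N, ArithmeticFunction.vonMangoldt n * (rough c h z n * ∏ i ∈ J, (1 - yi c h g i n)) := by
      rw [sum_filter]
      apply sum_congr rfl
      intro n _
      rw [← ind_J c h z z' hzz g hg J n]
      split_ifs
      · rw [mul_one]
      · rw [mul_zero]
    rw [e1] at h1
    exact h1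
  obtain ⟨VV, hVV⟩ : ∃ VV, VV = ∏ p ∈ pz z, (1 - (rho c h p : ℝ) / (p - 1 : ℝ)) := ⟨_, rfl⟩
  rw [← hVV] at hJ ⊢
  have e2 : ∑ n ∈ Icc 1 N, ArithmeticFunction.vonMangoldt n * (rough c h z n * ∏ i, yi c h g i n) -
      N * VV * ∏ i, xg (g i) (h i) = ∑ J ∈ (univ : Finset (Fin k)).powerset, (-1 : ℝ) ^ J.card *
      (∑ n ∈ Icc 1 N, ArithmeticFunction.vonMangoldt n * (rough c h z n * ∏ i ∈ J, (1 - yi c h g i n)) -
        N * (VV * ∏ i ∈ J, (1 - xg (g i) (h i)))) := by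
    have a1 : ∀ n, ∏ i, yi c h g i n = ∑ J ∈ (univ : Finset (Fin k)).powerset, (-1 : ℝ) ^ J.card * ∏ i ∈ J, (1 - yi c h g i n) := by
      intro n
      rw [← alt]
      apply prod_congr rfl
      intro i _
      ring
    have a2 : ∏ i, xg (g i) (h i) = ∑ J ∈ (univ : Finset (Fin k)).powerset, (-1 : ℝ) ^ J.card * ∏ i ∈ J, (1 - xg (g i) (h i)) := by
      rw [← alt]
      apply prod_congr rfl
      intro i _
      ring
    have a3 : ∑ n ∈ Icc 1 N, ArithmeticFunction.vonMangoldt n * (rough c h z n * ∏ i, yi c h g i n) =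
        ∑ J ∈ (univ : Finset (Fin k)).powerset, (-1 : ℝ) ^ J.card *
        ∑ n ∈ Icc 1 N, ArithmeticFunction.vonMangoldt n * (rough c h z n * ∏ i ∈ J, (1 - yi c h g i n)) := by
      simp only [mul_sum]
      rw [sum_comm]
      apply sum_congr rfl
      intro n _
      rw [a1 n]
      simp only [mul_sum]
      apply sum_congr rfl
      intro J _
      ring
    rw [a3, a2]
    simp only [mul_sub, sum_sub_distrib]
    congr 1
    rw [mul_sum]
    apply sum_congr rfl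
    intro J _
    ring
  rw [e2]
  refine (abs_sum_le_sum_abs _ _).trans ?_
  have h3 : ∀ J ∈ (univ : Finset (Fin k)).powerset, |(-1 : ℝ) ^ J.card *
      (∑ n ∈ Icc 1 N, ArithmeticFunction.vonMangoldt n * (rough c h z n * ∏ i ∈ J, (1 - yi c h g i n)) -
        N * (VV * ∏ i ∈ J, (1 - xg (g i) (h i))))| ≤ N / Real.log N ^ V := by
    intro J hJ'
    rw [abs_mul, abs_pow, abs_neg, abs_one, one_pow, one_mul]
    exact hJ J hJ'
  refine (sum_le_card_nsmul _ _ _ h3).trans (le_of_eq ?_)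
  rw [card_powerset, card_univ, Fintype.card_fin, nsmul_eq_mul]
  push_cast
  rfl

end Pool.Agent.H561.E2
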