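import Pool.Agent.H561.E2.M2

set_option autoImplicit false

/-! The main term, summed over the small prime factors. -/

namespace Pool.Agent.H561.E2

open Finset
open Pool.Agent.H373R2.T7 (pz mem_pz rhoA PerA rhoA_le sys_main)

lemma upd {k : ℕ} (i : Fin k) (S : Fin k → Finset ℕ) (F : (Fin k → ℕ) → ℝ) :
    ∑ g ∈ Fintype.piFinset S, ∑ p ∈ S i, F (Function.update g i p) = (S i).card * ∑ g ∈ Fintype.piFinset S, F g := by
  rw [← sum_product']
  have h1 : ((S i).card : ℝ) * ∑ g ∈ Fintype.piFinset S, F g = ∑ x ∈ Fintype.piFinset S ×ˢ S i, F x.1 := by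
    rw [sum_product]
    simp only [sum_const, nsmul_eq_mul]
    rw [mul_sum]
  rw [h1]
  apply sum_nbij' (fun x => (Function.update x.1 i x.2, x.1 i)) (fun x => (Function.update x.1 i x.2, x.1 i))
  · intro x hx
    rw [mem_product, Fintype.mem_piFinset] at hx ⊢
    refine ⟨fun j => ?_, hx.1 i⟩
    change Function.update x.1 i x.2 j ∈ S j
    by_cases hj : j = i
    · rw [hj, Function.update_self]
      exact hx.2
    · rw [Function.update_of_ne hj]
      exact hx.1 j
  · intro x hx
    rw [mem_product, Fintype.mem_piFinset] at hx ⊢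
    refine ⟨fun j => ?_, hx.1 i⟩
    change Function.update x.1 i x.2 j ∈ S j
    by_cases hj : j = i
    · rw [hj, Function.update_self]
      exact hx.2
    · rw [Function.update_of_ne hj]
      exact hx.1 j
  · intro x _
    simp
  · intro x _
    simp
  · intro x _
    rfl

/-- number of small prime factors -/
noncomputable def om {k : ℕ} (c h : Fin k → ℤ) (S : Fin k → Finset ℕ) (i : Fin k) (n : ℕ) : ℝ :=
  ∑ p ∈ S i, (if (p : ℤ) ∣ LFo c h i n then (1 : ℝ) else 0)

lemma om_prod {k : ℕ} (c h : Fin k → ℤ) (S : Fin k → Finset ℕ) (n : ℕ) :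
    ∏ i, om c h S i n = ∑ g ∈ Fintype.piFinset S, ∏ i, yi c h g i n := by
  classical
  unfold om
  rw [prod_univ_sum]
  apply sum_congr rfl
  intro g _
  apply prod_congr rfl
  intro i _
  unfold yi
  congr 1

lemma yi_nonneg {k : ℕ} (c h : Fin k → ℤ) (g : Fin k → ℕ) (i : Fin k) (n : ℕ) : 0 ≤ yi c h g i n := by
  unfold yi
  split_ifs <;> norm_num

lemma om_nonneg {k : ℕ} (c h : Fin k → ℤ) (S : Fin k → Finset ℕ) (i : Fin k) (n : ℕ) : 0 ≤ om c h S i n :=
  sum_nonneg fun _ _ => by split_ifs <;> norm_num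

lemma rough_nonneg {k : ℕ} (c h : Fin k → ℤ) (z n : ℕ) : 0 ≤ rough c h z n := by
  unfold rough
  split_ifs <;> norm_num

lemma rough_le {k : ℕ} (c h : Fin k → ℤ) (z n : ℕ) : rough c h z n ≤ 1 := by
  unfold rough
  split_ifs <;> norm_num

lemma rough_ne {k : ℕ} (c h : Fin k → ℤ) (z n : ℕ) (hz : 2 ≤ z) (hr : rough c h z n ≠ 0) (i : Fin k) : LFo c h i n ≠ 0 := by
  intro h0
  apply hr
  unfold rough
  rw [if_neg]
  push Not
  exact ⟨2, mem_pz.2 ⟨hz, Nat.prime_two⟩, i, by rw [h0]; exact dvd_zero _⟩

lemma xg_nonneg (g : ℕ) (h : ℤ) (hg : 1 ≤ g) : 0 ≤ xg g h := by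
  unfold xg
  split_ifs
  · exact le_rfl
  · have : (1 : ℝ) ≤ g := by exact_mod_cast hg
    exact div_nonneg zero_le_one (by linarith)

lemma xg_le (g : ℕ) (h : ℤ) (P : ℝ) (hP : 0 < P) (hg : P ≤ (g : ℝ) - 1) : xg g h ≤ 1 / P := by
  unfold xg
  split_ifs
  · positivity
  · exact one_div_le_one_div_of_le hP hg

/-- the number of `n ≤ N` for which a form is divisible by `p` -/
lemma form_count {k : ℕ} (c h : Fin k → ℤ) (i : Fin k) (p N : ℕ) (hp : p.Prime) (hc : ¬ (p : ℤ) ∣ c i) :
    (((Icc 1 N).filter (fun n : ℕ => (p : ℤ) ∣ LFo c h i n)).card : ℝ) ≤ N / p + 1 := by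
  have hp0 : 0 < p := hp.pos
  have h1 : ((Icc 1 N).filter (fun n : ℕ => (p : ℤ) ∣ LFo c h i n)).card ≤ N / p + 1 := by
    by_cases he : ((Icc 1 N).filter (fun n : ℕ => (p : ℤ) ∣ LFo c h i n)).Nonempty
    · obtain ⟨m, hm⟩ := he
      rw [mem_filter] at hm
      have hmaps : ∀ n ∈ (Icc 1 N).filter (fun n : ℕ => (p : ℤ) ∣ LFo c h i n), n / p ∈ range (N / p + 1) := by
        intro n hn
        rw [mem_filter, mem_Icc] at hn
        rw [mem_range]
        exact Nat.lt_succ_of_le (Nat.div_le_div_right hn.1.2)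
      have hinj : Set.InjOn (fun n => n / p) ((Icc 1 N).filter (fun n : ℕ => (p : ℤ) ∣ LFo c h i n) : Finset ℕ) := by
        intro a ha b hb hab
        rw [mem_coe, mem_filter] at ha hb
        have h2 : (p : ℤ) ∣ c i * ((a : ℤ) - b) := by
          have := dvd_sub ha.2 hb.2
          unfold LFo at this
          rwa [show c i * (a : ℤ) + h i - (c i * (b : ℤ) + h i) = c i * ((a : ℤ) - b) by ring] at this
        have h3 : (p : ℤ) ∣ ((a : ℤ) - b) := ((Nat.prime_iff_prime_int.1 hp).dvd_or_dvd h2).resolve_left hc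
        simp only at hab
        have h4 := Nat.div_add_mod a p
        have h5 := Nat.div_add_mod b p
        have h6 := Nat.mod_lt a hp0
        have h7 := Nat.mod_lt b hp0
        rw [hab] at h4
        have h8 : ((a : ℤ) - b) = 0 := by
          apply Int.eq_zero_of_abs_lt_dvd h3
          rw [abs_lt]
          generalize p * (b / p) = t at h4 h5
          omega
        omega
      have := card_le_card_of_injOn (fun n => n / p) hmaps hinj
      rwa [card_range] at this
    · rw [not_nonempty_iff_eq_empty] at he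
      rw [he]
      simp
  have h2 : (((Icc 1 N).filter (fun n : ℕ => (p : ℤ) ∣ LFo c h i n)).card : ℝ) ≤ ((N / p : ℕ) : ℝ) + 1 := by exact_mod_cast h1
  refine h2.trans ?_
  have : ((N / p : ℕ) : ℝ) ≤ (N : ℝ) / p := Nat.cast_div_le
  linarith

/-- the determinants -/
def DD {k : ℕ} (c h : Fin k → ℤ) (i j : Fin k) : ℤ := c j * h i - c i * h j

open Classical in
/-- a common prime factor of two forms -/
noncomputable def bad {k : ℕ} (c h : Fin k → ℤ) (S : Fin k → Finset ℕ) (i j : Fin k) (n : ℕ) : ℝ :=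
  if ∃ p ∈ S i, (p : ℤ) ∣ LFo c h i n ∧ (p : ℤ) ∣ LFo c h j n then 1 else 0

lemma bad_count {k : ℕ} (c h : Fin k → ℤ) (S : Fin k → Finset ℕ) (i j : Fin k) (N : ℕ) (P W : ℝ) (hP : 0 < P)
    (hS : ∀ p ∈ S i, p.Prime ∧ ¬ (p : ℤ) ∣ c i ∧ P ≤ p)
    (hW : (((S i).filter (fun p : ℕ => (p : ℤ) ∣ DD c h i j)).card : ℝ) ≤ W) :
    ∑ n ∈ Icc 1 N, bad c h S i j n ≤ W * (N / P + 1) := by
  classical
  have h1 : ∀ n ∈ Icc 1 N, bad c h S i j n ≤ ∑ p ∈ (S i).filter (fun p : ℕ => (p : ℤ) ∣ DD c h i j),
      if (p : ℤ) ∣ LFo c h i n then (1 : ℝ) else 0 := by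
    intro n _
    unfold bad
    split_ifs with hb
    · obtain ⟨p, hp, h2, h3⟩ := hb
      have hpD : (p : ℤ) ∣ DD c h i j := by
        have h4 : DD c h i j = c j * LFo c h i n - c i * LFo c h j n := by
          unfold DD LFo
          ring
        rw [h4]
        exact dvd_sub (Dvd.dvd.mul_left h2 _) (Dvd.dvd.mul_left h3 _)
      have h5 := single_le_sum (f := fun p : ℕ => if (p : ℤ) ∣ LFo c h i n then (1 : ℝ) else 0)
        (s := (S i).filter (fun p : ℕ => (p : ℤ) ∣ DD c h i j)) (fun _ _ => by split_ifs <;> norm_num)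
        (mem_filter.2 ⟨hp, hpD⟩)
      simp only [if_pos h2] at h5
      exact h5
    · exact sum_nonneg fun _ _ => by split_ifs <;> norm_num
  refine (sum_le_sum h1).trans ?_
  rw [sum_comm]
  have h2 : ∀ p ∈ (S i).filter (fun p : ℕ => (p : ℤ) ∣ DD c h i j),
      ∑ n ∈ Icc 1 N, (if (p : ℤ) ∣ LFo c h i n then (1 : ℝ) else 0) ≤ N / P + 1 := by
    intro p hp
    rw [mem_filter] at hp
    obtain ⟨hp1, hp2, hp3⟩ := hS p hp.1
    rw [← sum_filter, sum_const, nsmul_eq_mul, mul_one]
    refine (form_count c h i p N hp1 hp2).trans ?_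
    have : (N : ℝ) / p ≤ N / P := div_le_div_of_nonneg_left (Nat.cast_nonneg _) hP hp3
    linarith
  refine (sum_le_card_nsmul _ _ _ h2).trans ?_
  rw [nsmul_eq_mul]
  exact mul_le_mul_of_nonneg_right hW (by positivity)

/-- pairs of equal coordinates: divisibility side -/
lemma noninj_y {k : ℕ} (c h : Fin k → ℤ) (S : Fin k → Finset ℕ) (n : ℕ) [DecidablePred fun g : Fin k → ℕ => Function.Injective g] :
    ∑ g ∈ (Fintype.piFinset S).filter (fun g => ¬ Function.Injective g), ∏ i, yi c h g i n ≤
      ∑ i, ∑ j ∈ univ.erase i, bad c h S i j n * ∏ l, om c h S l n := by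
  classical
  have h1 : ∀ g ∈ (Fintype.piFinset S).filter (fun g => ¬ Function.Injective g), ∏ i, yi c h g i n ≤
      ∑ i, ∑ j ∈ univ.erase i, bad c h S i j n * ∏ l, yi c h g l n := by
    intro g hg
    rw [mem_filter, Fintype.mem_piFinset] at hg
    have hpos : 0 ≤ ∏ l, yi c h g l n := prod_nonneg fun l _ => yi_nonneg c h g l n
    have hbpos : ∀ i j, 0 ≤ bad c h S i j n := fun i j => by unfold bad; split_ifs <;> norm_num
    by_cases h0 : ∏ l, yi c h g l n = 0
    · rw [h0]
      simp
    · have hall : ∀ l, (g l : ℤ) ∣ LFo c h l n := by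
        intro l
        by_contra hcon
        apply h0
        apply prod_eq_zero (mem_univ l)
        unfold yi
        rw [if_neg hcon]
      have h2 := hg.2
      rw [Function.not_injective_iff] at h2
      obtain ⟨i, j, hij, hne⟩ := h2
      have hb : bad c h S i j n = 1 := by
        unfold bad
        rw [if_pos]
        exact ⟨g i, hg.1 i, hall i, by rw [hij]; exact hall j⟩
      calc ∏ l, yi c h g l n = bad c h S i j n * ∏ l, yi c h g l n := by rw [hb, one_mul]
        _ ≤ ∑ j ∈ univ.erase i, bad c h S i j n * ∏ l, yi c h g l n :=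
            single_le_sum (f := fun j => bad c h S i j n * ∏ l, yi c h g l n)
              (fun j _ => mul_nonneg (hbpos i j) hpos) (mem_erase.2 ⟨hne.symm, mem_univ j⟩)
        _ ≤ _ := single_le_sum (f := fun i => ∑ j ∈ univ.erase i, bad c h S i j n * ∏ l, yi c h g l n)
            (fun i _ => sum_nonneg fun j _ => mul_nonneg (hbpos i j) hpos) (mem_univ i)
  refine (sum_le_sum h1).trans ?_
  rw [sum_comm]
  apply sum_le_sum
  intro i _
  rw [sum_comm]
  apply sum_le_sum
  intro j _
  rw [← mul_sum]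
  apply mul_le_mul_of_nonneg_left
  · rw [om_prod]
    apply sum_le_sum_of_subset_of_nonneg (filter_subset _ _)
    intro g _ _
    exact prod_nonneg fun l _ => yi_nonneg c h g l n
  · unfold bad
    split_ifs <;> norm_num

/-- pairs of equal coordinates: density side -/
lemma noninj_x {k : ℕ} (h : Fin k → ℤ) (S : Fin k → Finset ℕ) (P W : ℝ) (hP : 1 ≤ P) (hW : 1 ≤ W)
    (hS : ∀ i, ∀ p ∈ S i, P ≤ (p : ℝ) - 1) (hσ : ∀ i, ∑ p ∈ S i, xg p (h i) ≤ W)
    [DecidablePred fun g : Fin k → ℕ => Function.Injective g] :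
    ∑ g ∈ (Fintype.piFinset S).filter (fun g => ¬ Function.Injective g), ∏ i, xg (g i) (h i) ≤ k ^ 2 * (W ^ k / P) := by
  classical
  have hP0 : 0 < P := by linarith
  have hS1 : ∀ i, ∀ p ∈ S i, 1 ≤ p := by
    intro i p hp
    have h1 := hS i p hp
    have h2 : (1 : ℝ) ≤ p := by linarith
    exact_mod_cast h2
  have hpair : ∀ i j, i ≠ j → ∑ g ∈ Fintype.piFinset S, (if g i = g j then ∏ l, xg (g l) (h l) else 0) ≤ W ^ k / P := by
    intro i j hij
    by_cases hSi : (S i).card = 0
    · have : Fintype.piFinset S = ∅ := by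
        apply eq_empty_of_forall_notMem
        intro g hg
        rw [Fintype.mem_piFinset] at hg
        have h7 := hg i
        rw [card_eq_zero.1 hSi] at h7
        exact absurd h7 (notMem_empty _)
      rw [this, sum_empty]
      positivity
    · have hSi' : (0 : ℝ) < (S i).card := by exact_mod_cast Nat.pos_of_ne_zero hSi
      have h1 := upd i S (fun g => if g i = g j then ∏ l, xg (g l) (h l) else 0)
      have h2 : ∀ g ∈ Fintype.piFinset S, ∑ p ∈ S i, (if Function.update g i p i = Function.update g i p j then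
          ∏ l, xg (Function.update g i p l) (h l) else 0) ≤ (1 / P) * ∏ l ∈ univ.erase i, xg (g l) (h l) := by
        intro g hg
        rw [Fintype.mem_piFinset] at hg
        have h3 : ∀ p ∈ S i, (if Function.update g i p i = Function.update g i p j then
          ∏ l, xg (Function.update g i p l) (h l) else 0) = if p = g j then xg p (h i) * ∏ l ∈ univ.erase i, xg (g l) (h l) else 0 := by
          intro p _
          rw [Function.update_self, Function.update_of_ne hij.symm]
          split_ifs with h4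
          · rw [← mul_prod_erase univ _ (mem_univ i), Function.update_self]
            congr 1
            apply prod_congr rfl
            intro l hl
            rw [mem_erase] at hl
            rw [Function.update_of_ne hl.1]
          · rfl
        rw [sum_congr rfl h3, sum_ite_eq']
        have hpr : 0 ≤ ∏ l ∈ univ.erase i, xg (g l) (h l) := prod_nonneg fun l _ => xg_nonneg _ _ (hS1 l _ (hg l))
        split_ifs with h5
        · apply mul_le_mul_of_nonneg_right _ hpr
          exact xg_le _ _ P hP0 (hS i _ h5)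
        · exact mul_nonneg (by positivity) hpr
      have h4 : ∑ g ∈ Fintype.piFinset S, ∏ l ∈ univ.erase i, xg (g l) (h l) = (S i).card * ∏ l ∈ univ.erase i, ∑ p ∈ S l, xg p (h l) := by
        have h5 : ∀ g ∈ Fintype.piFinset S, ∏ l ∈ univ.erase i, xg (g l) (h l) = ∏ l, (if l = i then 1 else xg (g l) (h l)) := by
          intro g _
          rw [← mul_prod_erase univ (fun l => if l = i then (1 : ℝ) else xg (g l) (h l)) (mem_univ i), if_pos rfl, one_mul]
          apply prod_congr rfl
          intro l hl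
          rw [mem_erase] at hl
          rw [if_neg hl.1]
        rw [sum_congr rfl h5]
        have h6 := prod_univ_sum S (fun l p => if l = i then (1 : ℝ) else xg p (h l))
        rw [← h6, ← mul_prod_erase univ _ (mem_univ i)]
        congr 1
        · simp
        · apply prod_congr rfl
          intro l hl
          rw [mem_erase] at hl
          apply sum_congr rfl
          intro p _
          rw [if_neg hl.1]
      have h5 : ∏ l ∈ univ.erase i, ∑ p ∈ S l, xg p (h l) ≤ W ^ k := by
        calc ∏ l ∈ univ.erase i, ∑ p ∈ S l, xg p (h l) ≤ ∏ _l ∈ (univ : Finset (Fin k)).erase i, W := by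
              apply prod_le_prod
              · intro l _
                exact sum_nonneg fun p hp => xg_nonneg _ _ (hS1 l p hp)
              · intro l _
                exact hσ l
          _ = W ^ (k - 1) := by rw [prod_const, card_erase_of_mem (mem_univ i), card_univ, Fintype.card_fin]
          _ ≤ W ^ k := pow_le_pow_right₀ hW (by omega)
      have h6 : ((S i).card : ℝ) * ∑ g ∈ Fintype.piFinset S, (if g i = g j then ∏ l, xg (g l) (h l) else 0) ≤
          (S i).card * (W ^ k / P) := by
        rw [← h1]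
        refine (sum_le_sum h2).trans ?_
        rw [← mul_sum, h4]
        calc 1 / P * (((S i).card : ℝ) * ∏ l ∈ univ.erase i, ∑ p ∈ S l, xg p (h l)) ≤ 1 / P * (((S i).card : ℝ) * W ^ k) := by gcongr
          _ = _ := by ring
      exact le_of_mul_le_mul_left h6 hSi'
  have h1 : ∀ g ∈ (Fintype.piFinset S).filter (fun g => ¬ Function.Injective g), ∏ i, xg (g i) (h i) ≤
      ∑ i, ∑ j ∈ univ.erase i, if g i = g j then ∏ l, xg (g l) (h l) else 0 := by
    intro g hg
    rw [mem_filter, Fintype.mem_piFinset] at hg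
    have hpos : 0 ≤ ∏ l, xg (g l) (h l) := prod_nonneg fun l _ => xg_nonneg _ _ (hS1 l _ (hg.1 l))
    have h2 := hg.2
    rw [Function.not_injective_iff] at h2
    obtain ⟨i, j, hij, hne⟩ := h2
    have hnn : ∀ i j, 0 ≤ (if g i = g j then ∏ l, xg (g l) (h l) else 0) := fun i j => by
      split_ifs
      · exact hpos
      · exact le_rfl
    calc ∏ l, xg (g l) (h l) = if g i = g j then ∏ l, xg (g l) (h l) else 0 := by rw [if_pos hij]
      _ ≤ ∑ j ∈ univ.erase i, (if g i = g j then ∏ l, xg (g l) (h l) else 0) :=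
          single_le_sum (f := fun j => if g i = g j then ∏ l, xg (g l) (h l) else 0)
            (fun j _ => hnn i j) (mem_erase.2 ⟨hne.symm, mem_univ j⟩)
      _ ≤ _ := single_le_sum (f := fun i => ∑ j ∈ univ.erase i, if g i = g j then ∏ l, xg (g l) (h l) else 0)
          (fun i _ => sum_nonneg fun j _ => hnn i j) (mem_univ i)
  refine (sum_le_sum h1).trans ?_
  rw [sum_comm]
  have h3 : ∀ i ∈ (univ : Finset (Fin k)), ∑ g ∈ (Fintype.piFinset S).filter (fun g => ¬ Function.Injective g),
      ∑ j ∈ univ.erase i, (if g i = g j then ∏ l, xg (g l) (h l) else 0) ≤ k * (W ^ k / P) := by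
    intro i _
    rw [sum_comm]
    have h4 : ∀ j ∈ univ.erase i, ∑ g ∈ (Fintype.piFinset S).filter (fun g => ¬ Function.Injective g),
        (if g i = g j then ∏ l, xg (g l) (h l) else 0) ≤ W ^ k / P := by
      intro j hj
      rw [mem_erase] at hj
      refine le_trans ?_ (hpair i j hj.1.symm)
      apply sum_le_sum_of_subset_of_nonneg (filter_subset _ _)
      intro g hg _
      rw [Fintype.mem_piFinset] at hg
      split_ifs
      · exact prod_nonneg fun l _ => xg_nonneg _ _ (hS1 l _ (hg l))
      · exact le_rfl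
    refine (sum_le_card_nsmul _ _ _ h4).trans ?_
    rw [nsmul_eq_mul]
    apply mul_le_mul_of_nonneg_right _ (by positivity)
    have : (univ.erase i).card ≤ k := (card_le_card (erase_subset _ _)).trans (by rw [card_univ, Fintype.card_fin])
    exact_mod_cast this
  refine (sum_le_card_nsmul _ _ _ h3).trans (le_of_eq ?_)
  rw [card_univ, Fintype.card_fin, nsmul_eq_mul]
  ring

end Pool.Agent.H561.E2
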