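import Pool.Agent.H561.E2.M3

set_option autoImplicit false

/-! The main term: assembly. -/

namespace Pool.Agent.H561.E2

open Finset
open Pool.Agent.H373R2.T7 (pz mem_pz rhoA PerA rhoA_le sys_main)

lemma rho_le {k : ℕ} (c h : Fin k → ℤ) (p : ℕ) : rho c h p ≤ p - 1 := by
  have h1 := rhoA_small c h p (fun _ => p + 1) ∅ (fun _ => by omega) p le_rfl
  rw [← h1]
  exact rhoA_le _ _

lemma fac_mem {k : ℕ} (c h : Fin k → ℤ) (p : ℕ) (hp : p.Prime) :
    0 ≤ 1 - (rho c h p : ℝ) / (p - 1 : ℝ) ∧ 1 - (rho c h p : ℝ) / (p - 1 : ℝ) ≤ 1 := by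
  have hp2 : (2 : ℝ) ≤ p := by exact_mod_cast hp.two_le
  have h6 : (rho c h p : ℝ) ≤ ((p - 1 : ℕ) : ℝ) := by exact_mod_cast rho_le c h p
  rw [Nat.cast_sub hp.one_le] at h6
  push_cast at h6
  have h7 : (rho c h p : ℝ) / (p - 1 : ℝ) ≤ 1 := by rw [div_le_one (by linarith)]; exact h6
  have h8 : 0 ≤ (rho c h p : ℝ) / (p - 1 : ℝ) := div_nonneg (Nat.cast_nonneg _) (by linarith)
  constructor <;> linarith

theorem main_sum {k : ℕ} (c : Fin k → ℤ) (hc : ∀ i, c i ≠ 0) (E V : ℕ) : ∃ N0 : ℕ, ∀ N : ℕ, N0 ≤ N → ∀ z z' : ℕ, 2 ≤ z → z ≤ z' →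
    (z' : ℝ) ≤ Real.log N ^ E → ∀ (h : Fin k → ℤ) (S : Fin k → Finset ℕ) (P W : ℝ), 1 ≤ P → 1 ≤ W →
    (∀ i, ∀ p ∈ S i, p.Prime ∧ z < p ∧ p ≤ z' ∧ ¬ ((p : ℤ) ∣ c i) ∧ P ≤ (p : ℝ) - 1) →
    (∀ i, ∑ p ∈ S i, xg p (h i) ≤ W) →
    (∀ i j, i ≠ j → (((S i).filter (fun p : ℕ => (p : ℤ) ∣ DD c h i j)).card : ℝ) ≤ W) →
    (∀ i, ∀ n ∈ Icc 1 N, LFo c h i n ≠ 0 → om c h S i n ≤ W) →
    |∑ n ∈ Icc 1 N, ArithmeticFunction.vonMangoldt n * (rough c h z n * ∏ i, om c h S i n) -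
      N * (∏ p ∈ pz z, (1 - (rho c h p : ℝ) / (p - 1 : ℝ))) * ∏ i, ∑ p ∈ S i, xg p (h i)| ≤
      (∏ i, ((S i).card : ℝ)) * (2 ^ k * (N / Real.log N ^ V)) + k ^ 2 * (Real.log N * W ^ (k + 1) * (N / P + 1)) +
        N * (k ^ 2 * (W ^ k / P)) := by
  classical
  obtain ⟨N0, h0⟩ := fixed_g c hc E V
  refine ⟨max N0 1, fun N hN z z' hz hzz hz'E h S P W hP hW hS hσ hD hω => ?_⟩
  have hN0 : N0 ≤ N := (le_max_left _ _).trans hN
  have hN1 : 1 ≤ N := (le_max_right _ _).trans hN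
  have hN1r : (1 : ℝ) ≤ N := by exact_mod_cast hN1
  have hlog : 0 ≤ Real.log N := Real.log_nonneg hN1r
  have hP0 : 0 < P := by linarith
  obtain ⟨VV, hVV⟩ : ∃ VV, VV = ∏ p ∈ pz z, (1 - (rho c h p : ℝ) / (p - 1 : ℝ)) := ⟨_, rfl⟩
  have hV0 : 0 ≤ VV := by
    rw [hVV]
    exact prod_nonneg fun p hp => (fac_mem c h p (mem_pz.1 hp).2).1
  have hV1 : VV ≤ 1 := by
    rw [hVV]
    exact prod_le_one (fun p hp => (fac_mem c h p (mem_pz.1 hp).2).1) (fun p hp => (fac_mem c h p (mem_pz.1 hp).2).2)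
  rw [← hVV]
  obtain ⟨GI, hGI⟩ : ∃ GI, GI = (Fintype.piFinset S).filter (fun g => Function.Injective g) := ⟨_, rfl⟩
  obtain ⟨GN, hGN⟩ : ∃ GN, GN = (Fintype.piFinset S).filter (fun g => ¬ Function.Injective g) := ⟨_, rfl⟩
  have hsplit : ∀ F : (Fin k → ℕ) → ℝ, ∑ g ∈ Fintype.piFinset S, F g = ∑ g ∈ GI, F g + ∑ g ∈ GN, F g := by
    intro F
    rw [hGI, hGN, sum_filter_add_sum_filter_not]
  have hS1 : ∀ i, ∀ p ∈ S i, 1 ≤ p := fun i p hp => (hS i p hp).1.one_le
  -- the sum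
  have e1 : ∑ n ∈ Icc 1 N, ArithmeticFunction.vonMangoldt n * (rough c h z n * ∏ i, om c h S i n) =
      ∑ g ∈ GI, ∑ n ∈ Icc 1 N, ArithmeticFunction.vonMangoldt n * (rough c h z n * ∏ i, yi c h g i n) +
      ∑ n ∈ Icc 1 N, ArithmeticFunction.vonMangoldt n * (rough c h z n * ∑ g ∈ GN, ∏ i, yi c h g i n) := by
    rw [sum_comm, ← sum_add_distrib]
    apply sum_congr rfl
    intro n _
    rw [om_prod, hsplit]
    simp only [mul_add, mul_sum]
  have e2 : ∏ i, ∑ p ∈ S i, xg p (h i) = ∑ g ∈ GI, ∏ i, xg (g i) (h i) + ∑ g ∈ GN, ∏ i, xg (g i) (h i) := by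
    rw [prod_univ_sum, hsplit]
  have e3 : ∑ n ∈ Icc 1 N, ArithmeticFunction.vonMangoldt n * (rough c h z n * ∏ i, om c h S i n) -
      N * VV * ∏ i, ∑ p ∈ S i, xg p (h i) =
      ∑ g ∈ GI, (∑ n ∈ Icc 1 N, ArithmeticFunction.vonMangoldt n * (rough c h z n * ∏ i, yi c h g i n) - N * VV * ∏ i, xg (g i) (h i)) +
      ∑ n ∈ Icc 1 N, ArithmeticFunction.vonMangoldt n * (rough c h z n * ∑ g ∈ GN, ∏ i, yi c h g i n) +
      (-(N * VV * ∑ g ∈ GN, ∏ i, xg (g i) (h i))) := by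
    rw [e1, e2, sum_sub_distrib, ← mul_sum]
    ring
  rw [e3]
  refine (abs_add_le _ _).trans (add_le_add ((abs_add_le _ _).trans (add_le_add ?_ ?_)) ?_)
  · -- injective systems
    refine (abs_sum_le_sum_abs _ _).trans ?_
    have h1 : ∀ g ∈ GI, |∑ n ∈ Icc 1 N, ArithmeticFunction.vonMangoldt n * (rough c h z n * ∏ i, yi c h g i n) - N * VV * ∏ i, xg (g i) (h i)| ≤
        2 ^ k * (N / Real.log N ^ V) := by
      intro g hg
      rw [hGI, mem_filter, Fintype.mem_piFinset] at hg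
      rw [hVV]
      apply h0 N hN0 z z' (by omega) hzz hz'E h g hg.2
      intro i
      obtain ⟨a1, a2, a3, a4, _⟩ := hS i (g i) (hg.1 i)
      exact ⟨a1, a2, a3, a4⟩
    refine (sum_le_card_nsmul _ _ _ h1).trans ?_
    rw [nsmul_eq_mul]
    apply mul_le_mul_of_nonneg_right _ (by positivity)
    have h2 : GI.card ≤ (Fintype.piFinset S).card := by
      rw [hGI]
      exact card_filter_le _ _
    rw [Fintype.card_piFinset] at h2
    exact_mod_cast h2
  · -- other systems: the sum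
    have h1 : ∀ n ∈ Icc 1 N, 0 ≤ ArithmeticFunction.vonMangoldt n * (rough c h z n * ∑ g ∈ GN, ∏ i, yi c h g i n) := by
      intro n _
      apply mul_nonneg ArithmeticFunction.vonMangoldt_nonneg
      apply mul_nonneg (rough_nonneg _ _ _ _)
      exact sum_nonneg fun g _ => prod_nonneg fun i _ => yi_nonneg c h g i n
    rw [abs_of_nonneg (sum_nonneg h1)]
    have h2 : ∀ n ∈ Icc 1 N, ArithmeticFunction.vonMangoldt n * (rough c h z n * ∑ g ∈ GN, ∏ i, yi c h g i n) ≤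
        (Real.log N * W ^ k) * ∑ i, ∑ j ∈ univ.erase i, bad c h S i j n := by
      intro n hn
      have hn' := hn
      rw [mem_Icc] at hn'
      have hΛ : ArithmeticFunction.vonMangoldt n ≤ Real.log N := by
        refine ArithmeticFunction.vonMangoldt_le_log.trans ?_
        apply Real.log_le_log (by exact_mod_cast hn'.1)
        exact_mod_cast hn'.2
      have hbn : 0 ≤ ∑ i, ∑ j ∈ univ.erase i, bad c h S i j n :=
        sum_nonneg fun i _ => sum_nonneg fun j _ => by unfold bad; split_ifs <;> norm_num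
      have h3 : rough c h z n * ∑ g ∈ GN, ∏ i, yi c h g i n ≤ W ^ k * ∑ i, ∑ j ∈ univ.erase i, bad c h S i j n := by
        by_cases hr : rough c h z n = 0
        · rw [hr, zero_mul]
          positivity
        · have h4 : ∑ g ∈ GN, ∏ i, yi c h g i n ≤ ∑ i, ∑ j ∈ univ.erase i, bad c h S i j n * ∏ l, om c h S l n := by
            rw [hGN]
            exact noninj_y c h S n
          have h5 : ∏ l, om c h S l n ≤ W ^ k := by
            calc ∏ l, om c h S l n ≤ ∏ _l : Fin k, W := by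
                  apply prod_le_prod (fun l _ => om_nonneg c h S l n)
                  intro l _
                  exact hω l n hn (rough_ne c h z n hz hr l)
              _ = W ^ k := by rw [prod_const, card_univ, Fintype.card_fin]
          have h6 : 0 ≤ ∑ g ∈ GN, ∏ i, yi c h g i n := sum_nonneg fun g _ => prod_nonneg fun i _ => yi_nonneg c h g i n
          calc rough c h z n * ∑ g ∈ GN, ∏ i, yi c h g i n ≤ 1 * ∑ g ∈ GN, ∏ i, yi c h g i n :=
                mul_le_mul_of_nonneg_right (rough_le _ _ _ _) h6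
            _ ≤ ∑ i, ∑ j ∈ univ.erase i, bad c h S i j n * ∏ l, om c h S l n := by rw [one_mul]; exact h4
            _ = (∏ l, om c h S l n) * ∑ i, ∑ j ∈ univ.erase i, bad c h S i j n := by
                simp only [mul_sum]
                apply sum_congr rfl
                intro i _
                apply sum_congr rfl
                intro j _
                ring
            _ ≤ _ := mul_le_mul_of_nonneg_right h5 hbn
      have h7 : 0 ≤ rough c h z n * ∑ g ∈ GN, ∏ i, yi c h g i n := by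
        apply mul_nonneg (rough_nonneg _ _ _ _)
        exact sum_nonneg fun g _ => prod_nonneg fun i _ => yi_nonneg c h g i n
      calc ArithmeticFunction.vonMangoldt n * (rough c h z n * ∑ g ∈ GN, ∏ i, yi c h g i n) ≤
            Real.log N * (W ^ k * ∑ i, ∑ j ∈ univ.erase i, bad c h S i j n) := mul_le_mul hΛ h3 h7 hlog
        _ = _ := by ring
    refine (sum_le_sum h2).trans ?_
    rw [← mul_sum]
    have h3 : ∑ n ∈ Icc 1 N, ∑ i, ∑ j ∈ univ.erase i, bad c h S i j n ≤ k ^ 2 * (W * (N / P + 1)) := by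
      rw [sum_comm]
      have h4 : ∀ i ∈ (univ : Finset (Fin k)), ∑ n ∈ Icc 1 N, ∑ j ∈ univ.erase i, bad c h S i j n ≤ k * (W * (N / P + 1)) := by
        intro i _
        rw [sum_comm]
        have h5 : ∀ j ∈ univ.erase i, ∑ n ∈ Icc 1 N, bad c h S i j n ≤ W * (N / P + 1) := by
          intro j hj
          rw [mem_erase] at hj
          apply bad_count c h S i j N P W hP0 _ (hD i j hj.1.symm)
          intro p hp
          obtain ⟨a1, a2, a3, a4, a5⟩ := hS i p hp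
          exact ⟨a1, a4, by linarith⟩
        refine (sum_le_card_nsmul _ _ _ h5).trans ?_
        rw [nsmul_eq_mul]
        apply mul_le_mul_of_nonneg_right _ (by positivity)
        have : (univ.erase i).card ≤ k := (card_le_card (erase_subset _ _)).trans (by rw [card_univ, Fintype.card_fin])
        exact_mod_cast this
      refine (sum_le_card_nsmul _ _ _ h4).trans (le_of_eq ?_)
      rw [card_univ, Fintype.card_fin, nsmul_eq_mul]
      ring
    calc Real.log N * W ^ k * ∑ n ∈ Icc 1 N, ∑ i, ∑ j ∈ univ.erase i, bad c h S i j n ≤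
          Real.log N * W ^ k * (k ^ 2 * (W * (N / P + 1))) := by gcongr
      _ = _ := by ring
  · -- other systems: the densities
    have h1 : 0 ≤ ∑ g ∈ GN, ∏ i, xg (g i) (h i) := by
      apply sum_nonneg
      intro g hg
      rw [hGN, mem_filter, Fintype.mem_piFinset] at hg
      exact prod_nonneg fun i _ => xg_nonneg _ _ (hS1 i _ (hg.1 i))
    rw [abs_neg, abs_of_nonneg (by positivity)]
    have h2 : ∑ g ∈ GN, ∏ i, xg (g i) (h i) ≤ k ^ 2 * (W ^ k / P) := by
      rw [hGN]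
      exact noninj_x h S P W hP hW (fun i p hp => (hS i p hp).2.2.2.2) hσ
    calc (N : ℝ) * VV * ∑ g ∈ GN, ∏ i, xg (g i) (h i) ≤ N * 1 * (k ^ 2 * (W ^ k / P)) := by gcongr
      _ = _ := by ring

end Pool.Agent.H561.E2
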