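import Pool.Agent.H561.E2.M4

set_option autoImplicit false

/-! The singular series. -/

namespace Pool.Agent.H561.E2

open Finset Filter Topology
open Pool.Agent.H373R2.T7 (pz mem_pz rhoA PerA rhoA_le sys_main)

/-- the local factors -/
noncomputable def lf {k : ℕ} (c h : Fin k → ℤ) (p : ℕ) : ℝ := (1 - (rho c h p : ℝ) / (p - 1 : ℝ)) * ((1 - 1 / (p : ℝ))⁻¹) ^ k

/-- the singular series -/
noncomputable def singT {k : ℕ} (c h : Fin k → ℤ) : ℝ := ∏' p : ℕ, if p.Prime then lf c h p else 1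

/-- the exceptional primes -/
def Bd {k : ℕ} (c h : Fin k → ℤ) (p : ℕ) : Prop := (∃ i, (p : ℤ) ∣ h i) ∨ ∃ i j, i ≠ j ∧ (p : ℤ) ∣ DD c h i j

lemma pow_bound (K : ℕ) (u : ℝ) (h0 : 0 ≤ u) (h1 : u ≤ 1) : (1 - u) ^ K ≤ 1 - K * u + (K : ℝ) ^ 2 * u ^ 2 := by
  induction K with
  | zero => simp
  | succ K ih =>
    have h2 : 0 ≤ 1 - u := by linarith
    have h3 : (0 : ℝ) ≤ K := Nat.cast_nonneg _
    calc (1 - u) ^ (K + 1) = (1 - u) ^ K * (1 - u) := pow_succ _ _
      _ ≤ (1 - K * u + (K : ℝ) ^ 2 * u ^ 2) * (1 - u) := mul_le_mul_of_nonneg_right ih h2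
      _ ≤ _ := by
          push_cast
          have h4 : 0 ≤ (K : ℝ) ^ 2 * u ^ 2 * u := by positivity
          have h5 : 0 ≤ (K : ℝ) * u ^ 2 := by positivity
          nlinarith [sq_nonneg u]

lemma pow_bound' (K : ℕ) (u : ℝ) (h1 : u ≤ 1) : 1 - K * u ≤ (1 - u) ^ K := by
  have := one_add_mul_le_pow (show (-2 : ℝ) ≤ -u by linarith) K
  calc 1 - K * u = 1 + K * (-u) := by ring
    _ ≤ (1 + -u) ^ K := this
    _ = _ := by ring

lemma rho_card {k : ℕ} (c h : Fin k → ℤ) (p : ℕ) (hp : p.Prime) (hc : ∀ i, ¬ (p : ℤ) ∣ c i) : rho c h p ≤ k := by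
  classical
  unfold rho
  have h1 : (range p).filter (fun r => ¬ p ∣ r ∧ ∃ i, (p : ℤ) ∣ LFo c h i r) ⊆
      (univ : Finset (Fin k)).biUnion (fun i => (range p).filter (fun r : ℕ => (p : ℤ) ∣ c i * r + h i)) := by
    intro r hr
    rw [mem_filter] at hr
    obtain ⟨h1, _, i, hi⟩ := hr
    rw [mem_biUnion]
    exact ⟨i, mem_univ _, by rw [mem_filter]; exact ⟨h1, hi⟩⟩
  refine (card_le_card h1).trans (card_biUnion_le.trans ?_)
  have h3 : ∀ i ∈ (univ : Finset (Fin k)), ((range p).filter (fun r : ℕ => (p : ℤ) ∣ c i * r + h i)).card ≤ 1 :=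
    fun i _ => one_class p hp (c i) (h i) (hc i)
  have h4 := sum_le_card_nsmul _ _ _ h3
  simpa using h4

lemma rho_eq {k : ℕ} (c h : Fin k → ℤ) (p : ℕ) (hp : p.Prime) (hc : ∀ i, ¬ (p : ℤ) ∣ c i) (hB : ¬ Bd c h p) : rho c h p = k := by
  classical
  unfold rho
  have e1 : (range p).filter (fun r => ¬ p ∣ r ∧ ∃ i, (p : ℤ) ∣ LFo c h i r) =
      (univ : Finset (Fin k)).biUnion (fun i => (range p).filter (fun r : ℕ => ¬ p ∣ r ∧ (p : ℤ) ∣ c i * r + h i)) := by
    ext r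
    simp only [mem_filter, mem_biUnion, mem_univ, true_and, mem_range, LFo]
    constructor
    · rintro ⟨h1, h2, i, hi⟩
      exact ⟨i, h1, h2, hi⟩
    · rintro ⟨i, h1, h2, hi⟩
      exact ⟨h1, h2, i, hi⟩
  rw [e1, card_biUnion]
  · have h1 : ∀ i ∈ (univ : Finset (Fin k)), ((range p).filter (fun r : ℕ => ¬ p ∣ r ∧ (p : ℤ) ∣ c i * r + h i)).card = 1 := by
      intro i _
      have h2 := class_card p hp (c i) (h i) (hc i)
      have h3 : ¬ (p : ℤ) ∣ h i := fun h => hB (Or.inl ⟨i, h⟩)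
      unfold xg at h2
      rw [if_neg h3] at h2
      have hp2 : (2 : ℝ) ≤ p := by exact_mod_cast hp.two_le
      have h4 : (p : ℝ) - 1 ≠ 0 := by
        have : (0 : ℝ) < p - 1 := by linarith
        exact this.ne'
      rw [div_left_inj' h4] at h2
      exact_mod_cast h2
    rw [sum_congr rfl h1]
    simp
  · intro i _ j _ hij
    change Disjoint _ _
    rw [Finset.disjoint_left]
    intro r hr hr'
    rw [mem_filter] at hr hr'
    apply hB
    right
    refine ⟨i, j, hij, ?_⟩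
    have h4 : DD c h i j = c j * (c i * r + h i) - c i * (c j * r + h j) := by
      unfold DD
      ring
    rw [h4]
    exact dvd_sub (Dvd.dvd.mul_left hr.2.2 _) (Dvd.dvd.mul_left hr'.2.2 _)

/-- the constant -/
noncomputable def CK (k : ℕ) : ℝ := ((k : ℝ) + 1) ^ 2 * 2 ^ (k + 1)

lemma CK_pos (k : ℕ) : 0 < CK k := by
  unfold CK
  positivity

lemma lf_good {k : ℕ} (c h : Fin k → ℤ) (p : ℕ) (hp : p.Prime) (hr : rho c h p = k) : |lf c h p - 1| ≤ CK k / (p : ℝ) ^ 2 := by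
  have hp2 : (2 : ℝ) ≤ p := by exact_mod_cast hp.two_le
  have hp0 : (0 : ℝ) < p := by linarith
  obtain ⟨u, hu⟩ : ∃ u, u = 1 / (p : ℝ) := ⟨_, rfl⟩
  have hu0 : 0 ≤ u := by rw [hu]; positivity
  have hu2 : u ≤ 1 / 2 := by
    rw [hu]
    exact one_div_le_one_div_of_le (by norm_num) hp2
  have h1u : 0 < 1 - u := by linarith
  have e1 : lf c h p = (1 - ((k + 1 : ℕ) : ℝ) * u) / (1 - u) ^ (k + 1) := by
    unfold lf
    rw [hr, ← hu]
    have h3 : (k : ℝ) / (p - 1) = k * u / (1 - u) := by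
      rw [hu]
      have : (p : ℝ) - 1 ≠ 0 := by
        have : (0 : ℝ) < p - 1 := by linarith
        exact this.ne'
      field_simp
    rw [h3, pow_succ, inv_pow]
    field_simp
    push_cast
    ring
  have hpow : 0 < (1 - u) ^ (k + 1) := by positivity
  have h4 := pow_bound (k + 1) u hu0 (by linarith)
  have h5 := pow_bound' (k + 1) u (by linarith)
  have h6 : (1 / 2 : ℝ) ^ (k + 1) ≤ (1 - u) ^ (k + 1) := pow_le_pow_left₀ (by norm_num) (by linarith) _
  rw [e1]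
  have h7 : (1 - ((k + 1 : ℕ) : ℝ) * u) / (1 - u) ^ (k + 1) - 1 = ((1 - ((k + 1 : ℕ) : ℝ) * u) - (1 - u) ^ (k + 1)) / (1 - u) ^ (k + 1) := by
    field_simp
  rw [h7, abs_div, abs_of_pos hpow, div_le_iff₀ hpow]
  have h8 : |(1 - ((k + 1 : ℕ) : ℝ) * u) - (1 - u) ^ (k + 1)| ≤ (((k + 1 : ℕ) : ℝ)) ^ 2 * u ^ 2 := by
    rw [abs_le]
    constructor
    · linarith
    · have : 0 ≤ (((k + 1 : ℕ) : ℝ)) ^ 2 * u ^ 2 := by positivity
      linarith
  refine h8.trans ?_
  have h9 : CK k / (p : ℝ) ^ 2 = (((k + 1 : ℕ) : ℝ)) ^ 2 * 2 ^ (k + 1) * u ^ 2 := by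
    unfold CK
    rw [hu]
    push_cast
    field_simp
  rw [h9]
  calc (((k + 1 : ℕ) : ℝ)) ^ 2 * u ^ 2 = (((k + 1 : ℕ) : ℝ)) ^ 2 * 2 ^ (k + 1) * u ^ 2 * (1 / 2 : ℝ) ^ (k + 1) := by
        have : (2 : ℝ) ^ (k + 1) * (1 / 2 : ℝ) ^ (k + 1) = 1 := by
          rw [← mul_pow]
          norm_num
        calc (((k + 1 : ℕ) : ℝ)) ^ 2 * u ^ 2 = (((k + 1 : ℕ) : ℝ)) ^ 2 * u ^ 2 * ((2 : ℝ) ^ (k + 1) * (1 / 2 : ℝ) ^ (k + 1)) := by rw [this, mul_one]
          _ = _ := by ring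
    _ ≤ _ := by gcongr

lemma lf_any {k : ℕ} (c h : Fin k → ℤ) (p : ℕ) (hp : p.Prime) (hr : rho c h p ≤ k) : |lf c h p - 1| ≤ CK k / p := by
  have hp2 : (2 : ℝ) ≤ p := by exact_mod_cast hp.two_le
  have hp0 : (0 : ℝ) < p := by linarith
  obtain ⟨u, hu⟩ : ∃ u, u = 1 / (p : ℝ) := ⟨_, rfl⟩
  have hu0 : 0 ≤ u := by rw [hu]; positivity
  have hu2 : u ≤ 1 / 2 := by
    rw [hu]
    exact one_div_le_one_div_of_le (by norm_num) hp2
  have h1u : 0 < 1 - u := by linarith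
  have hf := fac_mem c h p hp
  have hpow : 0 < (1 - u) ^ k := by positivity
  have hpow1 : (1 - u) ^ k ≤ 1 := pow_le_one₀ h1u.le (by linarith)
  have h5 := pow_bound' k u (by linarith)
  have h6 : (1 / 2 : ℝ) ^ k ≤ (1 - u) ^ k := pow_le_pow_left₀ (by norm_num) (by linarith) _
  have h7 : ((1 - u)⁻¹) ^ k ≤ 1 + k * u * 2 ^ k := by
    rw [inv_pow, inv_le_iff_one_le_mul₀ hpow]
    have h8 : (1 : ℝ) ≤ 2 ^ k * (1 - u) ^ k := by
      calc (1 : ℝ) = 2 ^ k * (1 / 2 : ℝ) ^ k := by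
            rw [← mul_pow]
            norm_num
        _ ≤ _ := by gcongr
    have h9 : 0 ≤ k * u := by positivity
    nlinarith
  have h8 : 1 ≤ ((1 - u)⁻¹) ^ k := by
    rw [inv_pow, one_le_inv₀ hpow]
    exact hpow1
  have h9 : (rho c h p : ℝ) / (p - 1) ≤ 2 * k * u := by
    have hr' : (rho c h p : ℝ) ≤ k := by exact_mod_cast hr
    rw [div_le_iff₀ (by linarith), hu]
    have : (1 : ℝ) ≤ 2 * (1 / (p : ℝ)) * (p - 1) := by
      field_simp
      linarith
    calc (rho c h p : ℝ) ≤ k * 1 := by linarith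
      _ ≤ k * (2 * (1 / (p : ℝ)) * (p - 1)) := by gcongr
      _ = _ := by ring
  have h10 : CK k / p = CK k * u := by rw [hu]; ring
  have hC1 : (k : ℝ) * u * 2 ^ k ≤ CK k * u := by
    unfold CK
    have h11 : (k : ℝ) * 2 ^ k ≤ ((k : ℝ) + 1) ^ 2 * 2 ^ (k + 1) := by
      have h12 : (2 : ℝ) ^ k ≤ 2 ^ (k + 1) := pow_le_pow_right₀ (by norm_num) (by omega)
      have h13 : (k : ℝ) ≤ ((k : ℝ) + 1) ^ 2 := by
        have : (0 : ℝ) ≤ k := Nat.cast_nonneg _
        nlinarith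
      gcongr
    calc (k : ℝ) * u * 2 ^ k = (k : ℝ) * 2 ^ k * u := by ring
      _ ≤ _ := by gcongr
  have hC2 : 2 * (k : ℝ) * u ≤ CK k * u := by
    unfold CK
    have h12 : (1 : ℝ) ≤ 2 ^ (k + 1) := one_le_pow₀ (by norm_num)
    have h13 : 2 * (k : ℝ) ≤ ((k : ℝ) + 1) ^ 2 := by
      have : (0 : ℝ) ≤ k := Nat.cast_nonneg _
      nlinarith [sq_nonneg ((k : ℝ) - 1)]
    have h14 : 2 * (k : ℝ) ≤ ((k : ℝ) + 1) ^ 2 * 2 ^ (k + 1) := by
      have : 0 ≤ ((k : ℝ) + 1) ^ 2 := by positivity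
      nlinarith
    gcongr
  unfold lf
  rw [← hu, h10, abs_le]
  constructor
  · have : (1 - (rho c h p : ℝ) / (p - 1)) * 1 ≤ (1 - (rho c h p : ℝ) / (p - 1)) * ((1 - u)⁻¹) ^ k :=
      mul_le_mul_of_nonneg_left h8 hf.1
    linarith
  · have : (1 - (rho c h p : ℝ) / (p - 1)) * ((1 - u)⁻¹) ^ k ≤ 1 * ((1 - u)⁻¹) ^ k :=
      mul_le_mul_of_nonneg_right hf.2 (by linarith)
    linarith

/-- `∑_{z < n ≤ y} 1 / n ^ 2 ≤ 1 / z` -/
lemma sum_sq_tail (z y : ℕ) (hz : 1 ≤ z) : ∑ n ∈ Ioc z y, 1 / (n : ℝ) ^ 2 ≤ 1 / (z : ℝ) := by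
  have h1 : ∀ y : ℕ, z ≤ y → ∑ n ∈ Ioc z y, 1 / (n : ℝ) ^ 2 ≤ 1 / (z : ℝ) - 1 / (y : ℝ) := by
    intro y hy
    induction y, hy using Nat.le_induction with
    | base => simp
    | succ y hy ih =>
      have e1 : Ioc z (y + 1) = insert (y + 1) (Ioc z y) := by
        ext x
        rw [mem_insert, mem_Ioc, mem_Ioc]
        omega
      rw [e1, sum_insert (by rw [mem_Ioc]; omega)]
      have hy0 : (0 : ℝ) < y := by exact_mod_cast (by omega : 0 < y)
      have h2 : 1 / ((y + 1 : ℕ) : ℝ) ^ 2 ≤ 1 / (y : ℝ) - 1 / ((y + 1 : ℕ) : ℝ) := by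
        push_cast
        rw [div_sub_div _ _ hy0.ne' (by positivity), div_le_div_iff₀ (by positivity) (by positivity)]
        nlinarith
      linarith
  rcases le_or_gt z y with h | h
  · refine (h1 y h).trans ?_
    have : (0 : ℝ) ≤ 1 / (y : ℝ) := by positivity
    linarith
  · rw [Ioc_eq_empty (by omega), sum_empty]
    positivity

open Classical in
theorem tail {k : ℕ} (c : Fin k → ℤ) (hc : ∀ i, c i ≠ 0) (z : ℕ) (hz : 2 ≤ z) (hcz : ∀ i, (c i).natAbs ≤ z) (h : Fin k → ℤ)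
    (M : ℝ) (hM : ∀ y, (((Ioc z y).filter (fun p => p.Prime ∧ Bd c h p)).card : ℝ) ≤ M) :
    Multipliable (fun p : ℕ => if p.Prime then lf c h p else 1) ∧
    |singT c h - ∏ p ∈ pz z, lf c h p| ≤ (∏ p ∈ pz z, |lf c h p|) * (Real.exp (CK k * (1 + M) / z) - 1) := by
  obtain ⟨a, ha⟩ : ∃ a : ℕ → ℝ, a = fun n => if n.Prime then lf c h n - 1 else 0 := ⟨_, rfl⟩
  have hfa : (fun p : ℕ => if p.Prime then lf c h p else 1) = fun n => 1 + a n := by
    funext n
    rw [ha]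
    simp only
    split_ifs <;> ring
  have hz0 : (0 : ℝ) < z := by exact_mod_cast (by omega : 0 < z)
  have hz1 : (1 : ℝ) ≤ z := by exact_mod_cast (by omega : 1 ≤ z)
  have hCK := CK_pos k
  have hM0 : 0 ≤ M := (Nat.cast_nonneg _).trans (hM 0)
  -- tail of the sum
  have htail : ∀ y, ∑ n ∈ Ioc z y, |a n| ≤ CK k * (1 + M) / z := by
    intro y
    have h1 : ∀ n ∈ Ioc z y, |a n| ≤ CK k * (1 / (n : ℝ) ^ 2) + (if n.Prime ∧ Bd c h n then CK k / z else 0) := by
      intro n hn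
      rw [mem_Ioc] at hn
      rw [ha]
      simp only
      by_cases hp : n.Prime
      · rw [if_pos hp]
        have hcn : ∀ i, ¬ (n : ℤ) ∣ c i := by
          intro i hd
          have h2 : n ≤ (c i).natAbs := Nat.le_of_dvd (Int.natAbs_pos.2 (hc i)) (Int.natCast_dvd.1 hd)
          have := hcz i
          omega
        by_cases hB : Bd c h n
        · rw [if_pos ⟨hp, hB⟩]
          have h3 := lf_any c h n hp (rho_card c h n hp hcn)
          have h4 : CK k / n ≤ CK k / z := by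
            apply div_le_div_of_nonneg_left hCK.le hz0
            exact_mod_cast hn.1.le
          have : 0 ≤ CK k * (1 / (n : ℝ) ^ 2) := by positivity
          linarith
        · rw [if_neg (fun h => hB h.2), add_zero, mul_one_div]
          exact lf_good c h n hp (rho_eq c h n hp hcn hB)
      · rw [if_neg hp, if_neg (fun h => hp h.1), abs_zero]
        positivity
    refine (sum_le_sum h1).trans ?_
    rw [sum_add_distrib, ← mul_sum, ← sum_filter, sum_const, nsmul_eq_mul]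
    have h2 := sum_sq_tail z y (by omega)
    have h3 := hM y
    calc CK k * ∑ n ∈ Ioc z y, 1 / (n : ℝ) ^ 2 + (((Ioc z y).filter (fun p => p.Prime ∧ Bd c h p)).card : ℝ) * (CK k / z)
        ≤ CK k * (1 / z) + M * (CK k / z) := by gcongr
      _ = _ := by ring
  have hsummable : Summable fun n => ‖a n‖ := by
    apply summable_of_sum_range_le (c := ∑ n ∈ range (z + 1), |a n| + CK k * (1 + M) / z) (fun n => norm_nonneg _)
    intro n
    simp only [Real.norm_eq_abs]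
    have h1 : range n ⊆ range (z + 1) ∪ Ioc z n := by
      intro x hx
      rw [mem_range] at hx
      rw [mem_union, mem_range, mem_Ioc]
      omega
    have h2 : Disjoint (range (z + 1)) (Ioc z n) := by
      rw [Finset.disjoint_left]
      intro x hx hx'
      rw [mem_range] at hx
      rw [mem_Ioc] at hx'
      omega
    calc ∑ i ∈ range n, |a i| ≤ ∑ i ∈ range (z + 1) ∪ Ioc z n, |a i| :=
          sum_le_sum_of_subset_of_nonneg h1 (fun _ _ _ => abs_nonneg _)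
      _ = ∑ i ∈ range (z + 1), |a i| + ∑ i ∈ Ioc z n, |a i| := sum_union h2
      _ ≤ _ := add_le_add le_rfl (htail n)
  have hmul : Multipliable (fun p : ℕ => if p.Prime then lf c h p else 1) := by
    rw [hfa]
    exact multipliable_one_add_of_summable hsummable
  refine ⟨hmul, ?_⟩
  have hlim := hmul.hasProd.tendsto_prod_nat
  have hP : ∏ p ∈ pz z, lf c h p = ∏ n ∈ range (z + 1), (if n.Prime then lf c h n else 1) := by
    rw [← prod_filter]
    apply prod_congr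
    · ext p
      rw [mem_pz, mem_filter, mem_range]
      constructor
      · rintro ⟨h1, h2⟩
        exact ⟨by omega, h2⟩
      · rintro ⟨h1, h2⟩
        exact ⟨by omega, h2⟩
    · intro _ _
      rfl
  have hPa : ∏ p ∈ pz z, |lf c h p| = |∏ p ∈ pz z, lf c h p| := (abs_prod _ _).symm
  have hbd : ∀ᶠ n in atTop, |∏ i ∈ range n, (if i.Prime then lf c h i else 1) - ∏ p ∈ pz z, lf c h p| ≤
      (∏ p ∈ pz z, |lf c h p|) * (Real.exp (CK k * (1 + M) / z) - 1) := by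
    filter_upwards [eventually_ge_atTop (z + 1)] with n hn
    have h1 : ∏ i ∈ range n, (if i.Prime then lf c h i else 1) =
        (∏ p ∈ pz z, lf c h p) * ∏ i ∈ Ioc z (n - 1), (1 + a i) := by
      rw [hP]
      have e1 : range n = range (z + 1) ∪ Ioc z (n - 1) := by
        ext x
        rw [mem_union, mem_range, mem_range, mem_Ioc]
        omega
      have e2 : Disjoint (range (z + 1)) (Ioc z (n - 1)) := by
        rw [Finset.disjoint_left]
        intro x hx hx'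
        rw [mem_range] at hx
        rw [mem_Ioc] at hx'
        omega
      rw [e1, prod_union e2]
      congr 1
      apply prod_congr rfl
      intro i _
      exact congrFun hfa i
    have h2 := Finset.norm_prod_one_add_sub_one_le (Ioc z (n - 1)) a
    rw [Real.norm_eq_abs] at h2
    have h3 : Real.exp (∑ i ∈ Ioc z (n - 1), ‖a i‖) ≤ Real.exp (CK k * (1 + M) / z) := by
      apply Real.exp_le_exp.2
      simp only [Real.norm_eq_abs]
      exact htail (n - 1)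
    rw [h1, hPa]
    have e3 : (∏ p ∈ pz z, lf c h p) * ∏ i ∈ Ioc z (n - 1), (1 + a i) - ∏ p ∈ pz z, lf c h p =
        (∏ p ∈ pz z, lf c h p) * (∏ i ∈ Ioc z (n - 1), (1 + a i) - 1) := by ring
    rw [e3, abs_mul]
    apply mul_le_mul_of_nonneg_left _ (abs_nonneg _)
    linarith
  have hlim2 : Tendsto (fun n => |∏ i ∈ range n, (if i.Prime then lf c h i else 1) - ∏ p ∈ pz z, lf c h p|) atTop
      (𝓝 |singT c h - ∏ p ∈ pz z, lf c h p|) := (hlim.sub_const _).abs
  exact le_of_tendsto hlim2 hbd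

end Pool.Agent.H561.E2
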