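import Pool.Agent.H561.E2.M5
import Pool.Agent.H561.E2.A9
import Pool.Graph.R_seed8.H807R2.Dav1

set_option autoImplicit false

/-! The main term at the scale of a power of the logarithm. -/

namespace Pool.Agent.H561.E2

open Finset Filter Topology
open Pool.Agent.helper24_UT
open Pool.Agent.H373R2.T7 (pz mem_pz rhoA PerA rhoA_le sys_main Vz Vz_pos Vz_inv_small)

lemma prod_diff {ι : Type*} (s : Finset ι) (a b : ι → ℝ) (W : ℝ) (hW : 1 ≤ W) (ha : ∀ i ∈ s, |a i| ≤ W) (hb : ∀ i ∈ s, |b i| ≤ W) :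
    |∏ i ∈ s, a i - ∏ i ∈ s, b i| ≤ W ^ s.card * ∑ i ∈ s, |a i - b i| := by
  classical
  induction s using Finset.induction_on with
  | empty => simp
  | insert x s hx ih =>
    rw [prod_insert hx, prod_insert hx, sum_insert hx, card_insert_of_notMem hx]
    have h1 := ih (fun i hi => ha i (mem_insert_of_mem hi)) (fun i hi => hb i (mem_insert_of_mem hi))
    have hW0 : 0 ≤ W := by linarith
    have h2 : |∏ i ∈ s, a i| ≤ W ^ s.card := by
      rw [abs_prod]
      calc ∏ i ∈ s, |a i| ≤ ∏ _i ∈ s, W := prod_le_prod (fun _ _ => abs_nonneg _) (fun i hi => ha i (mem_insert_of_mem hi))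
        _ = W ^ s.card := by rw [prod_const]
    have h3 : W ^ s.card ≤ W ^ (s.card + 1) := pow_le_pow_right₀ hW (by omega)
    have e1 : a x * ∏ i ∈ s, a i - b x * ∏ i ∈ s, b i = (a x - b x) * ∏ i ∈ s, a i + b x * (∏ i ∈ s, a i - ∏ i ∈ s, b i) := by ring
    rw [e1]
    refine (abs_add_le _ _).trans ?_
    rw [abs_mul, abs_mul]
    have hbx := hb x (mem_insert_self _ _)
    have hs0 : 0 ≤ ∑ i ∈ s, |a i - b i| := sum_nonneg fun _ _ => abs_nonneg _
    calc |a x - b x| * |∏ i ∈ s, a i| + |b x| * |∏ i ∈ s, a i - ∏ i ∈ s, b i|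
        ≤ |a x - b x| * W ^ (s.card + 1) + W * (W ^ s.card * ∑ i ∈ s, |a i - b i|) := by
          apply add_le_add
          · exact mul_le_mul_of_nonneg_left (h2.trans h3) (abs_nonneg _)
          · exact mul_le_mul hbx h1 (abs_nonneg _) hW0
      _ = _ := by ring

/-- few prime divisors -/
lemma few (T : Finset ℕ) (hT : ∀ p ∈ T, p.Prime) (m : ℤ) (hm : m ≠ 0) (ℓ : ℝ) (X : ℕ) (hℓ : ℓ = Real.log X) (hmX : |m| ≤ (X : ℤ) ^ 3) :
    ((T.filter (fun p : ℕ => (p : ℤ) ∣ m)).card : ℝ) ≤ 6 * ℓ := by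
  have h1 : T.filter (fun p : ℕ => (p : ℤ) ∣ m) = T.filter (fun p : ℕ => p ∣ m.natAbs) := by
    apply filter_congr
    intro p _
    exact Int.natCast_dvd
  rw [h1]
  have h2 : m.natAbs ≠ 0 := Int.natAbs_ne_zero.2 hm
  refine (card_dvd_le T hT m.natAbs h2).trans ?_
  have h3 : m.natAbs ≤ X ^ 3 := by
    have : (m.natAbs : ℤ) ≤ ((X ^ 3 : ℕ) : ℤ) := by
      rw [Int.natCast_natAbs]
      push_cast
      exact hmX
    exact_mod_cast this
  have h4 : Real.log m.natAbs ≤ 3 * ℓ := by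
    rw [hℓ]
    have h5 : Real.log (m.natAbs : ℝ) ≤ Real.log ((X : ℝ) ^ 3) := by
      apply Real.log_le_log
      · exact_mod_cast Nat.pos_of_ne_zero h2
      · exact_mod_cast h3
    rw [Real.log_pow] at h5
    push_cast at h5
    exact h5
  linarith

/-- the numbers of the exceptional primes -/
lemma bad_primes {k : ℕ} (c h : Fin k → ℤ) (z : ℕ) (ℓ : ℝ) (X : ℕ) (hℓ : ℓ = Real.log X) (hℓ0 : 0 ≤ ℓ)
    (hh : ∀ i, h i ≠ 0 ∧ |h i| ≤ (X : ℤ) ^ 3) (hD : ∀ i j, i ≠ j → DD c h i j ≠ 0 ∧ |DD c h i j| ≤ (X : ℤ) ^ 3) (y : ℕ)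
    [DecidablePred fun p : ℕ => p.Prime ∧ Bd c h p] :
    (((Ioc z y).filter (fun p : ℕ => p.Prime ∧ Bd c h p)).card : ℝ) ≤ (k + k ^ 2) * (6 * ℓ) := by
  classical
  obtain ⟨T, hT⟩ : ∃ T, T = (Ioc z y).filter (fun p : ℕ => p.Prime) := ⟨_, rfl⟩
  have hTp : ∀ p ∈ T, p.Prime := by
    intro p hp
    rw [hT, mem_filter] at hp
    exact hp.2
  have h1 : (Ioc z y).filter (fun p : ℕ => p.Prime ∧ Bd c h p) ⊆
      (univ : Finset (Fin k)).biUnion (fun i => T.filter (fun p : ℕ => (p : ℤ) ∣ h i)) ∪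
      (univ : Finset (Fin k)).biUnion (fun i => (univ.erase i).biUnion (fun j => T.filter (fun p : ℕ => (p : ℤ) ∣ DD c h i j))) := by
    intro p hp
    rw [mem_filter] at hp
    have hpT : p ∈ T := by rw [hT, mem_filter]; exact ⟨hp.1, hp.2.1⟩
    rw [mem_union]
    rcases hp.2.2 with ⟨i, hi⟩ | ⟨i, j, hij, hd⟩
    · left
      rw [mem_biUnion]
      exact ⟨i, mem_univ _, mem_filter.2 ⟨hpT, hi⟩⟩
    · right
      rw [mem_biUnion]
      refine ⟨i, mem_univ _, ?_⟩
      rw [mem_biUnion]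
      exact ⟨j, mem_erase.2 ⟨hij.symm, mem_univ _⟩, mem_filter.2 ⟨hpT, hd⟩⟩
  have h2 : (((univ : Finset (Fin k)).biUnion (fun i => T.filter (fun p : ℕ => (p : ℤ) ∣ h i))).card : ℝ) ≤ k * (6 * ℓ) := by
    have h3 : (((univ : Finset (Fin k)).biUnion (fun i => T.filter (fun p : ℕ => (p : ℤ) ∣ h i))).card : ℝ) ≤
        ∑ i : Fin k, ((T.filter (fun p : ℕ => (p : ℤ) ∣ h i)).card : ℝ) := by exact_mod_cast card_biUnion_le
    refine h3.trans ?_
    have h4 := sum_le_card_nsmul (univ : Finset (Fin k)) (fun i => ((T.filter (fun p : ℕ => (p : ℤ) ∣ h i)).card : ℝ)) (6 * ℓ)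
      (fun i _ => few T hTp (h i) (hh i).1 ℓ X hℓ (hh i).2)
    rwa [card_univ, Fintype.card_fin, nsmul_eq_mul] at h4
  have h3 : (((univ : Finset (Fin k)).biUnion (fun i => (univ.erase i).biUnion (fun j => T.filter (fun p : ℕ => (p : ℤ) ∣ DD c h i j)))).card : ℝ) ≤
      k ^ 2 * (6 * ℓ) := by
    have h4 : (((univ : Finset (Fin k)).biUnion (fun i => (univ.erase i).biUnion (fun j => T.filter (fun p : ℕ => (p : ℤ) ∣ DD c h i j)))).card : ℝ) ≤
        ∑ i : Fin k, ∑ j ∈ univ.erase i, ((T.filter (fun p : ℕ => (p : ℤ) ∣ DD c h i j)).card : ℝ) := by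
      have h5 : ((univ : Finset (Fin k)).biUnion (fun i => (univ.erase i).biUnion (fun j => T.filter (fun p : ℕ => (p : ℤ) ∣ DD c h i j)))).card ≤
          ∑ i : Fin k, ∑ j ∈ univ.erase i, (T.filter (fun p : ℕ => (p : ℤ) ∣ DD c h i j)).card :=
        card_biUnion_le.trans (sum_le_sum fun i _ => card_biUnion_le)
      exact_mod_cast h5
    refine h4.trans ?_
    have h5 : ∀ i ∈ (univ : Finset (Fin k)), ∑ j ∈ univ.erase i, ((T.filter (fun p : ℕ => (p : ℤ) ∣ DD c h i j)).card : ℝ) ≤ k * (6 * ℓ) := by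
      intro i _
      have h6 := sum_le_card_nsmul (univ.erase i) (fun j => ((T.filter (fun p : ℕ => (p : ℤ) ∣ DD c h i j)).card : ℝ)) (6 * ℓ)
        (fun j hj => by
          rw [mem_erase] at hj
          exact few T hTp _ (hD i j hj.1.symm).1 ℓ X hℓ (hD i j hj.1.symm).2)
      rw [nsmul_eq_mul] at h6
      refine h6.trans ?_
      apply mul_le_mul_of_nonneg_right _ (by positivity)
      have : (univ.erase i).card ≤ k := (card_le_card (erase_subset _ _)).trans (by rw [card_univ, Fintype.card_fin])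
      exact_mod_cast this
    refine (sum_le_card_nsmul _ _ _ h5).trans (le_of_eq ?_)
    rw [card_univ, Fintype.card_fin, nsmul_eq_mul]
    ring
  have h4 := (card_le_card h1).trans (card_union_le _ _)
  have h5 : (((Ioc z y).filter (fun p : ℕ => p.Prime ∧ Bd c h p)).card : ℝ) ≤
      (((univ : Finset (Fin k)).biUnion (fun i => T.filter (fun p : ℕ => (p : ℤ) ∣ h i))).card : ℝ) +
      (((univ : Finset (Fin k)).biUnion (fun i => (univ.erase i).biUnion (fun j => T.filter (fun p : ℕ => (p : ℤ) ∣ DD c h i j)))).card : ℝ) := by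
    exact_mod_cast h4
  nlinarith

/-- the sum of the reciprocals of the small primes -/
lemma sum_S (S : Finset ℕ) (z' : ℕ) (hS : ∀ p ∈ S, 2 ≤ p ∧ p ≤ z') : ∑ p ∈ S, 1 / ((p : ℝ) - 1) ≤ 2 * (1 + Real.log (z' + 1 : ℕ)) := by
  have h1 : ∀ p ∈ S, 1 / ((p : ℝ) - 1) ≤ 2 * (1 / (p : ℝ)) := by
    intro p hp
    have h2 : (2 : ℝ) ≤ p := by exact_mod_cast (hS p hp).1
    rw [mul_one_div, div_le_div_iff₀ (by linarith) (by linarith)]
    linarith
  refine (sum_le_sum h1).trans ?_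
  rw [← mul_sum]
  apply mul_le_mul_of_nonneg_left _ (by norm_num)
  refine le_trans ?_ (Pool.Agent.H807R2.Dav.sum_inv_range (z' + 1))
  apply sum_le_sum_of_subset_of_nonneg
  · intro p hp
    rw [mem_range]
    have := (hS p hp).2
    omega
  · intro _ _ _
    positivity

end Pool.Agent.H561.E2
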