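import Pool.Agent.H561.E2.N1

set_option autoImplicit false

/-! The main term at the scale of a power of the logarithm: error terms. -/

namespace Pool.Agent.H561.E2

open Finset Filter Topology
open Pool.Agent.helper24_UT
open Pool.Agent.H373R2.T7 (pz mem_pz rhoA PerA rhoA_le sys_main Vz Vz_pos Vz_inv_small)

lemma om_card {k : ℕ} (c h : Fin k → ℤ) (S : Fin k → Finset ℕ) (i : Fin k) (n : ℕ) :
    om c h S i n = (((S i).filter (fun p : ℕ => (p : ℤ) ∣ LFo c h i n)).card : ℝ) := by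
  unfold om
  rw [← sum_filter, sum_const, nsmul_eq_mul, mul_one]

lemma xg_le' (p : ℕ) (h : ℤ) (hp : 2 ≤ p) : xg p h ≤ 1 / ((p : ℝ) - 1) := by
  have h2 : (2 : ℝ) ≤ p := by exact_mod_cast hp
  unfold xg
  split_ifs
  · exact div_nonneg zero_le_one (by linarith)
  · exact le_rfl

lemma card_S (S : Finset ℕ) (y : ℝ) (hy : 0 ≤ y) (hS : ∀ p ∈ S, 1 ≤ p ∧ (p : ℝ) ≤ y) : (S.card : ℝ) ≤ y := by
  have h1 : S ⊆ Ioc 0 ⌊y⌋₊ := by
    intro p hp
    rw [mem_Ioc]
    exact ⟨(hS p hp).1, Nat.le_floor (hS p hp).2⟩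
  have h2 := card_le_card h1
  rw [Nat.card_Ioc, Nat.sub_zero] at h2
  calc (S.card : ℝ) ≤ (⌊y⌋₊ : ℝ) := by exact_mod_cast h2
    _ ≤ y := Nat.floor_le hy

theorem err_sum {k : ℕ} (c : Fin k → ℤ) (hc : ∀ i, c i ≠ 0) (A : ℕ) : ∃ a₀ : ℕ, ∀ a : ℕ, a₀ ≤ a → ∀ E : ℕ, ∃ X₀ : ℕ, ∀ X : ℕ, X₀ ≤ X →
    ∀ z : ℕ, 2 ≤ z → (z : ℝ) ≤ (Real.log X) ^ a → ∀ S : Fin k → Finset ℕ,
    (∀ i, ∀ p ∈ S i, p.Prime ∧ (Real.log X) ^ a < p ∧ (p : ℝ) ≤ (Real.log X) ^ E) → ∀ h : Fin k → ℤ, (∀ i, |h i| ≤ (X : ℤ) ^ 2) →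
    (∀ i j, i ≠ j → DD c h i j ≠ 0) → (∀ i, ∑ p ∈ S i, xg p (h i) ≤ 6 * Real.log X) ∧ ∀ N : ℕ, N ≤ X →
    |∑ n ∈ Icc 1 N, ArithmeticFunction.vonMangoldt n * (rough c h z n * ∏ i, om c h S i n) -
      N * (∏ p ∈ pz z, (1 - (rho c h p : ℝ) / (p - 1 : ℝ))) * ∏ i, ∑ p ∈ S i, xg p (h i)| ≤ X / (Real.log X) ^ A := by
  classical
  refine ⟨A + k + 4, fun a ha E => ?_⟩
  obtain ⟨E', hE'⟩ : ∃ E', E' = max a E := ⟨_, rfl⟩
  obtain ⟨V, hV⟩ : ∃ V, V = E * k + A + 2 := ⟨_, rfl⟩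
  obtain ⟨N0, hmain⟩ := main_sum c hc (2 * E') V
  obtain ⟨T, hT⟩ : ∃ T, T = A + k + 5 := ⟨_, rfl⟩
  obtain ⟨Cc, hCc⟩ : ∃ Cc : ℝ, Cc = 1000 + 4 * (2 : ℝ) ^ (k + V) + 12 * (k : ℝ) ^ 2 * 6 ^ (k + 1) + 8 * (k : ℝ) ^ 2 * 6 ^ k + 2 * 6 ^ k +
    2 * ((∏ i, (c i).natAbs : ℕ) : ℝ) := ⟨_, rfl⟩
  obtain ⟨X₁, hX₁⟩ := Filter.eventually_atTop.1 ((Sil2.ev_log Cc).and ((Sil2.ev_pow T (1 / 2) 1 (by norm_num)).and
    ((Sil2.ev_pow E' (1 / 2) 2 (by norm_num)).and (Sil2.ev_pow 1 1 2 (by norm_num)))))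
  refine ⟨max X₁ (N0 ^ 2 + 3), fun X hX z hz hza S hS h hh hD => ?_⟩
  obtain ⟨hL, c1, c2, c3⟩ := hX₁ X ((le_max_left _ _).trans hX)
  have hX0 : N0 ^ 2 + 3 ≤ X := (le_max_right _ _).trans hX
  obtain ⟨L, hLd⟩ : ∃ L, L = Real.log (X : ℝ) := ⟨_, rfl⟩
  rw [← hLd] at hL c1 c2 c3 hza hS ⊢
  have hk2 : (0 : ℝ) ≤ (k : ℝ) ^ 2 * 6 ^ (k + 1) := by positivity
  have hk3 : (0 : ℝ) ≤ (k : ℝ) ^ 2 * 6 ^ k := by positivity
  have hprodc : (0 : ℝ) ≤ ((∏ i, (c i).natAbs : ℕ) : ℝ) := Nat.cast_nonneg _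
  have h2kV : (0 : ℝ) < 2 ^ (k + V) := by positivity
  have h6k : (0 : ℝ) < 6 ^ k := by positivity
  have hL1000 : 1000 ≤ L := by rw [hCc] at hL; linarith
  have hL1 : 1 ≤ L := by linarith
  have hL0 : 0 < L := by linarith
  have hXR : (3 : ℝ) ≤ X := by exact_mod_cast (by omega : 3 ≤ X)
  have hX0' : (0 : ℝ) < X := lt_of_lt_of_le (by norm_num) hXR
  rw [one_mul, ← Real.sqrt_eq_rpow] at c1
  rw [← Real.sqrt_eq_rpow] at c2
  rw [Real.rpow_one, pow_one] at c3
  have hss : √(X : ℝ) * √(X : ℝ) = X := Real.mul_self_sqrt hX0'.le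
  have hs0 : 0 < √(X : ℝ) := Real.sqrt_pos.2 hX0'
  have hs1 : 1 ≤ √(X : ℝ) := (one_le_pow₀ hL1).trans c1
  have hLa : (2 : ℝ) ≤ L ^ a := by
    have : L ≤ L ^ a := le_self_pow₀ hL1 (by omega)
    linarith
  have hLa0 : 0 < L ^ a := by linarith
  -- sizes of the coefficients
  have hcX : ∀ i, (c i).natAbs * 2 ≤ X ∧ ((c i).natAbs : ℝ) < L := by
    intro i
    have h1 := natAbs_le_bigc c hc i
    have h2 : ((c i).natAbs : ℝ) ≤ ((∏ i, (c i).natAbs : ℕ) : ℝ) := by exact_mod_cast h1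
    have h3 : 2 * ((c i).natAbs : ℝ) ≤ L := by rw [hCc] at hL; linarith
    have h4 : 2 * ((c i).natAbs : ℝ) ≤ X := by linarith
    constructor
    · have : ((c i).natAbs : ℝ) * 2 ≤ X := by linarith
      exact_mod_cast this
    · have h5 : (0 : ℝ) ≤ ((c i).natAbs : ℝ) := Nat.cast_nonneg _
      rw [hCc] at hL
      linarith
  have hcabs : ∀ i, |c i| * 2 ≤ (X : ℤ) := by
    intro i
    rw [Int.abs_eq_natAbs]
    exact_mod_cast (hcX i).1
  have hX3Z : (3 : ℤ) ≤ X := by exact_mod_cast (by omega : 3 ≤ X)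
  have hLFo : ∀ i, ∀ n : ℕ, n ≤ X → |LFo c h i n| ≤ (X : ℤ) ^ 3 := by
    intro i n hn
    unfold LFo
    have hnX : (n : ℤ) ≤ X := by exact_mod_cast hn
    have h1 : |c i * (n : ℤ)| ≤ X * X := by
      rw [abs_mul, Nat.abs_cast]
      have h3 : |c i| ≤ X := by
        have := hcabs i
        have := abs_nonneg (c i)
        linarith
      exact mul_le_mul h3 hnX (Int.natCast_nonneg n) (by linarith)
    refine (abs_add_le _ _).trans ?_
    have h2 := hh i
    nlinarith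
  have hDb : ∀ i j, i ≠ j → DD c h i j ≠ 0 ∧ |DD c h i j| ≤ (X : ℤ) ^ 3 := by
    intro i j hij
    refine ⟨hD i j hij, ?_⟩
    unfold DD
    have h1 : |c j * h i| * 2 ≤ (X : ℤ) ^ 3 := by
      rw [abs_mul]
      have := mul_le_mul (hcabs j) (hh i) (abs_nonneg _) (by linarith)
      nlinarith
    have h2 : |c i * h j| * 2 ≤ (X : ℤ) ^ 3 := by
      rw [abs_mul]
      have := mul_le_mul (hcabs i) (hh j) (abs_nonneg _) (by linarith)
      nlinarith
    refine (abs_sub _ _).trans ?_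
    linarith
  obtain ⟨z', hz'⟩ : ∃ z', z' = max z ⌊L ^ E⌋₊ := ⟨_, rfl⟩
  have hzz : z ≤ z' := by rw [hz']; exact le_max_left _ _
  have hz'E : (z' : ℝ) ≤ L ^ E' := by
    rw [hz', Nat.cast_max]
    apply max_le
    · exact hza.trans (pow_le_pow_right₀ hL1 (by rw [hE']; exact le_max_left _ _))
    · exact (Nat.floor_le (by positivity)).trans (pow_le_pow_right₀ hL1 (by rw [hE']; exact le_max_right _ _))
  have hSz : ∀ i, ∀ p ∈ S i, 2 ≤ p ∧ p ≤ z' := by
    intro i p hp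
    refine ⟨(hS i p hp).1.two_le, ?_⟩
    rw [hz']
    exact (Nat.le_floor (hS i p hp).2.2).trans (le_max_right _ _)
  have hσ : ∀ i, ∑ p ∈ S i, xg p (h i) ≤ 6 * L := by
    intro i
    have h1 : ∑ p ∈ S i, xg p (h i) ≤ ∑ p ∈ S i, 1 / ((p : ℝ) - 1) := sum_le_sum fun p hp => xg_le' p (h i) (hSz i p hp).1
    have h2 := sum_S (S i) z' (hSz i)
    have h3 : Real.log ((z' + 1 : ℕ) : ℝ) ≤ L := by
      rw [hLd]
      apply Real.log_le_log (by positivity)
      push_cast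
      have h4 : (z' : ℝ) ≤ √X := by
        have : 0 ≤ L ^ E' := by positivity
        linarith
      nlinarith
    linarith
  refine ⟨hσ, fun N hNX => ?_⟩
  have hNXr : (N : ℝ) ≤ X := by exact_mod_cast hNX
  have hN0r : (0 : ℝ) ≤ N := Nat.cast_nonneg _
  have hω : ∀ i, ∀ n ∈ Icc 1 N, LFo c h i n ≠ 0 → om c h S i n ≤ 6 * L := by
    intro i n hn hne
    rw [mem_Icc] at hn
    rw [om_card]
    exact few (S i) (fun p hp => (hS i p hp).1) _ hne L X hLd (hLFo i n (by omega))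
  have hσ0 : ∀ i, 0 ≤ ∑ p ∈ S i, xg p (h i) := fun i => sum_nonneg fun p hp => xg_nonneg _ _ (by have := (hSz i p hp).1; omega)
  have hV01 : 0 ≤ ∏ p ∈ pz z, (1 - (rho c h p : ℝ) / (p - 1 : ℝ)) ∧ ∏ p ∈ pz z, (1 - (rho c h p : ℝ) / (p - 1 : ℝ)) ≤ 1 :=
    ⟨prod_nonneg fun p hp => (fac_mem c h p (mem_pz.1 hp).2).1,
      prod_le_one (fun p hp => (fac_mem c h p (mem_pz.1 hp).2).1) (fun p hp => (fac_mem c h p (mem_pz.1 hp).2).2)⟩
  have hLA : 0 < L ^ A := by positivity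
  by_cases hNs : (N : ℝ) * L ^ T < X
  · -- short sums
    have h1 : ∀ n ∈ Icc 1 N, ArithmeticFunction.vonMangoldt n * (rough c h z n * ∏ i, om c h S i n) ≤ L * (6 * L) ^ k := by
      intro n hn
      have hn' := hn
      rw [mem_Icc] at hn'
      have hΛ : ArithmeticFunction.vonMangoldt n ≤ L := by
        refine ArithmeticFunction.vonMangoldt_le_log.trans ?_
        rw [hLd]
        apply Real.log_le_log (by exact_mod_cast hn'.1)
        exact_mod_cast hn'.2.trans hNX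
      have h3 : rough c h z n * ∏ i, om c h S i n ≤ (6 * L) ^ k := by
        by_cases hr : rough c h z n = 0
        · rw [hr, zero_mul]
          positivity
        · have h5 : ∏ l, om c h S l n ≤ (6 * L) ^ k := by
            calc ∏ l, om c h S l n ≤ ∏ _l : Fin k, (6 * L) := by
                  apply prod_le_prod (fun l _ => om_nonneg c h S l n)
                  intro l _
                  exact hω l n hn (rough_ne c h z n hz hr l)
              _ = (6 * L) ^ k := by rw [prod_const, card_univ, Fintype.card_fin]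
          calc rough c h z n * ∏ i, om c h S i n ≤ 1 * ∏ i, om c h S i n :=
                mul_le_mul_of_nonneg_right (rough_le _ _ _ _) (prod_nonneg fun l _ => om_nonneg c h S l n)
            _ ≤ _ := by rw [one_mul]; exact h5
      exact mul_le_mul hΛ h3 (mul_nonneg (rough_nonneg _ _ _ _) (prod_nonneg fun l _ => om_nonneg c h S l n)) hL0.le
    have h2 : ∑ n ∈ Icc 1 N, ArithmeticFunction.vonMangoldt n * (rough c h z n * ∏ i, om c h S i n) ≤ N * (L * (6 * L) ^ k) := by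
      refine (sum_le_card_nsmul _ _ _ h1).trans ?_
      rw [nsmul_eq_mul, Nat.card_Icc, Nat.add_sub_cancel]
    have h2' : 0 ≤ ∑ n ∈ Icc 1 N, ArithmeticFunction.vonMangoldt n * (rough c h z n * ∏ i, om c h S i n) :=
      sum_nonneg fun n _ => mul_nonneg ArithmeticFunction.vonMangoldt_nonneg
        (mul_nonneg (rough_nonneg _ _ _ _) (prod_nonneg fun l _ => om_nonneg c h S l n))
    have h3 : ∏ i, ∑ p ∈ S i, xg p (h i) ≤ (6 * L) ^ k := by
      calc ∏ i, ∑ p ∈ S i, xg p (h i) ≤ ∏ _l : Fin k, (6 * L) := prod_le_prod (fun l _ => hσ0 l) (fun l _ => hσ l)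
        _ = (6 * L) ^ k := by rw [prod_const, card_univ, Fintype.card_fin]
    have h3' : 0 ≤ ∏ i, ∑ p ∈ S i, xg p (h i) := prod_nonneg fun l _ => hσ0 l
    have h4 : N * (∏ p ∈ pz z, (1 - (rho c h p : ℝ) / (p - 1 : ℝ))) * ∏ i, ∑ p ∈ S i, xg p (h i) ≤ N * (L * (6 * L) ^ k) := by
      calc N * (∏ p ∈ pz z, (1 - (rho c h p : ℝ) / (p - 1 : ℝ))) * ∏ i, ∑ p ∈ S i, xg p (h i) ≤ N * 1 * (6 * L) ^ k := by
            apply mul_le_mul _ h3 h3' (by positivity)
            exact mul_le_mul_of_nonneg_left hV01.2 hN0r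
        _ = N * (1 * (6 * L) ^ k) := by ring
        _ ≤ _ := by gcongr
    have h4' : 0 ≤ N * (∏ p ∈ pz z, (1 - (rho c h p : ℝ) / (p - 1 : ℝ))) * ∏ i, ∑ p ∈ S i, xg p (h i) :=
      mul_nonneg (mul_nonneg hN0r hV01.1) h3'
    have h5 : N * (L * (6 * L) ^ k) ≤ X / L ^ A := by
      rw [le_div_iff₀ hLA]
      have h6 : 6 ^ k ≤ L := by rw [hCc] at hL; linarith
      calc N * (L * (6 * L) ^ k) * L ^ A = N * (6 ^ k * L ^ (k + 1 + A)) := by rw [mul_pow]; ring
        _ ≤ N * (L * L ^ (k + 1 + A)) := by gcongr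
        _ = N * L ^ (k + 2 + A) := by ring
        _ ≤ N * L ^ T := by
            apply mul_le_mul_of_nonneg_left _ hN0r
            exact pow_le_pow_right₀ hL1 (by omega)
        _ ≤ X := hNs.le
    rw [abs_le]
    constructor <;> linarith
  · push Not at hNs
    have hLT : 0 < L ^ T := by positivity
    have hNsq : √(X : ℝ) ≤ N := by
      by_contra hcon
      push Not at hcon
      have : (N : ℝ) * L ^ T < √X * √X := by
        calc (N : ℝ) * L ^ T ≤ N * √X := by gcongr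
          _ < √X * √X := by gcongr
      linarith
    have hN0 : N0 ≤ N := by
      have h1 : (N0 : ℝ) ≤ √X := by
        apply Real.le_sqrt_of_sq_le
        have : N0 ^ 2 ≤ X := by omega
        exact_mod_cast this
      exact_mod_cast h1.trans hNsq
    have hlogN : L / 2 ≤ Real.log N := by
      have h1 := Real.log_le_log hs0 hNsq
      rw [Real.log_sqrt hX0'.le, ← hLd] at h1
      exact h1
    have hNpos : (0 : ℝ) < N := by linarith
    have hlogN' : Real.log N ≤ L := by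
      rw [hLd]
      exact Real.log_le_log hNpos hNXr
    have hz'N : (z' : ℝ) ≤ Real.log N ^ (2 * E') := by
      refine hz'E.trans ?_
      rw [pow_mul]
      apply pow_le_pow_left₀ hL0.le
      nlinarith
    have hm := hmain N hN0 z z' hz hzz hz'N h S (L ^ a / 2) (6 * L) (by linarith) (by linarith) (by
      intro i p hp
      obtain ⟨b1, b2, b3⟩ := hS i p hp
      refine ⟨b1, ?_, (hSz i p hp).2, ?_, by linarith⟩
      · have : (z : ℝ) < p := by linarith
        exact_mod_cast this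
      · intro hd
        have h1 : p ≤ (c i).natAbs := Nat.le_of_dvd (Int.natAbs_pos.2 (hc i)) (Int.natCast_dvd.1 hd)
        have h2 : (p : ℝ) ≤ ((c i).natAbs : ℝ) := by exact_mod_cast h1
        have h3 := (hcX i).2
        have h4 : L ≤ L ^ a := le_self_pow₀ hL1 (by omega)
        linarith) hσ (by
      intro i j hij
      exact few (S i) (fun p hp => (hS i p hp).1) _ (hDb i j hij).1 L X hLd (hDb i j hij).2) hω
    refine hm.trans ?_
    -- three error terms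
    have hcard : ∏ i, ((S i).card : ℝ) ≤ L ^ (E * k) := by
      calc ∏ i, ((S i).card : ℝ) ≤ ∏ _i : Fin k, L ^ E := by
            apply prod_le_prod (fun i _ => Nat.cast_nonneg _)
            intro i _
            exact card_S (S i) (L ^ E) (by positivity) (fun p hp => ⟨(hS i p hp).1.one_le, (hS i p hp).2.2⟩)
        _ = L ^ (E * k) := by rw [prod_const, card_univ, Fintype.card_fin, ← pow_mul]
    have hlp : (L / 2) ^ V ≤ Real.log N ^ V := pow_le_pow_left₀ (by positivity) hlogN _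
    have t1 : (∏ i, ((S i).card : ℝ)) * (2 ^ k * (N / Real.log N ^ V)) ≤ X / L ^ A * (1 / 4) := by
      calc (∏ i, ((S i).card : ℝ)) * (2 ^ k * (N / Real.log N ^ V)) ≤ L ^ (E * k) * (2 ^ k * (X / (L / 2) ^ V)) := by gcongr
        _ = X / L ^ A * (2 ^ (k + V) / L ^ 2) := by
            rw [div_pow, hV, pow_add L (E * k + A) 2, pow_add L (E * k) A]
            field_simp
            ring
        _ ≤ X / L ^ A * (1 / 4) := by
            apply mul_le_mul_of_nonneg_left _ (by positivity)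
            rw [div_le_div_iff₀ (by positivity) (by norm_num)]
            have h1 : 4 * (2 : ℝ) ^ (k + V) ≤ L := by rw [hCc] at hL; linarith
            nlinarith
    have haA : L ^ (A + k + 4) ≤ L ^ a := pow_le_pow_right₀ hL1 ha
    have t2 : (k : ℝ) ^ 2 * (Real.log N * (6 * L) ^ (k + 1) * (N / (L ^ a / 2) + 1)) ≤ X / L ^ A * (1 / 4) := by
      have h1 : (N : ℝ) / (L ^ a / 2) + 1 ≤ 3 * (X / L ^ a) := by
        have h2 : (1 : ℝ) ≤ X / L ^ a := by
          rw [le_div_iff₀ hLa0, one_mul]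
          have h3 : L ^ a ≤ L ^ E' := pow_le_pow_right₀ hL1 (by rw [hE']; exact le_max_left _ _)
          nlinarith
        have h3 : (N : ℝ) / (L ^ a / 2) ≤ 2 * (X / L ^ a) := by
          rw [div_div_eq_mul_div, mul_div_assoc']
          apply div_le_div_of_nonneg_right _ hLa0.le
          linarith
        linarith
      calc (k : ℝ) ^ 2 * (Real.log N * (6 * L) ^ (k + 1) * (N / (L ^ a / 2) + 1))
          ≤ (k : ℝ) ^ 2 * (L * (6 * L) ^ (k + 1) * (3 * (X / L ^ (A + k + 4)))) := by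
            gcongr
            refine h1.trans ?_
            gcongr
        _ = X / L ^ A * ((3 * (k : ℝ) ^ 2 * 6 ^ (k + 1)) / L ^ 2) := by
            rw [mul_pow, show L ^ (A + k + 4) = L ^ A * L ^ (k + 1) * L * L ^ 2 by ring]
            field_simp
        _ ≤ X / L ^ A * (1 / 4) := by
            apply mul_le_mul_of_nonneg_left _ (by positivity)
            rw [div_le_div_iff₀ (by positivity) (by norm_num)]
            have h3 : 12 * (k : ℝ) ^ 2 * 6 ^ (k + 1) ≤ L := by rw [hCc] at hL; linarith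
            nlinarith
    have t3 : (N : ℝ) * ((k : ℝ) ^ 2 * ((6 * L) ^ k / (L ^ a / 2))) ≤ X / L ^ A * (1 / 4) := by
      calc (N : ℝ) * ((k : ℝ) ^ 2 * ((6 * L) ^ k / (L ^ a / 2))) ≤ X * ((k : ℝ) ^ 2 * ((6 * L) ^ k / (L ^ (A + k + 4) / 2))) := by gcongr
        _ = X / L ^ A * ((2 * (k : ℝ) ^ 2 * 6 ^ k) / L ^ 4) := by
            rw [mul_pow, show L ^ (A + k + 4) = L ^ A * L ^ k * L ^ 4 by ring]
            field_simp
        _ ≤ X / L ^ A * (1 / 4) := by
            apply mul_le_mul_of_nonneg_left _ (by positivity)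
            rw [div_le_div_iff₀ (by positivity) (by norm_num)]
            have h3 : 8 * (k : ℝ) ^ 2 * 6 ^ k ≤ L := by rw [hCc] at hL; linarith
            have h4 : L ≤ L ^ 4 := le_self_pow₀ hL1 (by norm_num)
            nlinarith
    have hT0 : 0 ≤ X / L ^ A := by positivity
    linarith

end Pool.Agent.H561.E2
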