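import Pool.Agent.H561.E2.N2

set_option autoImplicit false

/-! The main term: comparison with the singular series. -/

namespace Pool.Agent.H561.E2

open Finset Filter Topology
open Pool.Agent.helper24_UT
open Pool.Agent.H373R2.T7 (pz mem_pz rhoA PerA rhoA_le sys_main Vz Vz_pos Vz_inv_small)

open Classical in
/-- the sifted number of small prime factors -/
noncomputable def bt (S : Finset ℕ) (z : ℕ) (m : ℤ) : ℝ :=
  (if ∀ p ∈ pz z, ¬ (p : ℤ) ∣ m then (Vz z)⁻¹ else 0) * ∑ p ∈ S, (if (p : ℤ) ∣ m then (1 : ℝ) else 0)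

lemma bt_prod {k : ℕ} (c h : Fin k → ℤ) (S : Fin k → Finset ℕ) (z n : ℕ) :
    ∏ i, bt (S i) z (LFo c h i n) = ((Vz z)⁻¹) ^ k * (rough c h z n * ∏ i, om c h S i n) := by
  classical
  unfold bt
  rw [prod_mul_distrib, ← mul_assoc]
  congr 1
  unfold rough
  by_cases h1 : ∀ p ∈ pz z, ∀ i, ¬ (p : ℤ) ∣ LFo c h i n
  · rw [if_pos h1, mul_one]
    rw [prod_congr rfl (fun i _ => if_pos (fun p hp => h1 p hp i))]
    rw [prod_const, card_univ, Fintype.card_fin]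
  · rw [if_neg h1, mul_zero]
    push Not at h1
    obtain ⟨p, hp, i, hi⟩ := h1
    apply prod_eq_zero (mem_univ i)
    rw [if_neg]
    push Not
    exact ⟨p, hp, hi⟩

lemma lf_prod {k : ℕ} (c h : Fin k → ℤ) (z : ℕ) :
    ∏ p ∈ pz z, lf c h p = (∏ p ∈ pz z, (1 - (rho c h p : ℝ) / (p - 1 : ℝ))) * ((Vz z)⁻¹) ^ k := by
  unfold lf Vz
  rw [prod_mul_distrib, prod_pow, ← prod_inv_distrib]

lemma lf_nonneg {k : ℕ} (c h : Fin k → ℤ) (p : ℕ) (hp : p.Prime) : 0 ≤ lf c h p := by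
  unfold lf
  have h1 := (fac_mem c h p hp).1
  have hp2 : (2 : ℝ) ≤ p := by exact_mod_cast hp.two_le
  have h2 : 0 ≤ 1 - 1 / (p : ℝ) := by
    rw [sub_nonneg, div_le_one (by linarith)]
    linarith
  positivity

lemma xg_sub (p : ℕ) (h : ℤ) (Y : ℝ) (hY : 1 ≤ Y) (hp : Y ≤ p) (hp2 : 2 ≤ p) :
    |xg p h - 1 / (p : ℝ)| ≤ 1 / Y * (if (p : ℤ) ∣ h then (1 : ℝ) else 0) + 1 / Y * xg p h := by
  have hp2r : (2 : ℝ) ≤ p := by exact_mod_cast hp2
  have hY0 : 0 < Y := by linarith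
  have hp0 : (0 : ℝ) < p := by linarith
  unfold xg
  split_ifs with hd
  · rw [zero_sub, abs_neg, abs_of_nonneg (by positivity), mul_one, mul_zero, add_zero]
    exact one_div_le_one_div_of_le hY0 hp
  · rw [mul_zero, zero_add]
    have h1 : 1 / ((p : ℝ) - 1) - 1 / p = 1 / p * (1 / ((p : ℝ) - 1)) := by
      have : (p : ℝ) - 1 ≠ 0 := by
        have : (0 : ℝ) < p - 1 := by linarith
        exact this.ne'
      field_simp
      ring
    have h2 : 0 ≤ 1 / ((p : ℝ) - 1) := div_nonneg zero_le_one (by linarith)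
    rw [h1, abs_of_nonneg (by positivity)]
    apply mul_le_mul_of_nonneg_right _ h2
    exact one_div_le_one_div_of_le hY0 hp

theorem main_term {k : ℕ} (c : Fin k → ℤ) (hc : ∀ i, c i ≠ 0) (A : ℕ) : ∃ Z₀ : ℕ, ∀ Z : ℕ, Z₀ ≤ Z → ∃ a₀ : ℕ, ∀ a : ℕ, a₀ ≤ a →
    ∀ E : ℕ, ∃ X₀ : ℕ, ∀ X : ℕ, X₀ ≤ X → ∀ z : ℕ, (Real.log X) ^ Z ≤ z → (z : ℝ) ≤ (Real.log X) ^ (Z + 1) → ∀ S : Fin k → Finset ℕ,
    (∀ i, ∀ p ∈ S i, p.Prime ∧ (Real.log X) ^ a < p ∧ (p : ℝ) ≤ (Real.log X) ^ E) → ∀ h : Fin k → ℤ,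
    (∀ i, h i ≠ 0 ∧ |h i| ≤ (X : ℤ) ^ 2) → (∀ i j, i ≠ j → DD c h i j ≠ 0) →
    Multipliable (fun p : ℕ => if p.Prime then lf c h p else 1) ∧ ∀ N₁ N₂ : ℕ, N₁ ≤ N₂ → N₂ ≤ X →
    |∑ n ∈ Ioc N₁ N₂, ArithmeticFunction.vonMangoldt n * ∏ i, bt (S i) z (LFo c h i n) -
      singT c h * (∏ i, ∑ p ∈ S i, 1 / (p : ℝ)) * ((N₂ : ℝ) - N₁)| ≤ X / (Real.log X) ^ A := by
  classical
  obtain ⟨a₁, herr⟩ := err_sum c hc (A + k + 2)
  refine ⟨A + 2 * k + 4, fun Z hZ => ⟨max a₁ (Z + A + 2 * k + 5), fun a ha E => ?_⟩⟩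
  have ha1 : a₁ ≤ a := (le_max_left _ _).trans ha
  have haZ : Z + A + 2 * k + 5 ≤ a := (le_max_right _ _).trans ha
  obtain ⟨X₂, herr⟩ := herr a ha1 E
  obtain ⟨X₃, hVinv⟩ := Vz_inv_small (Z + 1)
  obtain ⟨K1, hK1⟩ : ∃ K1 : ℝ, K1 = CK k * (1 + 6 * ((k : ℝ) + k ^ 2)) := ⟨_, rfl⟩
  have hCK := CK_pos k
  have hK10 : 0 < K1 := by rw [hK1]; positivity
  obtain ⟨Cc, hCc⟩ : ∃ Cc : ℝ, Cc = 1000 + (8 * (6 : ℝ) ^ k * K1 + 96 * (7 : ℝ) ^ k * k + 2 * ((∏ i, (c i).natAbs : ℕ) : ℝ) + K1) := ⟨_, rfl⟩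
  obtain ⟨X₁, hX₁⟩ := Filter.eventually_atTop.1 ((Sil2.ev_log Cc).and (Sil2.ev_pow 1 1 2 (by norm_num)))
  refine ⟨max (max X₁ X₂) (max X₃ 3), fun X hX z hzZ hzZ1 S hS h hh hD => ?_⟩
  obtain ⟨hL, c3⟩ := hX₁ X (((le_max_left _ _).trans (le_max_left _ _)).trans hX)
  have hX2 : X₂ ≤ X := ((le_max_right _ _).trans (le_max_left _ _)).trans hX
  have hX3 : X₃ ≤ X := ((le_max_left _ _).trans (le_max_right _ _)).trans hX
  have hX3' : 3 ≤ X := ((le_max_right _ _).trans (le_max_right _ _)).trans hX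
  have herr := herr X hX2 z
  have hVinv := hVinv X hX3 z
  obtain ⟨L, hLd⟩ : ∃ L, L = Real.log (X : ℝ) := ⟨_, rfl⟩
  rw [← hLd] at hL c3 hzZ hzZ1 hS herr hVinv ⊢
  have hCpos : 0 ≤ 8 * (6 : ℝ) ^ k * K1 + 96 * (7 : ℝ) ^ k * k + 2 * ((∏ i, (c i).natAbs : ℕ) : ℝ) + K1 := by positivity
  have hL1000 : 1000 ≤ L := by rw [hCc] at hL; linarith
  have hL1 : 1 ≤ L := by linarith
  have hL0 : 0 < L := by linarith
  have hXR : (3 : ℝ) ≤ X := by exact_mod_cast hX3'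
  have hX0' : (0 : ℝ) < X := lt_of_lt_of_le (by norm_num) hXR
  rw [Real.rpow_one, pow_one] at c3
  have hz2r : (2 : ℝ) ≤ z := by
    have : L ≤ L ^ Z := le_self_pow₀ hL1 (by omega)
    linarith
  have hz2 : 2 ≤ z := by exact_mod_cast hz2r
  have hza : (z : ℝ) ≤ L ^ a := hzZ1.trans (pow_le_pow_right₀ hL1 (by omega))
  have hV := hVinv (by omega) hzZ1
  have hV0 : 0 ≤ (Vz z)⁻¹ := inv_nonneg.2 (Vz_pos z).le
  obtain ⟨hσ, herr⟩ := herr hz2 hza S hS h (fun i => (hh i).2) hD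
  -- sizes of the coefficients
  have hcX : ∀ i, (c i).natAbs * 2 ≤ X ∧ (c i).natAbs ≤ z := by
    intro i
    have h1 := natAbs_le_bigc c hc i
    have h2 : ((c i).natAbs : ℝ) ≤ ((∏ i, (c i).natAbs : ℕ) : ℝ) := by exact_mod_cast h1
    have h5 : (0 : ℝ) ≤ ((c i).natAbs : ℝ) := Nat.cast_nonneg _
    have h6 : 0 ≤ 8 * (6 : ℝ) ^ k * K1 + 96 * (7 : ℝ) ^ k * k + K1 := by positivity
    have h3 : 2 * ((c i).natAbs : ℝ) ≤ L := by rw [hCc] at hL; linarith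
    constructor
    · have : ((c i).natAbs : ℝ) * 2 ≤ X := by linarith
      exact_mod_cast this
    · have h7 : L ≤ L ^ Z := le_self_pow₀ hL1 (by omega)
      have : ((c i).natAbs : ℝ) ≤ z := by linarith
      exact_mod_cast this
  have hcabs : ∀ i, |c i| * 2 ≤ (X : ℤ) := by
    intro i
    rw [Int.abs_eq_natAbs]
    exact_mod_cast (hcX i).1
  have hX3Z : (3 : ℤ) ≤ X := by exact_mod_cast hX3'
  have hh3 : ∀ i, h i ≠ 0 ∧ |h i| ≤ (X : ℤ) ^ 3 := by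
    intro i
    refine ⟨(hh i).1, (hh i).2.trans ?_⟩
    nlinarith [sq_nonneg (X : ℤ)]
  have hDb : ∀ i j, i ≠ j → DD c h i j ≠ 0 ∧ |DD c h i j| ≤ (X : ℤ) ^ 3 := by
    intro i j hij
    refine ⟨hD i j hij, ?_⟩
    unfold DD
    have h1 : |c j * h i| * 2 ≤ (X : ℤ) ^ 3 := by
      rw [abs_mul]
      have := mul_le_mul (hcabs j) (hh i).2 (abs_nonneg _) (by linarith)
      nlinarith
    have h2 : |c i * h j| * 2 ≤ (X : ℤ) ^ 3 := by
      rw [abs_mul]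
      have := mul_le_mul (hcabs i) (hh j).2 (abs_nonneg _) (by linarith)
      nlinarith
    refine (abs_sub _ _).trans ?_
    linarith
  -- the singular series
  obtain ⟨hmul, htail⟩ := tail c hc z hz2 (fun i => (hcX i).2) h ((k + k ^ 2) * (6 * L))
    (fun y => bad_primes c h z L X hLd hL0.le hh3 hDb y)
  refine ⟨hmul, fun N₁ N₂ hN12 hN2 => ?_⟩
  obtain ⟨PZ, hPZ⟩ : ∃ PZ, PZ = ∏ p ∈ pz z, lf c h p := ⟨_, rfl⟩
  have hPZabs : ∏ p ∈ pz z, |lf c h p| = PZ := by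
    rw [hPZ]
    apply prod_congr rfl
    intro p hp
    exact abs_of_nonneg (lf_nonneg c h p (mem_pz.1 hp).2)
  have hPZ0 : 0 ≤ PZ := by
    rw [hPZ]
    exact prod_nonneg fun p hp => lf_nonneg c h p (mem_pz.1 hp).2
  obtain ⟨VV, hVV⟩ : ∃ VV, VV = ∏ p ∈ pz z, (1 - (rho c h p : ℝ) / (p - 1 : ℝ)) := ⟨_, rfl⟩
  have hVV01 : 0 ≤ VV ∧ VV ≤ 1 := by
    rw [hVV]
    exact ⟨prod_nonneg fun p hp => (fac_mem c h p (mem_pz.1 hp).2).1,
      prod_le_one (fun p hp => (fac_mem c h p (mem_pz.1 hp).2).1) (fun p hp => (fac_mem c h p (mem_pz.1 hp).2).2)⟩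
  have hPZV : PZ = VV * ((Vz z)⁻¹) ^ k := by rw [hPZ, hVV]; exact lf_prod c h z
  have hVk : ((Vz z)⁻¹) ^ k ≤ L ^ k := pow_le_pow_left₀ hV0 hV k
  have hVk0 : 0 ≤ ((Vz z)⁻¹) ^ k := by positivity
  have hPZL : PZ ≤ L ^ k := by
    rw [hPZV]
    calc VV * ((Vz z)⁻¹) ^ k ≤ 1 * L ^ k := mul_le_mul hVV01.2 hVk hVk0 zero_le_one
      _ = L ^ k := one_mul _
  rw [hPZabs, ← hPZ] at htail
  have hLZ0 : 0 < L ^ Z := by positivity
  have hzpos : (0 : ℝ) < z := by linarith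
  have hτ : CK k * (1 + ((k : ℝ) + k ^ 2) * (6 * L)) / z ≤ K1 * L / L ^ Z := by
    calc CK k * (1 + ((k : ℝ) + k ^ 2) * (6 * L)) / z ≤ CK k * (1 + ((k : ℝ) + k ^ 2) * (6 * L)) / L ^ Z := by
          apply div_le_div_of_nonneg_left _ hLZ0 hzZ
          positivity
      _ ≤ K1 * L / L ^ Z := by
          apply div_le_div_of_nonneg_right _ hLZ0.le
          rw [hK1]
          have : CK k * (1 + ((k : ℝ) + k ^ 2) * (6 * L)) ≤ CK k * (L + ((k : ℝ) + k ^ 2) * (6 * L)) := by gcongr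
          calc _ ≤ _ := this
            _ = _ := by ring
  have hτ1 : K1 * L / L ^ Z ≤ 1 := by
    rw [div_le_one hLZ0]
    have h1 : K1 ≤ L := by
      have h6 : 0 ≤ 8 * (6 : ℝ) ^ k * K1 + 96 * (7 : ℝ) ^ k * k + 2 * ((∏ i, (c i).natAbs : ℕ) : ℝ) := by positivity
      rw [hCc] at hL
      linarith
    calc K1 * L ≤ L * L := by gcongr
      _ = L ^ 2 := by ring
      _ ≤ L ^ Z := pow_le_pow_right₀ hL1 (by omega)
  have hexp : Real.exp (CK k * (1 + ((k : ℝ) + k ^ 2) * (6 * L)) / z) - 1 ≤ 2 * (K1 * L / L ^ Z) := by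
    have h1 := Real.exp_le_exp.2 hτ
    have h2 : 0 ≤ K1 * L / L ^ Z := by positivity
    have h3 : Real.exp (K1 * L / L ^ Z) ≤ 1 + 2 * (K1 * L / L ^ Z) := by
      have h4 := Real.abs_exp_sub_one_le (show |K1 * L / L ^ Z| ≤ 1 by rw [abs_of_nonneg h2]; exact hτ1)
      rw [abs_of_nonneg h2] at h4
      have := (abs_le.1 h4).2
      linarith
    linarith
  have htail2 : |singT c h - PZ| ≤ L ^ k * (2 * (K1 * L / L ^ Z)) := by
    refine htail.trans ?_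
    have h1 : 0 ≤ Real.exp (CK k * (1 + ((k : ℝ) + k ^ 2) * (6 * L)) / z) - 1 := by
      have := Real.one_le_exp (show 0 ≤ CK k * (1 + ((k : ℝ) + k ^ 2) * (6 * L)) / z by positivity)
      linarith
    exact mul_le_mul hPZL hexp h1 (by positivity)
  have hsing : |singT c h| ≤ 3 * L ^ k := by
    have h1 : L ^ k * (2 * (K1 * L / L ^ Z)) ≤ L ^ k * 2 := by
      apply mul_le_mul_of_nonneg_left _ (by positivity)
      linarith
    have h2 : |singT c h| ≤ |singT c h - PZ| + |PZ| := by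
      have := abs_add_le (singT c h - PZ) PZ
      rwa [sub_add_cancel] at this
    rw [abs_of_nonneg hPZ0] at h2
    linarith
  -- the densities
  obtain ⟨σ', hσ'⟩ : ∃ σ' : Fin k → ℝ, σ' = fun i => ∑ p ∈ S i, xg p (h i) := ⟨_, rfl⟩
  obtain ⟨σ, hσd⟩ : ∃ σ : Fin k → ℝ, σ = fun i => ∑ p ∈ S i, 1 / (p : ℝ) := ⟨_, rfl⟩
  have hLa0 : 0 < L ^ a := by positivity
  have hLa1 : 1 ≤ L ^ a := one_le_pow₀ hL1
  have hσ'0 : ∀ i, 0 ≤ σ' i := by
    intro i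
    rw [hσ']
    exact sum_nonneg fun p hp => xg_nonneg _ _ (hS i p hp).1.one_le
  have hσ'1 : ∀ i, σ' i ≤ 6 * L := fun i => by rw [hσ']; exact hσ i
  have hσdiff : ∀ i, |σ' i - σ i| ≤ 12 * L / L ^ a := by
    intro i
    rw [hσ', hσd]
    simp only
    rw [← sum_sub_distrib]
    refine (abs_sum_le_sum_abs _ _).trans ?_
    have h1 : ∀ p ∈ S i, |xg p (h i) - 1 / (p : ℝ)| ≤ 1 / L ^ a * (if (p : ℤ) ∣ h i then (1 : ℝ) else 0) + 1 / L ^ a * xg p (h i) := by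
      intro p hp
      obtain ⟨b1, b2, b3⟩ := hS i p hp
      exact xg_sub p (h i) (L ^ a) hLa1 b2.le b1.two_le
    refine (sum_le_sum h1).trans ?_
    rw [sum_add_distrib, ← mul_sum, ← mul_sum, ← sum_filter, sum_const, nsmul_eq_mul, mul_one]
    have h2 := few (S i) (fun p hp => (hS i p hp).1) (h i) (hh3 i).1 L X hLd (hh3 i).2
    have h3 := hσ i
    calc 1 / L ^ a * (((S i).filter (fun p : ℕ => (p : ℤ) ∣ h i)).card : ℝ) + 1 / L ^ a * ∑ p ∈ S i, xg p (h i)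
        ≤ 1 / L ^ a * (6 * L) + 1 / L ^ a * (6 * L) := by gcongr
      _ = _ := by ring
  have hLaL : L ≤ L ^ a := le_self_pow₀ hL1 (by omega)
  have hσ0 : ∀ i, 0 ≤ σ i := by
    intro i
    rw [hσd]
    exact sum_nonneg fun p _ => by positivity
  have hσ1 : ∀ i, σ i ≤ 7 * L := by
    intro i
    have h1 := (abs_le.1 (hσdiff i)).1
    have h2 := hσ'1 i
    have h3 : 12 * L / L ^ a ≤ L := by
      rw [div_le_iff₀ hLa0]
      nlinarith
    linarith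
  have hprodσ : |∏ i, σ' i - ∏ i, σ i| ≤ (7 * L) ^ k * (k * (12 * L / L ^ a)) := by
    have h1 := prod_diff (univ : Finset (Fin k)) σ' σ (7 * L) (by linarith) (fun i _ => by
      rw [abs_of_nonneg (hσ'0 i)]
      have := hσ'1 i
      linarith) (fun i _ => by
      rw [abs_of_nonneg (hσ0 i)]
      exact hσ1 i)
    rw [card_univ, Fintype.card_fin] at h1
    refine h1.trans ?_
    apply mul_le_mul_of_nonneg_left _ (by positivity)
    refine (sum_le_card_nsmul _ _ _ (fun i _ => hσdiff i)).trans (le_of_eq ?_)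
    rw [card_univ, Fintype.card_fin, nsmul_eq_mul]
  have hprodσ' : ∏ i, σ' i ≤ (6 * L) ^ k := by
    calc ∏ i, σ' i ≤ ∏ _l : Fin k, (6 * L) := prod_le_prod (fun l _ => hσ'0 l) (fun l _ => hσ'1 l)
      _ = (6 * L) ^ k := by rw [prod_const, card_univ, Fintype.card_fin]
  have hprodσ'0 : 0 ≤ ∏ i, σ' i := prod_nonneg fun i _ => hσ'0 i
  -- the sum
  obtain ⟨F, hF⟩ : ∃ F : ℕ → ℝ, F = fun N => ∑ n ∈ Icc 1 N, ArithmeticFunction.vonMangoldt n * (rough c h z n * ∏ i, om c h S i n) := ⟨_, rfl⟩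
  have hLA2 : 0 < L ^ (A + k + 2) := by positivity
  have hFN : ∀ N, N ≤ X → |F N - N * VV * ∏ i, σ' i| ≤ X / L ^ (A + k + 2) := by
    intro N hN
    rw [hF, hVV, hσ']
    exact herr N hN
  have e1 : ∑ n ∈ Ioc N₁ N₂, ArithmeticFunction.vonMangoldt n * ∏ i, bt (S i) z (LFo c h i n) = ((Vz z)⁻¹) ^ k * (F N₂ - F N₁) := by
    have h1 : F N₂ = F N₁ + ∑ n ∈ Ioc N₁ N₂, ArithmeticFunction.vonMangoldt n * (rough c h z n * ∏ i, om c h S i n) := by
      rw [hF]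
      simp only
      rw [← sum_union]
      · congr 1
        ext n
        rw [mem_union, mem_Icc, mem_Icc, mem_Ioc]
        omega
      · rw [Finset.disjoint_left]
        intro n hn hn'
        rw [mem_Icc] at hn
        rw [mem_Ioc] at hn'
        omega
    rw [h1, add_sub_cancel_left, mul_sum]
    apply sum_congr rfl
    intro n _
    rw [bt_prod]
    ring
  have hσeq : (∏ i, ∑ p ∈ S i, 1 / (p : ℝ)) = ∏ i, σ i := by rw [hσd]
  rw [e1, hσeq]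
  have hNr : (0 : ℝ) ≤ (N₂ : ℝ) - N₁ ∧ (N₂ : ℝ) - N₁ ≤ X := by
    have h1 : (N₁ : ℝ) ≤ N₂ := by exact_mod_cast hN12
    have h2 : (N₂ : ℝ) ≤ X := by exact_mod_cast hN2
    have h3 : (0 : ℝ) ≤ N₁ := Nat.cast_nonneg _
    constructor <;> linarith
  have e2 : ((Vz z)⁻¹) ^ k * (F N₂ - F N₁) - singT c h * (∏ i, σ i) * ((N₂ : ℝ) - N₁) =
      ((Vz z)⁻¹) ^ k * ((F N₂ - N₂ * VV * ∏ i, σ' i) - (F N₁ - N₁ * VV * ∏ i, σ' i)) +
      ((N₂ : ℝ) - N₁) * ((PZ - singT c h) * ∏ i, σ' i + singT c h * (∏ i, σ' i - ∏ i, σ i)) := by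
    rw [hPZV]
    ring
  rw [e2]
  refine (abs_add_le _ _).trans ?_
  have hLA : 0 < L ^ A := by positivity
  have t1 : |((Vz z)⁻¹) ^ k * ((F N₂ - N₂ * VV * ∏ i, σ' i) - (F N₁ - N₁ * VV * ∏ i, σ' i))| ≤ X / L ^ A * (1 / 2) := by
    rw [abs_mul, abs_of_nonneg hVk0]
    have h1 := (abs_sub (F N₂ - N₂ * VV * ∏ i, σ' i) (F N₁ - N₁ * VV * ∏ i, σ' i)).trans
      (add_le_add (hFN N₂ hN2) (hFN N₁ (hN12.trans hN2)))
    calc ((Vz z)⁻¹) ^ k * |(F N₂ - N₂ * VV * ∏ i, σ' i) - (F N₁ - N₁ * VV * ∏ i, σ' i)|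
        ≤ L ^ k * (X / L ^ (A + k + 2) + X / L ^ (A + k + 2)) := mul_le_mul hVk h1 (abs_nonneg _) (by positivity)
      _ = X / L ^ A * (2 / L ^ 2) := by
          rw [show L ^ (A + k + 2) = L ^ A * L ^ k * L ^ 2 by ring]
          field_simp
          norm_num
      _ ≤ X / L ^ A * (1 / 2) := by
          apply mul_le_mul_of_nonneg_left _ (by positivity)
          rw [div_le_div_iff₀ (by positivity) (by norm_num)]
          nlinarith
  have t2 : |((N₂ : ℝ) - N₁) * ((PZ - singT c h) * ∏ i, σ' i + singT c h * (∏ i, σ' i - ∏ i, σ i))| ≤ X / L ^ A * (1 / 2) := by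
    rw [abs_mul, abs_of_nonneg hNr.1]
    have h1 : |(PZ - singT c h) * ∏ i, σ' i| ≤ 1 / L ^ A * (1 / 4) := by
      rw [abs_mul, abs_sub_comm, abs_of_nonneg hprodσ'0]
      calc |singT c h - PZ| * ∏ i, σ' i ≤ (L ^ k * (2 * (K1 * L / L ^ Z))) * (6 * L) ^ k :=
            mul_le_mul htail2 hprodσ' hprodσ'0 (by positivity)
        _ ≤ (L ^ k * (2 * (K1 * L / L ^ (A + 2 * k + 4)))) * (6 * L) ^ k := by
            have : L ^ (A + 2 * k + 4) ≤ L ^ Z := pow_le_pow_right₀ hL1 hZ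
            gcongr
        _ = 1 / L ^ A * ((2 * 6 ^ k * K1) / L ^ 3) := by
            rw [mul_pow, show L ^ (A + 2 * k + 4) = L ^ A * L ^ k * L ^ k * L * L ^ 3 by ring]
            field_simp
        _ ≤ 1 / L ^ A * (1 / 4) := by
            apply mul_le_mul_of_nonneg_left _ (by positivity)
            rw [div_le_div_iff₀ (by positivity) (by norm_num)]
            have h6 : 0 ≤ 96 * (7 : ℝ) ^ k * k + 2 * ((∏ i, (c i).natAbs : ℕ) : ℝ) + K1 := by positivity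
            have h7 : 8 * (6 : ℝ) ^ k * K1 ≤ L := by rw [hCc] at hL; linarith
            have h8 : L ≤ L ^ 3 := le_self_pow₀ hL1 (by norm_num)
            linarith
    have h2 : |singT c h * (∏ i, σ' i - ∏ i, σ i)| ≤ 1 / L ^ A * (1 / 4) := by
      rw [abs_mul]
      calc |singT c h| * |∏ i, σ' i - ∏ i, σ i| ≤ (3 * L ^ k) * ((7 * L) ^ k * (k * (12 * L / L ^ a))) :=
            mul_le_mul hsing hprodσ (abs_nonneg _) (by positivity)
        _ ≤ (3 * L ^ k) * ((7 * L) ^ k * (k * (12 * L / L ^ (A + 2 * k + 5)))) := by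
            have : L ^ (A + 2 * k + 5) ≤ L ^ a := pow_le_pow_right₀ hL1 (by omega)
            gcongr
        _ = 1 / L ^ A * ((36 * 7 ^ k * k) / L ^ 4) := by
            rw [mul_pow, show L ^ (A + 2 * k + 5) = L ^ A * L ^ k * L ^ k * L * L ^ 4 by ring]
            field_simp
            ring
        _ ≤ 1 / L ^ A * (1 / 4) := by
            apply mul_le_mul_of_nonneg_left _ (by positivity)
            rw [div_le_div_iff₀ (by positivity) (by norm_num)]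
            have h6 : 0 ≤ 8 * (6 : ℝ) ^ k * K1 + 2 * ((∏ i, (c i).natAbs : ℕ) : ℝ) + K1 := by positivity
            have h7 : 96 * (7 : ℝ) ^ k * k ≤ L := by rw [hCc] at hL; linarith
            have h8 : L ^ 2 ≤ L ^ 4 := pow_le_pow_right₀ hL1 (by norm_num)
            nlinarith
    calc ((N₂ : ℝ) - N₁) * |(PZ - singT c h) * ∏ i, σ' i + singT c h * (∏ i, σ' i - ∏ i, σ i)|
        ≤ X * (1 / L ^ A * (1 / 4) + 1 / L ^ A * (1 / 4)) := by
          apply mul_le_mul hNr.2 ((abs_add_le _ _).trans (add_le_add h1 h2)) (abs_nonneg _) hX0'.le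
      _ = _ := by ring
  linarith

end Pool.Agent.H561.E2
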