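import Pool.Agent.H561.E2.B5
import Pool.Agent.H561.E2.B6

set_option autoImplicit false

/-! Correlations of arbitrary weights with the convolution, for almost all shifts of a short interval. -/

namespace Pool.Agent.H561.E2

open Finset Filter Topology
open Pool.Agent.helper24_UT
open Pool.Agent.H373R2.T7 (pz mem_pz Vz Vz_pos Vz_inv_small)
open Pool.Agent.H807R2.Dav (ee)

/-- linear forms, one of the shifts moves -/
def S_COR : Prop := ∀ A : ℕ, ∃ a G B₀ : ℕ, ∀ E₁ : ℕ, ∃ X₀ : ℕ, ∀ X : ℕ, X₀ ≤ X → ∀ z : ℕ, (Real.log X) ^ B₀ ≤ z →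
  (z : ℝ) ≤ (Real.log X) ^ E₁ → ∀ P : ℕ, P ^ 5 ≤ X → ∀ S : Finset ℕ, (∀ p ∈ S, p.Prime) →
  (∀ p ∈ S, (Real.log X) ^ a < p ∧ p ≤ P) → ∀ H : ℕ, (P : ℝ) * (Real.log X) ^ G ≤ H → 4 * H ^ 2 ≤ X →
  ∀ (N₁ N₂ : ℕ) (φ : ℕ → ℕ) (w : ℕ → ℂ) (M : ℝ), N₂ ≤ X → (∀ n ∈ Ioc N₁ N₂, ∀ m ∈ Ioc N₁ N₂, φ n = φ m → n = m) →
  (∀ n ∈ Ioc N₁ N₂, 1 ≤ φ n ∧ φ n + H ≤ X) → (∀ n ∈ Ioc N₁ N₂, ‖w n‖ ≤ M) → 0 ≤ M →
  ∑ h ∈ range H, ‖∑ n ∈ Ioc N₁ N₂, w n * gm S z (φ n + h)‖ ^ 2 ≤ 9 * H * (X : ℝ) ^ 2 * M ^ 2 / (Real.log X) ^ A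

theorem t_COR (hST : S_STAR2) : S_COR := by
  intro A
  obtain ⟨a, G, B₀, hST⟩ := hST A
  refine ⟨a, G, B₀, fun E₁ => ?_⟩
  obtain ⟨X₀, hST⟩ := hST E₁
  obtain ⟨X₁, hX₁⟩ := Filter.eventually_atTop.1 ((Sil2.ev_log 1000).and (Sil2.ev_pow (A + 6) (1 / 2) 1 (by norm_num)))
  obtain ⟨X₂, hX₂⟩ := Vz_inv_small E₁
  refine ⟨max (max X₁ X₂) (max X₀ 3), fun X hX z hzB hzE P hP5 S hS hSP H hH hHX N₁ N₂ φ w M hN2 hinj hφ hw hM => ?_⟩
  obtain ⟨hLbig, c2⟩ := hX₁ X (((le_max_left _ _).trans (le_max_left _ _)).trans hX)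
  have hX2 : X₂ ≤ X := ((le_max_right _ _).trans (le_max_left _ _)).trans hX
  have hX0 : X₀ ≤ X := ((le_max_left _ _).trans (le_max_right _ _)).trans hX
  have hX3 : 3 ≤ X := ((le_max_right _ _).trans (le_max_right _ _)).trans hX
  have hzr : (1 : ℝ) ≤ z := by
    refine le_trans (one_le_pow₀ ?_) hzB
    linarith
  have hV := hX₂ X hX2 z (by exact_mod_cast hzr) hzE
  have hstar := hST X hX0 z hzB hzE P hP5 S hS hSP (2 * H) (by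
    refine hH.trans ?_
    push_cast
    have : (0 : ℝ) ≤ H := Nat.cast_nonneg _
    linarith) (by
    calc (2 * H) ^ 2 = 4 * H ^ 2 := by ring
      _ ≤ X := hHX)
  obtain ⟨L, hLdef⟩ : ∃ L, L = Real.log (X : ℝ) := ⟨_, rfl⟩
  rw [← hLdef] at hLbig c2 hV hstar ⊢
  have hL1 : 1 ≤ L := by linarith
  have hL0 : 0 < L := by linarith
  have hXR : (3 : ℝ) ≤ X := by exact_mod_cast hX3
  have hX0' : (0 : ℝ) < X := by linarith
  have hLA : 0 < L ^ A := by positivity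
  rw [one_mul, ← Real.sqrt_eq_rpow] at c2
  have hss : √(X : ℝ) * √(X : ℝ) = X := Real.mul_self_sqrt hX0'.le
  have hs0 : 0 ≤ √(X : ℝ) := Real.sqrt_nonneg _
  have hHs : (H : ℝ) ≤ √X := by
    apply Real.le_sqrt_of_sq_le
    have : H ^ 2 ≤ X := by omega
    exact_mod_cast this
  rcases Nat.eq_zero_or_pos H with hH0 | hHpos
  · rw [hH0, range_zero, sum_empty]
    push_cast
    rw [mul_zero, zero_mul, zero_mul, zero_div]
  have hHr : (0 : ℝ) < H := by exact_mod_cast hHpos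
  -- split the variable
  obtain ⟨T, hT⟩ : ∃ T, T = (Ioc N₁ N₂).filter (fun n => H ≤ φ n) := ⟨_, rfl⟩
  obtain ⟨T', hT'⟩ : ∃ T', T' = (Ioc N₁ N₂).filter (fun n => ¬ H ≤ φ n) := ⟨_, rfl⟩
  have hf := fourier T w φ (gm S z) X H hHpos (by
    intro i hi j hj hij
    rw [hT, mem_filter] at hi hj
    exact hinj i hi.1 j hj.1 hij) (by
    intro i hi
    rw [hT, mem_filter] at hi
    have := hφ i hi.1
    exact ⟨hi.2, by omega⟩) (X * ((2 * H : ℕ) : ℝ) ^ 2 / L ^ A) (fun α => hstar α)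
  have hTcard : (T.card : ℝ) ≤ X := by
    have h1 : T.card ≤ (Ioc N₁ N₂).card := by rw [hT]; exact card_filter_le _ _
    rw [Nat.card_Ioc] at h1
    have h2 : T.card ≤ X := by omega
    exact_mod_cast h2
  have hwT : ∑ i ∈ T, ‖w i‖ ^ 2 ≤ X * M ^ 2 := by
    have h1 : ∀ i ∈ T, ‖w i‖ ^ 2 ≤ M ^ 2 := by
      intro i hi
      rw [hT, mem_filter] at hi
      exact pow_le_pow_left₀ (norm_nonneg _) (hw i hi.1) 2
    refine (sum_le_card_nsmul _ _ _ h1).trans ?_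
    rw [nsmul_eq_mul]
    gcongr
  have h1 : ∑ h ∈ range H, ‖∑ i ∈ T, w i * gm S z (φ i + h)‖ ^ 2 ≤ 4 * H * (X : ℝ) ^ 2 * M ^ 2 / L ^ A := by
    have h2 : (H : ℝ) * ∑ h ∈ range H, ‖∑ i ∈ T, w i * gm S z (φ i + h)‖ ^ 2 ≤ H * (4 * H * (X : ℝ) ^ 2 * M ^ 2 / L ^ A) := by
      refine hf.trans ?_
      calc X * ((2 * H : ℕ) : ℝ) ^ 2 / L ^ A * ∑ i ∈ T, ‖w i‖ ^ 2 ≤ X * ((2 * H : ℕ) : ℝ) ^ 2 / L ^ A * (X * M ^ 2) := by gcongr
        _ = _ := by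
            push_cast
            ring
    exact le_of_mul_le_mul_left h2 hHr
  have hT'card : (T'.card : ℝ) ≤ H := by
    have h2 : T'.card ≤ (range H).card := by
      apply card_le_card_of_injOn φ
      · intro n hn
        rw [mem_coe, hT', mem_filter] at hn
        rw [mem_coe, mem_range]
        omega
      · intro n hn m hm hnm
        rw [mem_coe, hT', mem_filter] at hn hm
        exact hinj n hn.1 m hm.1 hnm
    rw [card_range] at h2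
    exact_mod_cast h2
  have hgm : ∀ n ∈ Ioc N₁ N₂, ∀ h ∈ range H, ‖gm S z (φ n + h)‖ ≤ 12 * L ^ 2 := by
    intro n hn h hh
    rw [mem_range] at hh
    have h2 := hφ n hn
    apply gm_norm S hS z _ L (by omega) hL0.le _ hV
    rw [hLdef]
    have h3 : Real.log ((φ n + h : ℕ) : ℝ) ≤ Real.log X := by
      apply Real.log_le_log
      · exact_mod_cast (by omega : 0 < φ n + h)
      · exact_mod_cast (by omega : φ n + h ≤ X)
    have h4 : 0 ≤ Real.log (X : ℝ) := by rw [← hLdef]; exact hL0.le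
    linarith
  have h2 : ∀ h ∈ range H, ‖∑ i ∈ T', w i * gm S z (φ i + h)‖ ^ 2 ≤ (H * (M * (12 * L ^ 2))) ^ 2 := by
    intro h hh
    apply pow_le_pow_left₀ (norm_nonneg _)
    refine (norm_sum_le _ _).trans ?_
    have h3 : ∀ i ∈ T', ‖w i * gm S z (φ i + h)‖ ≤ M * (12 * L ^ 2) := by
      intro i hi
      rw [hT', mem_filter] at hi
      rw [norm_mul]
      exact mul_le_mul (hw i hi.1) (hgm i hi.1 h hh) (norm_nonneg _) hM
    refine (sum_le_card_nsmul _ _ _ h3).trans ?_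
    rw [nsmul_eq_mul]
    apply mul_le_mul_of_nonneg_right hT'card (by positivity)
  have h3 : ∀ h ∈ range H, ‖∑ n ∈ Ioc N₁ N₂, w n * gm S z (φ n + h)‖ ^ 2 ≤
      2 * ‖∑ i ∈ T, w i * gm S z (φ i + h)‖ ^ 2 + 2 * ‖∑ i ∈ T', w i * gm S z (φ i + h)‖ ^ 2 := by
    intro h _
    have e1 : ∑ n ∈ Ioc N₁ N₂, w n * gm S z (φ n + h) = ∑ i ∈ T, w i * gm S z (φ i + h) + ∑ i ∈ T', w i * gm S z (φ i + h) := by
      rw [hT, hT', sum_filter_add_sum_filter_not]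
    rw [e1]
    have h4 := norm_add_le (∑ i ∈ T, w i * gm S z (φ i + h)) (∑ i ∈ T', w i * gm S z (φ i + h))
    calc ‖∑ i ∈ T, w i * gm S z (φ i + h) + ∑ i ∈ T', w i * gm S z (φ i + h)‖ ^ 2
        ≤ (‖∑ i ∈ T, w i * gm S z (φ i + h)‖ + ‖∑ i ∈ T', w i * gm S z (φ i + h)‖) ^ 2 :=
          pow_le_pow_left₀ (norm_nonneg _) h4 2
      _ ≤ _ := by nlinarith [sq_nonneg (‖∑ i ∈ T, w i * gm S z (φ i + h)‖ - ‖∑ i ∈ T', w i * gm S z (φ i + h)‖)]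
  refine (sum_le_sum h3).trans ?_
  rw [sum_add_distrib, ← mul_sum, ← mul_sum]
  have h4 : ∑ h ∈ range H, ‖∑ i ∈ T', w i * gm S z (φ i + h)‖ ^ 2 ≤ H * (H * (M * (12 * L ^ 2))) ^ 2 := by
    have := sum_le_card_nsmul _ _ _ h2
    rwa [card_range, nsmul_eq_mul] at this
  have h5 : 2 * (H * (H * (M * (12 * L ^ 2))) ^ 2) ≤ H * (X : ℝ) ^ 2 * M ^ 2 / L ^ A := by
    rw [le_div_iff₀ hLA]
    have h6 : 288 * L ^ 4 * L ^ A ≤ √X := by
      calc 288 * L ^ 4 * L ^ A ≤ L ^ 2 * L ^ 4 * L ^ A := by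
            have : 288 ≤ L ^ 2 := by nlinarith
            gcongr
        _ = L ^ (A + 6) := by ring
        _ ≤ √X := c2
    have h7 : (H : ℝ) ^ 2 * √X ≤ X ^ 2 := by
      have h8 : √(X : ℝ) ≤ X := by
        have : 1 ≤ √(X : ℝ) := Real.one_le_sqrt.2 (by linarith)
        nlinarith
      calc (H : ℝ) ^ 2 * √X ≤ (√X) ^ 2 * √X := by gcongr
        _ = X * √X := by rw [sq, hss]
        _ ≤ X * X := by gcongr
        _ = X ^ 2 := by ring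
    calc 2 * (H * (H * (M * (12 * L ^ 2))) ^ 2) * L ^ A = H * M ^ 2 * ((H : ℝ) ^ 2 * (288 * L ^ 4 * L ^ A)) := by ring
      _ ≤ H * M ^ 2 * ((H : ℝ) ^ 2 * √X) := by gcongr
      _ ≤ H * M ^ 2 * X ^ 2 := by gcongr
      _ = _ := by ring
  calc 2 * ∑ h ∈ range H, ‖∑ i ∈ T, w i * gm S z (φ i + h)‖ ^ 2 + 2 * ∑ h ∈ range H, ‖∑ i ∈ T', w i * gm S z (φ i + h)‖ ^ 2
      ≤ 2 * (4 * H * (X : ℝ) ^ 2 * M ^ 2 / L ^ A) + H * (X : ℝ) ^ 2 * M ^ 2 / L ^ A := by linarith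
    _ = _ := by ring

end Pool.Agent.H561.E2
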