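import Pool.Agent.H561.E2.T1
import Pool.Agent.H561.E2.N3

set_option autoImplicit false

/-! Products of several convolutions, for almost all tuples of shifts of a short box. -/

namespace Pool.Agent.H561.E2

open Finset Filter Topology
open Pool.Agent.helper24_UT
open Pool.Agent.H373R2.T7 (pz mem_pz Vz Vz_pos Vz_inv_small lamz)

/-- the weight of the products `g m`, `g` in `S`, `m` a prime power -/
noncomputable def be (S : Finset ℕ) (m : ℕ) : ℝ := ∑ g ∈ S, if g ∣ m then ArithmeticFunction.vonMangoldt (m / g) else 0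

lemma be_bt (S : Finset ℕ) (z m : ℕ) (hS : ∀ g ∈ S, g.Prime ∧ z < g) (hm : m ≠ 0) :
    gm S z m = ((be S m - bt S z (m : ℤ) : ℝ) : ℂ) := by
  classical
  unfold gm be bt
  rw [mul_sum, ← sum_sub_distrib]
  push_cast
  apply sum_congr rfl
  intro g hg
  by_cases hd : g ∣ m
  · have hdZ : (g : ℤ) ∣ (m : ℤ) := by exact_mod_cast hd
    rw [if_pos hd, if_pos hd, if_pos hdZ]
    unfold dl
    rw [Complex.ofReal_one, mul_one]
    congr 2
    unfold lamz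
    have hiff : (∀ p ∈ pz z, ¬ p ∣ m / g) ↔ ∀ p ∈ pz z, ¬ (p : ℤ) ∣ (m : ℤ) := by
      constructor
      · intro h p hp hpm
        apply h p hp
        have h1 : p ∣ m := by exact_mod_cast hpm
        obtain ⟨t, rfl⟩ := hd
        rw [Nat.mul_div_cancel_left t (hS g hg).1.pos]
        rw [mem_pz] at hp
        rcases hp.2.dvd_mul.1 h1 with h2 | h2
        · have h3 := (Nat.prime_dvd_prime_iff_eq hp.2 (hS g hg).1).1 h2
          have := (hS g hg).2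
          omega
        · exact h2
      · intro h p hp hpm
        apply h p hp
        have h1 : p ∣ m := hpm.trans (Nat.div_dvd_of_dvd hd)
        exact_mod_cast h1
    by_cases hr : ∀ p ∈ pz z, ¬ p ∣ m / g
    · rw [if_pos hr, if_pos (hiff.1 hr)]
    · rw [if_neg hr, if_neg (fun h => hr (hiff.2 h))]
  · have hdZ : ¬ (g : ℤ) ∣ (m : ℤ) := by
      intro h
      exact hd (by exact_mod_cast h)
    rw [if_neg hd, if_neg hd, if_neg hdZ]
    simp

lemma be_nonneg (S : Finset ℕ) (m : ℕ) : 0 ≤ be S m :=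
  sum_nonneg fun _ _ => by
    split_ifs
    · exact ArithmeticFunction.vonMangoldt_nonneg
    · exact le_rfl

lemma bt_nonneg (S : Finset ℕ) (z : ℕ) (m : ℤ) : 0 ≤ bt S z m := by
  unfold bt
  apply mul_nonneg
  · split_ifs
    · exact inv_nonneg.2 (Vz_pos z).le
    · exact le_rfl
  · exact sum_nonneg fun _ _ => by split_ifs <;> norm_num

lemma be_le (S : Finset ℕ) (hS : ∀ g ∈ S, g.Prime) (m : ℕ) (hm : m ≠ 0) (L : ℝ) (hL : Real.log m ≤ L) : be S m ≤ 2 * L ^ 2 := by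
  have hlog : 0 ≤ Real.log m := Real.log_natCast_nonneg m
  unfold be
  rw [← sum_filter]
  have h1 : ∀ g ∈ S.filter (fun g => g ∣ m), ArithmeticFunction.vonMangoldt (m / g) ≤ L := by
    intro g hg
    rw [mem_filter] at hg
    refine ArithmeticFunction.vonMangoldt_le_log.trans (le_trans ?_ hL)
    have hg0 := (hS g hg.1).pos
    have h2 : 0 < m / g := Nat.div_pos (Nat.le_of_dvd (Nat.pos_of_ne_zero hm) hg.2) hg0
    apply Real.log_le_log (by exact_mod_cast h2)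
    exact_mod_cast Nat.div_le_self m g
  refine (sum_le_card_nsmul _ _ _ h1).trans ?_
  rw [nsmul_eq_mul]
  have h2 := card_dvd_le S hS m hm
  have hL0 : 0 ≤ L := hlog.trans hL
  nlinarith

lemma bt_le (S : Finset ℕ) (hS : ∀ g ∈ S, g.Prime) (z m : ℕ) (hm : m ≠ 0) (L : ℝ) (hL : Real.log m ≤ L) (hV : (Vz z)⁻¹ ≤ L) :
    bt S z (m : ℤ) ≤ 2 * L ^ 2 := by
  have hlog : 0 ≤ Real.log m := Real.log_natCast_nonneg m
  have hL0 : 0 ≤ L := hlog.trans hL
  have hV0 : 0 ≤ (Vz z)⁻¹ := inv_nonneg.2 (Vz_pos z).le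
  unfold bt
  have h1 : ∑ p ∈ S, (if (p : ℤ) ∣ (m : ℤ) then (1 : ℝ) else 0) ≤ 2 * L := by
    rw [← sum_filter, sum_const, nsmul_eq_mul, mul_one]
    have h2 := card_dvd_le S hS m hm
    have e1 : S.filter (fun p : ℕ => (p : ℤ) ∣ (m : ℤ)) = S.filter (fun g => g ∣ m) := by
      apply filter_congr
      intro p _
      exact Int.natCast_dvd_natCast
    rw [e1]
    linarith
  have h1' : 0 ≤ ∑ p ∈ S, (if (p : ℤ) ∣ (m : ℤ) then (1 : ℝ) else 0) := sum_nonneg fun _ _ => by split_ifs <;> norm_num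
  have h2 : (if ∀ p ∈ pz z, ¬ (p : ℤ) ∣ (m : ℤ) then (Vz z)⁻¹ else 0) ≤ L := by
    split_ifs
    · exact hV
    · exact hL0
  calc _ ≤ L * (2 * L) := mul_le_mul h2 h1 h1' hL0
    _ = _ := by ring

/-- the error of a tuple of shifts -/
noncomputable def Der {k : ℕ} (S : Fin k → Finset ℕ) (z : ℕ) (φ : Fin k → ℕ → ℕ) (N₁ N₂ : ℕ) (h : Fin k → ℕ) : ℝ :=
  ∑ n ∈ Ioc N₁ N₂, ArithmeticFunction.vonMangoldt n * (∏ i, be (S i) (φ i n + h i) - ∏ i, bt (S i) z ((φ i n + h i : ℕ) : ℤ))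

/-- the weights -/
noncomputable def wt {k : ℕ} (S : Fin k → Finset ℕ) (z : ℕ) (φ : Fin k → ℕ → ℕ) (h : Fin k → ℕ) (i : Fin k) (n : ℕ) : ℝ :=
  ArithmeticFunction.vonMangoldt n * ((∏ j with j < i, bt (S j) z ((φ j n + h j : ℕ) : ℤ)) * ∏ j with i < j, be (S j) (φ j n + h j))

lemma wt_update {k : ℕ} (S : Fin k → Finset ℕ) (z : ℕ) (φ : Fin k → ℕ → ℕ) (h : Fin k → ℕ) (i : Fin k) (x n : ℕ) :
    wt S z φ (Function.update h i x) i n = wt S z φ h i n := by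
  unfold wt
  congr 2
  · apply prod_congr rfl
    intro j hj
    rw [mem_filter] at hj
    rw [Function.update_of_ne hj.2.ne]
  · apply prod_congr rfl
    intro j hj
    rw [mem_filter] at hj
    rw [Function.update_of_ne hj.2.ne']

lemma Der_eq {k : ℕ} (S : Fin k → Finset ℕ) (z : ℕ) (φ : Fin k → ℕ → ℕ) (N₁ N₂ : ℕ) (h : Fin k → ℕ)
    (hS : ∀ i, ∀ g ∈ S i, g.Prime ∧ z < g) (hφ : ∀ i, ∀ n ∈ Ioc N₁ N₂, 1 ≤ φ i n) :
    ((Der S z φ N₁ N₂ h : ℝ) : ℂ) = ∑ i, ∑ n ∈ Ioc N₁ N₂, ((wt S z φ h i n : ℝ) : ℂ) * gm (S i) z (φ i n + h i) := by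
  rw [sum_comm]
  unfold Der
  push_cast
  apply sum_congr rfl
  intro n hn
  have h1 := prod_sub_ordered (univ : Finset (Fin k)) (fun i => be (S i) (φ i n + h i))
    (fun i => be (S i) (φ i n + h i) - bt (S i) z ((φ i n + h i : ℕ) : ℤ))
  simp only [sub_sub_cancel] at h1
  have h2 : ∏ i, be (S i) (φ i n + h i) - ∏ i, bt (S i) z ((φ i n + h i : ℕ) : ℤ) =
      ∑ i, (be (S i) (φ i n + h i) - bt (S i) z ((φ i n + h i : ℕ) : ℤ)) *
        (∏ j with j < i, bt (S j) z ((φ j n + h j : ℕ) : ℤ)) * ∏ j with i < j, be (S j) (φ j n + h j) := by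
    rw [h1]
    ring
  have h3 : ((ArithmeticFunction.vonMangoldt n * (∏ i, be (S i) (φ i n + h i) - ∏ i, bt (S i) z ((φ i n + h i : ℕ) : ℤ)) : ℝ) : ℂ) =
      ∑ i, ((wt S z φ h i n : ℝ) : ℂ) * gm (S i) z (φ i n + h i) := by
    rw [h2, mul_sum]
    push_cast
    apply sum_congr rfl
    intro i _
    rw [be_bt (S i) z (φ i n + h i) (hS i) (by have := hφ i n hn; omega)]
    unfold wt
    push_cast
    ring
  rw [← h3]
  push_cast
  ring

/-- almost all tuples of shifts -/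
def S_TEL : Prop := ∀ k A : ℕ, ∃ a G B₀ : ℕ, ∀ E₁ : ℕ, ∃ X₀ : ℕ, ∀ X : ℕ, X₀ ≤ X → ∀ z : ℕ, (Real.log X) ^ B₀ ≤ z →
  (z : ℝ) ≤ (Real.log X) ^ E₁ → ∀ P : ℕ, P ^ 5 ≤ X → ∀ S : Fin k → Finset ℕ, (∀ i, ∀ p ∈ S i, p.Prime ∧ z < p) →
  (∀ i, ∀ p ∈ S i, (Real.log X) ^ a < p ∧ p ≤ P) → ∀ H : ℕ, 1 ≤ H → (P : ℝ) * (Real.log X) ^ G ≤ H → 4 * H ^ 2 ≤ X →
  ∀ (N₁ N₂ : ℕ) (φ : Fin k → ℕ → ℕ), N₂ ≤ X → (∀ i, ∀ n ∈ Ioc N₁ N₂, ∀ m ∈ Ioc N₁ N₂, φ i n = φ i m → n = m) →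
  (∀ i, ∀ n ∈ Ioc N₁ N₂, 1 ≤ φ i n ∧ φ i n + H ≤ X) →
  ∑ h ∈ Fintype.piFinset (fun _ : Fin k => range H), (Der S z φ N₁ N₂ h) ^ 2 ≤ (H : ℝ) ^ k * (X : ℝ) ^ 2 / (Real.log X) ^ A

theorem t_TEL (hC : S_COR) : S_TEL := by
  classical
  intro k A
  obtain ⟨a, G, B₀, hC⟩ := hC (A + 4 * k + 4)
  refine ⟨a, G, B₀, fun E₁ => ?_⟩
  obtain ⟨X₀, hC⟩ := hC E₁
  obtain ⟨X₁, hX₁⟩ := Filter.eventually_atTop.1 (Sil2.ev_log (1000 + 9 * (k : ℝ) ^ 2 * 4 ^ k))
  obtain ⟨X₂, hX₂⟩ := Vz_inv_small E₁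
  refine ⟨max (max X₁ X₂) (max X₀ 3), fun X hX z hzB hzE P hP5 S hS hSP H hH1 hH hHX N₁ N₂ φ hN2 hinj hφ => ?_⟩
  have hLbig := hX₁ X (((le_max_left _ _).trans (le_max_left _ _)).trans hX)
  have hX2 : X₂ ≤ X := ((le_max_right _ _).trans (le_max_left _ _)).trans hX
  have hX0 : X₀ ≤ X := ((le_max_left _ _).trans (le_max_right _ _)).trans hX
  have hX3 : 3 ≤ X := ((le_max_right _ _).trans (le_max_right _ _)).trans hX
  have hk4 : 0 ≤ 9 * (k : ℝ) ^ 2 * 4 ^ k := by positivity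
  have hzr : (1 : ℝ) ≤ z := by
    refine le_trans (one_le_pow₀ ?_) hzB
    linarith
  have hV := hX₂ X hX2 z (by exact_mod_cast hzr) hzE
  have hCC := hC X hX0 z hzB hzE P hP5
  obtain ⟨L, hLdef⟩ : ∃ L, L = Real.log (X : ℝ) := ⟨_, rfl⟩
  rw [← hLdef] at hLbig hV hCC hSP hH ⊢
  have hL1 : 1 ≤ L := by linarith
  have hL0 : 0 < L := by linarith
  have hXR : (3 : ℝ) ≤ X := by exact_mod_cast hX3
  have hX0' : (0 : ℝ) < X := lt_of_lt_of_le (by norm_num) hXR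
  have hHr : (0 : ℝ) < H := by exact_mod_cast hH1
  obtain ⟨M, hM⟩ : ∃ M, M = L * (2 * L ^ 2) ^ k := ⟨_, rfl⟩
  have hM0 : 0 ≤ M := by rw [hM]; positivity
  have h2L : 1 ≤ 2 * L ^ 2 := by nlinarith
  have hlogn : ∀ i, ∀ n ∈ Ioc N₁ N₂, ∀ x ∈ range H, Real.log ((φ i n + x : ℕ) : ℝ) ≤ L := by
    intro i n hn x hx
    rw [mem_range] at hx
    have h1 := hφ i n hn
    rw [hLdef]
    apply Real.log_le_log
    · exact_mod_cast (by omega : 0 < φ i n + x)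
    · exact_mod_cast (by omega : φ i n + x ≤ X)
  have hwt : ∀ h ∈ Fintype.piFinset (fun _ : Fin k => range H), ∀ i, ∀ n ∈ Ioc N₁ N₂, ‖((wt S z φ h i n : ℝ) : ℂ)‖ ≤ M := by
    intro h hh i n hn
    rw [Fintype.mem_piFinset] at hh
    have hn' := hn
    rw [mem_Ioc] at hn'
    have hbt : ∀ j, 0 ≤ bt (S j) z ((φ j n + h j : ℕ) : ℤ) ∧ bt (S j) z ((φ j n + h j : ℕ) : ℤ) ≤ 2 * L ^ 2 := by
      intro j
      exact ⟨bt_nonneg _ _ _, bt_le (S j) (fun g hg => (hS j g hg).1) z _ (by have := hφ j n hn; omega) L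
        (hlogn j n hn _ (hh j)) hV⟩
    have hbe : ∀ j, 0 ≤ be (S j) (φ j n + h j) ∧ be (S j) (φ j n + h j) ≤ 2 * L ^ 2 := by
      intro j
      exact ⟨be_nonneg _ _, be_le (S j) (fun g hg => (hS j g hg).1) _ (by have := hφ j n hn; omega) L (hlogn j n hn _ (hh j))⟩
    have hΛ : ArithmeticFunction.vonMangoldt n ≤ L := by
      refine ArithmeticFunction.vonMangoldt_le_log.trans ?_
      rw [hLdef]
      apply Real.log_le_log (by exact_mod_cast (by omega : 0 < n))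
      exact_mod_cast hn'.2.trans hN2
    have hp1 : ∏ j with j < i, bt (S j) z ((φ j n + h j : ℕ) : ℤ) ≤ (2 * L ^ 2) ^ ((univ : Finset (Fin k)).filter (fun j => j < i)).card := by
      calc _ ≤ ∏ _j ∈ (univ : Finset (Fin k)).filter (fun j => j < i), (2 * L ^ 2) := prod_le_prod (fun j _ => (hbt j).1) (fun j _ => (hbt j).2)
        _ = _ := by rw [prod_const]
    have hp2 : ∏ j with i < j, be (S j) (φ j n + h j) ≤ (2 * L ^ 2) ^ ((univ : Finset (Fin k)).filter (fun j => i < j)).card := by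
      calc _ ≤ ∏ _j ∈ (univ : Finset (Fin k)).filter (fun j => i < j), (2 * L ^ 2) := prod_le_prod (fun j _ => (hbe j).1) (fun j _ => (hbe j).2)
        _ = _ := by rw [prod_const]
    have hp10 : 0 ≤ ∏ j with j < i, bt (S j) z ((φ j n + h j : ℕ) : ℤ) := prod_nonneg fun j _ => (hbt j).1
    have hp20 : 0 ≤ ∏ j with i < j, be (S j) (φ j n + h j) := prod_nonneg fun j _ => (hbe j).1
    have hcard : ((univ : Finset (Fin k)).filter (fun j => j < i)).card + ((univ : Finset (Fin k)).filter (fun j => i < j)).card ≤ k := by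
      rw [← card_union_of_disjoint]
      · exact (card_le_card (subset_univ _)).trans (by rw [card_univ, Fintype.card_fin])
      · rw [Finset.disjoint_left]
        intro j hj hj'
        rw [mem_filter] at hj hj'
        exact absurd hj'.2 (not_lt.2 hj.2.le)
    rw [Complex.norm_real, Real.norm_eq_abs]
    unfold wt
    rw [abs_of_nonneg (mul_nonneg ArithmeticFunction.vonMangoldt_nonneg (mul_nonneg hp10 hp20)), hM]
    apply mul_le_mul hΛ _ (mul_nonneg hp10 hp20) hL0.le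
    calc (∏ j with j < i, bt (S j) z ((φ j n + h j : ℕ) : ℤ)) * ∏ j with i < j, be (S j) (φ j n + h j)
        ≤ (2 * L ^ 2) ^ ((univ : Finset (Fin k)).filter (fun j => j < i)).card *
          (2 * L ^ 2) ^ ((univ : Finset (Fin k)).filter (fun j => i < j)).card := mul_le_mul hp1 hp2 hp20 (by positivity)
      _ = (2 * L ^ 2) ^ (((univ : Finset (Fin k)).filter (fun j => j < i)).card + ((univ : Finset (Fin k)).filter (fun j => i < j)).card) := by
          rw [pow_add]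
      _ ≤ (2 * L ^ 2) ^ k := pow_le_pow_right₀ h2L hcard
  obtain ⟨F, hF⟩ : ∃ F : Fin k → (Fin k → ℕ) → ℝ, F = fun i h =>
      ‖∑ n ∈ Ioc N₁ N₂, ((wt S z φ h i n : ℝ) : ℂ) * gm (S i) z (φ i n + h i)‖ ^ 2 := ⟨_, rfl⟩
  have hFi : ∀ i, ∑ h ∈ Fintype.piFinset (fun _ : Fin k => range H), F i h ≤ (H : ℝ) ^ k * (9 * (X : ℝ) ^ 2 * M ^ 2 / L ^ (A + 4 * k + 4)) := by
    intro i
    have h1 := upd i (fun _ : Fin k => range H) (F i)
    rw [card_range] at h1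
    have h2 : ∀ h ∈ Fintype.piFinset (fun _ : Fin k => range H), ∑ x ∈ range H, F i (Function.update h i x) ≤
        9 * H * (X : ℝ) ^ 2 * M ^ 2 / L ^ (A + 4 * k + 4) := by
      intro h hh
      have h3 := hCC (S i) (fun p hp => (hS i p hp).1) (hSP i) H hH hHX N₁ N₂ (φ i) (fun n => ((wt S z φ h i n : ℝ) : ℂ)) M hN2
        (hinj i) (hφ i) (hwt h hh i) hM0
      refine le_trans (le_of_eq ?_) h3
      apply sum_congr rfl
      intro x _
      rw [hF]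
      simp only
      congr 2
      apply sum_congr rfl
      intro n _
      rw [wt_update, Function.update_self]
    have h4 : (H : ℝ) * ∑ h ∈ Fintype.piFinset (fun _ : Fin k => range H), F i h ≤
        H * ((H : ℝ) ^ k * (9 * (X : ℝ) ^ 2 * M ^ 2 / L ^ (A + 4 * k + 4))) := by
      rw [← h1]
      refine (sum_le_card_nsmul _ _ _ h2).trans (le_of_eq ?_)
      rw [Fintype.card_piFinset, prod_const, card_range, card_univ, Fintype.card_fin, nsmul_eq_mul]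
      push_cast
      ring
    exact le_of_mul_le_mul_left h4 hHr
  have hD : ∀ h ∈ Fintype.piFinset (fun _ : Fin k => range H), (Der S z φ N₁ N₂ h) ^ 2 ≤ k * ∑ i, F i h := by
    intro h _
    have h1 := Der_eq S z φ N₁ N₂ h hS (fun i n hn => (hφ i n hn).1)
    have h2 : (Der S z φ N₁ N₂ h) ^ 2 = ‖((Der S z φ N₁ N₂ h : ℝ) : ℂ)‖ ^ 2 := by
      rw [Complex.norm_real, Real.norm_eq_abs, sq_abs]
    rw [h2, h1]
    calc ‖∑ i, ∑ n ∈ Ioc N₁ N₂, ((wt S z φ h i n : ℝ) : ℂ) * gm (S i) z (φ i n + h i)‖ ^ 2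
        ≤ (∑ i, ‖∑ n ∈ Ioc N₁ N₂, ((wt S z φ h i n : ℝ) : ℂ) * gm (S i) z (φ i n + h i)‖) ^ 2 :=
          pow_le_pow_left₀ (norm_nonneg _) (norm_sum_le _ _) 2
      _ ≤ ((univ : Finset (Fin k)).card : ℝ) * ∑ i, ‖∑ n ∈ Ioc N₁ N₂, ((wt S z φ h i n : ℝ) : ℂ) * gm (S i) z (φ i n + h i)‖ ^ 2 :=
          sq_sum_le_card_mul_sum_sq
      _ = _ := by rw [card_univ, Fintype.card_fin, hF]
  refine (sum_le_sum hD).trans ?_
  rw [← mul_sum, sum_comm]
  have h5 := sum_le_card_nsmul (univ : Finset (Fin k)) (fun i => ∑ h ∈ Fintype.piFinset (fun _ : Fin k => range H), F i h) _ (fun i _ => hFi i)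
  rw [card_univ, Fintype.card_fin, nsmul_eq_mul] at h5
  have hHk : 0 ≤ (H : ℝ) ^ k := by positivity
  calc (k : ℝ) * ∑ i, ∑ h ∈ Fintype.piFinset (fun _ : Fin k => range H), F i h
      ≤ k * (k * ((H : ℝ) ^ k * (9 * (X : ℝ) ^ 2 * M ^ 2 / L ^ (A + 4 * k + 4)))) := by gcongr
    _ = (H : ℝ) ^ k * (X : ℝ) ^ 2 / L ^ A * ((9 * (k : ℝ) ^ 2 * 4 ^ k) / L ^ 2) := by
        rw [hM, show (L * (2 * L ^ 2) ^ k) ^ 2 = 4 ^ k * (L ^ 2 * L ^ (4 * k)) by
          rw [mul_pow, mul_pow, mul_pow, ← pow_mul, ← pow_mul, ← pow_mul, show (4 : ℝ) = 2 ^ 2 by norm_num, ← pow_mul,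
            mul_comm k 2, show 2 * (2 * k) = 4 * k by ring]
          ring, show L ^ (A + 4 * k + 4) = L ^ A * L ^ (4 * k) * L ^ 2 * L ^ 2 by ring]
        field_simp
    _ ≤ (H : ℝ) ^ k * (X : ℝ) ^ 2 / L ^ A * 1 := by
        apply mul_le_mul_of_nonneg_left _ (by positivity)
        rw [div_le_one (by positivity)]
        nlinarith
    _ = _ := mul_one _

end Pool.Agent.H561.E2
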