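import Pool.Agent.H561.E2.T2

set_option autoImplicit false

/-! The asymptotic formula with von Mangoldt weights, for almost all tuples of shifts of a short box. -/

namespace Pool.Agent.H561.E2

open Finset Filter Topology
open Pool.Agent.helper24_UT
open Pool.Agent.H373R2.T7 (pz mem_pz Vz Vz_pos Vz_inv_small lamz)

/-- the shifts as integers -/
def bh {k : ℕ} (b : Fin k → ℤ) (h : Fin k → ℕ) : Fin k → ℤ := fun i => b i + h i

/-- nondegenerate systems -/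
def NDeg {k : ℕ} (c h : Fin k → ℤ) : Prop := (∀ i, h i ≠ 0) ∧ ∀ i j, i ≠ j → DD c h i j ≠ 0

/-- the sum with von Mangoldt weights -/
noncomputable def WL {k : ℕ} (c : Fin k → ℤ) (S : Fin k → Finset ℕ) (N₁ N₂ : ℕ) (h : Fin k → ℤ) : ℝ :=
  ∑ n ∈ Ioc N₁ N₂, ArithmeticFunction.vonMangoldt n * ∏ i, be (S i) (LFo c h i n).toNat

/-- the expected value -/
noncomputable def Mn {k : ℕ} (c : Fin k → ℤ) (S : Fin k → Finset ℕ) (N₁ N₂ : ℕ) (h : Fin k → ℤ) : ℝ :=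
  singT c h * (∏ i, ∑ p ∈ S i, 1 / (p : ℝ)) * ((N₂ : ℝ) - N₁)

open Classical in
/-- almost all tuples of shifts -/
def S_TUP : Prop := ∀ (k : ℕ) (c : Fin k → ℤ), (∀ i, c i ≠ 0) → ∀ A : ℕ, ∃ a G : ℕ, ∀ E : ℕ, ∃ X₀ : ℕ, ∀ X : ℕ, X₀ ≤ X →
  ∀ S : Fin k → Finset ℕ, (∀ i, ∀ p ∈ S i, p.Prime ∧ (Real.log X) ^ a < p ∧ (p : ℝ) ≤ (Real.log X) ^ E) →
  ∀ H : ℕ, 1 ≤ H → (Real.log X) ^ (E + G) ≤ H → 4 * H ^ 2 ≤ X → ∀ (N₁ N₂ : ℕ) (b : Fin k → ℤ), N₁ < N₂ → N₂ ≤ X →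
  (∀ i, ∀ n ∈ Ioc N₁ N₂, 1 ≤ LFo c b i n ∧ LFo c b i n + H ≤ X) →
  (((Fintype.piFinset (fun _ : Fin k => range H)).filter (fun h => NDeg c (bh b h) ∧
    ¬ |WL c S N₁ N₂ (bh b h) - Mn c S N₁ N₂ (bh b h)| ≤ X / (Real.log X) ^ A)).card : ℝ) ≤ (H : ℝ) ^ k / (Real.log X) ^ A ∧
  ∀ h ∈ Fintype.piFinset (fun _ : Fin k => range H), NDeg c (bh b h) →
    Multipliable (fun p : ℕ => if p.Prime then lf c (bh b h) p else 1)

theorem t_TUP (hT : S_TEL) : S_TUP := by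
  classical
  intro k c hc A
  obtain ⟨a₁, G, B₀, hT⟩ := hT k (3 * A + 3)
  obtain ⟨Z₀, hmain⟩ := main_term c hc (A + 1)
  obtain ⟨Z, hZ⟩ : ∃ Z, Z = max (max B₀ Z₀) 1 := ⟨_, rfl⟩
  obtain ⟨a₀, hmain⟩ := hmain Z (by rw [hZ]; exact (le_max_right _ _).trans (le_max_left _ _))
  obtain ⟨a, ha⟩ : ∃ a, a = max (max a₁ a₀) (Z + 1) := ⟨_, rfl⟩
  have ha1 : a₁ ≤ a := by rw [ha]; exact (le_max_left _ _).trans (le_max_left _ _)
  have ha0 : a₀ ≤ a := by rw [ha]; exact (le_max_right _ _).trans (le_max_left _ _)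
  have haZ : Z + 1 ≤ a := by rw [ha]; exact le_max_right _ _
  have hBZ : B₀ ≤ Z := by rw [hZ]; exact (le_max_left _ _).trans (le_max_left _ _)
  have hZ1 : 1 ≤ Z := by rw [hZ]; exact le_max_right _ _
  refine ⟨a, G, fun E => ?_⟩
  obtain ⟨X₁, hT⟩ := hT (Z + 1)
  obtain ⟨X₂, hmain⟩ := hmain a ha0 E
  obtain ⟨X₃, hX₃⟩ := Filter.eventually_atTop.1 ((Sil2.ev_log 1000).and ((Sil2.ev_pow E (1 / 5) 1 (by norm_num)).and
    (Sil2.ev_pow 0 1 (4 * (((∏ i, (c i).natAbs : ℕ) : ℝ) + 2)) (by norm_num))))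
  refine ⟨max (max X₁ X₂) (max X₃ 3), fun X hX S hS H hH1 hH hHX N₁ N₂ b hN12 hN2 hb => ?_⟩
  have hX1 : X₁ ≤ X := ((le_max_left _ _).trans (le_max_left _ _)).trans hX
  have hX2 : X₂ ≤ X := ((le_max_right _ _).trans (le_max_left _ _)).trans hX
  obtain ⟨hLbig, c1, c2⟩ := hX₃ X (((le_max_left _ _).trans (le_max_right _ _)).trans hX)
  have hX3 : 3 ≤ X := ((le_max_right _ _).trans (le_max_right _ _)).trans hX
  have hT := hT X hX1
  have hmain := hmain X hX2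
  obtain ⟨L, hLdef⟩ : ∃ L, L = Real.log (X : ℝ) := ⟨_, rfl⟩
  rw [← hLdef] at hLbig c1 c2 hT hmain hS hH ⊢
  have hL1 : 1 ≤ L := by linarith
  have hL0 : 0 < L := by linarith
  have hXR : (3 : ℝ) ≤ X := by exact_mod_cast hX3
  have hX0' : (0 : ℝ) < X := lt_of_lt_of_le (by norm_num) hXR
  have hX1r : (1 : ℝ) ≤ X := le_trans (by norm_num) hXR
  rw [one_mul] at c1
  rw [Real.rpow_one, pow_zero, mul_one] at c2
  -- the sieve range
  have hLZ1 : 1 ≤ L ^ Z := one_le_pow₀ hL1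
  obtain ⟨z, hz⟩ : ∃ z, z = ⌈L ^ Z⌉₊ := ⟨_, rfl⟩
  have hz1 : L ^ Z ≤ z := by rw [hz]; exact Nat.le_ceil _
  have hz2 : (z : ℝ) ≤ L ^ (Z + 1) := by
    have h1 := (Nat.ceil_lt_add_one (show 0 ≤ L ^ Z by positivity)).le
    rw [← hz] at h1
    rw [pow_succ]
    nlinarith
  have hzB : L ^ B₀ ≤ z := (pow_le_pow_right₀ hL1 hBZ).trans hz1
  have hza : (z : ℝ) ≤ L ^ a := hz2.trans (pow_le_pow_right₀ hL1 haZ)
  obtain ⟨P, hP⟩ : ∃ P, P = ⌊L ^ E⌋₊ := ⟨_, rfl⟩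
  have hP1 : (P : ℝ) ≤ L ^ E := by rw [hP]; exact Nat.floor_le (by positivity)
  have hP5 : P ^ 5 ≤ X := by
    have h1 : ((P : ℝ)) ^ 5 ≤ ((X : ℝ) ^ (1 / 5 : ℝ)) ^ 5 := pow_le_pow_left₀ (Nat.cast_nonneg _) (hP1.trans c1) 5
    rw [← Real.rpow_natCast ((X : ℝ) ^ (1 / 5 : ℝ)) 5, ← Real.rpow_mul hX0'.le] at h1
    norm_num at h1
    exact_mod_cast h1
  -- the positions
  obtain ⟨φ, hφ⟩ : ∃ φ : Fin k → ℕ → ℕ, φ = fun i n => (LFo c b i n).toNat := ⟨_, rfl⟩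
  have hφc : ∀ i, ∀ n ∈ Ioc N₁ N₂, ((φ i n : ℕ) : ℤ) = LFo c b i n := by
    intro i n hn
    rw [hφ]
    exact Int.toNat_of_nonneg (by linarith [(hb i n hn).1])
  have hinj : ∀ i, ∀ n ∈ Ioc N₁ N₂, ∀ m ∈ Ioc N₁ N₂, φ i n = φ i m → n = m := by
    intro i n hn m hm hnm
    have h1 : LFo c b i n = LFo c b i m := by rw [← hφc i n hn, ← hφc i m hm, hnm]
    unfold LFo at h1
    have h2 : c i * ((n : ℤ) - m) = 0 := by linarith
    rcases mul_eq_zero.1 h2 with h3 | h3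
    · exact absurd h3 (hc i)
    · omega
  have hφb : ∀ i, ∀ n ∈ Ioc N₁ N₂, 1 ≤ φ i n ∧ φ i n + H ≤ X := by
    intro i n hn
    have h1 := hφc i n hn
    have h2 := hb i n hn
    constructor
    · have : (1 : ℤ) ≤ ((φ i n : ℕ) : ℤ) := by rw [h1]; exact h2.1
      exact_mod_cast this
    · have : ((φ i n : ℕ) : ℤ) + H ≤ X := by rw [h1]; exact h2.2
      exact_mod_cast this
  have htel := hT z hzB hz2 P hP5 S (fun i p hp => ⟨(hS i p hp).1, by
    have h1 := (hS i p hp).2.1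
    have : (z : ℝ) < p := by linarith
    exact_mod_cast this⟩) (fun i p hp => ⟨lt_of_le_of_lt (pow_le_pow_right₀ hL1 ha1) (hS i p hp).2.1, by
    rw [hP]
    exact Nat.le_floor (hS i p hp).2.2⟩) H hH1 (by
      calc (P : ℝ) * L ^ G ≤ L ^ E * L ^ G := by gcongr
        _ = L ^ (E + G) := by rw [pow_add]
        _ ≤ H := hH) hHX N₁ N₂ φ hN2 hinj hφb
  -- sizes of the shifts
  have hbX : ∀ i, |b i| + H ≤ (X : ℤ) ^ 2 := by
    intro i
    have h1 := hb i N₂ (by rw [mem_Ioc]; exact ⟨hN12, le_rfl⟩)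
    unfold LFo at h1
    have h2 : |c i| * 4 + 8 ≤ (X : ℤ) := by
      have h3 := natAbs_le_bigc c hc i
      have h4 : ((c i).natAbs : ℝ) ≤ ((∏ i, (c i).natAbs : ℕ) : ℝ) := by exact_mod_cast h3
      have h5 : ((c i).natAbs : ℝ) * 4 + 8 ≤ X := by linarith
      rw [Int.abs_eq_natAbs]
      exact_mod_cast h5
    have h3 : |c i * (N₂ : ℤ)| ≤ |c i| * X := by
      rw [abs_mul, Nat.abs_cast]
      apply mul_le_mul_of_nonneg_left _ (abs_nonneg _)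
      exact_mod_cast hN2
    have h4 : |b i| ≤ |c i| * X + X := by
      have h5 := abs_le.1 h3
      have h6 : (0 : ℤ) ≤ H := Int.natCast_nonneg _
      rw [abs_le]
      constructor <;> linarith
    have h5 : (H : ℤ) ≤ X := by
      have h6 : H ≤ X := by
        have : H ≤ H ^ 2 := Nat.le_self_pow (by norm_num) H
        omega
      exact_mod_cast h6
    have h6 : (0 : ℤ) ≤ X := Int.natCast_nonneg _
    have h7 : (0 : ℤ) ≤ |c i| := abs_nonneg _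
    nlinarith
  have hbh : ∀ h ∈ Fintype.piFinset (fun _ : Fin k => range H), ∀ i, |bh b h i| ≤ (X : ℤ) ^ 2 := by
    intro h hh i
    rw [Fintype.mem_piFinset] at hh
    have h1 := hh i
    rw [mem_range] at h1
    unfold bh
    have h2 : |b i + (h i : ℤ)| ≤ |b i| + |(h i : ℤ)| := abs_add_le _ _
    rw [Nat.abs_cast] at h2
    have h3 : (h i : ℤ) ≤ H := by exact_mod_cast h1.le
    have := hbX i
    linarith
  -- pointwise relation
  have hWL : ∀ h ∈ Fintype.piFinset (fun _ : Fin k => range H), WL c S N₁ N₂ (bh b h) =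
      Der S z φ N₁ N₂ h + ∑ n ∈ Ioc N₁ N₂, ArithmeticFunction.vonMangoldt n * ∏ i, bt (S i) z (LFo c (bh b h) i n) := by
    intro h _
    unfold WL Der
    rw [← sum_add_distrib]
    apply sum_congr rfl
    intro n hn
    have h1 : ∀ i, LFo c (bh b h) i n = ((φ i n + h i : ℕ) : ℤ) := by
      intro i
      push_cast
      rw [hφc i n hn]
      unfold LFo bh
      ring
    have h2 : ∏ i, be (S i) (LFo c (bh b h) i n).toNat = ∏ i, be (S i) (φ i n + h i) := by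
      apply prod_congr rfl
      intro i _
      rw [h1 i, Int.toNat_natCast]
    have h3 : ∏ i, bt (S i) z (LFo c (bh b h) i n) = ∏ i, bt (S i) z ((φ i n + h i : ℕ) : ℤ) := by
      apply prod_congr rfl
      intro i _
      rw [h1 i]
    rw [h2, h3]
    ring
  have hmt : ∀ h ∈ Fintype.piFinset (fun _ : Fin k => range H), NDeg c (bh b h) →
      Multipliable (fun p : ℕ => if p.Prime then lf c (bh b h) p else 1) ∧
      |∑ n ∈ Ioc N₁ N₂, ArithmeticFunction.vonMangoldt n * ∏ i, bt (S i) z (LFo c (bh b h) i n) - Mn c S N₁ N₂ (bh b h)| ≤ X / L ^ (A + 1) := by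
    intro h hh hnd
    obtain ⟨h1, h2⟩ := hmain z hz1 hz2 S hS (bh b h) (fun i => ⟨hnd.1 i, hbh h hh i⟩) hnd.2
    exact ⟨h1, h2 N₁ N₂ hN12.le hN2⟩
  refine ⟨?_, fun h hh hnd => (hmt h hh hnd).1⟩
  have hLA : 0 < L ^ A := by positivity
  have hsub : (Fintype.piFinset (fun _ : Fin k => range H)).filter (fun h => NDeg c (bh b h) ∧
    ¬ |WL c S N₁ N₂ (bh b h) - Mn c S N₁ N₂ (bh b h)| ≤ X / L ^ A) ⊆
      (Fintype.piFinset (fun _ : Fin k => range H)).filter (fun h => (X / (2 * L ^ A)) ^ 2 ≤ (Der S z φ N₁ N₂ h) ^ 2) := by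
    intro h hh
    rw [mem_filter] at hh ⊢
    obtain ⟨hh1, hnd, hbad⟩ := hh
    refine ⟨hh1, ?_⟩
    have h1 := (hmt h hh1 hnd).2
    rw [hWL h hh1] at hbad
    by_contra hcon
    push Not at hcon
    have h2 : |Der S z φ N₁ N₂ h| < X / (2 * L ^ A) := by
      have := abs_lt_of_sq_lt_sq hcon (by positivity)
      exact this
    apply hbad
    have h3 : X / L ^ (A + 1) ≤ X / (2 * L ^ A) := by
      apply div_le_div_of_nonneg_left hX0'.le (by positivity)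
      rw [pow_succ]
      nlinarith
    have h4 : X / L ^ A = X / (2 * L ^ A) + X / (2 * L ^ A) := by
      field_simp
      ring
    have h5 := abs_add_le (Der S z φ N₁ N₂ h) (∑ n ∈ Ioc N₁ N₂, ArithmeticFunction.vonMangoldt n * ∏ i, bt (S i) z (LFo c (bh b h) i n) - Mn c S N₁ N₂ (bh b h))
    rw [← add_sub_assoc] at h5
    linarith
  have hcount : (((Fintype.piFinset (fun _ : Fin k => range H)).filter (fun h => (X / (2 * L ^ A)) ^ 2 ≤ (Der S z φ N₁ N₂ h) ^ 2)).card : ℝ) *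
      (X / (2 * L ^ A)) ^ 2 ≤ (H : ℝ) ^ k * (X : ℝ) ^ 2 / L ^ (3 * A + 3) := by
    refine le_trans ?_ htel
    rw [← nsmul_eq_mul]
    refine (card_nsmul_le_sum _ (fun h => (Der S z φ N₁ N₂ h) ^ 2) _ (fun h hh => (mem_filter.1 hh).2)).trans ?_
    apply sum_le_sum_of_subset_of_nonneg (filter_subset _ _)
    intro _ _ _
    positivity
  have h1 : (((Fintype.piFinset (fun _ : Fin k => range H)).filter (fun h => NDeg c (bh b h) ∧
    ¬ |WL c S N₁ N₂ (bh b h) - Mn c S N₁ N₂ (bh b h)| ≤ X / L ^ A)).card : ℝ) ≤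
      (((Fintype.piFinset (fun _ : Fin k => range H)).filter (fun h => (X / (2 * L ^ A)) ^ 2 ≤ (Der S z φ N₁ N₂ h) ^ 2)).card : ℝ) := by
    exact_mod_cast card_le_card hsub
  refine h1.trans ?_
  have hpos : 0 < (X / (2 * L ^ A)) ^ 2 := by positivity
  rw [← le_div_iff₀ hpos] at hcount
  refine hcount.trans ?_
  have e1 : (H : ℝ) ^ k * (X : ℝ) ^ 2 / L ^ (3 * A + 3) / (X / (2 * L ^ A)) ^ 2 = (H : ℝ) ^ k / L ^ A * (4 / L ^ 3) := by
    rw [show L ^ (3 * A + 3) = L ^ A * (L ^ A) ^ 2 * L ^ 3 by ring]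
    field_simp
    norm_num
  rw [e1]
  calc (H : ℝ) ^ k / L ^ A * (4 / L ^ 3) ≤ (H : ℝ) ^ k / L ^ A * 1 := by
        apply mul_le_mul_of_nonneg_left _ (by positivity)
        rw [div_le_one (by positivity)]
        have : L ≤ L ^ 3 := le_self_pow₀ hL1 (by norm_num)
        linarith
    _ = _ := mul_one _

end Pool.Agent.H561.E2
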