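import Pool.Agent.H561.E2.T3

set_option autoImplicit false

/-! From von Mangoldt weights to numbers of primes. -/

namespace Pool.Agent.H561.E2

open Finset Filter Topology
open Pool.Agent.helper24_UT
open Pool.Agent.H373R2.T7 (pz mem_pz Vz Vz_pos Vz_inv_small lamz)

/-- eventually the iterated logarithm is small -/
lemma ev_ll (c δ : ℝ) (hδ : 0 < δ) : ∃ x0 : ℕ, ∀ x : ℕ, x0 ≤ x → c * Real.log (Real.log x) ≤ δ * Real.log x := by
  have h1 := (Real.isLittleO_log_id_atTop).bound (show 0 < δ / (|c| + 1) by positivity)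
  have h2 := (Real.tendsto_log_atTop.comp (tendsto_natCast_atTop_atTop (R := ℝ))).eventually
    (h1.and (Filter.eventually_ge_atTop 1))
  obtain ⟨x0, hx0⟩ := Filter.eventually_atTop.1 h2
  refine ⟨x0, fun x hx => ?_⟩
  obtain ⟨h3, h4⟩ := hx0 x hx
  simp only [Function.comp_apply] at h3 h4
  have h5 : 0 ≤ Real.log (Real.log x) := Real.log_nonneg h4
  rw [Real.norm_eq_abs, Real.norm_eq_abs, id, abs_of_nonneg h5, abs_of_nonneg (by linarith : 0 ≤ Real.log (x : ℝ))] at h3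
  calc c * Real.log (Real.log x) ≤ (|c| + 1) * Real.log (Real.log x) := by
        apply mul_le_mul_of_nonneg_right _ h5
        linarith [le_abs_self c]
    _ ≤ (|c| + 1) * (δ / (|c| + 1) * Real.log x) := mul_le_mul_of_nonneg_left h3 (by positivity)
    _ = δ * Real.log x := by field_simp

/-- the proper prime powers up to `N` -/
noncomputable def PP (N : ℕ) : Finset ℕ := by
  classical exact (Icc 1 N).filter (fun m => ArithmeticFunction.vonMangoldt m ≠ 0 ∧ ¬ m.Prime)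

lemma PP_card (N : ℕ) : (PP N).card ≤ (Nat.sqrt N + 1) * (Nat.log 2 N + 1) := by
  classical
  have h1 : PP N ⊆ (range (Nat.sqrt N + 1) ×ˢ range (Nat.log 2 N + 1)).image (fun x => x.1 ^ x.2) := by
    intro m hm
    unfold PP at hm
    rw [mem_filter, mem_Icc] at hm
    obtain ⟨⟨hm1, hmN⟩, hΛ, hnp⟩ := hm
    have h2 : IsPrimePow m := by
      by_contra hcon
      exact hΛ (ArithmeticFunction.vonMangoldt_eq_zero_iff.2 hcon)
    rw [isPrimePow_nat_iff] at h2
    obtain ⟨p, j, hp, hj, rfl⟩ := h2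
    have hj2 : 2 ≤ j := by
      by_contra hcon
      have : j = 1 := by omega
      rw [this, pow_one] at hnp
      exact hnp hp
    rw [mem_image]
    refine ⟨(p, j), ?_, rfl⟩
    rw [mem_product, mem_range, mem_range]
    constructor
    · apply Nat.lt_succ_of_le
      rw [Nat.le_sqrt']
      calc p ^ 2 ≤ p ^ j := Nat.pow_le_pow_right hp.pos hj2
        _ ≤ N := hmN
    · apply Nat.lt_succ_of_le
      apply Nat.le_log_of_pow_le (by norm_num)
      calc 2 ^ j ≤ p ^ j := Nat.pow_le_pow_left hp.two_le j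
        _ ≤ N := hmN
  refine (card_le_card h1).trans (card_image_le.trans ?_)
  rw [card_product, card_range, card_range]

open Classical in
lemma bad_pp (S : Finset ℕ) (hS : ∀ g ∈ S, 1 ≤ g) (X : ℕ) (T : Finset ℕ) (φ : ℕ → ℕ)
    (hinj : ∀ n ∈ T, ∀ m ∈ T, φ n = φ m → n = m) (hφ : ∀ n ∈ T, 1 ≤ φ n ∧ φ n ≤ X) :
    (T.filter (fun n => ∃ g ∈ S, g ∣ φ n ∧ ArithmeticFunction.vonMangoldt (φ n / g) ≠ 0 ∧ ¬ (φ n / g).Prime)).card ≤
      S.card * ((Nat.sqrt X + 1) * (Nat.log 2 X + 1)) := by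
  have h1 : (T.filter (fun n => ∃ g ∈ S, g ∣ φ n ∧ ArithmeticFunction.vonMangoldt (φ n / g) ≠ 0 ∧ ¬ (φ n / g).Prime)).card ≤
      ((S ×ˢ PP X).image (fun x => x.1 * x.2)).card := by
    apply card_le_card_of_injOn φ
    · intro n hn
      rw [mem_coe, mem_filter] at hn
      obtain ⟨hn1, g, hg, hd, hΛ, hnp⟩ := hn
      rw [mem_coe, mem_image]
      refine ⟨(g, φ n / g), ?_, Nat.mul_div_cancel' hd⟩
      rw [mem_product]
      refine ⟨hg, ?_⟩
      unfold PP
      rw [mem_filter, mem_Icc]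
      have h2 := hφ n hn1
      refine ⟨⟨Nat.div_pos (Nat.le_of_dvd (by omega) hd) (hS g hg), (Nat.div_le_self _ _).trans h2.2⟩, hΛ, hnp⟩
    · intro n hn m hm hnm
      rw [mem_coe, mem_filter] at hn hm
      exact hinj n hn.1 m hm.1 hnm
  refine h1.trans (card_image_le.trans ?_)
  rw [card_product]
  exact Nat.mul_le_mul_left _ (PP_card X)

lemma bad_small (Y : ℕ) (T : Finset ℕ) (φ : ℕ → ℕ) (hinj : ∀ n ∈ T, ∀ m ∈ T, φ n = φ m → n = m) (hφ : ∀ n ∈ T, 1 ≤ φ n) :
    (T.filter (fun n => φ n ≤ Y)).card ≤ Y := by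
  have h1 : (T.filter (fun n => φ n ≤ Y)).card ≤ (Icc 1 Y).card := by
    apply card_le_card_of_injOn φ
    · intro n hn
      rw [mem_coe, mem_filter] at hn
      rw [mem_coe, mem_Icc]
      exact ⟨hφ n hn.1, hn.2⟩
    · intro n hn m hm hnm
      rw [mem_coe, mem_filter] at hn hm
      exact hinj n hn.1 m hm.1 hnm
  rwa [Nat.card_Icc, Nat.add_sub_cancel] at h1

/-- products of an element of `S` and a prime -/
def PS (S : Finset ℕ) (m : ℕ) : Prop := ∃ g ∈ S, ∃ q : ℕ, q.Prime ∧ m = g * q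

lemma be_one (S : Finset ℕ) (hS : ∀ g ∈ S, g.Prime) (m g q : ℕ) (hg : g ∈ S) (hq : q.Prime) (hm : m = g * q) (hqS : ∀ g' ∈ S, g' < q) :
    be S m = Real.log q := by
  classical
  unfold be
  rw [sum_eq_single_of_mem g hg]
  · rw [if_pos (hm ▸ Dvd.intro q rfl), hm, Nat.mul_div_cancel_left q (hS g hg).pos]
    exact ArithmeticFunction.vonMangoldt_apply_prime hq
  · intro g' hg' hne
    rw [if_neg]
    intro hd
    rw [hm] at hd
    rcases (hS g' hg').dvd_mul.1 hd with h1 | h1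
    · exact hne ((Nat.prime_dvd_prime_iff_eq (hS g' hg') (hS g hg)).1 h1)
    · have h2 := (Nat.prime_dvd_prime_iff_eq (hS g' hg') hq).1 h1
      have := hqS g' hg'
      omega

/-- the powers of numbers close to one -/
lemma one_sub_pow (j : ℕ) (δ : ℝ) (h0 : 0 ≤ δ) (h1 : δ ≤ 1) : 1 - j * δ ≤ (1 - δ) ^ j := by
  have := one_add_mul_le_pow (show (-2 : ℝ) ≤ -δ by linarith) j
  calc 1 - j * δ = 1 + j * (-δ) := by ring
    _ ≤ (1 + -δ) ^ j := this
    _ = _ := by ring

open Classical in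
/-- the number of the primes `n` for which all the values are products of an element of `S i` and a prime -/
noncomputable def cntE {k : ℕ} (c : Fin k → ℤ) (S : Fin k → Finset ℕ) (N₁ N₂ : ℕ) (h : Fin k → ℤ) : ℕ :=
  ((Ioc N₁ N₂).filter (fun n => n.Prime ∧ ∀ i, PS (S i) (LFo c h i n).toNat)).card

theorem count_WL (k : ℕ) (c : Fin k → ℤ) (hc : ∀ i, c i ≠ 0) (A E : ℕ) (ε : ℝ) (hε : 0 < ε) : ∃ X₀ : ℕ, ∀ X : ℕ, X₀ ≤ X →
    ∀ S : Fin k → Finset ℕ, (∀ i, ∀ p ∈ S i, p.Prime ∧ (p : ℝ) ≤ (Real.log X) ^ E) → ∀ (N₁ N₂ : ℕ) (h : Fin k → ℤ), N₂ ≤ X →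
    (∀ i, ∀ n ∈ Ioc N₁ N₂, 1 ≤ LFo c h i n ∧ LFo c h i n ≤ X) →
    |(cntE c S N₁ N₂ h : ℝ) * Real.log X ^ (k + 1) - WL c S N₁ N₂ h| ≤ ε * WL c S N₁ N₂ h + X / (Real.log X) ^ A := by
  classical
  obtain ⟨D, hD⟩ : ∃ D, D = A + 2 * k + 3 := ⟨_, rfl⟩
  obtain ⟨η, hη⟩ : ∃ η : ℝ, η = min (ε / (2 * (k + 1))) (1 / (2 * (k + 1))) := ⟨_, rfl⟩
  have hk1 : (0 : ℝ) < k + 1 := by positivity
  have hη0 : 0 < η := by rw [hη]; positivity
  have hη1 : η * (2 * (k + 1)) ≤ ε := by
    have : η ≤ ε / (2 * (k + 1)) := by rw [hη]; exact min_le_left _ _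
    rwa [le_div_iff₀ (by positivity)] at this
  have hη2 : η * (2 * (k + 1)) ≤ 1 := by
    have : η ≤ 1 / (2 * (k + 1)) := by rw [hη]; exact min_le_right _ _
    rwa [le_div_iff₀ (by positivity)] at this
  obtain ⟨m3, h3⟩ := ev_ll ((D + E : ℕ) : ℝ) η hη0
  obtain ⟨X₁, hX₁⟩ := Filter.eventually_atTop.1 ((Sil2.ev_log (1000 + 4 * ((k : ℝ) + 1) * 2 ^ (k + 2))).and
    ((Sil2.ev_pow (A + 2 * k + 3 + E) (1 / 2) 8 (by norm_num)).and (Sil2.ev_pow (D + 2 * E) 1 2 (by norm_num))))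
  refine ⟨max (max X₁ m3) 3, fun X hX S hS N₁ N₂ h hN2 hb => ?_⟩
  obtain ⟨hLbig, c1, c2⟩ := hX₁ X (((le_max_left _ _).trans (le_max_left _ _)).trans hX)
  have hll := h3 X (((le_max_right _ _).trans (le_max_left _ _)).trans hX)
  have hX3 : 3 ≤ X := (le_max_right _ _).trans hX
  obtain ⟨L, hLdef⟩ : ∃ L, L = Real.log (X : ℝ) := ⟨_, rfl⟩
  rw [← hLdef] at hLbig c1 c2 hll hS ⊢
  have hkk : 0 ≤ 4 * ((k : ℝ) + 1) * 2 ^ (k + 2) := by positivity
  have hL1 : 1 ≤ L := by linarith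
  have hL0 : 0 < L := by linarith
  have hXR : (3 : ℝ) ≤ X := by exact_mod_cast hX3
  have hX0' : (0 : ℝ) < X := lt_of_lt_of_le (by norm_num) hXR
  have hX1r : (1 : ℝ) ≤ X := le_trans (by norm_num) hXR
  rw [← Real.sqrt_eq_rpow] at c1
  rw [Real.rpow_one] at c2
  have hss : √(X : ℝ) * √(X : ℝ) = X := Real.mul_self_sqrt hX0'.le
  have hs0 : 0 < √(X : ℝ) := Real.sqrt_pos.2 hX0'
  have hs1 : 1 ≤ √(X : ℝ) := Real.one_le_sqrt.2 hX1r
  have hLD0 : 0 < L ^ D := by positivity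
  have hLE0 : 0 < L ^ E := by positivity
  -- the positions
  obtain ⟨φ, hφ⟩ : ∃ φ : Fin k → ℕ → ℕ, φ = fun i n => (LFo c h i n).toNat := ⟨_, rfl⟩
  have hφc : ∀ i, ∀ n ∈ Ioc N₁ N₂, ((φ i n : ℕ) : ℤ) = LFo c h i n := by
    intro i n hn
    rw [hφ]
    exact Int.toNat_of_nonneg (by linarith [(hb i n hn).1])
  have hinj : ∀ i, ∀ n ∈ Ioc N₁ N₂, ∀ m ∈ Ioc N₁ N₂, φ i n = φ i m → n = m := by
    intro i n hn m hm hnm
    have h1 : LFo c h i n = LFo c h i m := by rw [← hφc i n hn, ← hφc i m hm, hnm]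
    unfold LFo at h1
    have h2 : c i * ((n : ℤ) - m) = 0 := by linarith
    rcases mul_eq_zero.1 h2 with h3 | h3
    · exact absurd h3 (hc i)
    · omega
  have hφb : ∀ i, ∀ n ∈ Ioc N₁ N₂, 1 ≤ φ i n ∧ φ i n ≤ X := by
    intro i n hn
    have h1 := hφc i n hn
    have h2 := hb i n hn
    constructor
    · have : (1 : ℤ) ≤ ((φ i n : ℕ) : ℤ) := by rw [h1]; exact h2.1
      exact_mod_cast this
    · have : ((φ i n : ℕ) : ℤ) ≤ X := by rw [h1]; exact h2.2
      exact_mod_cast this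
  obtain ⟨Y, hY⟩ : ∃ Y, Y = ⌊(X : ℝ) / L ^ D⌋₊ := ⟨_, rfl⟩
  have hYle : (Y : ℝ) ≤ X / L ^ D := by rw [hY]; exact Nat.floor_le (by positivity)
  have hYlt : ∀ m : ℕ, ¬ m ≤ Y → (X : ℝ) / L ^ D ≤ m := by
    intro m hm
    rw [hY] at hm
    by_contra hcon
    push Not at hcon
    exact hm (Nat.le_floor hcon.le)
  -- the bad set
  obtain ⟨B1, hB1⟩ : ∃ B1 : Finset ℕ, B1 = (Ioc N₁ N₂).filter (fun n => n ≤ Y) := ⟨_, rfl⟩
  obtain ⟨B2, hB2⟩ : ∃ B2 : Finset ℕ, B2 = (Ioc N₁ N₂).filter (fun n => ArithmeticFunction.vonMangoldt n ≠ 0 ∧ ¬ n.Prime) := ⟨_, rfl⟩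
  obtain ⟨B3, hB3⟩ : ∃ B3 : Finset ℕ, B3 = (univ : Finset (Fin k)).biUnion (fun i => (Ioc N₁ N₂).filter (fun n => φ i n ≤ Y)) := ⟨_, rfl⟩
  obtain ⟨B4, hB4⟩ : ∃ B4 : Finset ℕ, B4 = (univ : Finset (Fin k)).biUnion (fun i => (Ioc N₁ N₂).filter (fun n => ∃ g ∈ S i, g ∣ φ i n ∧
    ArithmeticFunction.vonMangoldt (φ i n / g) ≠ 0 ∧ ¬ (φ i n / g).Prime)) := ⟨_, rfl⟩
  obtain ⟨Bad, hBad⟩ : ∃ Bad, Bad = B1 ∪ B2 ∪ B3 ∪ B4 := ⟨_, rfl⟩
  have hcB1 : B1.card ≤ Y := by
    have := bad_small Y (Ioc N₁ N₂) (fun n => n) (fun _ _ _ _ h => h) (fun n hn => by rw [mem_Ioc] at hn; omega)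
    rw [hB1]
    exact this
  have hPPX : B2.card ≤ (Nat.sqrt X + 1) * (Nat.log 2 X + 1) := by
    refine le_trans (card_le_card ?_) (PP_card X)
    intro n hn
    rw [hB2, mem_filter, mem_Ioc] at hn
    unfold PP
    rw [mem_filter, mem_Icc]
    exact ⟨⟨by omega, by omega⟩, hn.2⟩
  have hcB3 : B3.card ≤ k * Y := by
    rw [hB3]
    refine card_biUnion_le.trans ?_
    have h1 : ∀ i ∈ (univ : Finset (Fin k)), ((Ioc N₁ N₂).filter (fun n => φ i n ≤ Y)).card ≤ Y :=
      fun i _ => bad_small Y (Ioc N₁ N₂) (φ i) (hinj i) (fun n hn => (hφb i n hn).1)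
    have h2 := sum_le_card_nsmul _ _ _ h1
    rwa [card_univ, Fintype.card_fin, smul_eq_mul] at h2
  have hcB4 : (B4.card : ℝ) ≤ k * (L ^ E * (((Nat.sqrt X + 1) * (Nat.log 2 X + 1) : ℕ) : ℝ)) := by
    have h1 : (B4.card : ℝ) ≤ ∑ i : Fin k, (((Ioc N₁ N₂).filter (fun n => ∃ g ∈ S i, g ∣ φ i n ∧
        ArithmeticFunction.vonMangoldt (φ i n / g) ≠ 0 ∧ ¬ (φ i n / g).Prime)).card : ℝ) := by
      rw [hB4]
      exact_mod_cast card_biUnion_le
    refine h1.trans ?_
    have h2 : ∀ i ∈ (univ : Finset (Fin k)), (((Ioc N₁ N₂).filter (fun n => ∃ g ∈ S i, g ∣ φ i n ∧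
        ArithmeticFunction.vonMangoldt (φ i n / g) ≠ 0 ∧ ¬ (φ i n / g).Prime)).card : ℝ) ≤
        L ^ E * (((Nat.sqrt X + 1) * (Nat.log 2 X + 1) : ℕ) : ℝ) := by
      intro i _
      have h3 := bad_pp (S i) (fun g hg => (hS i g hg).1.one_le) X (Ioc N₁ N₂) (φ i) (hinj i) (hφb i)
      have h4 : (((Ioc N₁ N₂).filter (fun n => ∃ g ∈ S i, g ∣ φ i n ∧
        ArithmeticFunction.vonMangoldt (φ i n / g) ≠ 0 ∧ ¬ (φ i n / g).Prime)).card : ℝ) ≤
        ((S i).card : ℝ) * (((Nat.sqrt X + 1) * (Nat.log 2 X + 1) : ℕ) : ℝ) := by exact_mod_cast h3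
      refine h4.trans ?_
      apply mul_le_mul_of_nonneg_right _ (Nat.cast_nonneg _)
      exact card_S (S i) (L ^ E) hLE0.le (fun p hp => ⟨(hS i p hp).1.one_le, (hS i p hp).2⟩)
    have h3 := sum_le_card_nsmul _ _ _ h2
    rwa [card_univ, Fintype.card_fin, nsmul_eq_mul] at h3
  have hsq : (((Nat.sqrt X + 1) * (Nat.log 2 X + 1) : ℕ) : ℝ) ≤ 6 * L * √X := by
    have h1 : (Nat.sqrt X : ℝ) ≤ √X := Real.nat_sqrt_le_real_sqrt
    have h4 : (Nat.log 2 X : ℝ) ≤ 2 * L := by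
      have h5 : (2 : ℝ) ^ (Nat.log 2 X) ≤ X := by
        exact_mod_cast Nat.pow_log_le_self 2 (by omega)
      have h6 := Real.log_le_log (by positivity) h5
      rw [Real.log_pow, ← hLdef] at h6
      have := Real.log_two_gt_d9
      have h7 : (0 : ℝ) ≤ (Nat.log 2 X : ℝ) := Nat.cast_nonneg _
      nlinarith
    push_cast
    calc ((Nat.sqrt X : ℝ) + 1) * ((Nat.log 2 X : ℝ) + 1) ≤ (2 * √X) * (3 * L) := by
          apply mul_le_mul _ _ (by positivity) (by positivity)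
          · linarith
          · linarith
      _ = _ := by ring
  have hkr : (0 : ℝ) ≤ k := Nat.cast_nonneg _
  have hBadcard : (Bad.card : ℝ) ≤ ((k : ℝ) + 1) * (X / L ^ D) + ((k : ℝ) + 1) * (L ^ E * (6 * L * √X)) := by
    have h1 : Bad.card ≤ B1.card + B2.card + B3.card + B4.card := by
      rw [hBad]
      refine (card_union_le _ _).trans (Nat.add_le_add_right ?_ _)
      refine (card_union_le _ _).trans (Nat.add_le_add_right ?_ _)
      exact card_union_le _ _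
    have h2 : (Bad.card : ℝ) ≤ B1.card + B2.card + B3.card + B4.card := by exact_mod_cast h1
    have h3 : (B1.card : ℝ) ≤ Y := by exact_mod_cast hcB1
    have h4 : (B2.card : ℝ) ≤ (((Nat.sqrt X + 1) * (Nat.log 2 X + 1) : ℕ) : ℝ) := by exact_mod_cast hPPX
    have h5 : (B3.card : ℝ) ≤ k * Y := by exact_mod_cast hcB3
    have h6 : (k : ℝ) * (L ^ E * (((Nat.sqrt X + 1) * (Nat.log 2 X + 1) : ℕ) : ℝ)) ≤ k * (L ^ E * (6 * L * √X)) := by gcongr
    have h7 : (k : ℝ) * Y ≤ k * (X / L ^ D) := by gcongr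
    have h8 : 6 * L * √(X : ℝ) ≤ L ^ E * (6 * L * √X) := le_mul_of_one_le_left (by positivity) (one_le_pow₀ hL1)
    linarith
  -- the terms
  obtain ⟨t, ht⟩ : ∃ t : ℕ → ℝ, t = fun n => ArithmeticFunction.vonMangoldt n * ∏ i, be (S i) (φ i n) := ⟨_, rfl⟩
  have hWLt : WL c S N₁ N₂ h = ∑ n ∈ Ioc N₁ N₂, t n := by
    unfold WL
    rw [ht, hφ]
  have ht0 : ∀ n, 0 ≤ t n := by
    intro n
    rw [ht]
    exact mul_nonneg ArithmeticFunction.vonMangoldt_nonneg (prod_nonneg fun i _ => be_nonneg _ _)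
  have hlogX : ∀ m : ℕ, 1 ≤ m → m ≤ X → Real.log m ≤ L := by
    intro m h1 h2
    rw [hLdef]
    apply Real.log_le_log (by exact_mod_cast h1)
    exact_mod_cast h2
  have htle : ∀ n ∈ Ioc N₁ N₂, t n ≤ L * (2 * L ^ 2) ^ k := by
    intro n hn
    have hn' := hn
    rw [mem_Ioc] at hn'
    rw [ht]
    have hΛ : ArithmeticFunction.vonMangoldt n ≤ L :=
      ArithmeticFunction.vonMangoldt_le_log.trans (hlogX n (by omega) (by omega))
    have h1 : ∏ i, be (S i) (φ i n) ≤ (2 * L ^ 2) ^ k := by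
      calc ∏ i, be (S i) (φ i n) ≤ ∏ _i : Fin k, (2 * L ^ 2) := by
            apply prod_le_prod (fun i _ => be_nonneg _ _)
            intro i _
            have h2 := hφb i n hn
            exact be_le (S i) (fun g hg => (hS i g hg).1) _ (by omega) L (hlogX _ h2.1 h2.2)
        _ = _ := by rw [prod_const, card_univ, Fintype.card_fin]
    exact mul_le_mul hΛ h1 (prod_nonneg fun i _ => be_nonneg _ _) hL0.le
  obtain ⟨CN, hCN⟩ : ∃ CN : Finset ℕ, CN = (Ioc N₁ N₂).filter (fun n => n.Prime ∧ ∀ i, PS (S i) (φ i n)) := ⟨_, rfl⟩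
  have hcntE : (cntE c S N₁ N₂ h : ℝ) * L ^ (k + 1) = ∑ n ∈ Ioc N₁ N₂, if n ∈ CN then L ^ (k + 1) else 0 := by
    have e1 : ∑ n ∈ Ioc N₁ N₂, (if n ∈ CN then L ^ (k + 1) else 0) = ∑ n ∈ CN, L ^ (k + 1) := by
      rw [← sum_filter]
      apply sum_congr
      · rw [hCN]
        ext n
        simp only [mem_filter]
        tauto
      · intro _ _
        rfl
    rw [e1, sum_const, nsmul_eq_mul]
    unfold cntE
    rw [hCN, hφ]
  have hlogY : ∀ (j : ℕ) (m : ℝ), j ≤ D + E → (X : ℝ) / L ^ j ≤ m → (1 - η) * L ≤ Real.log m := by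
    intro j m hj hm
    have h1 : (X : ℝ) / L ^ (D + E) ≤ X / L ^ j := by
      apply div_le_div_of_nonneg_left hX0'.le (by positivity)
      exact pow_le_pow_right₀ hL1 hj
    have h2 := Real.log_le_log (by positivity) (h1.trans hm)
    rw [Real.log_div hX0'.ne' (by positivity), Real.log_pow, ← hLdef] at h2
    linarith
  have hη01 : η ≤ 1 := by nlinarith
  -- good terms
  have hgood : ∀ n ∈ Ioc N₁ N₂, n ∉ Bad → |(if n ∈ CN then L ^ (k + 1) else 0) - t n| ≤ ε * t n := by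
    intro n hn hnB
    have hn' := hn
    rw [mem_Ioc] at hn'
    rw [hBad, mem_union, mem_union, mem_union, not_or, not_or, not_or] at hnB
    obtain ⟨⟨⟨n1, n2⟩, n3⟩, n4⟩ := hnB
    have n1' : ¬ n ≤ Y := fun hcon => n1 (by rw [hB1, mem_filter]; exact ⟨hn, hcon⟩)
    have n2' : ArithmeticFunction.vonMangoldt n ≠ 0 → n.Prime := by
      intro h1
      by_contra hcon
      exact n2 (by rw [hB2, mem_filter]; exact ⟨hn, h1, hcon⟩)
    have n3' : ∀ i, ¬ φ i n ≤ Y := by
      intro i hcon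
      apply n3
      rw [hB3, mem_biUnion]
      exact ⟨i, mem_univ _, by rw [mem_filter]; exact ⟨hn, hcon⟩⟩
    have n4' : ∀ i, ∀ g ∈ S i, g ∣ φ i n → ArithmeticFunction.vonMangoldt (φ i n / g) ≠ 0 → (φ i n / g).Prime := by
      intro i g hg hd h1
      by_contra hcon
      apply n4
      rw [hB4, mem_biUnion]
      exact ⟨i, mem_univ _, by rw [mem_filter]; exact ⟨hn, g, hg, hd, h1, hcon⟩⟩
    split_ifs with hCNn
    · rw [hCN, mem_filter] at hCNn
      obtain ⟨_, hnp, hPS⟩ := hCNn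
      have hΛ : ArithmeticFunction.vonMangoldt n = Real.log n := ArithmeticFunction.vonMangoldt_apply_prime hnp
      have b1 : (1 - η) * L ≤ Real.log n := hlogY D n (by omega) (hYlt n n1')
      have b2 : Real.log n ≤ L := hlogX n (by omega) (by omega)
      have b3 : ∀ i, (1 - η) * L ≤ be (S i) (φ i n) ∧ be (S i) (φ i n) ≤ L := by
        intro i
        obtain ⟨g, hg, q, hq, hmq⟩ := hPS i
        have hgE := (hS i g hg).2
        have hg0 : (0 : ℝ) < g := by exact_mod_cast (hS i g hg).1.pos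
        have h1 := hYlt _ (n3' i)
        have hqX : (X : ℝ) / L ^ (D + E) ≤ q := by
          rw [hmq] at h1
          push_cast at h1
          rw [pow_add, ← div_div, div_le_iff₀ hLE0]
          refine h1.trans ?_
          rw [mul_comm]
          apply mul_le_mul_of_nonneg_left hgE (Nat.cast_nonneg _)
        have hqbig : ∀ g' ∈ S i, g' < q := by
          intro g' hg'
          have h2 : (L ^ E : ℝ) < X / L ^ (D + E) := by
            rw [lt_div_iff₀ (by positivity)]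
            calc L ^ E * L ^ (D + E) = L ^ (D + 2 * E) := by ring
              _ < 2 * L ^ (D + 2 * E) := by
                  have : 0 < L ^ (D + 2 * E) := by positivity
                  linarith
              _ ≤ X := c2
          have h3 : (g' : ℝ) < q := by linarith [(hS i g' hg').2]
          exact_mod_cast h3
        have h4 := be_one (S i) (fun g hg => (hS i g hg).1) (φ i n) g q hg hq hmq hqbig
        rw [h4]
        refine ⟨hlogY (D + E) q le_rfl hqX, ?_⟩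
        apply hlogX q hq.one_le
        have h5 : q ≤ φ i n := by
          rw [hmq]
          exact Nat.le_mul_of_pos_left _ (hS i g hg).1.pos
        exact h5.trans (hφb i n hn).2
      have h1η : 0 ≤ 1 - η := by linarith
      have hp1 : ((1 - η) * L) ^ k ≤ ∏ i, be (S i) (φ i n) := by
        calc ((1 - η) * L) ^ k = ∏ _i : Fin k, ((1 - η) * L) := by rw [prod_const, card_univ, Fintype.card_fin]
          _ ≤ _ := prod_le_prod (fun i _ => by positivity) (fun i _ => (b3 i).1)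
      have hp2 : ∏ i, be (S i) (φ i n) ≤ L ^ k := by
        calc ∏ i, be (S i) (φ i n) ≤ ∏ _i : Fin k, L := prod_le_prod (fun i _ => be_nonneg _ _) (fun i _ => (b3 i).2)
          _ = _ := by rw [prod_const, card_univ, Fintype.card_fin]
      have ht1 : ((1 - η) * L) ^ (k + 1) ≤ t n := by
        rw [ht, pow_succ, mul_comm]
        simp only
        rw [hΛ]
        exact mul_le_mul b1 hp1 (by positivity) (by linarith [show 0 ≤ (1 - η) * L by positivity])
      have ht2 : t n ≤ L ^ (k + 1) := by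
        rw [ht, pow_succ, mul_comm (L ^ k)]
        simp only
        rw [hΛ]
        exact mul_le_mul b2 hp2 (prod_nonneg fun i _ => be_nonneg _ _) hL0.le
      have h6 := one_sub_pow (k + 1) η hη0.le hη01
      have h7 : (1 - (k + 1) * η) * L ^ (k + 1) ≤ t n := by
        refine le_trans ?_ ht1
        rw [mul_pow]
        apply mul_le_mul_of_nonneg_right _ (by positivity)
        push_cast at h6
        exact h6
      have h8 : L ^ (k + 1) ≤ 2 * t n := by
        have h9 : (1 / 2 : ℝ) ≤ 1 - (k + 1) * η := by linarith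
        have : (1 / 2 : ℝ) * L ^ (k + 1) ≤ (1 - (k + 1) * η) * L ^ (k + 1) := by gcongr
        linarith
      rw [abs_of_nonneg (by linarith)]
      calc L ^ (k + 1) - t n ≤ (k + 1) * η * L ^ (k + 1) := by linarith
        _ ≤ (k + 1) * η * (2 * t n) := by gcongr
        _ = (η * (2 * (k + 1))) * t n := by ring
        _ ≤ ε * t n := mul_le_mul_of_nonneg_right hη1 (ht0 n)
    · have htz : t n = 0 := by
        rw [ht]
        simp only
        by_cases hΛ : ArithmeticFunction.vonMangoldt n = 0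
        · rw [hΛ, zero_mul]
        · have hnp := n2' hΛ
          have h1 : ¬ ∀ i, PS (S i) (φ i n) := by
            intro hcon
            apply hCNn
            rw [hCN, mem_filter]
            exact ⟨hn, hnp, hcon⟩
          push Not at h1
          obtain ⟨i, hi⟩ := h1
          rw [prod_eq_zero (mem_univ i), mul_zero]
          unfold be
          apply sum_eq_zero
          intro g hg
          split_ifs with hd
          · by_contra hcon
            apply hi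
            exact ⟨g, hg, φ i n / g, n4' i g hg hd hcon, (Nat.mul_div_cancel' hd).symm⟩
          · rfl
      rw [htz, sub_zero, abs_zero, mul_zero]
  have hbadt : ∀ n ∈ Ioc N₁ N₂, |(if n ∈ CN then L ^ (k + 1) else 0) - t n| ≤ 2 ^ (k + 1) * L ^ (2 * k + 1) := by
    intro n hn
    have h1 := htle n hn
    have h2 := ht0 n
    have h3 : L * (2 * L ^ 2) ^ k = 2 ^ k * L ^ (2 * k + 1) := by
      rw [mul_pow, ← pow_mul]
      ring
    have h4 : L ^ (k + 1) ≤ 2 ^ k * L ^ (2 * k + 1) := by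
      calc L ^ (k + 1) ≤ L ^ (2 * k + 1) := pow_le_pow_right₀ hL1 (by omega)
        _ ≤ 2 ^ k * L ^ (2 * k + 1) := le_mul_of_one_le_left (by positivity) (one_le_pow₀ (by norm_num))
    have h5 : 2 ^ (k + 1) * L ^ (2 * k + 1) = 2 ^ k * L ^ (2 * k + 1) + 2 ^ k * L ^ (2 * k + 1) := by ring
    have h6 : (0 : ℝ) ≤ (if n ∈ CN then L ^ (k + 1) else 0) := by
      split_ifs
      · positivity
      · exact le_rfl
    have h7 : (if n ∈ CN then L ^ (k + 1) else 0) ≤ L ^ (k + 1) := by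
      split_ifs
      · exact le_rfl
      · positivity
    rw [abs_le]
    constructor <;> linarith
  rw [hcntE, hWLt, ← sum_sub_distrib]
  refine (abs_sum_le_sum_abs _ _).trans ?_
  have h9 : ∀ n ∈ Ioc N₁ N₂, |(if n ∈ CN then L ^ (k + 1) else 0) - t n| ≤
      ε * t n + if n ∈ Bad then 2 ^ (k + 1) * L ^ (2 * k + 1) else 0 := by
    intro n hn
    by_cases hnB : n ∈ Bad
    · rw [if_pos hnB]
      have := hbadt n hn
      have : 0 ≤ ε * t n := mul_nonneg hε.le (ht0 n)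
      linarith
    · rw [if_neg hnB, add_zero]
      exact hgood n hn hnB
  refine (sum_le_sum h9).trans ?_
  rw [sum_add_distrib, ← mul_sum]
  apply add_le_add le_rfl
  have h10 : ∑ n ∈ Ioc N₁ N₂, (if n ∈ Bad then 2 ^ (k + 1) * L ^ (2 * k + 1) else 0) ≤ Bad.card * (2 ^ (k + 1) * L ^ (2 * k + 1)) := by
    rw [← sum_filter, sum_const, nsmul_eq_mul]
    apply mul_le_mul_of_nonneg_right _ (by positivity)
    have : ((Ioc N₁ N₂).filter (fun n => n ∈ Bad)).card ≤ Bad.card := by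
      apply card_le_card
      intro n hn
      rw [mem_filter] at hn
      exact hn.2
    exact_mod_cast this
  refine h10.trans ?_
  have hLA : 0 < L ^ A := by positivity
  calc (Bad.card : ℝ) * (2 ^ (k + 1) * L ^ (2 * k + 1))
      ≤ (((k : ℝ) + 1) * (X / L ^ D) + ((k : ℝ) + 1) * (L ^ E * (6 * L * √X))) * (2 ^ (k + 1) * L ^ (2 * k + 1)) := by gcongr
    _ = X / L ^ A * ((((k : ℝ) + 1) * 2 ^ (k + 1)) / L ^ 2) + ((k : ℝ) + 1) * 2 ^ (k + 1) * 6 * √X * L ^ (E + 2 * k + 2) := by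
        rw [hD, show L ^ (A + 2 * k + 3) = L ^ A * L ^ (2 * k + 1) * L ^ 2 by ring]
        field_simp
        ring
    _ ≤ X / L ^ A * (1 / 2) + X / L ^ A * (1 / 2) := by
        apply add_le_add
        · apply mul_le_mul_of_nonneg_left _ (by positivity)
          rw [div_le_div_iff₀ (by positivity) (by norm_num)]
          have h11 : ((k : ℝ) + 1) * 2 ^ (k + 1) * 2 ≤ L := by
            have : (2 : ℝ) ^ (k + 2) = 2 * 2 ^ (k + 1) := by ring
            rw [this] at hLbig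
            nlinarith [show 0 ≤ ((k : ℝ) + 1) * 2 ^ (k + 1) by positivity]
          nlinarith
        · rw [div_mul_eq_mul_div, le_div_iff₀ hLA]
          have h11 : ((k : ℝ) + 1) * 2 ^ (k + 1) * 6 ≤ 4 * L := by
            have : (2 : ℝ) ^ (k + 2) = 2 * 2 ^ (k + 1) := by ring
            rw [this] at hLbig
            nlinarith [show 0 ≤ ((k : ℝ) + 1) * 2 ^ (k + 1) by positivity]
          calc ((k : ℝ) + 1) * 2 ^ (k + 1) * 6 * √X * L ^ (E + 2 * k + 2) * L ^ A
              ≤ (4 * L) * √X * L ^ (E + 2 * k + 2) * L ^ A := by gcongr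
            _ = √X * (1 / 2) * (8 * L ^ (A + 2 * k + 3 + E)) := by ring
            _ ≤ √X * (1 / 2) * √X := by gcongr
            _ = X * (1 / 2) := by rw [mul_right_comm, hss]
    _ = X / L ^ A := by ring

end Pool.Agent.H561.E2
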