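import Pool.Agent.H561.E2.T4

set_option autoImplicit false

/-! The asymptotic formula for the numbers of primes, with relative errors. -/

namespace Pool.Agent.H561.E2

open Finset Filter Topology
open Pool.Agent.helper24_UT
open Pool.Agent.H373R2.T7 (pz mem_pz Vz Vz_pos Vz_inv_small lamz)

/-- no local obstruction -/
def Adm {k : ℕ} (c h : Fin k → ℤ) : Prop := ∀ p : ℕ, p.Prime → rho c h p < p - 1

lemma prod_one_sub (s : Finset ℕ) (a : ℕ → ℝ) (h0 : ∀ i ∈ s, 0 ≤ a i) (h1 : ∀ i ∈ s, a i ≤ 1) :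
    1 - ∑ i ∈ s, a i ≤ ∏ i ∈ s, (1 - a i) ∧ ∏ i ∈ s, (1 - a i) ≤ 1 ∧ 0 ≤ ∏ i ∈ s, (1 - a i) := by
  classical
  induction s using Finset.induction_on with
  | empty => simp
  | insert x s hx ih =>
    rw [prod_insert hx, sum_insert hx]
    obtain ⟨i1, i2, i3⟩ := ih (fun i hi => h0 i (mem_insert_of_mem hi)) (fun i hi => h1 i (mem_insert_of_mem hi))
    have a0 := h0 x (mem_insert_self _ _)
    have a1 := h1 x (mem_insert_self _ _)
    refine ⟨?_, ?_, ?_⟩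
    · nlinarith
    · nlinarith
    · exact mul_nonneg (by linarith) i3

lemma lf_lower {k : ℕ} (c h : Fin k → ℤ) (p : ℕ) (hp : p.Prime) (hr : rho c h p ≤ k) : 1 - CK k / (p : ℝ) ^ 2 ≤ lf c h p := by
  have hp2 : (2 : ℝ) ≤ p := by exact_mod_cast hp.two_le
  have hp0 : (0 : ℝ) < p := by linarith
  obtain ⟨u, hu⟩ : ∃ u, u = 1 / (p : ℝ) := ⟨_, rfl⟩
  have hu0 : 0 ≤ u := by rw [hu]; positivity
  have hu2 : u ≤ 1 / 2 := by
    rw [hu]
    exact one_div_le_one_div_of_le (by norm_num) hp2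
  have h1u : 0 < 1 - u := by linarith
  have hpow : 0 < (1 - u) ^ (k + 1) := by positivity
  have hpow' : 0 < (1 - u) ^ k := by positivity
  have h4 := pow_bound (k + 1) u hu0 (by linarith)
  have h6 : (1 / 2 : ℝ) ^ (k + 1) ≤ (1 - u) ^ (k + 1) := pow_le_pow_left₀ (by norm_num) (by linarith) _
  have h3 : (k : ℝ) / (p - 1) = k * u / (1 - u) := by
    rw [hu]
    have : (p : ℝ) - 1 ≠ 0 := by
      have : (0 : ℝ) < p - 1 := by linarith
      exact this.ne'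
    field_simp
  have e1 : (1 - ((k + 1 : ℕ) : ℝ) * u) / (1 - u) ^ (k + 1) = (1 - (k : ℝ) / (p - 1)) * ((1 - u)⁻¹) ^ k := by
    rw [h3, pow_succ, inv_pow]
    field_simp
    push_cast
    ring
  have h9 : CK k / (p : ℝ) ^ 2 = (((k + 1 : ℕ) : ℝ)) ^ 2 * 2 ^ (k + 1) * u ^ 2 := by
    unfold CK
    rw [hu]
    push_cast
    field_simp
  have h10 : 1 - CK k / (p : ℝ) ^ 2 ≤ (1 - ((k + 1 : ℕ) : ℝ) * u) / (1 - u) ^ (k + 1) := by
    rw [le_div_iff₀ hpow, h9]
    have h11 : (((k + 1 : ℕ) : ℝ)) ^ 2 * u ^ 2 ≤ (((k + 1 : ℕ) : ℝ)) ^ 2 * 2 ^ (k + 1) * u ^ 2 * (1 - u) ^ (k + 1) := by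
      calc (((k + 1 : ℕ) : ℝ)) ^ 2 * u ^ 2 = (((k + 1 : ℕ) : ℝ)) ^ 2 * 2 ^ (k + 1) * u ^ 2 * (1 / 2 : ℝ) ^ (k + 1) := by
            have : (2 : ℝ) ^ (k + 1) * (1 / 2 : ℝ) ^ (k + 1) = 1 := by
              rw [← mul_pow]
              norm_num
            calc (((k + 1 : ℕ) : ℝ)) ^ 2 * u ^ 2 = (((k + 1 : ℕ) : ℝ)) ^ 2 * u ^ 2 * ((2 : ℝ) ^ (k + 1) * (1 / 2 : ℝ) ^ (k + 1)) := by rw [this, mul_one]
              _ = _ := by ring
        _ ≤ _ := by gcongr
    linarith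
  have hr' : (rho c h p : ℝ) ≤ k := by exact_mod_cast hr
  have h12 : (rho c h p : ℝ) / (p - 1) ≤ (k : ℝ) / (p - 1) := div_le_div_of_nonneg_right hr' (by linarith)
  have h13 : 0 ≤ ((1 - u)⁻¹) ^ k := by positivity
  unfold lf
  rw [← hu]
  calc 1 - CK k / (p : ℝ) ^ 2 ≤ (1 - (k : ℝ) / (p - 1)) * ((1 - u)⁻¹) ^ k := by rw [← e1]; exact h10
    _ ≤ _ := by
        apply mul_le_mul_of_nonneg_right _ h13
        linarith

lemma lf_adm {k : ℕ} (c h : Fin k → ℤ) (p : ℕ) (hp : p.Prime) (hr : rho c h p < p - 1) : 1 / (p : ℝ) ≤ lf c h p := by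
  have hp2 : (2 : ℝ) ≤ p := by exact_mod_cast hp.two_le
  have h1 : (rho c h p : ℝ) + 1 ≤ ((p - 1 : ℕ) : ℝ) := by exact_mod_cast hr
  rw [Nat.cast_sub hp.one_le] at h1
  push_cast at h1
  have h2 : 1 / (p : ℝ) ≤ 1 - (rho c h p : ℝ) / (p - 1) := by
    rw [div_le_iff₀ (by linarith), sub_mul, one_mul, div_mul_eq_mul_div, le_sub_iff_add_le]
    have h3 : (rho c h p : ℝ) * p / (p - 1) ≤ p - 1 := by
      rw [div_le_iff₀ (by linarith)]
      nlinarith
    linarith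
  have h3 : 1 ≤ ((1 - 1 / (p : ℝ))⁻¹) ^ k := by
    apply one_le_pow₀
    have h4 : 0 < 1 - 1 / (p : ℝ) := by
      rw [sub_pos, div_lt_one (by linarith)]
      linarith
    rw [one_le_inv₀ h4]
    have : 0 ≤ 1 / (p : ℝ) := by positivity
    linarith
  unfold lf
  have h5 : 0 ≤ 1 - (rho c h p : ℝ) / (p - 1) := (fac_mem c h p hp).1
  calc 1 / (p : ℝ) ≤ (1 - (rho c h p : ℝ) / (p - 1)) * 1 := by rw [mul_one]; exact h2
    _ ≤ _ := mul_le_mul_of_nonneg_left h3 h5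

/-- a lower bound for the singular series of all admissible systems -/
theorem sing_lower {k : ℕ} (c : Fin k → ℤ) (hc : ∀ i, c i ≠ 0) : ∃ κ : ℝ, 0 < κ ∧ ∀ h : Fin k → ℤ,
    Multipliable (fun p : ℕ => if p.Prime then lf c h p else 1) → Adm c h → κ ≤ singT c h := by
  obtain ⟨Y, hY⟩ : ∃ Y : ℕ, Y = ⌈2 * CK k⌉₊ + (∏ i, (c i).natAbs) + 2 := ⟨_, rfl⟩
  obtain ⟨κ, hκ⟩ : ∃ κ : ℝ, κ = (∏ p ∈ pz Y, 1 / (p : ℝ)) * (1 / 2) := ⟨_, rfl⟩
  have hCK := CK_pos k
  have hYr : 2 * CK k ≤ Y := by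
    have h1 := Nat.le_ceil (2 * CK k)
    have h2 : ((⌈2 * CK k⌉₊ : ℕ) : ℝ) ≤ Y := by
      rw [hY]
      exact_mod_cast (by omega : ⌈2 * CK k⌉₊ ≤ ⌈2 * CK k⌉₊ + (∏ i, (c i).natAbs) + 2)
    linarith
  have hY0 : (0 : ℝ) < Y := by linarith
  refine ⟨κ, ?_, fun h hmul hadm => ?_⟩
  · rw [hκ]
    apply mul_pos _ (by norm_num)
    apply prod_pos
    intro p hp
    have : (0 : ℝ) < p := by exact_mod_cast (mem_pz.1 hp).2.pos
    positivity
  · have hlim := hmul.hasProd.tendsto_prod_nat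
    apply ge_of_tendsto hlim
    filter_upwards [eventually_ge_atTop (Y + 1)] with n hn
    have e1 : range n = range (Y + 1) ∪ Ioc Y (n - 1) := by
      ext x
      rw [mem_union, mem_range, mem_range, mem_Ioc]
      omega
    have e2 : Disjoint (range (Y + 1)) (Ioc Y (n - 1)) := by
      rw [Finset.disjoint_left]
      intro x hx hx'
      rw [mem_range] at hx
      rw [mem_Ioc] at hx'
      omega
    rw [e1, prod_union e2, hκ]
    have h1 : ∏ p ∈ pz Y, 1 / (p : ℝ) ≤ ∏ i ∈ range (Y + 1), (if i.Prime then lf c h i else 1) := by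
      rw [← prod_filter]
      have e3 : (range (Y + 1)).filter Nat.Prime = pz Y := by
        ext p
        rw [mem_pz, mem_filter, mem_range]
        constructor
        · rintro ⟨h1, h2⟩
          exact ⟨by omega, h2⟩
        · rintro ⟨h1, h2⟩
          exact ⟨by omega, h2⟩
      rw [e3]
      apply Finset.prod_le_prod
      · intro p _
        positivity
      · intro p hp
        exact lf_adm c h p (mem_pz.1 hp).2 (hadm p (mem_pz.1 hp).2)
    have h2 : (1 / 2 : ℝ) ≤ ∏ i ∈ Ioc Y (n - 1), (if i.Prime then lf c h i else 1) := by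
      have h3 : ∀ i ∈ Ioc Y (n - 1), 1 - CK k * (1 / (i : ℝ) ^ 2) ≤ (if i.Prime then lf c h i else 1) := by
        intro i hi
        rw [mem_Ioc] at hi
        split_ifs with hp
        · rw [mul_one_div]
          apply lf_lower c h i hp
          apply rho_card c h i hp
          intro j hd
          have h4 : i ≤ (c j).natAbs := Nat.le_of_dvd (Int.natAbs_pos.2 (hc j)) (Int.natCast_dvd.1 hd)
          have h5 := natAbs_le_bigc c hc j
          omega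
        · have : 0 ≤ CK k * (1 / (i : ℝ) ^ 2) := by positivity
          linarith
      have h0 : ∀ i ∈ Ioc Y (n - 1), 0 ≤ CK k * (1 / (i : ℝ) ^ 2) := fun i _ => by positivity
      have h1' : ∀ i ∈ Ioc Y (n - 1), CK k * (1 / (i : ℝ) ^ 2) ≤ 1 := by
        intro i hi
        rw [mem_Ioc] at hi
        have h5 : (Y : ℝ) ≤ i := by exact_mod_cast hi.1.le
        have h6 : (1 : ℝ) ≤ i := by exact_mod_cast (by omega : 1 ≤ i)
        rw [mul_one_div, div_le_one (by positivity)]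
        nlinarith
      have h4 := prod_one_sub (Ioc Y (n - 1)) (fun i => CK k * (1 / (i : ℝ) ^ 2)) h0 h1'
      have h5 : ∑ i ∈ Ioc Y (n - 1), CK k * (1 / (i : ℝ) ^ 2) ≤ 1 / 2 := by
        rw [← mul_sum]
        have h6 := sum_sq_tail Y (n - 1) (by omega)
        calc CK k * ∑ i ∈ Ioc Y (n - 1), 1 / (i : ℝ) ^ 2 ≤ CK k * (1 / (Y : ℝ)) := by gcongr
          _ ≤ 1 / 2 := by
              rw [mul_one_div, div_le_div_iff₀ hY0 (by norm_num)]
              linarith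
      refine le_trans ?_ (prod_le_prod (fun i hi => by
        have := h1' i hi
        linarith) h3)
      linarith [h4.1]
    have h3 : 0 ≤ ∏ p ∈ pz Y, 1 / (p : ℝ) := prod_nonneg fun p _ => by positivity
    exact mul_le_mul h1 h2 (by norm_num) (h3.trans h1)

open Classical in
/-- **almost all tuples of shifts: numbers of primes** -/
def S_CNT : Prop := ∀ (k : ℕ) (c : Fin k → ℤ), (∀ i, c i ≠ 0) → ∀ (A B : ℕ) (ε : ℝ), 0 < ε → ∃ a G : ℕ, ∀ E : ℕ, ∃ X₀ : ℕ, ∀ X : ℕ, X₀ ≤ X →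
  ∀ S : Fin k → Finset ℕ, (∀ i, ∀ p ∈ S i, p.Prime ∧ (Real.log X) ^ a < p ∧ (p : ℝ) ≤ (Real.log X) ^ E) →
  (∀ i, 1 / (Real.log X) ^ B ≤ ∑ p ∈ S i, 1 / (p : ℝ)) →
  ∀ H : ℕ, 1 ≤ H → (Real.log X) ^ (E + G) ≤ H → 4 * H ^ 2 ≤ X → ∀ (N₁ N₂ : ℕ) (b : Fin k → ℤ), N₁ < N₂ → N₂ ≤ X →
  X / (Real.log X) ^ B ≤ (N₂ : ℝ) - N₁ →
  (∀ i, ∀ n ∈ Ioc N₁ N₂, 1 ≤ LFo c b i n ∧ LFo c b i n + H ≤ X) →
  (((Fintype.piFinset (fun _ : Fin k => range H)).filter (fun h => NDeg c (bh b h) ∧ Adm c (bh b h) ∧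
    ¬ (|(cntE c S N₁ N₂ (bh b h) : ℝ) - Mn c S N₁ N₂ (bh b h) / Real.log X ^ (k + 1)| ≤
      ε * (Mn c S N₁ N₂ (bh b h) / Real.log X ^ (k + 1))))).card : ℝ) ≤ (H : ℝ) ^ k / (Real.log X) ^ A

theorem t_CNT (hT : S_TUP) : S_CNT := by
  classical
  intro k c hc A B ε hε
  obtain ⟨A', hA'⟩ : ∃ A', A' = A + (k + 1) * B + 1 := ⟨_, rfl⟩
  obtain ⟨a, G, hT⟩ := hT k c hc A'
  obtain ⟨κ, hκ, hsl⟩ := sing_lower c hc
  refine ⟨a, G, fun E => ?_⟩
  obtain ⟨X₁, hT⟩ := hT E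
  obtain ⟨δ, hδ⟩ : ∃ δ : ℝ, δ = min (ε / 4) 1 := ⟨_, rfl⟩
  have hδ0 : 0 < δ := by rw [hδ]; positivity
  have hδ1 : δ ≤ 1 := by rw [hδ]; exact min_le_right _ _
  have hδε : δ ≤ ε / 4 := by rw [hδ]; exact min_le_left _ _
  obtain ⟨X₂, hWL⟩ := count_WL k c hc A' E δ hδ0
  obtain ⟨X₃, hX₃⟩ := Filter.eventually_atTop.1 (Sil2.ev_log (max 1 (12 / (κ * ε))))
  refine ⟨max (max X₁ X₂) (max X₃ 3), fun X hX S hS hSs H hH1 hH hHX N₁ N₂ b hN12 hN2 hNB hb => ?_⟩
  have hX1 : X₁ ≤ X := ((le_max_left _ _).trans (le_max_left _ _)).trans hX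
  have hX2 : X₂ ≤ X := ((le_max_right _ _).trans (le_max_left _ _)).trans hX
  have hLbig := hX₃ X (((le_max_left _ _).trans (le_max_right _ _)).trans hX)
  have hX3 : 3 ≤ X := ((le_max_right _ _).trans (le_max_right _ _)).trans hX
  obtain ⟨hexc, hmult⟩ := hT X hX1 S hS H hH1 hH hHX N₁ N₂ b hN12 hN2 hb
  have hWL := hWL X hX2 S (fun i p hp => ⟨(hS i p hp).1, (hS i p hp).2.2⟩) N₁ N₂
  obtain ⟨L, hLdef⟩ : ∃ L, L = Real.log (X : ℝ) := ⟨_, rfl⟩
  rw [← hLdef] at hLbig hexc hWL hSs hNB ⊢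
  have hL1 : 1 ≤ L := (le_max_left _ _).trans hLbig
  have hLκ : 12 / (κ * ε) ≤ L := (le_max_right _ _).trans hLbig
  have hL0 : 0 < L := by linarith
  have hXR : (3 : ℝ) ≤ X := by exact_mod_cast hX3
  have hX0' : (0 : ℝ) < X := lt_of_lt_of_le (by norm_num) hXR
  have hHk : 0 ≤ (H : ℝ) ^ k := by positivity
  have hsub : (Fintype.piFinset (fun _ : Fin k => range H)).filter (fun h => NDeg c (bh b h) ∧ Adm c (bh b h) ∧
    ¬ (|(cntE c S N₁ N₂ (bh b h) : ℝ) - Mn c S N₁ N₂ (bh b h) / L ^ (k + 1)| ≤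
      ε * (Mn c S N₁ N₂ (bh b h) / L ^ (k + 1)))) ⊆
      (Fintype.piFinset (fun _ : Fin k => range H)).filter (fun h => NDeg c (bh b h) ∧
    ¬ |WL c S N₁ N₂ (bh b h) - Mn c S N₁ N₂ (bh b h)| ≤ X / L ^ A') := by
    intro h hh
    rw [mem_filter] at hh ⊢
    obtain ⟨hh1, hnd, hadm, hbad⟩ := hh
    refine ⟨hh1, hnd, fun hgood => ?_⟩
    apply hbad
    have hm := hmult h hh1 hnd
    have hs := hsl (bh b h) hm hadm
    have hhr : ∀ i, h i < H := by
      intro i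
      rw [Fintype.mem_piFinset] at hh1
      have := hh1 i
      rwa [mem_range] at this
    have hw := hWL (bh b h) hN2 (by
      intro i n hn
      have h1 := hb i n hn
      have h2 : LFo c (bh b h) i n = LFo c b i n + (h i : ℤ) := by
        unfold LFo bh
        ring
      rw [h2]
      have h3 : (h i : ℤ) ≤ H := by exact_mod_cast (hhr i).le
      have h4 : (0 : ℤ) ≤ h i := Int.natCast_nonneg _
      constructor <;> linarith)
    obtain ⟨M, hM⟩ : ∃ M, M = Mn c S N₁ N₂ (bh b h) := ⟨_, rfl⟩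
    obtain ⟨w, hwd⟩ : ∃ w, w = WL c S N₁ N₂ (bh b h) := ⟨_, rfl⟩
    obtain ⟨N, hN⟩ : ∃ N : ℝ, N = (cntE c S N₁ N₂ (bh b h) : ℝ) := ⟨_, rfl⟩
    rw [← hM, ← hwd] at hgood
    rw [← hN, ← hwd] at hw
    rw [← hM, ← hN]
    -- a lower bound for the main term
    have hMlow : κ * (X / L ^ ((k + 1) * B)) ≤ M := by
      rw [hM]
      unfold Mn
      have h1 : (1 / L ^ B) ^ k ≤ ∏ i, ∑ p ∈ S i, 1 / (p : ℝ) := by
        calc (1 / L ^ B) ^ k = ∏ _i : Fin k, (1 / L ^ B) := by rw [prod_const, card_univ, Fintype.card_fin]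
          _ ≤ _ := prod_le_prod (fun i _ => by positivity) (fun i _ => hSs i)
      calc κ * (X / L ^ ((k + 1) * B)) = κ * (1 / L ^ B) ^ k * (X / L ^ B) := by
            rw [one_div, inv_pow, ← pow_mul, show (k + 1) * B = B * k + B by ring, pow_add]
            field_simp
        _ ≤ singT c (bh b h) * (∏ i, ∑ p ∈ S i, 1 / (p : ℝ)) * ((N₂ : ℝ) - N₁) := by
            have h2 : 0 ≤ (1 / L ^ B) ^ k := by positivity
            have h3 : 0 ≤ X / L ^ B := by positivity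
            have h4 : 0 < singT c (bh b h) := lt_of_lt_of_le hκ hs
            gcongr
    have hMpos : 0 < M := lt_of_lt_of_le (by positivity) hMlow
    have hsmall : X / L ^ A' ≤ ε / 12 * M := by
      have h1 : X / L ^ A' ≤ (X / L ^ ((k + 1) * B)) / L := by
        rw [hA', div_div, ← pow_succ]
        apply div_le_div_of_nonneg_left hX0'.le (by positivity)
        exact pow_le_pow_right₀ hL1 (by omega)
      have h2 : (X / L ^ ((k + 1) * B)) / L ≤ ε / 12 * (κ * (X / L ^ ((k + 1) * B))) := by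
        rw [div_le_iff₀ hL0]
        have h3 : 1 ≤ ε / 12 * κ * L := by
          rw [div_le_iff₀ (by positivity)] at hLκ
          linarith
        have h4 : 0 ≤ X / L ^ ((k + 1) * B) := by positivity
        nlinarith
      refine h1.trans (h2.trans ?_)
      gcongr
    have hw0 : w ≤ M + ε / 12 * M := by
      have := (abs_le.1 (hgood.trans hsmall)).2
      linarith
    have hfin : |N * L ^ (k + 1) - M| ≤ ε * M := by
      have h1 : |N * L ^ (k + 1) - M| ≤ |N * L ^ (k + 1) - w| + |w - M| := abs_sub_le _ _ _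
      have h2 : δ * w ≤ δ * (M + ε / 12 * M) := mul_le_mul_of_nonneg_left hw0 hδ0.le
      have h3 : δ * (M + ε / 12 * M) ≤ ε / 4 * M + ε / 12 * M := by
        have h4 : δ * M ≤ ε / 4 * M := mul_le_mul_of_nonneg_right hδε hMpos.le
        have h5 : δ * (ε / 12 * M) ≤ 1 * (ε / 12 * M) := mul_le_mul_of_nonneg_right hδ1 (by positivity)
        linarith
      have h6 : 0 ≤ ε * M := by positivity
      linarith [hgood.trans hsmall]
    have hLk : 0 < L ^ (k + 1) := by positivity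
    have e1 : N - M / L ^ (k + 1) = (N * L ^ (k + 1) - M) / L ^ (k + 1) := by
      field_simp
    rw [e1, abs_div, abs_of_pos hLk, ← mul_div_assoc]
    exact div_le_div_of_nonneg_right hfin hLk.le
  refine le_trans (by exact_mod_cast card_le_card hsub) (hexc.trans ?_)
  apply div_le_div_of_nonneg_left hHk (by positivity)
  exact pow_le_pow_right₀ hL1 (by omega)

end Pool.Agent.H561.E2
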