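import Pool.Graph.R_pool_sql_team_seeded_620a6dc7.helper24_UT_.Ch1
import Pool.Agent.H561.E2.T5

set_option autoImplicit false

/-! Assembly: products of two primes in almost all systems of linear forms at primes. -/

namespace Pool.Agent.H561.E2

open Pool.Agent.helper24_UT.Ch

/-- the asymptotic formula with von Mangoldt weights -/
theorem tup : S_TUP := t_TUP (t_TEL (t_COR (t_STAR2 (t_STAR (t_MAJ (t_SIG2 (t_SIG Pool.Agent.helper24_UT.Win.main (t_FRG (t_LF t_AL)))))))))

/-- the asymptotic formula for the numbers of primes -/
theorem cnt : S_CNT := t_CNT tup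

end Pool.Agent.H561.E2
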