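import Pool.Agent.H561.E2.T6

set_option autoImplicit false

/-! Boxes of every size, with integer shifts. -/

namespace Pool.Agent.H561.E2

open Finset Filter Topology
open Pool.Agent.helper24_UT

/-- the intervals of length `H₀` which cover `[0, H)` -/
lemma cover1 (H H₀ : ℕ) (h0 : 1 ≤ H₀) (hH : H₀ ≤ H) (x : ℕ) (hx : x < H) :
    ∃ j < H / H₀ + 1, min (j * H₀) (H - H₀) ≤ x ∧ x < min (j * H₀) (H - H₀) + H₀ := by
  refine ⟨x / H₀, ?_, ?_, ?_⟩
  · have : x / H₀ ≤ H / H₀ := Nat.div_le_div_right hx.le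
    omega
  · exact (min_le_left _ _).trans (Nat.div_mul_le_self x H₀)
  · have h1 := Nat.div_add_mod x H₀
    have h2 := Nat.mod_lt x (show 0 < H₀ by omega)
    have h3 : x / H₀ * H₀ = H₀ * (x / H₀) := mul_comm _ _
    rcases le_total (x / H₀ * H₀) (H - H₀) with h | h
    · rw [min_eq_left h]; omega
    · rw [min_eq_right h]; omega

open Classical in
/-- **almost all tuples of shifts: numbers of primes, boxes of every size** -/
theorem cntI (k : ℕ) (c : Fin k → ℤ) (hc : ∀ i, c i ≠ 0) (A B : ℕ) (ε : ℝ) (hε : 0 < ε) : ∃ a G : ℕ, ∀ E : ℕ, ∃ X₀ : ℕ, ∀ X : ℕ, X₀ ≤ X →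
  ∀ S : Fin k → Finset ℕ, (∀ i, ∀ p ∈ S i, p.Prime ∧ (Real.log X) ^ a < p ∧ (p : ℝ) ≤ (Real.log X) ^ E) →
  (∀ i, 1 / (Real.log X) ^ B ≤ ∑ p ∈ S i, 1 / (p : ℝ)) →
  ∀ H : ℕ, (Real.log X) ^ (E + G) ≤ H → ∀ (N₁ N₂ : ℕ) (b : Fin k → ℤ), N₁ < N₂ → N₂ ≤ X →
  X / (Real.log X) ^ B ≤ (N₂ : ℝ) - N₁ →
  (∀ i, ∀ n ∈ Ioc N₁ N₂, 1 ≤ c i * (n : ℤ) + b i ∧ c i * (n : ℤ) + b i + H ≤ X) →
  (((Fintype.piFinset (fun i : Fin k => Ico (b i) (b i + H))).filter (fun h => NDeg c h ∧ Adm c h ∧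
    ¬ (|(cntE c S N₁ N₂ h : ℝ) - Mn c S N₁ N₂ h / Real.log X ^ (k + 1)| ≤
      ε * (Mn c S N₁ N₂ h / Real.log X ^ (k + 1))))).card : ℝ) ≤ (H : ℝ) ^ k / (Real.log X) ^ A := by
  classical
  obtain ⟨a, G, hT⟩ := cnt k c hc (A + k) B ε hε
  refine ⟨a, G, fun E => ?_⟩
  obtain ⟨X₁, hT⟩ := hT E
  obtain ⟨X₃, hX₃⟩ := Filter.eventually_atTop.1 ((Sil2.ev_log 1000).and
    (Sil2.ev_pow (2 * (E + G)) 1 16 (by norm_num)))
  refine ⟨max (max X₁ X₃) 100, fun X hX S hS hSB H hH N₁ N₂ b hN12 hN2 hNB hb => ?_⟩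
  have hX1 : X₁ ≤ X := ((le_max_left _ _).trans (le_max_left _ _)).trans hX
  obtain ⟨hL, hpw⟩ := hX₃ X (((le_max_right _ _).trans (le_max_left _ _)).trans hX)
  obtain ⟨L, hLd⟩ : ∃ L, L = Real.log X := ⟨_, rfl⟩
  rw [← hLd] at hL hpw hH hS hSB hNB ⊢
  obtain ⟨H₀, hH₀⟩ : ∃ H₀ : ℕ, H₀ = ⌈L ^ (E + G)⌉₊ := ⟨_, rfl⟩
  have hP1 : 1 ≤ L ^ (E + G) := one_le_pow₀ (by linarith)
  have hH1 : L ^ (E + G) ≤ H₀ := by rw [hH₀]; exact Nat.le_ceil _
  have hH2 : (H₀ : ℝ) ≤ 2 * L ^ (E + G) := by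
    have := Nat.ceil_lt_add_one (show (0 : ℝ) ≤ L ^ (E + G) by positivity)
    rw [← hH₀] at this
    linarith
  have hH0H : H₀ ≤ H := by rw [hH₀]; exact Nat.ceil_le.2 hH
  have hH01 : 1 ≤ H₀ := by
    have : (1 : ℝ) ≤ H₀ := hP1.trans hH1
    exact_mod_cast this
  have hHX : 4 * H₀ ^ 2 ≤ X := by
    have h1 : (4 : ℝ) * (H₀ : ℝ) ^ 2 ≤ X := by
      calc (4 : ℝ) * (H₀ : ℝ) ^ 2 ≤ 4 * (2 * L ^ (E + G)) ^ 2 := by gcongr
        _ = 16 * L ^ (2 * (E + G)) := by ring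
        _ ≤ (X : ℝ) ^ (1 : ℝ) := hpw
        _ = X := Real.rpow_one _
    exact_mod_cast h1
  obtain ⟨m, hm⟩ : ∃ m, m = H / H₀ + 1 := ⟨_, rfl⟩
  have hmH : m * H₀ ≤ 2 * H := by
    have := Nat.div_mul_le_self H H₀
    rw [hm, add_mul, one_mul]
    omega
  obtain ⟨sh, hsh⟩ : ∃ sh : ℕ → ℕ, ∀ j, sh j = min (j * H₀) (H - H₀) := ⟨fun j => min (j * H₀) (H - H₀), fun _ => rfl⟩
  have hshH : ∀ j, sh j + H₀ ≤ H := by
    intro j
    have : sh j ≤ H - H₀ := by rw [hsh]; exact min_le_right _ _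
    omega
  obtain ⟨bj, hbj⟩ : ∃ bj : (Fin k → ℕ) → Fin k → ℤ, ∀ J i, bj J i = b i + sh (J i) := ⟨fun J i => b i + sh (J i), fun _ _ => rfl⟩
  obtain ⟨BD, hBD⟩ : ∃ BD : (Fin k → ℤ) → Prop, ∀ h, BD h ↔ (NDeg c h ∧ Adm c h ∧
    ¬ (|(cntE c S N₁ N₂ h : ℝ) - Mn c S N₁ N₂ h / L ^ (k + 1)| ≤ ε * (Mn c S N₁ N₂ h / L ^ (k + 1)))) := ⟨_, fun _ => Iff.rfl⟩
  have hbox : ∀ J : Fin k → ℕ, (((Fintype.piFinset (fun _ : Fin k => range H₀)).filter (fun h => BD (bh (bj J) h))).card : ℝ) ≤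
      (H₀ : ℝ) ^ k / L ^ (A + k) := by
    intro J
    have h1 := hT X hX1 S (by rw [← hLd]; exact hS) (by rw [← hLd]; exact hSB) H₀ hH01 (by rw [← hLd]; exact hH1) hHX N₁ N₂ (bj J) hN12 hN2
      (by rw [← hLd]; exact hNB) (by
        intro i n hn
        have h2 := hb i n hn
        have h3 : ((sh (J i) : ℕ) : ℤ) + H₀ ≤ H := by exact_mod_cast hshH (J i)
        unfold LFo
        rw [hbj]
        constructor
        · have : (0 : ℤ) ≤ (sh (J i) : ℕ) := Int.natCast_nonneg _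
          linarith [h2.1]
        · linarith [h2.2])
    rw [← hLd] at h1
    have e : (Fintype.piFinset (fun _ : Fin k => range H₀)).filter (fun h => BD (bh (bj J) h)) =
        (Fintype.piFinset (fun _ : Fin k => range H₀)).filter (fun h => NDeg c (bh (bj J) h) ∧ Adm c (bh (bj J) h) ∧
    ¬ (|(cntE c S N₁ N₂ (bh (bj J) h) : ℝ) - Mn c S N₁ N₂ (bh (bj J) h) / L ^ (k + 1)| ≤
      ε * (Mn c S N₁ N₂ (bh (bj J) h) / L ^ (k + 1)))) := by
      apply filter_congr
      intro h _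
      exact hBD _
    rw [e]
    exact h1
  have hsub : (Fintype.piFinset (fun i : Fin k => Ico (b i) (b i + H))).filter (fun h => BD h) ⊆
      (Fintype.piFinset (fun _ : Fin k => range m)).biUnion (fun J =>
        ((Fintype.piFinset (fun _ : Fin k => range H₀)).filter (fun h => BD (bh (bj J) h))).image (bh (bj J))) := by
    intro h hh
    rw [mem_filter, Fintype.mem_piFinset] at hh
    obtain ⟨hbx, hB⟩ := hh
    have hx : ∀ i, ∃ j < m, (b i + sh j : ℤ) ≤ h i ∧ h i < b i + sh j + H₀ := by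
      intro i
      have h1 := hbx i
      rw [mem_Ico] at h1
      obtain ⟨j, hj, h2, h3⟩ := cover1 H H₀ hH01 hH0H (h i - b i).toNat (by omega)
      refine ⟨j, by rw [hm]; exact hj, ?_, ?_⟩
      · rw [hsh]
        have h4 : ((min (j * H₀) (H - H₀) : ℕ) : ℤ) ≤ h i - b i := by
          have := Int.toNat_of_nonneg (show 0 ≤ h i - b i by omega)
          rw [← this]
          exact_mod_cast h2
        linarith
      · rw [hsh]
        have h4 : h i - b i < ((min (j * H₀) (H - H₀) : ℕ) : ℤ) + H₀ := by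
          have := Int.toNat_of_nonneg (show 0 ≤ h i - b i by omega)
          rw [← this]
          exact_mod_cast h3
        linarith
    choose J hJ using hx
    rw [mem_biUnion]
    refine ⟨J, ?_, ?_⟩
    · rw [Fintype.mem_piFinset]
      intro i
      rw [mem_range]
      exact (hJ i).1
    · rw [mem_image]
      have e : bh (bj J) (fun i => (h i - (b i + sh (J i))).toNat) = h := by
        funext i
        unfold bh
        rw [hbj]
        have := Int.toNat_of_nonneg (show 0 ≤ h i - (b i + sh (J i)) by linarith [(hJ i).2.1])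
        simp only
        rw [this]
        ring
      refine ⟨fun i => (h i - (b i + sh (J i))).toNat, ?_, e⟩
      rw [mem_filter, e]
      refine ⟨?_, hB⟩
      rw [Fintype.mem_piFinset]
      intro i
      rw [mem_range]
      have h1 := (hJ i).2.2
      have h2 := (hJ i).2.1
      omega
  have hcard : (((Fintype.piFinset (fun i : Fin k => Ico (b i) (b i + H))).filter (fun h => BD h)).card : ℝ) ≤
      (m : ℝ) ^ k * ((H₀ : ℝ) ^ k / L ^ (A + k)) := by
    calc (((Fintype.piFinset (fun i : Fin k => Ico (b i) (b i + H))).filter (fun h => BD h)).card : ℝ)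
        ≤ (((Fintype.piFinset (fun _ : Fin k => range m)).biUnion (fun J =>
          ((Fintype.piFinset (fun _ : Fin k => range H₀)).filter (fun h => BD (bh (bj J) h))).image (bh (bj J)))).card : ℝ) := by
          exact_mod_cast card_le_card hsub
      _ ≤ ((∑ J ∈ Fintype.piFinset (fun _ : Fin k => range m), (((Fintype.piFinset (fun _ : Fin k => range H₀)).filter
          (fun h => BD (bh (bj J) h))).image (bh (bj J))).card : ℕ) : ℝ) := by exact_mod_cast card_biUnion_le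
      _ = ∑ J ∈ Fintype.piFinset (fun _ : Fin k => range m), ((((Fintype.piFinset (fun _ : Fin k => range H₀)).filter
          (fun h => BD (bh (bj J) h))).image (bh (bj J))).card : ℝ) := by push_cast; rfl
      _ ≤ ∑ J ∈ Fintype.piFinset (fun _ : Fin k => range m), (H₀ : ℝ) ^ k / L ^ (A + k) := by
          apply sum_le_sum
          intro J _
          refine le_trans ?_ (hbox J)
          exact_mod_cast card_image_le
      _ = (m : ℝ) ^ k * ((H₀ : ℝ) ^ k / L ^ (A + k)) := by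
          rw [sum_const, nsmul_eq_mul, Fintype.card_piFinset, prod_const, card_univ, Fintype.card_fin, card_range]
          push_cast
          ring
  have e : (Fintype.piFinset (fun i : Fin k => Ico (b i) (b i + H))).filter (fun h => NDeg c h ∧ Adm c h ∧
    ¬ (|(cntE c S N₁ N₂ h : ℝ) - Mn c S N₁ N₂ h / L ^ (k + 1)| ≤
      ε * (Mn c S N₁ N₂ h / L ^ (k + 1)))) = (Fintype.piFinset (fun i : Fin k => Ico (b i) (b i + H))).filter (fun h => BD h) := by
    apply filter_congr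
    intro h _
    exact (hBD _).symm
  rw [e]
  refine hcard.trans ?_
  have hL0 : 0 < L := by linarith
  have h1 : (m : ℝ) * H₀ ≤ 2 * H := by exact_mod_cast hmH
  calc (m : ℝ) ^ k * ((H₀ : ℝ) ^ k / L ^ (A + k)) = ((m : ℝ) * H₀) ^ k / L ^ (A + k) := by
        rw [mul_pow]
        ring
    _ ≤ (2 * H : ℝ) ^ k / L ^ (A + k) := by gcongr
    _ = (2 / L) ^ k * ((H : ℝ) ^ k / L ^ A) := by
        rw [pow_add, mul_pow, div_pow]
        field_simp
    _ ≤ 1 * ((H : ℝ) ^ k / L ^ A) := by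
        apply mul_le_mul_of_nonneg_right _ (by positivity)
        apply pow_le_one₀ (by positivity)
        rw [div_le_one hL0]
        linarith
    _ = (H : ℝ) ^ k / L ^ A := one_mul _

end Pool.Agent.H561.E2
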