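import Pool.Agent.H561.E2.T7

set_option autoImplicit false

/-! The singular series in the usual form. -/

namespace Pool.Agent.H561.E2

open Finset Filter Topology

open Classical in
/-- the number of the solutions of `n * ∏ i, (c i * n + h i) ≡ 0 (mod p)` -/
noncomputable def omg {k : ℕ} (c h : Fin k → ℤ) (p : ℕ) : ℕ :=
  ((range p).filter (fun n : ℕ => (p : ℤ) ∣ (n : ℤ) * ∏ i, (c i * (n : ℤ) + h i))).card

lemma omg_rho {k : ℕ} (c h : Fin k → ℤ) (p : ℕ) (hp : p.Prime) : omg c h p = rho c h p + 1 := by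
  classical
  have hpI : Prime (p : ℤ) := Nat.prime_iff_prime_int.1 hp
  unfold omg rho
  have e : (range p).filter (fun n : ℕ => (p : ℤ) ∣ (n : ℤ) * ∏ i, (c i * (n : ℤ) + h i)) =
      insert 0 ((range p).filter (fun r => ¬ p ∣ r ∧ ∃ i, (p : ℤ) ∣ LFo c h i r)) := by
    ext n
    rw [mem_insert, mem_filter, mem_filter, mem_range]
    unfold LFo
    constructor
    · rintro ⟨h1, h2⟩
      by_cases h0 : n = 0
      · exact Or.inl h0
      · right
        have h3 : ¬ p ∣ n := fun hd => by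
          have := Nat.le_of_dvd (Nat.pos_of_ne_zero h0) hd
          omega
        refine ⟨h1, h3, ?_⟩
        rcases hpI.dvd_mul.1 h2 with h4 | h4
        · exact absurd (Int.natCast_dvd_natCast.1 h4) h3
        · obtain ⟨i, _, hi⟩ := (Prime.dvd_finsetProd_iff hpI _).1 h4
          exact ⟨i, hi⟩
    · rintro (h0 | ⟨h1, h2, i, hi⟩)
      · subst h0
        exact ⟨hp.pos, by simp⟩
      · refine ⟨h1, ?_⟩
        exact Dvd.dvd.mul_left (hi.trans (dvd_prod_of_mem (fun i => c i * (n : ℤ) + h i) (mem_univ i))) _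
  rw [e, card_insert_of_notMem]
  intro h0
  rw [mem_filter] at h0
  exact h0.2.1 (dvd_zero p)

/-- the singular series of the system `n, c i * n + h i` -/
noncomputable def singD {k : ℕ} (c h : Fin k → ℤ) : ℝ :=
  ∏' p : Nat.Primes, (1 - 1 / ((p : ℕ) : ℝ))⁻¹ ^ (k + 1) * (1 - (omg c h p : ℝ) / ((p : ℕ) : ℝ))

lemma lf_omg {k : ℕ} (c h : Fin k → ℤ) (p : ℕ) (hp : p.Prime) :
    lf c h p = (1 - 1 / (p : ℝ))⁻¹ ^ (k + 1) * (1 - (omg c h p : ℝ) / (p : ℝ)) := by
  have hp2 : (2 : ℝ) ≤ p := by exact_mod_cast hp.two_le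
  have h1 : (p : ℝ) ≠ 0 := by positivity
  have h2 : (p : ℝ) - 1 ≠ 0 := by
    have : (0 : ℝ) < p - 1 := by linarith
    exact this.ne'
  have h3 : (1 - 1 / (p : ℝ))⁻¹ = p / (p - 1) := by
    rw [one_sub_div h1, inv_div]
  unfold lf
  rw [omg_rho c h p hp, h3, pow_succ]
  push_cast
  field_simp
  ring

theorem singD_eq {k : ℕ} (c h : Fin k → ℤ) : singD c h = singT c h := by
  unfold singD singT
  have h1 : ∀ p : Nat.Primes, (1 - 1 / ((p : ℕ) : ℝ))⁻¹ ^ (k + 1) * (1 - (omg c h p : ℝ) / ((p : ℕ) : ℝ)) = lf c h (p : ℕ) :=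
    fun p => (lf_omg c h p p.2).symm
  rw [tprod_congr h1]
  have h2 := tprod_subtype {p : ℕ | p.Prime} (fun p : ℕ => lf c h p)
  refine Eq.trans ?_ (h2.trans ?_)
  · rfl
  · apply tprod_congr
    intro p
    by_cases hp : p.Prime
    · rw [Set.mulIndicator_of_mem (show p ∈ {p : ℕ | p.Prime} from hp), if_pos hp]
    · rw [Set.mulIndicator_of_notMem (show p ∉ {p : ℕ | p.Prime} from hp), if_neg hp]

theorem adm_iff {k : ℕ} (c h : Fin k → ℤ) : Adm c h ↔ ∀ p : ℕ, p.Prime → omg c h p < p := by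
  unfold Adm
  constructor
  · intro H p hp
    rw [omg_rho c h p hp]
    have := H p hp
    have := hp.two_le
    omega
  · intro H p hp
    have h1 := H p hp
    rw [omg_rho c h p hp] at h1
    omega

open Classical in
/-- the number of the residue classes modulo `p` occupied by `0` and the `h i` -/
noncomputable def occ {k : ℕ} (h : Fin k → ℤ) (p : ℕ) : ℕ :=
  ((insert (0 : ℤ) (univ.image h)).image (fun a : ℤ => (a : ZMod p))).card

lemma occ_eq {k : ℕ} (h : Fin k → ℤ) (p : ℕ) (hp : p.Prime) : occ h p = omg (fun _ => 1) h p := by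
  classical
  have hpI : Prime (p : ℤ) := Nat.prime_iff_prime_int.1 hp
  have : NeZero p := ⟨hp.ne_zero⟩
  unfold occ omg
  symm
  apply card_bij (fun (n : ℕ) _ => ((-(n : ℤ) : ℤ) : ZMod p))
  · intro n hn
    rw [mem_filter, mem_range] at hn
    rw [mem_image]
    rcases hpI.dvd_mul.1 hn.2 with h4 | h4
    · refine ⟨0, mem_insert_self _ _, ?_⟩
      rw [ZMod.intCast_eq_intCast_iff_dvd_sub]
      simpa using h4
    · obtain ⟨i, _, hi⟩ := (Prime.dvd_finsetProd_iff hpI _).1 h4
      refine ⟨h i, mem_insert_of_mem (mem_image_of_mem _ (mem_univ i)), ?_⟩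
      rw [ZMod.intCast_eq_intCast_iff_dvd_sub]
      have : -(n : ℤ) - h i = -(1 * (n : ℤ) + h i) := by ring
      rw [this]
      exact (dvd_neg).2 hi
  · intro n hn m hm hnm
    rw [mem_filter, mem_range] at hn hm
    rw [ZMod.intCast_eq_intCast_iff_dvd_sub] at hnm
    have h1 : -(m : ℤ) - -(n : ℤ) = (n : ℤ) - m := by ring
    rw [h1] at hnm
    by_contra hne
    have h3 : (n : ℤ) - m ≠ 0 := by
      intro h0
      apply hne
      omega
    have h4 := Int.le_of_dvd (abs_pos.2 h3) ((dvd_abs _ _).2 hnm)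
    rcases abs_cases ((n : ℤ) - m) with h5 | h5 <;> omega
  · intro x hx
    rw [mem_image] at hx
    obtain ⟨a, ha, hax⟩ := hx
    rw [mem_insert, mem_image] at ha
    refine ⟨(-a % p).toNat, ?_, ?_⟩
    · have hp0 : (0 : ℤ) < p := by exact_mod_cast hp.pos
      have h1 := Int.emod_nonneg (-a) hp0.ne'
      have h2 := Int.emod_lt_of_pos (-a) hp0
      have h3 := Int.toNat_of_nonneg h1
      have h5 : (p : ℤ) ∣ ((-a % p).toNat : ℤ) + a := by
        rw [h3]
        have := Int.emod_add_mul_ediv (-a) p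
        refine ⟨-(-a / p), ?_⟩
        linarith
      rw [mem_filter, mem_range]
      refine ⟨by omega, ?_⟩
      rcases ha with h0 | ⟨i, _, hi⟩
      · apply Dvd.dvd.mul_right
        rw [h0] at h5
        rw [h0]
        simp at h5 ⊢
      · apply Dvd.dvd.mul_left
        refine dvd_trans ?_ (dvd_prod_of_mem (fun i => (1 : ℤ) * (((-a % p).toNat : ℕ) : ℤ) + h i) (mem_univ i))
        rw [hi, one_mul]
        exact h5
    · rw [← hax]
      have hp0 : (0 : ℤ) < p := by exact_mod_cast hp.pos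
      have h1 := Int.emod_nonneg (-a) hp0.ne'
      have h3 := Int.toNat_of_nonneg h1
      rw [ZMod.intCast_eq_intCast_iff_dvd_sub, h3]
      have := Int.emod_add_mul_ediv (-a) p
      refine ⟨-(-a / p), ?_⟩
      linarith

end Pool.Agent.H561.E2
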