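import Pool.Agent.H561.E2.T8

set_option autoImplicit false

/-! Boxes of every size, for the weighted sums; sets instead of tuples. -/

namespace Pool.Agent.H561.E2

open Finset Filter Topology
open Pool.Agent.helper24_UT

/-- the exceptional tuples of a large box, from the small boxes -/
lemma box_split {k : ℕ} (BD : (Fin k → ℤ) → Prop) [DecidablePred BD] (b : Fin k → ℤ) (H H₀ : ℕ) (hH01 : 1 ≤ H₀) (hH0H : H₀ ≤ H)
    (K : ℝ) (hbox : ∀ b' : Fin k → ℤ, (∀ i, b i ≤ b' i ∧ b' i + H₀ ≤ b i + H) →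
      (((Fintype.piFinset (fun _ : Fin k => range H₀)).filter (fun h => BD (bh b' h))).card : ℝ) ≤ K) :
    (((Fintype.piFinset (fun i : Fin k => Ico (b i) (b i + H))).filter BD).card : ℝ) ≤ ((H / H₀ + 1 : ℕ) : ℝ) ^ k * K := by
  classical
  obtain ⟨m, hm⟩ : ∃ m, m = H / H₀ + 1 := ⟨_, rfl⟩
  obtain ⟨sh, hsh⟩ : ∃ sh : ℕ → ℕ, ∀ j, sh j = min (j * H₀) (H - H₀) := ⟨fun j => min (j * H₀) (H - H₀), fun _ => rfl⟩
  have hshH : ∀ j, sh j + H₀ ≤ H := by
    intro j
    have : sh j ≤ H - H₀ := by rw [hsh]; exact min_le_right _ _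
    omega
  obtain ⟨bj, hbj⟩ : ∃ bj : (Fin k → ℕ) → Fin k → ℤ, ∀ J i, bj J i = b i + sh (J i) := ⟨fun J i => b i + sh (J i), fun _ _ => rfl⟩
  have hsub : (Fintype.piFinset (fun i : Fin k => Ico (b i) (b i + H))).filter (fun h => BD h) ⊆
      (Fintype.piFinset (fun _ : Fin k => range m)).biUnion (fun J =>
        ((Fintype.piFinset (fun _ : Fin k => range H₀)).filter (fun h => BD (bh (bj J) h))).image (bh (bj J))) := by
    intro h hh
    rw [mem_filter, Fintype.mem_piFinset] at hh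
    obtain ⟨hbx, hB⟩ := hh
    have hx : ∀ i, ∃ j < m, (b i + sh j : ℤ) ≤ h i ∧ h i < b i + sh j + H₀ := by
      intro i
      have h1 := hbx i
      rw [mem_Ico] at h1
      obtain ⟨j, hj, h2, h3⟩ := cover1 H H₀ hH01 hH0H (h i - b i).toNat (by omega)
      refine ⟨j, by rw [hm]; exact hj, ?_, ?_⟩
      · rw [hsh]
        have h4 : ((min (j * H₀) (H - H₀) : ℕ) : ℤ) ≤ h i - b i := by
          have := Int.toNat_of_nonneg (show 0 ≤ h i - b i by omega)
          rw [← this]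
          exact_mod_cast h2
        linarith
      · rw [hsh]
        have h4 : h i - b i < ((min (j * H₀) (H - H₀) : ℕ) : ℤ) + H₀ := by
          have := Int.toNat_of_nonneg (show 0 ≤ h i - b i by omega)
          rw [← this]
          exact_mod_cast h3
        linarith
    choose J hJ using hx
    rw [mem_biUnion]
    refine ⟨J, ?_, ?_⟩
    · rw [Fintype.mem_piFinset]
      intro i
      rw [mem_range]
      exact (hJ i).1
    · rw [mem_image]
      have e : bh (bj J) (fun i => (h i - (b i + sh (J i))).toNat) = h := by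
        funext i
        unfold bh
        rw [hbj]
        have := Int.toNat_of_nonneg (show 0 ≤ h i - (b i + sh (J i)) by linarith [(hJ i).2.1])
        simp only
        rw [this]
        ring
      refine ⟨fun i => (h i - (b i + sh (J i))).toNat, ?_, e⟩
      rw [mem_filter, e]
      refine ⟨?_, hB⟩
      rw [Fintype.mem_piFinset]
      intro i
      rw [mem_range]
      have h1 := (hJ i).2.2
      have h2 := (hJ i).2.1
      omega
  calc (((Fintype.piFinset (fun i : Fin k => Ico (b i) (b i + H))).filter (fun h => BD h)).card : ℝ)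
      ≤ (((Fintype.piFinset (fun _ : Fin k => range m)).biUnion (fun J =>
        ((Fintype.piFinset (fun _ : Fin k => range H₀)).filter (fun h => BD (bh (bj J) h))).image (bh (bj J)))).card : ℝ) := by
        exact_mod_cast card_le_card hsub
    _ ≤ ((∑ J ∈ Fintype.piFinset (fun _ : Fin k => range m), (((Fintype.piFinset (fun _ : Fin k => range H₀)).filter
        (fun h => BD (bh (bj J) h))).image (bh (bj J))).card : ℕ) : ℝ) := by exact_mod_cast card_biUnion_le
    _ = ∑ J ∈ Fintype.piFinset (fun _ : Fin k => range m), ((((Fintype.piFinset (fun _ : Fin k => range H₀)).filter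
        (fun h => BD (bh (bj J) h))).image (bh (bj J))).card : ℝ) := by push_cast; rfl
    _ ≤ ∑ J ∈ Fintype.piFinset (fun _ : Fin k => range m), K := by
        apply sum_le_sum
        intro J _
        refine le_trans ?_ (hbox (bj J) (fun i => ?_))
        · exact_mod_cast card_image_le
        · rw [hbj]
          have h1 := hshH (J i)
          have h2 : ((sh (J i) : ℕ) : ℤ) + H₀ ≤ H := by exact_mod_cast h1
          have h3 : (0 : ℤ) ≤ (sh (J i) : ℕ) := Int.natCast_nonneg _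
          constructor <;> linarith
    _ = ((H / H₀ + 1 : ℕ) : ℝ) ^ k * K := by
        rw [sum_const, nsmul_eq_mul, Fintype.card_piFinset, prod_const, card_univ, Fintype.card_fin, card_range, hm]
        push_cast
        ring

open Classical in
/-- **almost all tuples of shifts, the weighted sums, boxes of every size** -/
theorem tupI (k : ℕ) (c : Fin k → ℤ) (hc : ∀ i, c i ≠ 0) (A : ℕ) : ∃ a G : ℕ, ∀ E : ℕ, ∃ X₀ : ℕ, ∀ X : ℕ, X₀ ≤ X →
  ∀ S : Fin k → Finset ℕ, (∀ i, ∀ p ∈ S i, p.Prime ∧ (Real.log X) ^ a < p ∧ (p : ℝ) ≤ (Real.log X) ^ E) →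
  ∀ H : ℕ, (Real.log X) ^ (E + G) ≤ H → ∀ (N₁ N₂ : ℕ) (b : Fin k → ℤ), N₁ < N₂ → N₂ ≤ X →
  (∀ i, ∀ n ∈ Ioc N₁ N₂, 1 ≤ c i * (n : ℤ) + b i ∧ c i * (n : ℤ) + b i + H ≤ X) →
  (((Fintype.piFinset (fun i : Fin k => Ico (b i) (b i + H))).filter (fun h => NDeg c h ∧
    ¬ |WL c S N₁ N₂ h - Mn c S N₁ N₂ h| ≤ X / (Real.log X) ^ A)).card : ℝ) ≤ (H : ℝ) ^ k / (Real.log X) ^ A := by
  classical
  obtain ⟨a, G, hT⟩ := tup k c hc (A + k)
  refine ⟨a, G, fun E => ?_⟩
  obtain ⟨X₁, hT⟩ := hT E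
  obtain ⟨X₃, hX₃⟩ := Filter.eventually_atTop.1 ((Sil2.ev_log 1000).and
    (Sil2.ev_pow (2 * (E + G)) 1 16 (by norm_num)))
  refine ⟨max (max X₁ X₃) 100, fun X hX S hS H hH N₁ N₂ b hN12 hN2 hb => ?_⟩
  have hX1 : X₁ ≤ X := ((le_max_left _ _).trans (le_max_left _ _)).trans hX
  obtain ⟨hL, hpw⟩ := hX₃ X (((le_max_right _ _).trans (le_max_left _ _)).trans hX)
  obtain ⟨L, hLd⟩ : ∃ L, L = Real.log X := ⟨_, rfl⟩
  rw [← hLd] at hL hpw hH hS ⊢
  obtain ⟨H₀, hH₀⟩ : ∃ H₀ : ℕ, H₀ = ⌈L ^ (E + G)⌉₊ := ⟨_, rfl⟩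
  have hP1 : 1 ≤ L ^ (E + G) := one_le_pow₀ (by linarith)
  have hH1 : L ^ (E + G) ≤ H₀ := by rw [hH₀]; exact Nat.le_ceil _
  have hH2 : (H₀ : ℝ) ≤ 2 * L ^ (E + G) := by
    have := Nat.ceil_lt_add_one (show (0 : ℝ) ≤ L ^ (E + G) by positivity)
    rw [← hH₀] at this
    linarith
  have hH0H : H₀ ≤ H := by rw [hH₀]; exact Nat.ceil_le.2 hH
  have hH01 : 1 ≤ H₀ := by
    have : (1 : ℝ) ≤ H₀ := hP1.trans hH1
    exact_mod_cast this
  have hHX : 4 * H₀ ^ 2 ≤ X := by
    have h1 : (4 : ℝ) * (H₀ : ℝ) ^ 2 ≤ X := by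
      calc (4 : ℝ) * (H₀ : ℝ) ^ 2 ≤ 4 * (2 * L ^ (E + G)) ^ 2 := by gcongr
        _ = 16 * L ^ (2 * (E + G)) := by ring
        _ ≤ (X : ℝ) ^ (1 : ℝ) := hpw
        _ = X := Real.rpow_one _
    exact_mod_cast h1
  have hmH : (H / H₀ + 1) * H₀ ≤ 2 * H := by
    have := Nat.div_mul_le_self H H₀
    rw [add_mul, one_mul]
    omega
  have hXX : (X : ℝ) / L ^ (A + k) ≤ X / L ^ A := by
    apply div_le_div_of_nonneg_left (Nat.cast_nonneg _) (by positivity)
    exact pow_le_pow_right₀ (by linarith) (by omega)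
  have key := box_split (fun h => NDeg c h ∧ ¬ |WL c S N₁ N₂ h - Mn c S N₁ N₂ h| ≤ X / L ^ A) b H H₀ hH01 hH0H
    ((H₀ : ℝ) ^ k / L ^ (A + k)) (by
      intro b' hb'
      have h1 := (hT X hX1 S (by rw [← hLd]; exact hS) H₀ hH01 (by rw [← hLd]; exact hH1) hHX N₁ N₂ b' hN12 hN2 (by
        intro i n hn
        have h2 := hb i n hn
        have h3 := hb' i
        unfold LFo
        constructor
        · linarith [h2.1, h3.1]
        · linarith [h2.2, h3.2])).1
      rw [← hLd] at h1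
      refine le_trans ?_ h1
      have h2 : (Fintype.piFinset (fun _ : Fin k => range H₀)).filter (fun h => NDeg c (bh b' h) ∧
          ¬ |WL c S N₁ N₂ (bh b' h) - Mn c S N₁ N₂ (bh b' h)| ≤ X / L ^ A) ⊆
          (Fintype.piFinset (fun _ : Fin k => range H₀)).filter (fun h => NDeg c (bh b' h) ∧
          ¬ |WL c S N₁ N₂ (bh b' h) - Mn c S N₁ N₂ (bh b' h)| ≤ X / L ^ (A + k)) := by
        intro h hh
        rw [mem_filter] at hh ⊢
        refine ⟨hh.1, hh.2.1, fun h4 => hh.2.2 (h4.trans hXX)⟩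
      exact_mod_cast card_le_card h2)
  refine key.trans ?_
  have hL0 : 0 < L := by linarith
  have h1 : ((H / H₀ + 1 : ℕ) : ℝ) * H₀ ≤ 2 * H := by exact_mod_cast hmH
  calc ((H / H₀ + 1 : ℕ) : ℝ) ^ k * ((H₀ : ℝ) ^ k / L ^ (A + k)) = (((H / H₀ + 1 : ℕ) : ℝ) * H₀) ^ k / L ^ (A + k) := by
        rw [mul_pow]
        ring
    _ ≤ (2 * H : ℝ) ^ k / L ^ (A + k) := by gcongr
    _ = (2 / L) ^ k * ((H : ℝ) ^ k / L ^ A) := by
        rw [pow_add, mul_pow, div_pow]
        field_simp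
    _ ≤ 1 * ((H : ℝ) ^ k / L ^ A) := by
        apply mul_le_mul_of_nonneg_right _ (by positivity)
        apply pow_le_one₀ (by positivity)
        rw [div_le_one hL0]
        linarith
    _ = (H : ℝ) ^ k / L ^ A := one_mul _

end Pool.Agent.H561.E2
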